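import Mathlib
import Pool.Agent.DSRat.Meas

set_option autoImplicit false

/-!
# H2D: inhomogeneous Duffin–Schaeffer for irrational shifts, definitions

See `Pool/Agent/Lib/H2D/PROOF.md`.
-/

namespace Pool.Agent.H2D

open Finset MeasureTheory
open Pool.Agent.DSRat

/-! ## The counting side (Green–Walker inequality) -/

/-- multiplicative weight `∏_{p ∣ n} (1 + κ / p)` -/
noncomputable def wt (κ : ℕ) (n : ℕ) : ℝ := ∏ p ∈ n.primeFactors, (1 + (κ : ℝ) / (p : ℝ))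

/-- total weight of a finite set -/
noncomputable def mass (κ : ℕ) (V : Finset ℕ) : ℝ := ∑ n ∈ V, wt κ n

/-- number of pairs `(q, r) ∈ V × W` with `q / r = a / b`, that is `q * b = r * a` -/
def cnt (V W : Finset ℕ) (a b : ℕ) : ℕ :=
  ((V ×ˢ W).filter (fun x : ℕ × ℕ => x.1 * b = x.2 * a)).card

/-- all prime factors of `n` are at least `y` -/
def Rough (y n : ℕ) : Prop := ∀ p : ℕ, p.Prime → p ∣ n → y ≤ p

/-- `V` consists of positive integers with all prime factors in `[y, Y)` -/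
def Good (y Y : ℕ) (V : Finset ℕ) : Prop :=
  ∀ n ∈ V, 0 < n ∧ ∀ p : ℕ, p.Prime → p ∣ n → y ≤ p ∧ p < Y

/-- `{n : y ∤ n, y ^ i * n ∈ V}` -/
def slice (y i : ℕ) (V : Finset ℕ) : Finset ℕ :=
  (V.filter (fun n : ℕ => y ^ i ∣ n ∧ ¬ y ^ (i + 1) ∣ n)).image (fun n : ℕ => n / y ^ i)

open Classical in
/-- coprime pairs `(a, b)`, `1 ≤ a ≤ A`, `1 ≤ b ≤ B`, with all prime factors `≥ y` -/
noncomputable def prs (y A B : ℕ) : Finset (ℕ × ℕ) :=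
  ((Icc 1 A) ×ˢ (Icc 1 B)).filter
    (fun x : ℕ × ℕ => Nat.Coprime x.1 x.2 ∧ Rough y x.1 ∧ Rough y x.2)

/-- the `ℓ^{4/3}` sum of `cnt` -/
noncomputable def KK (y : ℕ) (V W : Finset ℕ) (A B : ℕ) : ℝ :=
  ∑ x ∈ prs y A B, (cnt V W x.1 x.2 : ℝ) ^ (4 / 3 : ℝ)

/-- `∏_{p < y} (1 - 1 / p)` -/
noncomputable def hh (y : ℕ) : ℝ := ∏ p ∈ Nat.primesBelow y, (1 - 1 / (p : ℝ))

/-- the majorant of the number of `y`-rough integers up to `A` -/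
noncomputable def Psi (K C5 : ℝ) (y A : ℕ) : ℝ :=
  if A + 1 < y then 1 else K * (A : ℝ) * hh y - C5 * ((Nat.primesBelow y).card : ℝ)

/-- the bound proved by downward induction on `y` -/
def Bd (κ : ℕ) (K C5 : ℝ) (Y y : ℕ) (Cy : ℝ) : Prop :=
  ∀ V W : Finset ℕ, Good y Y V → Good y Y W → ∀ A B : ℕ, 1 ≤ A → 1 ≤ B →
    KK y V W A B ≤ Cy * (Psi K C5 y A * Psi K C5 y B) ^ (1 / 4 : ℝ) *
      (mass κ V * mass κ W) ^ (3 / 4 : ℝ)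

/-- the ratio `Ψ_{y+1}(A / y ^ j) / Ψ_{y+1}(A)` -/
noncomputable def al (K C5 : ℝ) (y A j : ℕ) : ℝ :=
  if y ^ j ≤ A then Psi K C5 (y + 1) (A / y ^ j) / Psi K C5 (y + 1) A else 0

/-- left hand side of the local lemma -/
noncomputable def lhs (N : ℕ) (X Y α β : ℕ → ℝ) : ℝ :=
  (∑ i ∈ range N, (X i * Y i) ^ (9 / 16 : ℝ)) ^ (4 / 3 : ℝ)
  + ∑ j ∈ Icc 1 N, (α j) ^ (1 / 4 : ℝ) *
      (∑ i ∈ range N, (X (i + j) * Y i) ^ (9 / 16 : ℝ)) ^ (4 / 3 : ℝ)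
  + ∑ j ∈ Icc 1 N, (β j) ^ (1 / 4 : ℝ) *
      (∑ i ∈ range N, (X i * Y (i + j)) ^ (9 / 16 : ℝ)) ^ (4 / 3 : ℝ)

/-- weighted total -/
noncomputable def tot (N : ℕ) (τ : ℝ) (X : ℕ → ℝ) : ℝ := X 0 + (1 + τ) * ∑ i ∈ Icc 1 N, X i

/-- hypotheses of the local lemma -/
structure LH (N : ℕ) (X Y α β : ℕ → ℝ) (τ : ℝ) : Prop where
  N1 : 1 ≤ N
  X0 : ∀ i, 0 ≤ X i
  Y0 : ∀ i, 0 ≤ Y i
  XN : ∀ i, N ≤ i → X i = 0
  YN : ∀ i, N ≤ i → Y i = 0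
  α0 : ∀ j, 0 ≤ α j
  β0 : ∀ j, 0 ≤ β j
  τ0 : 0 ≤ τ
  τ1 : τ ≤ 1

/-! ## The Diophantine side -/

/-- the set of `x` approximated by a good fraction with denominator `q` -/
def Gset (γ : ℝ) (u v c0 : ℤ) (δ : ℝ) (q : ℕ) : Set ℝ :=
  {x : ℝ | ∃ p : ℤ, good u v c0 q p ∧ |(q : ℝ) * x - p - γ| < δ}

/-- Dirichlet data at the scale `2 ^ i` -/
structure DirData (γ : ℝ) (U V C : ℕ → ℤ) : Prop where
  dat : ∀ i, Data (U i) (V i) (C i)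
  small : ∀ i, ((V i : ℝ)) ^ 2 ≤ 2 ^ i
  close : ∀ i, ((V i : ℝ) * γ - U i) ^ 2 * 2 ^ i < 1

/-- the size `δ = 2 ^ (-i)` -/
noncomputable def sz (i : ℕ) : ℝ := (1 / 2 : ℝ) ^ i

/-- the normalised window `ρ = (r δ_q + q δ_r) / gcd (q, r)` -/
noncomputable def rho (lev : ℕ → ℕ) (q r : ℕ) : ℝ :=
  ((r : ℝ) * sz (lev q) + (q : ℝ) * sz (lev r)) / (Nat.gcd q r : ℝ)

/-- `((r - q) / gcd (q, r)) γ` is within `ρ` of an integer -/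
def Near (γ : ℝ) (q r : ℕ) (ρ : ℝ) : Prop :=
  ∃ n : ℤ, |(n : ℝ) + (((r : ℝ) - (q : ℝ)) / (Nat.gcd q r : ℝ)) * γ| < ρ

/-- the imbalance condition -/
def Imb (γ : ℝ) (κ K : ℝ) (lev : ℕ → ℕ) (B : Finset ℕ) : Prop :=
  ∀ q ∈ B, ∀ r ∈ B, q ≠ r → lev r ≤ lev q → rho lev q r < 1 / 2 → Near γ q r (rho lev q r) →
    ((2 : ℝ) ^ (lev q - lev r)) ^ κ * ((r : ℝ) * sz (lev q)) ≤ K * ((q : ℝ) * sz (lev r)) ∨
    ((2 : ℝ) ^ (lev q - lev r)) ^ κ * ((q : ℝ) * sz (lev r)) ≤ K * ((r : ℝ) * sz (lev q))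

open Classical in
/-- the generic reduced pairs `(a, b) = (q, r) / gcd` at the window scale `2 ^ (-l)` -/
noncomputable def PP (γ : ℝ) (u v : ℤ) (i j l : ℕ) : Finset (ℕ × ℕ) :=
  ((Icc 1 (2 ^ (j - l))) ×ˢ (Icc 1 (2 ^ (i - l)))).filter (fun x : ℕ × ℕ =>
    Nat.Coprime x.1 x.2 ∧ x.1 ≠ x.2 ∧
      ∃ n : ℤ, |(n : ℝ) + ((x.2 : ℝ) - (x.1 : ℝ)) * γ| < sz l ∧
        n * v + ((x.2 : ℤ) - (x.1 : ℤ)) * u ≠ 0)

end Pool.Agent.H2D
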