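import Mathlib
import Pool.Agent.Lib.H2D.Defs

set_option autoImplicit false

/-!
# H2D chunk B4: overlaps of two sets `Gset`: witness and counting of near pairs

Adapt `overlap_bound`, `near_pairs` of `Pool/Agent/DSRat/Overlap.lean, Meas.lean`.
`g = gcd (q, r)`, `q = g a`, `r = g b`, `ρ = (r δ + q δ')/g = b δ + a δ'`.
If `x` is in both sets: `|q x - p - γ| < δ`, `|r x - p' - γ| < δ'`, so with `n = b p - a p'`:
`n + (b - a) γ = b (p + γ) - a (p' + γ)`, absolute value `< ρ`. For fixed `n`: `p` is determined mod `a`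
(`b p ≡ n`), so by `window_class_card` (`m = a`, `D = g`) at most `4 g` values of `p` in `window γ q`, and `p'` is determined
by `p, n`. Each pair contributes at most `min (2δ/q) (2δ'/r)`.
* `ρ ≥ 1/2`: at most `2ρ + 1 ≤ 4ρ` integers `n` in an open interval of length `2ρ`; total
  `≤ 16 ρ g min(2δ/q, 2δ'/r) = 16 (r δ + q δ') min (…) ≤ 16 · 4 δ δ' = 64 δ δ'`.
* `ρ ≤ 1/2`: at most one `n`; total `≤ 4 g min(2δ/q, 2δ'/r)`, which is `≤ 8 g δ'/r` and, multiplying and dividing by `ρ`,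
  `≤ (4/ρ) (rδ + qδ') min(…) ≤ 16 δ δ'/ρ`.
* `ov_witness`: a point of the intersection gives good `p, p'`.
-/

namespace Pool.Agent.H2D

open Finset MeasureTheory
open Pool.Agent.DSRat

theorem ova_int_card (c ρ : ℝ) (hρ : 0 < ρ) (A : Finset ℤ) (hA : ∀ n ∈ A, |(n : ℝ) + c| < ρ) :
    (A.card : ℝ) ≤ 2 * ρ + 1 ∧ (ρ ≤ 1 / 2 → A.card ≤ 1) := by
  constructor
  · have hsub : A ⊆ Finset.Ioo ⌊-c - ρ⌋ ⌈-c + ρ⌉ := by
      intro n hn
      have h := hA n hn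
      rw [abs_lt] at h
      rw [Finset.mem_Ioo]
      constructor
      · rw [Int.floor_lt]
        linarith
      · rw [Int.lt_ceil]
        linarith
    have h1 := Finset.card_le_card hsub
    rw [Int.card_Ioo] at h1
    rcases Finset.eq_empty_or_nonempty A with h0 | ⟨n, hn⟩
    · rw [h0, Finset.card_empty]
      push_cast
      linarith
    · have h2 := hsub hn
      rw [Finset.mem_Ioo] at h2
      have h3 : (A.card : ℤ) ≤ ⌈-c + ρ⌉ - ⌊-c - ρ⌋ - 1 := by omega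
      have h4 : (A.card : ℝ) ≤ (⌈-c + ρ⌉ : ℝ) - (⌊-c - ρ⌋ : ℝ) - 1 := by exact_mod_cast h3
      have h5 := Int.ceil_lt_add_one (-c + ρ)
      have h6 := Int.lt_floor_add_one (-c - ρ)
      linarith
  · intro h2
    rw [Finset.card_le_one]
    intro a ha b hb
    have h3 := hA a ha
    have h4 := hA b hb
    rw [abs_lt] at h3 h4
    have h5 : (a : ℝ) < ((b + 1 : ℤ) : ℝ) := by push_cast; linarith
    have h6 : (b : ℝ) < ((a + 1 : ℤ) : ℝ) := by push_cast; linarith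
    have h7 : a < b + 1 := by exact_mod_cast h5
    have h8 : b < a + 1 := by exact_mod_cast h6
    omega

theorem ova_gcd {q r : ℕ} (hq : 0 < q) (hr : 0 < r) :
    0 < Nat.gcd q r ∧ (q / Nat.gcd q r) * Nat.gcd q r = q ∧ (r / Nat.gcd q r) * Nat.gcd q r = r ∧
      0 < q / Nat.gcd q r ∧ 0 < r / Nat.gcd q r ∧
      Nat.Coprime (q / Nat.gcd q r) (r / Nat.gcd q r) := by
  have h1 : 0 < Nat.gcd q r := Nat.gcd_pos_of_pos_left _ hq
  have h2 : (q / Nat.gcd q r) * Nat.gcd q r = q := Nat.div_mul_cancel (Nat.gcd_dvd_left q r)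
  have h3 : (r / Nat.gcd q r) * Nat.gcd q r = r := Nat.div_mul_cancel (Nat.gcd_dvd_right q r)
  refine ⟨h1, h2, h3, ?_, ?_, Nat.coprime_div_gcd_div_gcd h1⟩
  · exact Nat.div_pos (Nat.le_of_dvd hq (Nat.gcd_dvd_left q r)) h1
  · exact Nat.div_pos (Nat.le_of_dvd hr (Nat.gcd_dvd_right q r)) h1

theorem ova_lt {γ δ δ' : ℝ} {q r : ℕ} (hq : 0 < q) (hr : 0 < r) {x : ℝ} {p p' : ℤ}
    (hp : |(q : ℝ) * x - p - γ| < δ) (hp' : |(r : ℝ) * x - p' - γ| < δ') :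
    |((((r / Nat.gcd q r : ℕ) : ℤ) * p - ((q / Nat.gcd q r : ℕ) : ℤ) * p' : ℤ) : ℝ) +
        (((r / Nat.gcd q r : ℕ) : ℝ) - ((q / Nat.gcd q r : ℕ) : ℝ)) * γ| <
        ((r : ℝ) * δ + (q : ℝ) * δ') / (Nat.gcd q r : ℝ) := by
  obtain ⟨hD, h1, h2, -, -, -⟩ := ova_gcd hq hr
  set D := Nat.gcd q r with hDdef
  set a := q / D with ha
  set b := r / D with hb
  have hDR : (0 : ℝ) < D := by exact_mod_cast hD
  have hqR : (0 : ℝ) < q := by exact_mod_cast hq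
  have hrR : (0 : ℝ) < r := by exact_mod_cast hr
  have e1 : (q : ℝ) = a * D := by exact_mod_cast h1.symm
  have e2 : (r : ℝ) = b * D := by exact_mod_cast h2.symm
  rw [lt_div_iff₀ hDR]
  have e3 : |(((b : ℤ) * p - (a : ℤ) * p' : ℤ) : ℝ) + ((b : ℝ) - (a : ℝ)) * γ| * D
      = |(q : ℝ) * ((r : ℝ) * x - p' - γ) - r * ((q : ℝ) * x - p - γ)| := by
    have e4 : (q : ℝ) * ((r : ℝ) * x - p' - γ) - r * ((q : ℝ) * x - p - γ)
        = ((((b : ℤ) * p - (a : ℤ) * p' : ℤ) : ℝ) + ((b : ℝ) - (a : ℝ)) * γ) * D := by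
      push_cast
      rw [e1, e2]
      ring
    rw [e4, abs_mul, abs_of_pos hDR]
  rw [e3]
  calc |(q : ℝ) * ((r : ℝ) * x - p' - γ) - r * ((q : ℝ) * x - p - γ)|
      ≤ |(q : ℝ) * ((r : ℝ) * x - p' - γ)| + |r * ((q : ℝ) * x - p - γ)| := abs_sub _ _
    _ = q * |((r : ℝ) * x - p' - γ)| + r * |((q : ℝ) * x - p - γ)| := by
        rw [abs_mul, abs_mul, abs_of_pos hqR, abs_of_pos hrR]
    _ < q * δ' + r * δ := by
        have h1 := mul_lt_mul_of_pos_left hp' hqR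
        have h2 := mul_lt_mul_of_pos_left hp hrR
        linarith
    _ = r * δ + q * δ' := by ring

theorem ov_witness {γ : ℝ} {u v c0 u' v' c0' : ℤ} {δ δ' : ℝ} {q r : ℕ} (hq : 0 < q) (hr : 0 < r)
    {x : ℝ} (hx : x ∈ Gset γ u v c0 δ q ∩ Gset γ u' v' c0' δ' r) :
    ∃ p p' : ℤ, good u v c0 q p ∧ good u' v' c0' r p' ∧
      |(((r / Nat.gcd q r : ℕ) : ℤ) * p - ((q / Nat.gcd q r : ℕ) : ℤ) * p' : ℤ) +
        (((r / Nat.gcd q r : ℕ) : ℝ) - ((q / Nat.gcd q r : ℕ) : ℝ)) * γ| <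
        ((r : ℝ) * δ + (q : ℝ) * δ') / (Nat.gcd q r : ℝ) := by
  obtain ⟨⟨p, hp1, hp2⟩, ⟨p', hp'1, hp'2⟩⟩ := hx
  exact ⟨p, p', hp1, hp'1, ova_lt hq hr hp2 hp'2⟩

/-- For a fixed value of `n = b p - a p'` there are at most `4 gcd` pairs. -/
theorem near_fiber (γ : ℝ) {q r : ℕ} (hq : 0 < q) (hr : 0 < r) (n : ℤ) (Q : Finset (ℤ × ℤ))
    (hQ : ∀ x ∈ Q, x.1 ∈ window γ q ∧
      ((r / Nat.gcd q r : ℕ) : ℤ) * x.1 - ((q / Nat.gcd q r : ℕ) : ℤ) * x.2 = n) :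
    (Q.card : ℝ) ≤ 4 * (Nat.gcd q r : ℝ) := by
  classical
  obtain ⟨hD, h1, h2, ha0, hb0, hcop⟩ := ova_gcd hq hr
  set D := Nat.gcd q r with hDdef
  set a := q / D with ha
  set b := r / D with hb
  have hinj : Set.InjOn (Prod.fst : ℤ × ℤ → ℤ) Q := by
    intro x hx y hy hxy
    have hx' := (hQ x hx).2
    have hy' := (hQ y hy).2
    have e2 : (x.2 - y.2) * (a : ℤ) = 0 := by
      rw [hxy] at hx'
      linear_combination hy' - hx'
    have haZ : (a : ℤ) ≠ 0 := by exact_mod_cast ha0.ne'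
    rcases mul_eq_zero.1 e2 with h | h
    · exact Prod.ext hxy (by linarith)
    · exact absurd h haZ
  have hcard : Q.card ≤ 4 * D := by
    rw [← Finset.card_image_of_injOn hinj]
    apply window_class_card γ q a D ha0 hD h1
    · intro z hz
      simp only [Finset.mem_image] at hz
      obtain ⟨x, hx, rfl⟩ := hz
      exact (hQ x hx).1
    · intro z hz z' hz'
      simp only [Finset.mem_image] at hz hz'
      obtain ⟨x, hx, rfl⟩ := hz
      obtain ⟨y, hy, rfl⟩ := hz'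
      have e1 := (hQ x hx).2
      have e2 := (hQ y hy).2
      have e3 : (y.1 - x.1) * (b : ℤ) = (a : ℤ) * (y.2 - x.2) := by linear_combination e2 - e1
      have e4 : (a : ℤ) ∣ (y.1 - x.1) * (b : ℤ) := by
        rw [e3]
        exact Dvd.intro _ rfl
      have hc2 : IsCoprime (a : ℤ) (b : ℤ) := Nat.isCoprime_iff_coprime.2 hcop
      exact (Int.modEq_iff_dvd).2 (hc2.dvd_of_dvd_mul_right e4)
  exact_mod_cast hcard

/-- All near pairs: `2 ρ + 1` values of `n`, one if `ρ ≤ 1/2`. -/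
theorem near_count (γ : ℝ) {q r : ℕ} (hq : 0 < q) (hr : 0 < r) (ρ : ℝ) (hρ : 0 < ρ)
    (Q : Finset (ℤ × ℤ))
    (hQ : ∀ x ∈ Q, x.1 ∈ window γ q ∧
      |((((r / Nat.gcd q r : ℕ) : ℤ) * x.1 - ((q / Nat.gcd q r : ℕ) : ℤ) * x.2 : ℤ) : ℝ) +
        (((r / Nat.gcd q r : ℕ) : ℝ) - ((q / Nat.gcd q r : ℕ) : ℝ)) * γ| < ρ) :
    (Q.card : ℝ) ≤ 4 * (Nat.gcd q r : ℝ) * (2 * ρ + 1) ∧
    (ρ ≤ 1 / 2 → (Q.card : ℝ) ≤ 4 * (Nat.gcd q r : ℝ)) := by
  classical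
  let g : ℤ × ℤ → ℤ := fun x =>
    ((r / Nat.gcd q r : ℕ) : ℤ) * x.1 - ((q / Nat.gcd q r : ℕ) : ℤ) * x.2
  have h1 := ova_int_card ((((r / Nat.gcd q r : ℕ) : ℝ) - ((q / Nat.gcd q r : ℕ) : ℝ)) * γ) ρ hρ
    (Q.image g) (by
      intro n hn
      rw [Finset.mem_image] at hn
      obtain ⟨x, hx, rfl⟩ := hn
      exact (hQ x hx).2)
  have h2 : (Q.card : ℝ) ≤ 4 * (Nat.gcd q r : ℝ) * ((Q.image g).card : ℝ) := by
    rw [Finset.card_eq_sum_card_image g Q]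
    push_cast
    have h3 : ∑ n ∈ Q.image g, ((Q.filter (fun x => g x = n)).card : ℝ)
        ≤ ∑ _n ∈ Q.image g, 4 * (Nat.gcd q r : ℝ) := by
      refine Finset.sum_le_sum fun n _ => ?_
      apply near_fiber γ hq hr n
      intro x hx
      rw [Finset.mem_filter] at hx
      exact ⟨(hQ x hx.1).1, hx.2⟩
    rw [Finset.sum_const, nsmul_eq_mul] at h3
    linarith
  have hD0 : (0 : ℝ) ≤ 4 * (Nat.gcd q r : ℝ) := by positivity
  constructor
  · exact h2.trans (mul_le_mul_of_nonneg_left h1.1 hD0)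
  · intro h3
    refine h2.trans ?_
    have h4 : ((Q.image g).card : ℝ) ≤ 1 := by exact_mod_cast h1.2 h3
    calc 4 * (Nat.gcd q r : ℝ) * ((Q.image g).card : ℝ) ≤ 4 * (Nat.gcd q r : ℝ) * 1 :=
          mul_le_mul_of_nonneg_left h4 hD0
      _ = 4 * (Nat.gcd q r : ℝ) := mul_one _

end Pool.Agent.H2D
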