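import Mathlib
import Pool.Agent.Lib.H2D.Defs
import Pool.Agent.Lib.H2D.OVa

set_option autoImplicit false

/-!
# H2D chunk B5: overlaps of two sets `Gset`: measures

Adapt `overlap_bound`, `near_pairs` of `Pool/Agent/DSRat/Overlap.lean, Meas.lean`.
`g = gcd (q, r)`, `q = g a`, `r = g b`, `ρ = (r δ + q δ')/g = b δ + a δ'`.
If `x` is in both sets: `|q x - p - γ| < δ`, `|r x - p' - γ| < δ'`, so with `n = b p - a p'`:
`n + (b - a) γ = b (p + γ) - a (p' + γ)`, absolute value `< ρ`. For fixed `n`: `p` is determined mod `a`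
(`b p ≡ n`), so by `window_class_card` (`m = a`, `D = g`) at most `4 g` values of `p` in `window γ q`, and `p'` is determined
by `p, n`. Each pair contributes at most `min (2δ/q) (2δ'/r)`.
* `ρ ≥ 1/2`: at most `2ρ + 1 ≤ 4ρ` integers `n` in an open interval of length `2ρ`; total
  `≤ 16 ρ g min(2δ/q, 2δ'/r) = 16 (r δ + q δ') min (…) ≤ 16 · 4 δ δ' = 64 δ δ'`.
* `ρ ≤ 1/2`: at most one `n`; total `≤ 4 g min(2δ/q, 2δ'/r)`, which is `≤ 8 g δ'/r` and, multiplying and dividing by `ρ`,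
  `≤ (4/ρ) (rδ + qδ') min(…) ≤ 16 δ δ'/ρ`.
* `ov_witness`: a point of the intersection gives good `p, p'`.
-/

namespace Pool.Agent.H2D

open Finset MeasureTheory
open Pool.Agent.DSRat

/-- single interval, measure `2 δ / q` -/
theorem gset_inter_bound (γ : ℝ) (u v c0 u' v' c0' : ℤ) {δ δ' : ℝ} (h0 : 0 < δ) (hδ : δ ≤ 1 / 2)
    (h0' : 0 < δ') (hδ' : δ' ≤ 1 / 2) {q r : ℕ} (hq : 0 < q) (hr : 0 < r) :
    ∃ Q : Finset (ℤ × ℤ), (∀ x ∈ Q, x.1 ∈ window γ q ∧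
      |((((r / Nat.gcd q r : ℕ) : ℤ) * x.1 - ((q / Nat.gcd q r : ℕ) : ℤ) * x.2 : ℤ) : ℝ) +
        (((r / Nat.gcd q r : ℕ) : ℝ) - ((q / Nat.gcd q r : ℕ) : ℝ)) * γ| <
        ((r : ℝ) * δ + (q : ℝ) * δ') / (Nat.gcd q r : ℝ)) ∧
      volume (Set.Icc (0 : ℝ) 1 ∩ (Gset γ u v c0 δ q ∩ Gset γ u' v' c0' δ' r)) ≤
        ENNReal.ofReal ((Q.card : ℝ) * min (2 * δ / q) (2 * δ' / r)) := by
  classical
  refine ⟨((window γ q) ×ˢ (window γ r)).filter (fun x =>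
    |((((r / Nat.gcd q r : ℕ) : ℤ) * x.1 - ((q / Nat.gcd q r : ℕ) : ℤ) * x.2 : ℤ) : ℝ) +
        (((r / Nat.gcd q r : ℕ) : ℝ) - ((q / Nat.gcd q r : ℕ) : ℝ)) * γ| <
        ((r : ℝ) * δ + (q : ℝ) * δ') / (Nat.gcd q r : ℝ)), ?_, ?_⟩
  · intro x hx
    simp only [Finset.mem_filter, Finset.mem_product] at hx
    exact ⟨hx.1.1, hx.2⟩
  · set Q : Finset (ℤ × ℤ) := ((window γ q) ×ˢ (window γ r)).filter (fun x =>
      |((((r / Nat.gcd q r : ℕ) : ℤ) * x.1 - ((q / Nat.gcd q r : ℕ) : ℤ) * x.2 : ℤ) : ℝ) +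
          (((r / Nat.gcd q r : ℕ) : ℝ) - ((q / Nat.gcd q r : ℕ) : ℝ)) * γ| <
          ((r : ℝ) * δ + (q : ℝ) * δ') / (Nat.gcd q r : ℝ)) with hQ
    have hsub : Set.Icc (0 : ℝ) 1 ∩ (Gset γ u v c0 δ q ∩ Gset γ u' v' c0' δ' r) ⊆
        ⋃ x ∈ Q, (Iset γ δ q x.1 ∩ Iset γ δ' r x.2) := by
      rintro x ⟨hx, ⟨p, hp1, hp2⟩, ⟨p', hp'1, hp'2⟩⟩
      simp only [Set.mem_iUnion, exists_prop]
      refine ⟨(p, p'), ?_, hp2, hp'2⟩
      simp only [hQ, Finset.mem_filter, Finset.mem_product]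
      exact ⟨⟨mem_window_of_mem hδ hx hp2, mem_window_of_mem hδ' hx hp'2⟩, ova_lt hq hr hp2 hp'2⟩
    have hmin : ∀ x ∈ Q, volume (Iset γ δ q x.1 ∩ Iset γ δ' r x.2) ≤
        ENNReal.ofReal (min (2 * δ / q) (2 * δ' / r)) := by
      intro x _
      rcases le_total (2 * δ / q) (2 * δ' / r) with h | h
      · rw [min_eq_left h, ← Iset_volume γ δ q hq x.1]
        exact measure_mono Set.inter_subset_left
      · rw [min_eq_right h, ← Iset_volume γ δ' r hr x.2]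
        exact measure_mono Set.inter_subset_right
    calc volume (Set.Icc (0 : ℝ) 1 ∩ (Gset γ u v c0 δ q ∩ Gset γ u' v' c0' δ' r))
        ≤ volume (⋃ x ∈ Q, (Iset γ δ q x.1 ∩ Iset γ δ' r x.2)) := measure_mono hsub
      _ ≤ ∑ x ∈ Q, volume (Iset γ δ q x.1 ∩ Iset γ δ' r x.2) := measure_biUnion_finset_le _ _
      _ ≤ ∑ x ∈ Q, ENNReal.ofReal (min (2 * δ / q) (2 * δ' / r)) := Finset.sum_le_sum hmin
      _ = ENNReal.ofReal ((Q.card : ℝ) * min (2 * δ / q) (2 * δ' / r)) := by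
          rw [Finset.sum_const, nsmul_eq_mul, ENNReal.ofReal_mul (by positivity),
            ENNReal.ofReal_natCast]

theorem ovb_key {δ δ' : ℝ} (h0 : 0 < δ) (h0' : 0 < δ') {q r : ℕ} (hq : 0 < q) (hr : 0 < r) :
    ((r : ℝ) * δ + (q : ℝ) * δ') * min (2 * δ / q) (2 * δ' / r) ≤ 4 * (δ * δ') := by
  have hqR : (0 : ℝ) < q := by exact_mod_cast hq
  have hrR : (0 : ℝ) < r := by exact_mod_cast hr
  rw [add_mul]
  have h1 : (r : ℝ) * δ * min (2 * δ / q) (2 * δ' / r) ≤ r * δ * (2 * δ' / r) := by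
    gcongr
    exact min_le_right _ _
  have h2 : (q : ℝ) * δ' * min (2 * δ / q) (2 * δ' / r) ≤ q * δ' * (2 * δ / q) := by
    gcongr
    exact min_le_left _ _
  have h3 : (r : ℝ) * δ * (2 * δ' / r) = 2 * (δ * δ') := by
    field_simp
  have h4 : (q : ℝ) * δ' * (2 * δ / q) = 2 * (δ * δ') := by
    field_simp
  linarith

theorem ov_many (γ : ℝ) (u v c0 u' v' c0' : ℤ) {δ δ' : ℝ} (h0 : 0 < δ) (hδ : δ ≤ 1 / 2)
    (h0' : 0 < δ') (hδ' : δ' ≤ 1 / 2) {q r : ℕ} (hq : 0 < q) (hr : 0 < r)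
    (hρ : 1 / 2 ≤ ((r : ℝ) * δ + (q : ℝ) * δ') / (Nat.gcd q r : ℝ)) :
    volume (Set.Icc (0 : ℝ) 1 ∩ (Gset γ u v c0 δ q ∩ Gset γ u' v' c0' δ' r)) ≤
      ENNReal.ofReal (64 * δ * δ') := by
  obtain ⟨Q, hQ, hvol⟩ := gset_inter_bound γ u v c0 u' v' c0' h0 hδ h0' hδ' hq hr
  refine hvol.trans (ENNReal.ofReal_le_ofReal ?_)
  have hqR : (0 : ℝ) < q := by exact_mod_cast hq
  have hrR : (0 : ℝ) < r := by exact_mod_cast hr
  have hD : (0 : ℝ) < (Nat.gcd q r : ℝ) := by exact_mod_cast Nat.gcd_pos_of_pos_left _ hq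
  have h1 := (near_count γ hq hr _ (lt_of_lt_of_le (by norm_num) hρ) Q hQ).1
  have hm0 : 0 ≤ min (2 * δ / q) (2 * δ' / r) := by positivity
  have h2 : (Q.card : ℝ) ≤ 16 * ((r : ℝ) * δ + (q : ℝ) * δ') := by
    refine h1.trans ?_
    have h3 : 2 * (((r : ℝ) * δ + (q : ℝ) * δ') / (Nat.gcd q r : ℝ)) + 1
        ≤ 4 * (((r : ℝ) * δ + (q : ℝ) * δ') / (Nat.gcd q r : ℝ)) := by linarith
    calc 4 * (Nat.gcd q r : ℝ) * (2 * (((r : ℝ) * δ + (q : ℝ) * δ') / (Nat.gcd q r : ℝ)) + 1)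
        ≤ 4 * (Nat.gcd q r : ℝ) * (4 * (((r : ℝ) * δ + (q : ℝ) * δ') / (Nat.gcd q r : ℝ))) :=
          mul_le_mul_of_nonneg_left h3 (by positivity)
      _ = 16 * ((r : ℝ) * δ + (q : ℝ) * δ') := by
          field_simp
          ring
  have h4 := ovb_key h0 h0' hq hr
  calc (Q.card : ℝ) * min (2 * δ / q) (2 * δ' / r)
      ≤ 16 * ((r : ℝ) * δ + (q : ℝ) * δ') * min (2 * δ / q) (2 * δ' / r) :=
        mul_le_mul_of_nonneg_right h2 hm0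
    _ = 16 * (((r : ℝ) * δ + (q : ℝ) * δ') * min (2 * δ / q) (2 * δ' / r)) := by ring
    _ ≤ 16 * (4 * (δ * δ')) := mul_le_mul_of_nonneg_left h4 (by norm_num)
    _ = 64 * δ * δ' := by ring

theorem ov_one (γ : ℝ) (u v c0 u' v' c0' : ℤ) {δ δ' : ℝ} (h0 : 0 < δ) (hδ : δ ≤ 1 / 2)
    (h0' : 0 < δ') (hδ' : δ' ≤ 1 / 2) {q r : ℕ} (hq : 0 < q) (hr : 0 < r)
    (hρ : ((r : ℝ) * δ + (q : ℝ) * δ') / (Nat.gcd q r : ℝ) < 1 / 2) :
    volume (Set.Icc (0 : ℝ) 1 ∩ (Gset γ u v c0 δ q ∩ Gset γ u' v' c0' δ' r)) ≤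
      ENNReal.ofReal (16 * δ * δ' / (((r : ℝ) * δ + (q : ℝ) * δ') / (Nat.gcd q r : ℝ))) ∧
    volume (Set.Icc (0 : ℝ) 1 ∩ (Gset γ u v c0 δ q ∩ Gset γ u' v' c0' δ' r)) ≤
      ENNReal.ofReal (8 * δ' * (Nat.gcd q r : ℝ) / r) := by
  obtain ⟨Q, hQ, hvol⟩ := gset_inter_bound γ u v c0 u' v' c0' h0 hδ h0' hδ' hq hr
  have hqR : (0 : ℝ) < q := by exact_mod_cast hq
  have hrR : (0 : ℝ) < r := by exact_mod_cast hr
  have hD : (0 : ℝ) < (Nat.gcd q r : ℝ) := by exact_mod_cast Nat.gcd_pos_of_pos_left _ hq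
  have hΔ : 0 < (r : ℝ) * δ + (q : ℝ) * δ' := by positivity
  have hm0 : 0 ≤ min (2 * δ / q) (2 * δ' / r) := by positivity
  have h1 := (near_count γ hq hr _ (div_pos hΔ hD) Q hQ).2 hρ.le
  have h2 : (Q.card : ℝ) * min (2 * δ / q) (2 * δ' / r)
      ≤ 4 * (Nat.gcd q r : ℝ) * min (2 * δ / q) (2 * δ' / r) :=
    mul_le_mul_of_nonneg_right h1 hm0
  constructor
  · refine hvol.trans (ENNReal.ofReal_le_ofReal (h2.trans ?_))
    rw [le_div_iff₀ (div_pos hΔ hD)]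
    have h4 := ovb_key h0 h0' hq hr
    calc 4 * (Nat.gcd q r : ℝ) * min (2 * δ / q) (2 * δ' / r) *
          (((r : ℝ) * δ + (q : ℝ) * δ') / (Nat.gcd q r : ℝ))
        = 4 * (((r : ℝ) * δ + (q : ℝ) * δ') * min (2 * δ / q) (2 * δ' / r)) := by
          field_simp
      _ ≤ 4 * (4 * (δ * δ')) := mul_le_mul_of_nonneg_left h4 (by norm_num)
      _ = 16 * δ * δ' := by ring
  · refine hvol.trans (ENNReal.ofReal_le_ofReal (h2.trans ?_))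
    calc 4 * (Nat.gcd q r : ℝ) * min (2 * δ / q) (2 * δ' / r)
        ≤ 4 * (Nat.gcd q r : ℝ) * (2 * δ' / r) :=
          mul_le_mul_of_nonneg_left (min_le_right _ _) (by positivity)
      _ = 8 * δ' * (Nat.gcd q r : ℝ) / r := by ring

end Pool.Agent.H2D
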