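import Mathlib
import Pool.Agent.Lib.H2D.Defs

set_option autoImplicit false

/-!
# H2D chunk B1: Dirichlet data

For every `i` let `n = ⌊√(2^i)⌋₊ ≥ 1`. `Real.exists_rat_abs_sub_le_and_den_le γ n` gives a rational
`q = u / v` in lowest terms, `v ≤ n`, `|γ - q| ≤ 1 / ((n+1) v)`, so `|v γ - u| ≤ 1/(n+1) < 2^(-i/2)` and
`v² ≤ n² ≤ 2^i`. `exists_data` (DSRat.Overlap) gives `c0`.
-/

namespace Pool.Agent.H2D

open Finset
open Pool.Agent.DSRat

theorem exists_dirData (γ : ℝ) : ∃ U V C : ℕ → ℤ, DirData γ U V C := by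
  have h : ∀ i : ℕ, ∃ u v c : ℤ, Data u v c ∧ ((v : ℝ)) ^ 2 ≤ 2 ^ i ∧ ((v : ℝ) * γ - u) ^ 2 * 2 ^ i < 1 := by
    intro i
    have h2i : 0 < 2 ^ i := by positivity
    have hn1 : Nat.sqrt (2 ^ i) ^ 2 ≤ 2 ^ i := Nat.sqrt_le' _
    have hn2 : 2 ^ i < (Nat.sqrt (2 ^ i) + 1) ^ 2 := Nat.lt_succ_sqrt' _
    set n : ℕ := Nat.sqrt (2 ^ i) with hn
    have hn0 : 0 < n := Nat.sqrt_pos.2 h2i
    obtain ⟨q, hq1, hq2⟩ := Real.exists_rat_abs_sub_le_and_den_le γ hn0
    have hd : (0 : ℝ) < q.den := by exact_mod_cast q.pos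
    have hcop : IsCoprime q.num (q.den : ℤ) := by
      rw [Int.isCoprime_iff_nat_coprime]
      simpa using q.reduced
    obtain ⟨c, hc⟩ := exists_data q.num q.den (by exact_mod_cast q.pos) hcop
    refine ⟨q.num, q.den, c, hc, ?_, ?_⟩
    · have h1 : q.den ^ 2 ≤ 2 ^ i := (Nat.pow_le_pow_left hq2 2).trans hn1
      have h3 : ((q.den ^ 2 : ℕ) : ℝ) ≤ ((2 ^ i : ℕ) : ℝ) := by exact_mod_cast h1
      push_cast at h3
      exact_mod_cast h3
    · have h1 : |(q.den : ℝ) * γ - q.num| ≤ 1 / (n + 1) := by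
        have h3 : (q.den : ℝ) * γ - q.num = q.den * (γ - q) := by
          have h4 : (q : ℝ) = q.num / q.den := by
            exact_mod_cast (Rat.num_div_den q).symm
          rw [h4]
          field_simp
        rw [h3, abs_mul, abs_of_pos hd]
        calc (q.den : ℝ) * |γ - q| ≤ q.den * (1 / ((n + 1) * q.den)) := by gcongr
          _ = 1 / (n + 1) := by
            field_simp
      have h3 : ((q.den : ℝ) * γ - q.num) ^ 2 ≤ (1 / ((n : ℝ) + 1)) ^ 2 := by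
        rw [← sq_abs]
        gcongr
      have h5 : ((2 : ℝ)) ^ i < ((n : ℝ) + 1) ^ 2 := by exact_mod_cast hn2
      have h6 : (0 : ℝ) < ((n : ℝ) + 1) ^ 2 := by positivity
      calc (((q.den : ℤ) : ℝ) * γ - q.num) ^ 2 * 2 ^ i = ((q.den : ℝ) * γ - q.num) ^ 2 * 2 ^ i := by norm_cast
        _ ≤ (1 / ((n : ℝ) + 1)) ^ 2 * 2 ^ i := by gcongr
        _ = 2 ^ i / ((n : ℝ) + 1) ^ 2 := by
          rw [div_pow, one_pow]
          ring
        _ < 1 := by
          rw [div_lt_one h6]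
          exact h5
  choose U V C hU using h
  exact ⟨U, V, C, fun i => (hU i).1, fun i => (hU i).2.1, fun i => (hU i).2.2⟩

end Pool.Agent.H2D
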