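import Mathlib
import Pool.Agent.Lib.H2D.Defs

set_option autoImplicit false

/-!
# H2D chunk B2: the count lemma

`γ` irrational, `u, v` coprime, `v ≥ 1`, `v² ≤ M`, `ε = |v γ - u| > 0`, `ε² M < 1`. Put `w = 1/ε`, so
`w² > M`, `w > v`. `S`: integers `k ≠ 0`, `|k| ≤ M/L`, for which some integer `n` has
`|n + k γ| < 1/L` and `n v + k u ≠ 0`. Claim `|S| ≤ C₀ M / L²`. (Use `C₀ = 100`.)

Basic: for integers `n, m`: `n + m γ = (n v + m u)/v + m (γ - u/v)` and `|γ - u/v| = 1/(v w)`.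
* (s1) if `n v + m u ≠ 0` and `|m| ≤ w/2` then `|n + m γ| ≥ 1/v - 1/(2v) = 1/(2v)`.
* (s2) if `n v + m u = 0`, `m ≠ 0`: coprimality gives `v ∣ m`, so `|m| ≥ v`, and `|n + m γ| = |m|/(v w) ≥ 1/w`.
* Hence for `0 < |m| ≤ w/2`, all `n`: `|n + m γ| ≥ 1/(2w)` (as `v ≤ w`).
Packing: if `T` is a finite set of integers, for every `k ∈ T` there is `n_k` with `|n_k + k γ| < 1/L`, and
`|n + (k - k') γ| ≥ σ` for all `n` and all `k ≠ k'` in `T`, then `|T| ≤ 2/(L σ) + 1`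
(the points `n_k + k γ` are in `(-1/L, 1/L)` and `σ`-separated; `k ↦ ⌊(n_k + kγ + 1/L)/σ⌋₊` is injective into
`{0, …, ⌊2/(Lσ)⌋}`).

Cases (put `B = M/L`, real, `≥ 1`; we may assume `S ≠ ∅`, so `B ≥ 1`):
1. `B > w/2`. Then `L = M/B < 2M/w < 2w`. Cut `[-B, B]` into intervals of length `w/2`: at most `4B/w + 1 ≤ 6 B/w`
   many (`k ↦ ⌊k/(w/2)⌋` takes at most `4B/w + 2 ≤ 8B/w` values). Two different `k, k'` in the same
   interval have `0 < |k - k'| ≤ w/2`, so packing with `σ = 1/(2w)`: at most `4w/L + 1 ≤ 6w/L` (`L < 2w`). Total `≤ 48 B/L`.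
2. `B ≤ w/2`, `L > 2v`: by (s1) `|n + kγ| ≥ 1/(2v) > 1/L`: `S = ∅`.
3. `B ≤ w/2`, `L ≤ 2v`: `B = M/L ≥ v²/(2v) = v/2`. Cut `[-B, B]` into intervals of length `v/2` (real): `k ↦ ⌊2k/v⌋`
   takes at most `4B/v + 2 ≤ 8B/v` values; for different `k, k'` in one class `0 < |k - k'| ≤ v/2 < w/2` and `v ∤ k - k'`, so
   `n v + (k-k') u ≠ 0` for all `n` (coprimality) and by (s1) packing with `σ = 1/(2v)`: at most `4v/L + 1 ≤ 6v/L`. Total `≤ 48 B/L`.
-/

namespace Pool.Agent.H2D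

open Finset

theorem cl_pack (T : Finset ℤ) (f : ℤ → ℝ) (L σ : ℝ) (hL : 0 < L) (hσ : 0 < σ)
    (hf : ∀ k ∈ T, |f k| < 1 / L) (hs : ∀ k ∈ T, ∀ k' ∈ T, k ≠ k' → σ ≤ |f k - f k'|) :
    (T.card : ℝ) ≤ 2 / (L * σ) + 1 := by
  have h1 : T.card ≤ (Finset.range (⌊2 / (L * σ)⌋₊ + 1)).card := by
    refine Finset.card_le_card_of_injOn (fun k => ⌊(f k + 1 / L) / σ⌋₊) ?_ ?_
    · intro k hk
      have h2 := abs_lt.1 (hf k hk)
      rw [Finset.mem_coe, Finset.mem_range, Nat.lt_succ_iff]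
      refine Nat.floor_le_floor ?_
      have h3 : 2 / (L * σ) = (2 / L) / σ := by rw [div_div]
      rw [h3]
      refine div_le_div_of_nonneg_right ?_ hσ.le
      have h4 : 2 / L = 1 / L + 1 / L := by ring
      linarith
    · intro k hk k' hk' h
      by_contra hne
      have h5 := hs k hk k' hk' hne
      have h2 := abs_lt.1 (hf k hk)
      have h2' := abs_lt.1 (hf k' hk')
      have h6 : 0 ≤ (f k + 1 / L) / σ := div_nonneg (by linarith) hσ.le
      have h6' : 0 ≤ (f k' + 1 / L) / σ := div_nonneg (by linarith) hσ.le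
      have h7 := Nat.floor_le h6
      have h8 := Nat.lt_floor_add_one ((f k + 1 / L) / σ)
      have h7' := Nat.floor_le h6'
      have h8' := Nat.lt_floor_add_one ((f k' + 1 / L) / σ)
      have h : ⌊(f k + 1 / L) / σ⌋₊ = ⌊(f k' + 1 / L) / σ⌋₊ := h
      rw [h] at h7 h8
      have h9 : |(f k + 1 / L) / σ - (f k' + 1 / L) / σ| < 1 := by
        rw [abs_lt]
        constructor <;> linarith
      have h10 : (f k + 1 / L) / σ - (f k' + 1 / L) / σ = (f k - f k') / σ := by ring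
      rw [h10, abs_div, abs_of_pos hσ, div_lt_one hσ] at h9
      linarith
  rw [Finset.card_range] at h1
  have h2 : (T.card : ℝ) ≤ (⌊2 / (L * σ)⌋₊ : ℝ) + 1 := by exact_mod_cast h1
  have h3 := Nat.floor_le (a := 2 / (L * σ)) (by positivity)
  linarith

theorem cl_cut (S : Finset ℤ) (B l P : ℝ) (hB : 0 ≤ B) (hl : 0 < l) (hP : 0 ≤ P)
    (hS : ∀ k ∈ S, |(k : ℝ)| ≤ B)
    (hc : ∀ c : ℤ, ((S.filter (fun k : ℤ => ⌊(k : ℝ) / l⌋ = c)).card : ℝ) ≤ P) :
    (S.card : ℝ) ≤ (2 * B / l + 2) * P := by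
  have h1 : S.card = ∑ c ∈ Finset.Icc ⌊-B / l⌋ ⌊B / l⌋, (S.filter (fun k : ℤ => ⌊(k : ℝ) / l⌋ = c)).card := by
    refine Finset.card_eq_sum_card_fiberwise ?_
    intro k hk
    have h2 := abs_le.1 (hS k hk)
    rw [Finset.mem_coe, Finset.mem_Icc]
    exact ⟨Int.floor_le_floor (div_le_div_of_nonneg_right h2.1 hl.le),
      Int.floor_le_floor (div_le_div_of_nonneg_right h2.2 hl.le)⟩
  have h2 : (S.card : ℝ) ≤ ∑ c ∈ Finset.Icc ⌊-B / l⌋ ⌊B / l⌋, P := by
    rw [h1]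
    push_cast
    exact Finset.sum_le_sum fun c _ => hc c
  rw [Finset.sum_const, nsmul_eq_mul, Int.card_Icc] at h2
  refine h2.trans (mul_le_mul_of_nonneg_right ?_ hP)
  have h3 : ⌊-B / l⌋ ≤ ⌊B / l⌋ + 1 := by
    have h4 : ⌊-B / l⌋ ≤ ⌊B / l⌋ := Int.floor_le_floor (div_le_div_of_nonneg_right (by linarith) hl.le)
    omega
  have h4 : (((⌊B / l⌋ + 1 - ⌊-B / l⌋).toNat : ℕ) : ℝ) = (⌊B / l⌋ : ℝ) + 1 - ⌊-B / l⌋ := by
    have h5 : (((⌊B / l⌋ + 1 - ⌊-B / l⌋).toNat : ℕ) : ℤ) = ⌊B / l⌋ + 1 - ⌊-B / l⌋ :=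
      Int.toNat_of_nonneg (by omega)
    have h6 : (((⌊B / l⌋ + 1 - ⌊-B / l⌋).toNat : ℕ) : ℝ) = ((⌊B / l⌋ + 1 - ⌊-B / l⌋ : ℤ) : ℝ) := by
      rw [← h5]
      norm_cast
    rw [h6]
    push_cast
    ring
  rw [h4]
  have h5 := Int.floor_le (B / l)
  have h6 := Int.lt_floor_add_one (-B / l)
  have h7 : -B / l = -(B / l) := by ring
  have h8 : 2 * B / l = B / l + B / l := by ring
  rw [h8]
  rw [h7] at h6 ⊢
  linarith

theorem cl_same {l : ℝ} (hl : 0 < l) {k k' c : ℤ} (h : ⌊(k : ℝ) / l⌋ = c) (h' : ⌊(k' : ℝ) / l⌋ = c) :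
    |((k - k' : ℤ) : ℝ)| < l := by
  have h1 := Int.floor_le ((k : ℝ) / l)
  have h2 := Int.lt_floor_add_one ((k : ℝ) / l)
  have h1' := Int.floor_le ((k' : ℝ) / l)
  have h2' := Int.lt_floor_add_one ((k' : ℝ) / l)
  rw [h] at h1 h2
  rw [h'] at h1' h2'
  have h3 : |((k - k' : ℤ) : ℝ) / l| < 1 := by
    have h4 : ((k - k' : ℤ) : ℝ) / l = (k : ℝ) / l - (k' : ℝ) / l := by
      push_cast
      ring
    rw [h4, abs_lt]
    constructor <;> linarith
  rwa [abs_div, abs_of_pos hl, div_lt_one hl] at h3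

/-- the separation statements -/
theorem cl_s1 {γ : ℝ} {u v : ℤ} (hv : 0 < v) {n m : ℤ} (hne : n * v + m * u ≠ 0)
    (hm : |(m : ℝ)| * |(v : ℝ) * γ - u| ≤ 1 / 2) : 1 / (2 * v) ≤ |(n : ℝ) + (m : ℝ) * γ| := by
  have hv0 : (0 : ℝ) < v := Int.cast_pos.2 hv
  have h1 : (1 : ℝ) ≤ |((n * v + m * u : ℤ) : ℝ)| := by
    rw [← Int.cast_abs]
    exact_mod_cast Int.one_le_abs hne
  have h2 : (v : ℝ) * ((n : ℝ) + (m : ℝ) * γ) = ((n * v + m * u : ℤ) : ℝ) + m * ((v : ℝ) * γ - u) := by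
    push_cast
    ring
  have h3 : |((n * v + m * u : ℤ) : ℝ)| ≤ |(v : ℝ) * ((n : ℝ) + (m : ℝ) * γ)| + |(m : ℝ) * ((v : ℝ) * γ - u)| := by
    have h4 : ((n * v + m * u : ℤ) : ℝ) = (v : ℝ) * ((n : ℝ) + (m : ℝ) * γ) - m * ((v : ℝ) * γ - u) := by
      rw [h2]
      ring
    rw [h4]
    exact abs_sub _ _
  rw [abs_mul, abs_of_pos hv0, abs_mul] at h3
  rw [div_le_iff₀ (by positivity)]
  nlinarith

theorem cl_dvd {u v : ℤ} (hc : IsCoprime u v) {n m : ℤ} (h : n * v + m * u = 0) : v ∣ m := by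
  have h1 : v ∣ m * u := ⟨-n, by linear_combination h⟩
  exact hc.symm.dvd_of_dvd_mul_right h1

theorem cl_s2 {γ : ℝ} {u v : ℤ} (hv : 0 < v) (hc : IsCoprime u v) {n m : ℤ} (hz : n * v + m * u = 0)
    (hm : m ≠ 0) : |(v : ℝ) * γ - u| ≤ |(n : ℝ) + (m : ℝ) * γ| := by
  have hv0 : (0 : ℝ) < v := Int.cast_pos.2 hv
  have h2 : (v : ℝ) * ((n : ℝ) + (m : ℝ) * γ) = m * ((v : ℝ) * γ - u) := by
    have h3 : ((n * v + m * u : ℤ) : ℝ) = 0 := by rw [hz, Int.cast_zero]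
    push_cast at h3
    linear_combination h3
  have h4 : (v : ℝ) ≤ |(m : ℝ)| := by
    have h5 : |v| ≤ |m| := Int.le_of_dvd (abs_pos.2 hm) ((abs_dvd_abs v m).2 (cl_dvd hc hz))
    rw [abs_of_pos hv] at h5
    exact_mod_cast h5
  have h6 : (v : ℝ) * |(n : ℝ) + (m : ℝ) * γ| = |(m : ℝ)| * |(v : ℝ) * γ - u| := by
    rw [← abs_of_pos hv0, ← abs_mul, abs_of_pos hv0, h2, abs_mul]
  have h7 : (v : ℝ) * |(v : ℝ) * γ - u| ≤ (v : ℝ) * |(n : ℝ) + (m : ℝ) * γ| := by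
    rw [h6]
    exact mul_le_mul_of_nonneg_right h4 (abs_nonneg _)
  exact le_of_mul_le_mul_left h7 hv0

theorem count_lemma (γ : ℝ) (hγ : Irrational γ) (u v : ℤ) (hv : 0 < v) (hc : IsCoprime u v)
    (M L : ℝ) (hL : 2 ≤ L) (hM : ((v : ℝ)) ^ 2 ≤ M) (hcl : ((v : ℝ) * γ - u) ^ 2 * M < 1)
    (S : Finset ℤ) (hS : ∀ k ∈ S, k ≠ 0 ∧ |(k : ℝ)| * L ≤ M ∧
      ∃ n : ℤ, |(n : ℝ) + (k : ℝ) * γ| < 1 / L ∧ n * v + k * u ≠ 0) :
    (S.card : ℝ) ≤ 100 * (M / L ^ 2) := by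
  have hv0 : (0 : ℝ) < v := Int.cast_pos.2 hv
  have hv1 : (1 : ℝ) ≤ v := by exact_mod_cast hv
  have hL0 : (0 : ℝ) < L := by linarith
  have hM0 : 0 < M := lt_of_lt_of_le (by positivity) hM
  have hε : 0 < |(v : ℝ) * γ - u| := by
    rw [abs_pos]
    intro h
    have h1 : γ = ((u / v : ℚ) : ℝ) := by
      push_cast
      rw [eq_div_iff hv0.ne']
      linarith
    exact hγ ⟨_, h1.symm⟩
  rw [← sq_abs] at hcl
  obtain ⟨ε, hεdef⟩ : ∃ ε : ℝ, ε = |(v : ℝ) * γ - u| := ⟨_, rfl⟩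
  rw [← hεdef] at hε hcl
  obtain ⟨w, hwdef⟩ : ∃ w : ℝ, w = 1 / ε := ⟨_, rfl⟩
  have hw0 : 0 < w := by rw [hwdef]; positivity
  have hεw : ε * w = 1 := by rw [hwdef]; field_simp
  have hwM : M < w ^ 2 := by
    have h1 : ε ^ 2 * w ^ 2 = 1 := by rw [← mul_pow, hεw, one_pow]
    have h2 : ε ^ 2 * M < ε ^ 2 * w ^ 2 := by rw [h1]; exact hcl
    exact lt_of_mul_lt_mul_left h2 (by positivity)
  have hvw : (v : ℝ) < w := by
    have h1 : (v : ℝ) ^ 2 < w ^ 2 := lt_of_le_of_lt hM hwM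
    exact lt_of_pow_lt_pow_left₀ 2 hw0.le h1
  have hmw : ∀ m : ℤ, |(m : ℝ)| ≤ w / 2 → |(m : ℝ)| * |(v : ℝ) * γ - u| ≤ 1 / 2 := by
    intro m hm
    rw [← hεdef]
    calc |(m : ℝ)| * ε ≤ w / 2 * ε := by gcongr
      _ = 1 / 2 := by linear_combination hεw / 2
  obtain ⟨B, hBdef⟩ : ∃ B : ℝ, B = M / L := ⟨_, rfl⟩
  have hB0 : 0 < B := by rw [hBdef]; positivity
  have hBL : B * L = M := by rw [hBdef]; field_simp
  have hSB : ∀ k ∈ S, |(k : ℝ)| ≤ B := by
    intro k hk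
    rw [hBdef, le_div_iff₀ hL0]
    exact (hS k hk).2.1
  choose! n hn using fun k hk => (hS k hk).2.2
  have hgoal : 48 * (B / L) ≤ 100 * (M / L ^ 2) := by
    have h1 : B / L = M / L ^ 2 := by
      rw [hBdef, div_div, sq]
    rw [h1]
    have h2 : 0 < M / L ^ 2 := by positivity
    linarith
  -- the packing inside one class
  have hpk : ∀ T : Finset ℤ, T ⊆ S → ∀ σ : ℝ, 0 < σ →
      (∀ k ∈ T, ∀ k' ∈ T, k ≠ k' → ∀ a : ℤ, σ ≤ |(a : ℝ) + ((k - k' : ℤ) : ℝ) * γ|) →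
      (T.card : ℝ) ≤ 2 / (L * σ) + 1 := by
    intro T hT σ hσ h
    refine cl_pack T (fun k => (n k : ℝ) + (k : ℝ) * γ) L σ hL0 hσ (fun k hk => (hn k (hT hk)).1) ?_
    intro k hk k' hk' hne
    have h1 := h k hk k' hk' hne (n k - n k')
    refine h1.trans (le_of_eq ?_)
    congr 1
    push_cast
    ring
  rcases lt_or_ge (w / 2) B with hBw | hBw
  · -- case 1
    have hLw : L < 2 * w := by
      have h1 : w / 2 * L < w ^ 2 := by
        calc w / 2 * L < B * L := by gcongr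
          _ < w ^ 2 := by rw [hBL]; exact hwM
      have h2 : w * L < w * (2 * w) := by nlinarith
      exact lt_of_mul_lt_mul_left h2 hw0.le
    have h1 := cl_cut S B (w / 2) (6 * w / L) hB0.le (by positivity) (by positivity) hSB ?_
    · refine h1.trans (le_trans ?_ hgoal)
      have h2 : 2 * B / (w / 2) + 2 ≤ 8 * B / w := by
        have h3 : 2 * B / (w / 2) = 4 * B / w := by
          field_simp
          norm_num
        rw [h3, ← le_sub_iff_add_le', ← sub_div, le_div_iff₀ hw0]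
        linarith
      calc (2 * B / (w / 2) + 2) * (6 * w / L) ≤ 8 * B / w * (6 * w / L) := by gcongr
        _ = 48 * (B / L) := by
          field_simp
          norm_num
    · intro c
      have h2 := hpk (S.filter (fun k : ℤ => ⌊(k : ℝ) / (w / 2)⌋ = c)) (Finset.filter_subset _ _)
        (1 / (2 * w)) (by positivity) ?_
      · refine h2.trans ?_
        have h3 : 2 / (L * (1 / (2 * w))) = 4 * w / L := by
          field_simp
          norm_num
        rw [h3, ← le_sub_iff_add_le', ← sub_div, le_div_iff₀ hL0]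
        linarith
      · intro k hk k' hk' hne a
        rw [Finset.mem_filter] at hk hk'
        have h3 := cl_same (l := w / 2) (by positivity) hk.2 hk'.2
        have hkk : k - k' ≠ 0 := sub_ne_zero.2 hne
        by_cases hz : a * v + (k - k') * u = 0
        · refine le_trans ?_ (cl_s2 (γ := γ) hv hc hz hkk)
          rw [← hεdef, div_le_iff₀ (by positivity)]
          nlinarith
        · refine le_trans ?_ (cl_s1 (γ := γ) hv hz (hmw _ h3.le))
          gcongr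
  · rcases lt_or_ge (2 * (v : ℝ)) L with hLv | hLv
    · -- case 2
      have h0 : S = ∅ := by
        rw [Finset.eq_empty_iff_forall_notMem]
        intro k hk
        obtain ⟨h1, h2⟩ := hn k hk
        have h3 := cl_s1 (γ := γ) hv h2 (hmw k ((hSB k hk).trans hBw))
        have h4 : 1 / L < 1 / (2 * (v : ℝ)) := by
          gcongr
        linarith
      rw [h0, Finset.card_empty]
      have h2 : 0 < M / L ^ 2 := by positivity
      push_cast
      linarith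
    · -- case 3
      have hBv : (v : ℝ) / 2 ≤ B := by
        have h1 : (v : ℝ) ^ 2 ≤ B * (2 * v) := by
          calc (v : ℝ) ^ 2 ≤ B * L := by rw [hBL]; exact hM
            _ ≤ B * (2 * v) := by gcongr
        have h2 : (v : ℝ) * v ≤ (2 * B) * v := by nlinarith
        have h3 := le_of_mul_le_mul_right h2 hv0
        linarith
      have h1 := cl_cut S B (v / 2) (6 * v / L) hB0.le (by positivity) (by positivity) hSB ?_
      · refine h1.trans (le_trans ?_ hgoal)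
        have h2 : 2 * B / ((v : ℝ) / 2) + 2 ≤ 8 * B / v := by
          have h3 : 2 * B / ((v : ℝ) / 2) = 4 * B / v := by
            field_simp
            norm_num
          rw [h3, ← le_sub_iff_add_le', ← sub_div, le_div_iff₀ hv0]
          linarith
        calc (2 * B / ((v : ℝ) / 2) + 2) * (6 * v / L) ≤ 8 * B / v * (6 * v / L) := by gcongr
          _ = 48 * (B / L) := by
            field_simp
            norm_num
      · intro c
        have h2 := hpk (S.filter (fun k : ℤ => ⌊(k : ℝ) / ((v : ℝ) / 2)⌋ = c)) (Finset.filter_subset _ _)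
          (1 / (2 * v)) (by positivity) ?_
        · refine h2.trans ?_
          have h3 : 2 / (L * (1 / (2 * (v : ℝ)))) = 4 * v / L := by
            field_simp
            norm_num
          rw [h3, ← le_sub_iff_add_le', ← sub_div, le_div_iff₀ hL0]
          linarith
        · intro k hk k' hk' hne a
          rw [Finset.mem_filter] at hk hk'
          have h3 := cl_same (l := (v : ℝ) / 2) (by positivity) hk.2 hk'.2
          have hkk : k - k' ≠ 0 := sub_ne_zero.2 hne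
          have hz : a * v + (k - k') * u ≠ 0 := by
            intro hz
            have h5 : |v| ≤ |k - k'| := Int.le_of_dvd (abs_pos.2 hkk) ((abs_dvd_abs v (k - k')).2 (cl_dvd hc hz))
            rw [abs_of_pos hv] at h5
            have h6 : (v : ℝ) ≤ |((k - k' : ℤ) : ℝ)| := by exact_mod_cast h5
            linarith
          exact cl_s1 (γ := γ) hv hz (hmw _ (by linarith))

end Pool.Agent.H2D
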