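import Mathlib
import Pool.Agent.Lib.H2D.Defs

set_option autoImplicit false

/-!
# H2D chunk A10: slicing `cnt` according to powers of the prime `y`

`slice y i V = {n : y ∤ n, y^i n ∈ V}` (for `n` in `V` with exact power `y^i`).

* `mem_slice`: for `y ≥ 2`: `n ∈ slice y i V ↔ ¬ y ∣ n ∧ y ^ i * n ∈ V` provided all elements of
  `V` are positive (n = 0 is excluded because `y ∣ 0`).
* `cnt_slice`: if `y ∤ a`, `y ∤ b`, then `q b = r (y^j a)` forces `v_y(q) = v_y(r) + j`; so with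
  `r = y^i r'`, `q = y^(i+j) q'`: `q' b = r' a`. Bijection of the set of pairs with the disjoint union over `i`.
-/

namespace Pool.Agent.H2D

open Finset

theorem mem_slice {y i : ℕ} (hy : 2 ≤ y) {V : Finset ℕ} (hV : ∀ n ∈ V, 0 < n) {n : ℕ} :
    n ∈ slice y i V ↔ ¬ y ∣ n ∧ y ^ i * n ∈ V := by
  have hpos : 0 < y ^ i := pow_pos (by omega) i
  unfold slice
  rw [mem_image]
  constructor
  · rintro ⟨m, hm, rfl⟩
    rw [mem_filter] at hm
    obtain ⟨hm1, hm2, hm3⟩ := hm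
    rw [Nat.mul_div_cancel' hm2]
    refine ⟨?_, hm1⟩
    rintro ⟨k, hk⟩
    apply hm3
    refine ⟨k, ?_⟩
    rw [← Nat.mul_div_cancel' hm2, hk]
    ring
  · rintro ⟨h1, h2⟩
    refine ⟨y ^ i * n, ?_, Nat.mul_div_cancel_left n hpos⟩
    rw [mem_filter]
    refine ⟨h2, dvd_mul_right _ _, ?_⟩
    intro h3
    rw [pow_succ] at h3
    exact h1 (Nat.dvd_of_mul_dvd_mul_left hpos h3)

theorem cnt_comm' (V W : Finset ℕ) (a b : ℕ) : cnt V W a b = cnt W V b a := by
  unfold cnt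
  refine Finset.card_nbij' Prod.swap Prod.swap ?_ ?_ ?_ ?_
  · rintro ⟨q, r⟩ h
    simp only [coe_filter, mem_product, Set.mem_ofPred_eq, Prod.swap] at h ⊢
    exact ⟨⟨h.1.2, h.1.1⟩, h.2.symm⟩
  · rintro ⟨q, r⟩ h
    simp only [coe_filter, mem_product, Set.mem_ofPred_eq, Prod.swap] at h ⊢
    exact ⟨⟨h.1.2, h.1.1⟩, h.2.symm⟩
  · rintro ⟨q, r⟩ _
    rfl
  · rintro ⟨q, r⟩ _
    rfl

theorem cnt_slice (y : ℕ) (hy : y.Prime) (V W : Finset ℕ) (hV : ∀ n ∈ V, 0 < n)
    (hW : ∀ n ∈ W, 0 < n) (N : ℕ) (hVN : ∀ n ∈ V, ¬ y ^ N ∣ n) (hWN : ∀ n ∈ W, ¬ y ^ N ∣ n)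
    (j a b : ℕ) (ha : ¬ y ∣ a) (hb : ¬ y ∣ b) :
    cnt V W (y ^ j * a) b = ∑ i ∈ range N, cnt (slice y (i + j) V) (slice y i W) a b := by
  have hF : Fact y.Prime := ⟨hy⟩
  have ha0 : a ≠ 0 := by
    rintro rfl
    exact ha (dvd_zero y)
  have hb0 : b ≠ 0 := by
    rintro rfl
    exact hb (dvd_zero y)
  have hy0 : y ≠ 0 := hy.ne_zero
  unfold cnt
  rw [Finset.card_eq_sum_card_fiberwise (f := fun x : ℕ × ℕ => padicValNat y x.2) (t := range N)]
  · refine Finset.sum_congr rfl fun i _ => ?_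
    have hpi : 0 < y ^ i := pow_pos hy.pos i
    have hpij : 0 < y ^ (i + j) := pow_pos hy.pos _
    refine Finset.card_nbij' (fun x => (x.1 / y ^ (i + j), x.2 / y ^ i))
      (fun x => (y ^ (i + j) * x.1, y ^ i * x.2)) ?_ ?_ ?_ ?_
    · rintro ⟨q, r⟩ h
      simp only [coe_filter, mem_filter, mem_product, Set.mem_ofPred_eq] at h ⊢
      obtain ⟨⟨⟨hq, hr⟩, he⟩, hv⟩ := h
      have hq0 : q ≠ 0 := (hV q hq).ne'
      have hr0 : r ≠ 0 := (hW r hr).ne'
      have hvq : padicValNat y q = i + j := by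
        have h1 := congrArg (padicValNat y) he
        rw [padicValNat.mul hq0 hb0, padicValNat.mul hr0 (mul_ne_zero (pow_ne_zero _ hy0) ha0),
          padicValNat.mul (pow_ne_zero _ hy0) ha0, padicValNat.prime_pow,
          padicValNat.eq_zero_of_not_dvd ha, padicValNat.eq_zero_of_not_dvd hb, hv] at h1
        omega
      have hdq : y ^ (i + j) ∣ q := by
        rw [← hvq]
        exact pow_padicValNat_dvd
      have hdr : y ^ i ∣ r := by
        rw [← hv]
        exact pow_padicValNat_dvd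
      have hnq : ¬ y ^ (i + j + 1) ∣ q := by
        rw [← hvq]
        exact pow_succ_padicValNat_not_dvd hq0
      have hnr : ¬ y ^ (i + 1) ∣ r := by
        rw [← hv]
        exact pow_succ_padicValNat_not_dvd hr0
      refine ⟨⟨?_, ?_⟩, ?_⟩
      · unfold slice
        rw [mem_image]
        exact ⟨q, by rw [mem_filter]; exact ⟨hq, hdq, hnq⟩, rfl⟩
      · unfold slice
        rw [mem_image]
        exact ⟨r, by rw [mem_filter]; exact ⟨hr, hdr, hnr⟩, rfl⟩
      · obtain ⟨q', rfl⟩ := hdq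
        obtain ⟨r', rfl⟩ := hdr
        rw [Nat.mul_div_cancel_left _ hpij, Nat.mul_div_cancel_left _ hpi]
        apply Nat.eq_of_mul_eq_mul_left hpij
        calc y ^ (i + j) * (q' * b) = y ^ (i + j) * q' * b := by ring
          _ = y ^ i * r' * (y ^ j * a) := he
          _ = y ^ (i + j) * (r' * a) := by ring
    · rintro ⟨q, r⟩ h
      simp only [coe_filter, mem_filter, mem_product, Set.mem_ofPred_eq] at h ⊢
      obtain ⟨⟨hq, hr⟩, he⟩ := h
      rw [mem_slice hy.two_le hV] at hq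
      rw [mem_slice hy.two_le hW] at hr
      have hr0 : r ≠ 0 := by
        rintro rfl
        exact hr.1 (dvd_zero y)
      refine ⟨⟨⟨hq.2, hr.2⟩, ?_⟩, ?_⟩
      · calc y ^ (i + j) * q * b = y ^ (i + j) * (q * b) := by ring
          _ = y ^ (i + j) * (r * a) := by rw [he]
          _ = y ^ i * r * (y ^ j * a) := by ring
      · rw [padicValNat.mul (pow_ne_zero _ hy0) hr0, padicValNat.prime_pow,
          padicValNat.eq_zero_of_not_dvd hr.1, add_zero]
    · rintro ⟨q, r⟩ h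
      simp only [coe_filter, mem_filter, mem_product, Set.mem_ofPred_eq] at h ⊢
      obtain ⟨⟨⟨hq, hr⟩, he⟩, hv⟩ := h
      have hq0 : q ≠ 0 := (hV q hq).ne'
      have hr0 : r ≠ 0 := (hW r hr).ne'
      have hvq : padicValNat y q = i + j := by
        have h1 := congrArg (padicValNat y) he
        rw [padicValNat.mul hq0 hb0, padicValNat.mul hr0 (mul_ne_zero (pow_ne_zero _ hy0) ha0),
          padicValNat.mul (pow_ne_zero _ hy0) ha0, padicValNat.prime_pow,
          padicValNat.eq_zero_of_not_dvd ha, padicValNat.eq_zero_of_not_dvd hb, hv] at h1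
        omega
      have hdq : y ^ (i + j) ∣ q := by
        rw [← hvq]
        exact pow_padicValNat_dvd
      have hdr : y ^ i ∣ r := by
        rw [← hv]
        exact pow_padicValNat_dvd
      rw [Nat.mul_div_cancel' hdq, Nat.mul_div_cancel' hdr]
    · rintro ⟨q, r⟩ _
      simp only
      rw [Nat.mul_div_cancel_left _ hpij, Nat.mul_div_cancel_left _ hpi]
  · rintro ⟨q, r⟩ h
    simp only [coe_filter, mem_product, Set.mem_ofPred_eq] at h
    rw [mem_coe, mem_range]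
    by_contra hcon
    rw [not_lt] at hcon
    exact hWN r h.1.2 ((pow_dvd_pow y hcon).trans pow_padicValNat_dvd)

theorem cnt_slice' (y : ℕ) (hy : y.Prime) (V W : Finset ℕ) (hV : ∀ n ∈ V, 0 < n)
    (hW : ∀ n ∈ W, 0 < n) (N : ℕ) (hVN : ∀ n ∈ V, ¬ y ^ N ∣ n) (hWN : ∀ n ∈ W, ¬ y ^ N ∣ n)
    (j a b : ℕ) (ha : ¬ y ∣ a) (hb : ¬ y ∣ b) :
    cnt V W a (y ^ j * b) = ∑ i ∈ range N, cnt (slice y i V) (slice y (i + j) W) a b := by
  rw [cnt_comm', cnt_slice y hy W V hW hV N hWN hVN j b a hb ha]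
  refine Finset.sum_congr rfl fun i _ => ?_
  exact cnt_comm' _ _ _ _

end Pool.Agent.H2D
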