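import Mathlib
import Pool.Agent.Lib.H2D.Defs

set_option autoImplicit false

/-!
# H2D chunk A11: splitting the sum `KK y V W A B`

`prs y A B` is the disjoint union of the pairs with `y ∤ a`, `y ∤ b` (= `prs (y+1) A B` as `y` is prime: for
`y ∤ n`, `Rough y n ↔ Rough (y+1) n`), the pairs with `y^j ∥ a`, `j ≥ 1`, `y ∤ b` (as `(a,b) = 1`):
`a = y^j a'`, `a' ≤ A / y^j`, `(a', b) ∈ prs (y+1) (A / y^j) B`, and symmetric. Only `≤` is needed.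
`j ≤ N` since `y^j ≤ A < y^N`.
-/

namespace Pool.Agent.H2D

open Finset

theorem not_dvd_of_rough {y n : ℕ} (hy : y.Prime) (hn : Rough (y + 1) n) : ¬ y ∣ n := by
  intro h
  have h1 := hn y hy h
  omega

theorem dc2_rough {y n : ℕ} (hn : Rough y n) (h : ¬ y ∣ n) : Rough (y + 1) n := by
  intro p hp hpn
  have h1 := hn p hp hpn
  rcases Nat.lt_or_ge y p with h2 | h2
  · exact h2
  · have h3 : p = y := le_antisymm h2 h1
    rw [h3] at hpn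
    exact absurd hpn h

theorem dc2_mem {y A B : ℕ} {x : ℕ × ℕ} : x ∈ prs y A B ↔
    ((1 ≤ x.1 ∧ x.1 ≤ A) ∧ (1 ≤ x.2 ∧ x.2 ≤ B)) ∧
      Nat.Coprime x.1 x.2 ∧ Rough y x.1 ∧ Rough y x.2 := by
  classical
  unfold prs
  rw [mem_filter, mem_product, mem_Icc, mem_Icc]

theorem dc2_swap (y A B : ℕ) (g : ℕ → ℕ → ℝ) :
    ∑ x ∈ prs y A B, g x.1 x.2 = ∑ x ∈ prs y B A, g x.2 x.1 := by
  refine Finset.sum_nbij' Prod.swap Prod.swap ?_ ?_ ?_ ?_ ?_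
  · rintro ⟨a, b⟩ h
    rw [dc2_mem] at h ⊢
    exact ⟨⟨h.1.2, h.1.1⟩, h.2.1.symm, h.2.2.2, h.2.2.1⟩
  · rintro ⟨a, b⟩ h
    rw [dc2_mem] at h ⊢
    exact ⟨⟨h.1.2, h.1.1⟩, h.2.1.symm, h.2.2.2, h.2.2.1⟩
  · rintro ⟨a, b⟩ _
    rfl
  · rintro ⟨a, b⟩ _
    rfl
  · rintro ⟨a, b⟩ _
    rfl

theorem dc2_swap' (y A B : ℕ) (g : ℕ → ℕ → ℝ) :
    ∑ x ∈ (prs y A B).filter (fun x => y ∣ x.2), g x.1 x.2 =
      ∑ x ∈ (prs y B A).filter (fun x => y ∣ x.1), g x.2 x.1 := by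
  refine Finset.sum_nbij' Prod.swap Prod.swap ?_ ?_ ?_ ?_ ?_
  · rintro ⟨a, b⟩ h
    rw [mem_filter, dc2_mem] at h ⊢
    exact ⟨⟨⟨h.1.1.2, h.1.1.1⟩, h.1.2.1.symm, h.1.2.2.2, h.1.2.2.1⟩, h.2⟩
  · rintro ⟨a, b⟩ h
    rw [mem_filter, dc2_mem] at h ⊢
    exact ⟨⟨⟨h.1.1.2, h.1.1.1⟩, h.1.2.1.symm, h.1.2.2.2, h.1.2.2.1⟩, h.2⟩
  · rintro ⟨a, b⟩ _
    rfl
  · rintro ⟨a, b⟩ _
    rfl
  · rintro ⟨a, b⟩ _
    rfl

theorem dc2_aux (y : ℕ) (hy : y.Prime) (A B N : ℕ) (hA : A < y ^ N) (f : ℕ → ℕ → ℝ)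
    (hf : ∀ a b, 0 ≤ f a b) :
    ∑ x ∈ (prs y A B).filter (fun x => y ∣ x.1), f x.1 x.2 ≤
      ∑ j ∈ (Icc 1 N).filter (fun j => y ^ j ≤ A), ∑ x ∈ prs (y + 1) (A / y ^ j) B,
        f (y ^ j * x.1) x.2 := by
  classical
  have hF : Fact y.Prime := ⟨hy⟩
  rw [← Finset.sum_fiberwise_of_maps_to (g := fun x : ℕ × ℕ => padicValNat y x.1)
    (t := (Icc 1 N).filter (fun j => y ^ j ≤ A))]
  · refine Finset.sum_le_sum fun j hj => ?_
    rw [mem_filter, mem_Icc] at hj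
    have hpj : 0 < y ^ j := pow_pos hy.pos j
    have hkey : ∀ x ∈ ((prs y A B).filter (fun x => y ∣ x.1)).filter
        (fun x => padicValNat y x.1 = j), y ^ j * (x.1 / y ^ j) = x.1 := by
      intro x hx
      rw [mem_filter] at hx
      apply Nat.mul_div_cancel'
      rw [← hx.2]
      exact pow_padicValNat_dvd
    have e1 : ∑ x ∈ ((prs y A B).filter (fun x => y ∣ x.1)).filter
        (fun x => padicValNat y x.1 = j), f x.1 x.2 =
        ∑ z ∈ (((prs y A B).filter (fun x => y ∣ x.1)).filter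
        (fun x => padicValNat y x.1 = j)).image (fun x : ℕ × ℕ => (x.1 / y ^ j, x.2)),
          f (y ^ j * z.1) z.2 := by
      rw [Finset.sum_image]
      · refine Finset.sum_congr rfl fun x hx => ?_
        simp only
        rw [hkey x hx]
      · intro x hx x' hx' h
        simp only [Prod.mk.injEq] at h
        rw [mem_coe] at hx hx'
        have h1 := hkey x hx
        have h2 := hkey x' hx'
        rw [h.1, h2] at h1
        exact Prod.ext h1.symm h.2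
    rw [e1]
    refine Finset.sum_le_sum_of_subset_of_nonneg ?_ fun z _ _ => hf _ _
    intro z hz
    rw [mem_image] at hz
    obtain ⟨x, hx, rfl⟩ := hz
    have h1 := hkey x hx
    rw [mem_filter, mem_filter, dc2_mem] at hx
    obtain ⟨⟨⟨⟨hx1, hx2⟩, hx3, hx4, hx5⟩, hx6⟩, hx7⟩ := hx
    have hx0 : x.1 ≠ 0 := by omega
    have hny : ¬ y ∣ x.1 / y ^ j := by
      rintro ⟨k, hk⟩
      have h2 : y ^ (j + 1) ∣ x.1 := by
        refine ⟨k, ?_⟩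
        rw [← h1, hk]
        ring
      rw [← hx7] at h2
      exact pow_succ_padicValNat_not_dvd hx0 h2
    have hdvd : x.1 / y ^ j ∣ x.1 := Dvd.intro_left _ h1
    rw [dc2_mem]
    refine ⟨⟨⟨?_, Nat.div_le_div_right hx1.2⟩, hx2⟩, ?_, ?_, ?_⟩
    · rcases Nat.eq_zero_or_pos (x.1 / y ^ j) with h2 | h2
      · rw [h2, mul_zero] at h1
        exact absurd h1.symm hx0
      · exact h2
    · exact Nat.Coprime.coprime_dvd_left hdvd hx3
    · apply dc2_rough _ hny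
      intro p hp hpn
      exact hx4 p hp (hpn.trans hdvd)
    · apply dc2_rough hx5
      intro h2
      have h3 := Nat.dvd_gcd hx6 h2
      rw [hx3] at h3
      exact hy.one_lt.ne' (Nat.dvd_one.1 h3)
  · intro x hx
    rw [mem_filter, dc2_mem] at hx
    obtain ⟨⟨⟨hx1, hx2⟩, hx3, hx4, hx5⟩, hx6⟩ := hx
    have hx0 : x.1 ≠ 0 := by omega
    have h1 : y ^ padicValNat y x.1 ≤ A := (Nat.le_of_dvd (by omega) pow_padicValNat_dvd).trans hx1.2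
    rw [mem_filter, mem_Icc]
    refine ⟨⟨?_, ?_⟩, h1⟩
    · exact one_le_padicValNat_of_dvd hx0 hx6
    · have h2 := h1.trans_lt hA
      exact ((Nat.pow_lt_pow_iff_right hy.one_lt).1 h2).le

theorem KK_split (y : ℕ) (hy : y.Prime) (V W : Finset ℕ) (A B N : ℕ) (hA : A < y ^ N)
    (hB : B < y ^ N) :
    KK y V W A B ≤ ∑ x ∈ prs (y + 1) A B, (cnt V W x.1 x.2 : ℝ) ^ (4 / 3 : ℝ)
      + ∑ j ∈ (Icc 1 N).filter (fun j => y ^ j ≤ A), ∑ x ∈ prs (y + 1) (A / y ^ j) B,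
          (cnt V W (y ^ j * x.1) x.2 : ℝ) ^ (4 / 3 : ℝ)
      + ∑ j ∈ (Icc 1 N).filter (fun j => y ^ j ≤ B), ∑ x ∈ prs (y + 1) A (B / y ^ j),
          (cnt V W x.1 (y ^ j * x.2) : ℝ) ^ (4 / 3 : ℝ) := by
  classical
  obtain ⟨f, hf⟩ : ∃ f : ℕ → ℕ → ℝ, f = fun a b => (cnt V W a b : ℝ) ^ (4 / 3 : ℝ) := ⟨_, rfl⟩
  have hf0 : ∀ a b, 0 ≤ f a b := by
    intro a b
    rw [hf]
    positivity
  have h1 := dc2_aux y hy A B N hA f hf0
  have h2 := dc2_aux y hy B A N hB (fun a b => f b a) (fun a b => hf0 b a)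
  rw [← dc2_swap' y A B f] at h2
  have h3 : ∑ j ∈ (Icc 1 N).filter (fun j => y ^ j ≤ B), ∑ x ∈ prs (y + 1) (B / y ^ j) A,
      f x.2 (y ^ j * x.1) = ∑ j ∈ (Icc 1 N).filter (fun j => y ^ j ≤ B),
        ∑ x ∈ prs (y + 1) A (B / y ^ j), f x.1 (y ^ j * x.2) := by
    refine Finset.sum_congr rfl fun j _ => ?_
    exact (dc2_swap (y + 1) A (B / y ^ j) (fun a b => f a (y ^ j * b))).symm
  have h4 : KK y V W A B = ∑ x ∈ prs y A B, f x.1 x.2 := by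
    unfold KK
    rw [hf]
  have h5 : ∑ x ∈ prs y A B, f x.1 x.2 ≤ ∑ x ∈ prs (y + 1) A B, f x.1 x.2
      + ∑ x ∈ (prs y A B).filter (fun x => y ∣ x.1), f x.1 x.2
      + ∑ x ∈ (prs y A B).filter (fun x => y ∣ x.2), f x.1 x.2 := by
    rw [← Finset.sum_filter_add_sum_filter_not (prs y A B) (fun x => y ∣ x.1)]
    rw [← Finset.sum_filter_add_sum_filter_not ((prs y A B).filter (fun x => ¬ y ∣ x.1))
      (fun x => y ∣ x.2)]
    have h6 : ∑ x ∈ ((prs y A B).filter (fun x => ¬ y ∣ x.1)).filter (fun x => y ∣ x.2),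
        f x.1 x.2 ≤ ∑ x ∈ (prs y A B).filter (fun x => y ∣ x.2), f x.1 x.2 := by
      refine Finset.sum_le_sum_of_subset_of_nonneg ?_ fun z _ _ => hf0 _ _
      intro x hx
      rw [mem_filter, mem_filter] at hx
      rw [mem_filter]
      exact ⟨hx.1.1, hx.2⟩
    have h7 : ∑ x ∈ ((prs y A B).filter (fun x => ¬ y ∣ x.1)).filter (fun x => ¬ y ∣ x.2),
        f x.1 x.2 ≤ ∑ x ∈ prs (y + 1) A B, f x.1 x.2 := by
      refine Finset.sum_le_sum_of_subset_of_nonneg ?_ fun z _ _ => hf0 _ _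
      intro x hx
      rw [mem_filter, mem_filter, dc2_mem] at hx
      rw [dc2_mem]
      exact ⟨hx.1.1.1, hx.1.1.2.1, dc2_rough hx.1.1.2.2.1 hx.1.2, dc2_rough hx.1.1.2.2.2 hx.2⟩
    linarith
  rw [h4]
  rw [h3] at h2
  rw [hf] at h1 h2 h5 ⊢
  linarith

end Pool.Agent.H2D
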