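import Mathlib
import Pool.Agent.Lib.H2D.Defs
import Pool.Agent.Lib.H2D.DC1

set_option autoImplicit false

/-!
# H2D chunk A12: slices: masses and roughness

* `wt_nonneg`, `one_le_wt`: trivial.
* `wt_mul_pow`: for `y` prime, `y ∤ n`, `n > 0`, `i ≥ 1`: `(y^i n).primeFactors = insert y n.primeFactors`, so
  `wt κ (y^i n) = (1 + κ/y) wt κ n`.
* `mass_slice`: `V` is the disjoint union over `i ≤ N` of `y^i · slice y i V`.
* `slice_good`: from `Good y Y V`, the prime factors of elements of the slice are prime factors of elements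
  of `V`, and different from `y`.
* `base`: if `Good Y Y V`, `Good Y Y W` then `V, W ⊆ {1}`; `cnt V W a b ≠ 0` forces `a = b`, so for coprime pairs
  `a = b = 1` and `KK Y V W A B ≤ 1`; if `V = ∅` or `W = ∅` it is `0`. RHS: masses are `1` when
  `V = W = {1}` and `Psi ≥ 1`.
-/

namespace Pool.Agent.H2D

open Finset

theorem one_le_wt (κ n : ℕ) : 1 ≤ wt κ n := by
  unfold wt
  refine Finset.prod_induction _ (fun a : ℝ => 1 ≤ a) ?_ le_rfl ?_
  · intro a b ha hb
    exact one_le_mul_of_one_le_of_one_le ha hb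
  · intro p _
    have h : (0 : ℝ) ≤ (κ : ℝ) / (p : ℝ) := by positivity
    linarith

theorem mass_nonneg (κ : ℕ) (V : Finset ℕ) : 0 ≤ mass κ V := by
  unfold mass
  exact Finset.sum_nonneg fun n _ => zero_le_one.trans (one_le_wt κ n)

theorem dc3_wt_mul_pow (κ y : ℕ) (hy : y.Prime) (n i : ℕ) (hn : ¬ y ∣ n) (hi : i ≠ 0) :
    wt κ (y ^ i * n) = (1 + (κ : ℝ) / (y : ℝ)) * wt κ n := by
  have hn0 : n ≠ 0 := by
    rintro rfl
    exact hn (dvd_zero y)
  unfold wt
  rw [Nat.primeFactors_mul (pow_ne_zero _ hy.ne_zero) hn0, Nat.primeFactors_prime_pow hi hy,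
    Finset.singleton_union, Finset.prod_insert]
  intro h
  exact hn (Nat.dvd_of_mem_primeFactors h)

theorem mass_slice (κ y : ℕ) (hy : y.Prime) (V : Finset ℕ) (hV : ∀ n ∈ V, 0 < n) (N : ℕ)
    (hVN : ∀ n ∈ V, ¬ y ^ N ∣ n) :
    mass κ V = mass κ (slice y 0 V) +
      (1 + (κ : ℝ) / (y : ℝ)) * ∑ i ∈ Icc 1 N, mass κ (slice y i V) := by
  classical
  have hF : Fact y.Prime := ⟨hy⟩
  have hy0 : y ≠ 0 := hy.ne_zero
  have h1 : ∀ i, ∑ n ∈ V.filter (fun n => padicValNat y n = i), wt κ n =
      ∑ m ∈ slice y i V, wt κ (y ^ i * m) := by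
    intro i
    have hpi : 0 < y ^ i := pow_pos hy.pos i
    refine Finset.sum_nbij' (fun n => n / y ^ i) (fun m => y ^ i * m) ?_ ?_ ?_ ?_ ?_
    · intro n hn
      rw [mem_filter] at hn
      have hn0 : n ≠ 0 := (hV n hn.1).ne'
      unfold slice
      rw [mem_image]
      refine ⟨n, ?_, rfl⟩
      rw [mem_filter]
      refine ⟨hn.1, ?_, ?_⟩
      · rw [← hn.2]
        exact pow_padicValNat_dvd
      · rw [← hn.2]
        exact pow_succ_padicValNat_not_dvd hn0
    · intro m hm
      rw [mem_slice hy.two_le hV] at hm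
      have hm0 : m ≠ 0 := by
        rintro rfl
        exact hm.1 (dvd_zero y)
      rw [mem_filter]
      refine ⟨hm.2, ?_⟩
      rw [padicValNat.mul (pow_ne_zero _ hy0) hm0, padicValNat.prime_pow,
        padicValNat.eq_zero_of_not_dvd hm.1, add_zero]
    · intro n hn
      rw [mem_filter] at hn
      apply Nat.mul_div_cancel'
      rw [← hn.2]
      exact pow_padicValNat_dvd
    · intro m _
      exact Nat.mul_div_cancel_left m hpi
    · intro n hn
      rw [mem_filter] at hn
      congr 1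
      symm
      apply Nat.mul_div_cancel'
      rw [← hn.2]
      exact pow_padicValNat_dvd
  have h2 : mass κ V = ∑ i ∈ range (N + 1), ∑ n ∈ V.filter (fun n => padicValNat y n = i), wt κ n := by
    unfold mass
    rw [Finset.sum_fiberwise_of_maps_to]
    intro n hn
    rw [mem_range]
    by_contra hcon
    rw [not_lt] at hcon
    exact hVN n hn ((pow_dvd_pow y (by omega)).trans pow_padicValNat_dvd)
  have h3 : range (N + 1) = insert 0 (Icc 1 N) := by
    ext i
    rw [mem_range, mem_insert, mem_Icc]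
    omega
  have h4 : (0 : ℕ) ∉ Icc 1 N := by
    rw [mem_Icc]
    omega
  rw [h2, h3, Finset.sum_insert h4, Finset.mul_sum]
  congr 1
  · rw [h1]
    unfold mass
    refine Finset.sum_congr rfl fun m _ => ?_
    rw [pow_zero, one_mul]
  · refine Finset.sum_congr rfl fun i hi => ?_
    rw [mem_Icc] at hi
    rw [h1]
    unfold mass
    rw [Finset.mul_sum]
    refine Finset.sum_congr rfl fun m hm => ?_
    rw [mem_slice hy.two_le hV] at hm
    exact dc3_wt_mul_pow κ y hy m i hm.1 (by omega)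

theorem slice_good {y Y : ℕ} (hy : y.Prime) {V : Finset ℕ} (hV : Good y Y V) (i : ℕ) :
    Good (y + 1) Y (slice y i V) := by
  intro n hn
  rw [mem_slice hy.two_le (fun n hn => (hV n hn).1)] at hn
  obtain ⟨h1, h2⟩ := hn
  obtain ⟨h3, h4⟩ := hV _ h2
  refine ⟨Nat.pos_of_ne_zero fun h0 => ?_, fun p hp hpn => ?_⟩
  · rw [h0] at h1
    exact h1 (dvd_zero y)
  · obtain ⟨h5, h6⟩ := h4 p hp (hpn.mul_left _)
    refine ⟨?_, h6⟩
    rcases Nat.lt_or_ge y p with h7 | h7
    · exact h7
    · have h8 : p = y := le_antisymm h7 h5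
      rw [h8] at hpn
      exact absurd hpn h1

theorem slice_empty {y N : ℕ} {V : Finset ℕ} (hVN : ∀ n ∈ V, ¬ y ^ N ∣ n) {i : ℕ} (hi : N ≤ i) :
    slice y i V = ∅ := by
  unfold slice
  rw [Finset.image_eq_empty, Finset.filter_eq_empty_iff]
  intro n hn h
  exact hVN n hn ((pow_dvd_pow y hi).trans h.1)

theorem dc3_sub {Y : ℕ} {V : Finset ℕ} (hV : Good Y Y V) : ∀ n ∈ V, n = 1 := by
  intro n hn
  by_contra h
  obtain ⟨p, hp, hpn⟩ := Nat.exists_prime_and_dvd h
  have h1 := (hV n hn).2 p hp hpn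
  omega

theorem base_case (κ : ℕ) (K C5 : ℝ) (Y : ℕ) (hP : ∀ A : ℕ, 1 ≤ A → 1 ≤ Psi K C5 Y A) :
    Bd κ K C5 Y Y 1 := by
  classical
  intro V W hV hW A B hA hB
  have hPA := hP A hA
  have hPB := hP B hB
  rw [one_mul]
  by_cases hVW : V.Nonempty ∧ W.Nonempty
  · obtain ⟨⟨v, hv⟩, ⟨w, hw⟩⟩ := hVW
    have hV1 : V = {1} := by
      rw [Finset.eq_singleton_iff_unique_mem]
      refine ⟨?_, dc3_sub hV⟩
      rw [← dc3_sub hV v hv]
      exact hv
    have hW1 : W = {1} := by
      rw [Finset.eq_singleton_iff_unique_mem]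
      refine ⟨?_, dc3_sub hW⟩
      rw [← dc3_sub hW w hw]
      exact hw
    have hm : mass κ ({1} : Finset ℕ) = 1 := by
      unfold mass wt
      rw [Finset.sum_singleton, Nat.primeFactors_one, Finset.prod_empty]
    rw [hV1, hW1, hm, one_mul, Real.one_rpow, mul_one]
    have h1 : KK Y {1} {1} A B ≤ 1 := by
      unfold KK
      have h2 : ∀ x ∈ prs Y A B, x ≠ (1, 1) → ((cnt {1} {1} x.1 x.2 : ℕ) : ℝ) ^ (4 / 3 : ℝ) = 0 := by
        intro x hx hne
        unfold prs at hx
        rw [mem_filter] at hx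
        have h3 : cnt {1} {1} x.1 x.2 = 0 := by
          unfold cnt
          rw [Finset.card_eq_zero, Finset.filter_eq_empty_iff]
          rintro ⟨q, r⟩ hqr h4
          rw [mem_product, mem_singleton, mem_singleton] at hqr
          simp only at hqr h4
          rw [hqr.1, hqr.2, one_mul, one_mul] at h4
          apply hne
          have h5 : Nat.Coprime x.1 x.2 := hx.2.1
          rw [h4, Nat.coprime_self] at h5
          exact Prod.ext h5 (h4.trans h5)
        rw [h3, Nat.cast_zero]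
        exact Real.zero_rpow (by norm_num)
      have h3 : ∑ x ∈ prs Y A B, ((cnt {1} {1} x.1 x.2 : ℕ) : ℝ) ^ (4 / 3 : ℝ) ≤
          ∑ x ∈ ({(1, 1)} : Finset (ℕ × ℕ)), ((cnt {1} {1} x.1 x.2 : ℕ) : ℝ) ^ (4 / 3 : ℝ) := by
        rw [← Finset.sum_filter_add_sum_filter_not (prs Y A B) (fun x => x = (1, 1))]
        have h4 : ∑ x ∈ (prs Y A B).filter (fun x => ¬ x = (1, 1)),
            ((cnt {1} {1} x.1 x.2 : ℕ) : ℝ) ^ (4 / 3 : ℝ) = 0 := by
          refine Finset.sum_eq_zero fun x hx => ?_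
          rw [mem_filter] at hx
          exact h2 x hx.1 hx.2
        rw [h4, add_zero]
        refine Finset.sum_le_sum_of_subset_of_nonneg ?_ fun x _ _ => by positivity
        intro x hx
        rw [mem_filter] at hx
        rw [mem_singleton]
        exact hx.2
      refine h3.trans ?_
      rw [Finset.sum_singleton]
      have h4 : cnt {1} {1} 1 1 = 1 := by
        unfold cnt
        rfl
      rw [h4, Nat.cast_one, Real.one_rpow]
    refine h1.trans ?_
    exact Real.one_le_rpow (one_le_mul_of_one_le_of_one_le hPA hPB) (by norm_num)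
  · have h1 : KK Y V W A B = 0 := by
      unfold KK
      refine Finset.sum_eq_zero fun x _ => ?_
      have h3 : cnt V W x.1 x.2 = 0 := by
        unfold cnt
        rw [Finset.card_eq_zero, Finset.filter_eq_empty_iff]
        rintro ⟨q, r⟩ hqr _
        rw [mem_product] at hqr
        exact hVW ⟨⟨q, hqr.1⟩, ⟨r, hqr.2⟩⟩
      rw [h3, Nat.cast_zero]
      exact Real.zero_rpow (by norm_num)
    rw [h1]
    have h2 := mass_nonneg κ V
    have h3 := mass_nonneg κ W
    positivity

end Pool.Agent.H2D
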