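import Mathlib
import Pool.Agent.Lib.H2D.Defs

set_option autoImplicit false

/-!
# H2D chunk B7: the exceptional sum

For fixed `r` the map `q ↦ (q / gcd q r, gcd q r)` is injective on positive `q`, with values in
`{1, 2} × divisors r` on our set. So the sum is at most `2 ∑_{d ∣ r} d / r = 2 σ(r)/r`. And
`σ(r)/r ≤ r/φ(r) ≤ 1/η`: `σ(r) φ(r) ≤ r²` (multiplicativity, `(1+p+…+p^k) p^k (1-1/p) = (p^(k+1)-1)/(p-1) · p^(k-1)(p-1) ≤ p^(2k)`);
see whether Mathlib or the pool has it (e.g. `∑_{d∣r} 1/d ≤ ∏_{p ∣ r} (1-1/p)^(-1)`).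
-/

namespace Pool.Agent.H2D

open Finset

theorem ex_nat (n : ℕ) : (∑ d ∈ n.divisors, d) * Nat.totient n ≤ n ^ 2 := by
  induction n using Nat.recOnPosPrimePosCoprime with
  | prime_pow p k hp hk =>
    rw [Nat.sum_divisors_prime_pow hp, Nat.totient_prime_pow hp hk]
    have h1 : (∑ x ∈ Finset.range (k + 1), p ^ x) * (p - 1) = p ^ (k + 1) - 1 := by
      have h2 := Nat.geomSum_eq hp.two_le (k + 1)
      rw [h2, Nat.div_mul_cancel]
      exact Nat.sub_one_dvd_pow_sub_one p (k + 1)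
    calc (∑ x ∈ Finset.range (k + 1), p ^ x) * (p ^ (k - 1) * (p - 1))
        = ((∑ x ∈ Finset.range (k + 1), p ^ x) * (p - 1)) * p ^ (k - 1) := by ring
      _ ≤ p ^ (k + 1) * p ^ (k - 1) := by
        rw [h1]
        exact Nat.mul_le_mul_right _ (Nat.sub_le _ _)
      _ = (p ^ k) ^ 2 := by
        rw [← pow_add, ← pow_mul]
        congr 1
        omega
  | zero => simp
  | one => simp
  | coprime a b ha hb hab iha ihb =>
    rw [hab.sum_divisors_mul, Nat.totient_mul hab]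
    calc (∑ d ∈ a.divisors, d) * (∑ d ∈ b.divisors, d) * (a.totient * b.totient)
        = ((∑ d ∈ a.divisors, d) * a.totient) * ((∑ d ∈ b.divisors, d) * b.totient) := by ring
      _ ≤ a ^ 2 * b ^ 2 := Nat.mul_le_mul iha ihb
      _ = (a * b) ^ 2 := by ring

theorem sigma_bound (r : ℕ) (hr : 0 < r) (η : ℝ) (hη : 0 < η)
    (h : η ≤ (Nat.totient r : ℝ) / r) :
    ∑ d ∈ r.divisors, (d : ℝ) / r ≤ 1 / η := by
  have hr0 : (0 : ℝ) < r := Nat.cast_pos.2 hr
  have h1 : ((∑ d ∈ r.divisors, (d : ℝ)) * (Nat.totient r : ℝ)) ≤ (r : ℝ) ^ 2 := by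
    have h9 : (((∑ d ∈ r.divisors, d) * Nat.totient r : ℕ) : ℝ) ≤ ((r ^ 2 : ℕ) : ℝ) := Nat.cast_le.2 (ex_nat r)
    push_cast at h9
    exact h9
  rw [← Finset.sum_div, div_le_div_iff₀ hr0 hη, one_mul]
  have h2 : η * r ≤ (Nat.totient r : ℝ) := (le_div_iff₀ hr0).1 h
  have h0 : (0 : ℝ) ≤ ∑ d ∈ r.divisors, (d : ℝ) := Finset.sum_nonneg fun d _ => Nat.cast_nonneg d
  have h3 : ((∑ d ∈ r.divisors, (d : ℝ)) * η) * r ≤ r * r := by
    calc ((∑ d ∈ r.divisors, (d : ℝ)) * η) * r = (∑ d ∈ r.divisors, (d : ℝ)) * (η * r) := by ring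
      _ ≤ (∑ d ∈ r.divisors, (d : ℝ)) * (Nat.totient r : ℝ) := by gcongr
      _ ≤ r * r := by rw [← sq]; exact h1
  exact le_of_mul_le_mul_right h3 hr0

theorem exceptional_sum (η : ℝ) (hη : 0 < η) (B : Finset ℕ) (hB : ∀ q ∈ B, 0 < q) (r : ℕ)
    (hr : 0 < r) (h : η ≤ (Nat.totient r : ℝ) / r) :
    ∑ q ∈ B.filter (fun q => q / Nat.gcd q r ≤ 2), (Nat.gcd q r : ℝ) / r ≤ 2 / η := by
  have hr0 : (0 : ℝ) < r := Nat.cast_pos.2 hr
  set F : Finset ℕ := B.filter (fun q => q / Nat.gcd q r ≤ 2) with hF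
  set e : ℕ → ℕ × ℕ := fun q => (q / Nat.gcd q r, Nat.gcd q r) with he
  have hinj : Set.InjOn e F := by
    intro q hq q' hq' h
    have h1 : q / Nat.gcd q r = q' / Nat.gcd q' r ∧ Nat.gcd q r = Nat.gcd q' r := by
      simpa [he] using h
    rw [← Nat.div_mul_cancel (Nat.gcd_dvd_left q r), ← Nat.div_mul_cancel (Nat.gcd_dvd_left q' r), h1.1, h1.2]
  have h1 : ∑ q ∈ F, (Nat.gcd q r : ℝ) / r = ∑ x ∈ F.image e, (x.2 : ℝ) / r := by
    rw [Finset.sum_image hinj]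
  have h2 : F.image e ⊆ ({1, 2} : Finset ℕ) ×ˢ r.divisors := by
    intro x hx
    rw [Finset.mem_image] at hx
    obtain ⟨q, hq, rfl⟩ := hx
    rw [hF, Finset.mem_filter] at hq
    rw [Finset.mem_product, Nat.mem_divisors]
    refine ⟨?_, Nat.gcd_dvd_right q r, hr.ne'⟩
    have h3 : 0 < q / Nat.gcd q r := Nat.div_pos (Nat.le_of_dvd (hB q hq.1) (Nat.gcd_dvd_left q r))
      (Nat.gcd_pos_of_pos_right q hr)
    have h4 := hq.2
    simp only [he, Finset.mem_insert, Finset.mem_singleton]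
    omega
  rw [h1]
  refine (Finset.sum_le_sum_of_subset_of_nonneg h2 fun x _ _ => by positivity).trans ?_
  rw [Finset.sum_product]
  simp only
  rw [Finset.sum_const, Finset.card_pair (by norm_num), nsmul_eq_mul]
  have h5 := sigma_bound r hr η hη h
  calc ((2 : ℕ) : ℝ) * ∑ d ∈ r.divisors, (d : ℝ) / r ≤ 2 * (1 / η) := by
        push_cast
        gcongr
    _ = 2 / η := by ring

end Pool.Agent.H2D
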