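import Mathlib
import Pool.Agent.Lib.H2D.Defs
import Pool.Agent.DSRat.Main

set_option autoImplicit false

/-!
# H2D chunk B11: openness and local lower bound

Copy `Fset_eq`, `Fset_open`, `local_lower_aux`, `local_lower` of `Pool/Agent/DSRat/Meas.lean` with the shift `γ` real instead of `u/v`
(`local_count` is about integers and is used unchanged; the threshold `q0` does not depend on `u, v, c0, γ`).
-/

namespace Pool.Agent.H2D

open Finset MeasureTheory Filter Topology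
open Pool.Agent.DSRat

lemma Gset_eq (γ : ℝ) (u v c0 : ℤ) (δ : ℝ) (q : ℕ) :
    Gset γ u v c0 δ q = ⋃ p ∈ {p : ℤ | good u v c0 q p}, Iset γ δ q p := by
  ext x
  simp [Gset, Iset]

theorem Gset_open (γ : ℝ) (u v c0 : ℤ) (δ : ℝ) (q : ℕ) : IsOpen (Gset γ u v c0 δ q) := by
  rw [Gset_eq]
  apply isOpen_biUnion
  intro p _
  exact Iset_open _ _ _ _

/-- local lower bound: exact form -/
lemma local_lower_aux_gen (γ : ℝ) {u v c0 : ℤ} (hd : Data u v c0) {δ : ℝ} (h0 : 0 < δ) (hδ : δ ≤ 1 / 2) {q : ℕ}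
    (hq : 0 < q) (s t : ℝ) :
    ENNReal.ofReal (((1 / 2 : ℝ) * ((Nat.totient q : ℝ) / q) ^ 2 * ((q * (t - s) - 1) / 4 - 1)
      - 3 ^ 8 * Real.sqrt q) * (2 * δ / q)) ≤ volume (Set.Ico s t ∩ Gset γ u v c0 δ q) := by
  classical
  have hqR : (0 : ℝ) < q := by exact_mod_cast hq
  obtain ⟨P, hP, hcard⟩ := local_count u v c0 hd.h4 q hq (s * q - γ + 1 / 2) (t * q - γ - 1 / 2)
  have e : (t * q - γ - 1 / 2) - (s * q - γ + 1 / 2) = q * (t - s) - 1 := by ring
  rw [e] at hcard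
  have hsub : (⋃ p ∈ P, Iset γ δ q p) ⊆ Set.Ico s t ∩ Gset γ u v c0 δ q := by
    intro x hx
    simp only [Set.mem_iUnion, exists_prop] at hx
    obtain ⟨p, hp, hx⟩ := hx
    obtain ⟨hg, ha, hb⟩ := hP p hp
    refine ⟨?_, p, hg, hx⟩
    simp only [Iset, Set.mem_ofPred_eq, abs_lt] at hx
    constructor
    · have : s * q ≤ x * q := by linarith [hx.1, hx.2]
      exact le_of_mul_le_mul_right this hqR
    · have : x * q < t * q := by linarith [hx.1, hx.2]
      exact lt_of_mul_lt_mul_right this hqR.le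
  have hdisj : (P : Set ℤ).PairwiseDisjoint (fun p => Iset γ δ q p) := by
    intro p _ p' _ hne
    rw [Function.onFun, Set.disjoint_left]
    intro x hx hx'
    simp only [Iset, Set.mem_ofPred_eq, abs_lt] at hx hx'
    have h1 : |((p - p' : ℤ) : ℝ)| < 1 := by
      rw [abs_lt]
      push_cast
      constructor <;> linarith [hx.1, hx.2, hx'.1, hx'.2]
    have h2 : |p - p'| < 1 := by exact_mod_cast h1
    have h3 : p - p' = 0 := Int.abs_lt_one_iff.1 h2
    exact hne (by linarith)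
  have hvol : volume (⋃ p ∈ P, Iset γ δ q p) = ENNReal.ofReal ((P.card : ℝ) * (2 * δ / q)) := by
    rw [measure_biUnion_finset hdisj (fun p _ => (Iset_open _ _ _ _).measurableSet)]
    have : ∀ p ∈ P, volume (Iset γ δ q p) = ENNReal.ofReal (2 * δ / q) :=
      fun p _ => Iset_volume _ _ _ hq _
    rw [Finset.sum_congr rfl this, Finset.sum_const, nsmul_eq_mul,
      ENNReal.ofReal_mul (by positivity), ENNReal.ofReal_natCast]
  calc _ ≤ ENNReal.ofReal ((P.card : ℝ) * (2 * δ / q)) := by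
        apply ENNReal.ofReal_le_ofReal
        gcongr
    _ = volume (⋃ p ∈ P, Iset γ δ q p) := hvol.symm
    _ ≤ _ := measure_mono hsub

/-- local lower bound for large `q` -/
theorem local_lower_gen (γ : ℝ) {η : ℝ} (hη : 0 < η) {m : ℕ} (hm : 0 < m) :
    ∃ q0 : ℕ, ∀ q : ℕ, q0 ≤ q → 0 < q → η ≤ (Nat.totient q : ℝ) / q →
      ∀ (u v c0 : ℤ), Data u v c0 → ∀ δ : ℝ, 0 < δ → δ ≤ 1 / 2 → ∀ s : ℝ,
        ENNReal.ofReal (η ^ 2 / 16 * (1 / m) * δ) ≤
          volume (Set.Ico s (s + 1 / m) ∩ Gset γ u v c0 δ q) := by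
  have hmR : (0 : ℝ) < m := by exact_mod_cast hm
  set K : ℝ := 20 * m + (3 ^ 8 * 16 * m / η ^ 2 * 2) ^ 2 with hK
  refine ⟨⌈K⌉₊, ?_⟩
  intro q hq0 hq hphi u v c0 hd δ h0 hδ s
  have hqK : K ≤ q := le_trans (Nat.le_ceil K) (by exact_mod_cast hq0)
  refine le_trans (ENNReal.ofReal_le_ofReal ?_) (local_lower_aux_gen γ hd h0 hδ hq s (s + 1 / m))
  have hqR : (0 : ℝ) < q := by exact_mod_cast hq
  have hsq : 3 ^ 8 * 16 * m / η ^ 2 * 2 ≤ Real.sqrt q := by
    apply Real.le_sqrt_of_sq_le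
    have : (0 : ℝ) ≤ 20 * m := by positivity
    linarith
  have hsq0 : 0 ≤ Real.sqrt q := Real.sqrt_nonneg _
  have hqq : Real.sqrt q * Real.sqrt q = q := Real.mul_self_sqrt hqR.le
  have h1 : 3 ^ 8 * Real.sqrt q ≤ η ^ 2 * q / (32 * m) := by
    rw [le_div_iff₀ (by positivity)]
    have h2 : 3 ^ 8 * 16 * m * 2 ≤ η ^ 2 * Real.sqrt q := by
      have : 3 ^ 8 * 16 * m / η ^ 2 * 2 = 3 ^ 8 * 16 * m * 2 / η ^ 2 := by ring
      rw [this, div_le_iff₀ (by positivity)] at hsq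
      linarith
    calc 3 ^ 8 * Real.sqrt q * (32 * m) = (3 ^ 8 * 16 * m * 2) * Real.sqrt q := by ring
      _ ≤ (η ^ 2 * Real.sqrt q) * Real.sqrt q := by gcongr
      _ = η ^ 2 * q := by rw [mul_assoc, hqq]
  have h20 : 20 * (m : ℝ) ≤ q := by
    have : 0 ≤ (3 ^ 8 * 16 * m / η ^ 2 * 2) ^ 2 := by positivity
    linarith
  have hbr : (q : ℝ) / (16 * m) + q / (8 * m) ≤ ((q * (s + 1 / m - s) - 1) / 4 - 1) + 0 := by
    have e : (q : ℝ) * (s + 1 / m - s) = q / m := by ring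
    rw [e]
    have h3 : (20 : ℝ) ≤ q / m := by rw [le_div_iff₀ hmR]; exact h20
    have h4 : (q : ℝ) / (16 * m) = (q / m) / 16 := by field_simp
    have h5 : (q : ℝ) / (8 * m) = (q / m) / 8 := by field_simp
    rw [h4, h5]
    linarith
  have hmain : η ^ 2 * q / (16 * m) ≤ (1 / 2 : ℝ) * ((Nat.totient q : ℝ) / q) ^ 2 *
      ((q * (s + 1 / m - s) - 1) / 4 - 1) - 3 ^ 8 * Real.sqrt q := by
    have hb0 : 0 ≤ (q : ℝ) / (16 * m) + q / (8 * m) := by positivity
    have h6 : (1 / 2 : ℝ) * η ^ 2 * ((q : ℝ) / (16 * m) + q / (8 * m)) ≤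
        (1 / 2 : ℝ) * ((Nat.totient q : ℝ) / q) ^ 2 * ((q * (s + 1 / m - s) - 1) / 4 - 1) := by
      apply mul_le_mul
      · gcongr
      · linarith
      · exact hb0
      · positivity
    have h7 : (1 / 2 : ℝ) * η ^ 2 * ((q : ℝ) / (16 * m) + q / (8 * m)) =
        η ^ 2 * q / (32 * m) + η ^ 2 * q / (16 * m) := by
      field_simp
      ring
    linarith
  calc η ^ 2 / 16 * (1 / m) * δ ≤ (η ^ 2 * q / (16 * m)) * (2 * δ / q) := by
        have : (η ^ 2 * q / (16 * m)) * (2 * δ / q) = 2 * (η ^ 2 / 16 * (1 / m) * δ) := by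
          field_simp
        rw [this]
        have : 0 ≤ η ^ 2 / 16 * (1 / m) * δ := by positivity
        linarith
    _ ≤ _ := by gcongr

end Pool.Agent.H2D
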