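import Mathlib
import Pool.Agent.Lib.H2D.Defs
import Pool.Agent.DSRat.Main
import Pool.Agent.Lib.H2D.MSa

set_option autoImplicit false

/-!
# H2D chunk B12: full measure from the second moment

Copy `missed_null` (DSRat.Main) with: real `γ`, data depending on `q` through `lev q`, and the second moment bound as a
hypothesis `hsm` instead of the computation `hup` (so `C` there is `K1` here), using `Gset_open`, `local_lower_gen` (MSa).
If `f q = 0` then `Gset … (f q) q = ∅`.
-/

namespace Pool.Agent.H2D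

open Finset MeasureTheory Filter Topology
open Pool.Agent.DSRat

theorem missed_null_gen {γ : ℝ} {U V C : ℕ → ℤ} (hD : DirData γ U V C) (lev : ℕ → ℕ)
    (f : ℕ → ℝ) (hf : ∀ q, f q = 0 ∨ (f q = sz (lev q) ∧ 0 < q ∧ 3 ≤ lev q))
    {η : ℝ} (hη : 0 < η) (hphi : ∀ q, 0 < f q → η ≤ (Nat.totient q : ℝ) / q)
    (hns : ¬ Summable f) (K1 : ℝ) (hK1 : 0 < K1)
    (hsm : ∀ B : Finset ℕ, (∀ q ∈ B, 0 < f q) → 1 ≤ ∑ q ∈ B, f q →
      ∑ q ∈ B, ∑ r ∈ B, (volume.restrict (Set.Icc (0 : ℝ) 1)).real
        (Gset γ (U (lev q)) (V (lev q)) (C (lev q)) (f q) q ∩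
         Gset γ (U (lev r)) (V (lev r)) (C (lev r)) (f r) r) ≤ K1 * (∑ q ∈ B, f q) ^ 2) (k : ℕ) :
    volume (Set.Icc (0 : ℝ) 1 ∩ ⋂ q ∈ {q : ℕ | k ≤ q},
      (Gset γ (U (lev q)) (V (lev q)) (C (lev q)) (f q) q)ᶜ) = 0 := by
  classical
  have h0 : ∀ q, 0 ≤ f q := by
    intro q
    rcases hf q with h | h
    · rw [h]
    · rw [h.1]
      unfold sz
      positivity
  have hpos : ∀ q, 0 < f q → 0 < q ∧ f q ≤ 1 / 2 := by
    intro q hq
    rcases hf q with h | h
    · rw [h] at hq
      exact absurd hq (lt_irrefl _)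
    · refine ⟨h.2.1, ?_⟩
      rw [h.1]
      unfold sz
      calc ((1 : ℝ) / 2) ^ (lev q) ≤ (1 / 2) ^ 1 :=
            pow_le_pow_of_le_one (by norm_num) (by norm_num) (by omega)
        _ = 1 / 2 := pow_one _
  set W := Set.Icc (0 : ℝ) 1 ∩ ⋂ q ∈ {q : ℕ | k ≤ q},
      (Gset γ (U (lev q)) (V (lev q)) (C (lev q)) (f q) q)ᶜ with hW
  have hWc : IsCompact W := by
    apply IsCompact.inter_right isCompact_Icc
    apply isClosed_biInter
    intro q _
    exact (Gset_open _ _ _ _ _ _).isClosed_compl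
  have hWm : MeasurableSet W := hWc.measurableSet
  have hWfin : volume W ≠ ⊤ := hWc.measure_lt_top.ne
  by_contra hne
  have hw : 0 < volume.real W := by
    rw [Measure.real]
    exact ENNReal.toReal_pos hne hWfin
  set w := volume.real W with hwdef
  set c1 : ℝ := η ^ 2 / 16 with hc1
  have hc1pos : 0 < c1 := by positivity
  set s : ℝ := 2 * K1 / (c1 * w) with hs
  have hspos : 0 < s := by positivity
  set ε : ℝ := c1 * w / (2 * s) with hε
  have hεpos : 0 < ε := by positivity
  -- thickening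
  have htend := tendsto_measure_cthickening_of_isCompact (μ := volume) hWc
  have hlt : volume W < volume W + ENNReal.ofReal ε :=
    ENNReal.lt_add_right hWfin (by simpa using hεpos)
  have hev := htend.eventually_lt_const hlt
  have hseq : Tendsto (fun n : ℕ => (1 : ℝ) / ((n : ℝ) + 1)) atTop (𝓝 0) :=
    tendsto_one_div_add_atTop_nhds_zero_nat
  obtain ⟨n, hn⟩ := (hseq.eventually hev).exists
  set m : ℕ := n + 1 with hm
  have hm0 : 0 < m := Nat.succ_pos n
  have hmR : (0 : ℝ) < m := by exact_mod_cast hm0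
  have hmn : (1 : ℝ) / ((n : ℝ) + 1) = 1 / m := by rw [hm]; push_cast; rfl
  rw [hmn] at hn
  -- grid
  set J : ℕ → Set ℝ := fun i => Set.Ico ((i : ℝ) / m) ((i : ℝ) / m + 1 / m) with hJ
  set I : Finset ℕ := (range m).filter (fun i => (J i ∩ W).Nonempty) with hI
  set UU : Set ℝ := ⋃ i ∈ I, J i with hU
  have hUm : MeasurableSet UU := by
    apply Finset.measurableSet_biUnion
    intro i _
    exact measurableSet_Ico
  have hJdisj : ∀ i j : ℕ, i ≠ j → Disjoint (J i) (J j) := by
    intro i j hij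
    rw [Set.disjoint_left]
    intro x hx hx'
    simp only [hJ, Set.mem_Ico] at hx hx'
    have e1 : (i : ℝ) / m + 1 / m = (i + 1) / m := by ring
    have e2 : (j : ℝ) / m + 1 / m = (j + 1) / m := by ring
    rw [e1] at hx
    rw [e2] at hx'
    have a1 := (div_le_iff₀ hmR).1 hx.1
    have a2 := (lt_div_iff₀ hmR).1 hx.2
    have b1 := (div_le_iff₀ hmR).1 hx'.1
    have b2 := (lt_div_iff₀ hmR).1 hx'.2
    have c1 : (i : ℝ) < j + 1 := by linarith
    have c2 : (j : ℝ) < i + 1 := by linarith
    have c1' : i < j + 1 := by exact_mod_cast c1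
    have c2' : j < i + 1 := by exact_mod_cast c2
    omega
  have hJvol : ∀ i, volume (J i) = ENNReal.ofReal (1 / m) := by
    intro i
    simp only [hJ, Real.volume_Ico]
    congr 1
    ring
  -- UU inside the thickening
  have hUsub : UU ⊆ Metric.cthickening (1 / (m : ℝ)) W := by
    intro x hx
    simp only [hU, Set.mem_iUnion, exists_prop] at hx
    obtain ⟨i, hi, hxi⟩ := hx
    simp only [hI, Finset.mem_filter] at hi
    obtain ⟨y, hyJ, hyW⟩ := hi.2
    apply Metric.mem_cthickening_of_dist_le x y _ _ hyW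
    simp only [hJ, Set.mem_Ico] at hxi hyJ
    rw [Real.dist_eq, abs_le]
    constructor <;> linarith [hxi.1, hxi.2, hyJ.1, hyJ.2]
  -- W covered by UU up to the point 1
  have hWsub : W ⊆ UU ∪ {1} := by
    intro x hx
    by_cases hx1 : x = 1
    · right; exact hx1
    left
    have hx01 : x ∈ Set.Icc (0 : ℝ) 1 := hx.1
    have hxlt : x < 1 := lt_of_le_of_ne hx01.2 hx1
    have hxm0 : 0 ≤ x * m := mul_nonneg hx01.1 hmR.le
    set i : ℕ := ⌊x * m⌋₊ with hi
    have hi1 : (i : ℝ) ≤ x * m := Nat.floor_le hxm0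
    have hi2 : x * m < i + 1 := Nat.lt_floor_add_one _
    have hxJ : x ∈ J i := by
      simp only [hJ, Set.mem_Ico]
      constructor
      · rw [div_le_iff₀ hmR]; exact hi1
      · have : (i : ℝ) / m + 1 / m = (i + 1) / m := by ring
        rw [this, lt_div_iff₀ hmR]; exact hi2
    have him : i < m := by
      have : (i : ℝ) < m := by
        calc (i : ℝ) ≤ x * m := hi1
          _ < 1 * m := by gcongr
          _ = m := one_mul _
      exact_mod_cast this
    simp only [hU, Set.mem_iUnion, exists_prop]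
    refine ⟨i, ?_, hxJ⟩
    simp only [hI, Finset.mem_filter, Finset.mem_range]
    exact ⟨him, x, hxJ, hx⟩
  have hcardI : w ≤ (I.card : ℝ) * (1 / m) := by
    have h2 : volume W ≤ ENNReal.ofReal ((I.card : ℝ) * (1 / m)) := by
      calc volume W ≤ volume (UU ∪ {1}) := measure_mono hWsub
        _ ≤ volume UU + volume ({1} : Set ℝ) := measure_union_le _ _
        _ = volume UU := by rw [Real.volume_singleton, add_zero]
        _ ≤ ∑ i ∈ I, volume (J i) := measure_biUnion_finset_le _ _
        _ = ENNReal.ofReal ((I.card : ℝ) * (1 / m)) := by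
            rw [Finset.sum_congr rfl (fun i _ => hJvol i), Finset.sum_const, nsmul_eq_mul,
              ENNReal.ofReal_mul (by positivity), ENNReal.ofReal_natCast]
    rw [hwdef, Measure.real]
    calc (volume W).toReal ≤ (ENNReal.ofReal ((I.card : ℝ) * (1 / m))).toReal :=
          ENNReal.toReal_mono ENNReal.ofReal_ne_top h2
      _ = _ := ENNReal.toReal_ofReal (by positivity)
  -- the measure
  set ν : Measure ℝ := volume.restrict (Set.Icc (0 : ℝ) 1) with hν
  have hUW : ν.real (UU \ W) ≤ ε := by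
    have h2 : volume (UU \ W) ≤ ENNReal.ofReal ε := by
      have h3 : volume (Metric.cthickening (1 / (m : ℝ)) W \ W) < ENNReal.ofReal ε := by
        rw [measure_sdiff (Metric.self_subset_cthickening W) hWm.nullMeasurableSet hWfin]
        apply ENNReal.sub_lt_of_lt_add
        · exact measure_mono (Metric.self_subset_cthickening W)
        · rw [add_comm]; exact hn
      exact le_trans (measure_mono (Set.sdiff_subset_sdiff_left hUsub)) h3.le
    have h4 : ν (UU \ W) ≤ ENNReal.ofReal ε := le_trans (Measure.restrict_apply_le _ _) h2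
    rw [Measure.real]
    calc (ν (UU \ W)).toReal ≤ (ENNReal.ofReal ε).toReal :=
          ENNReal.toReal_mono ENNReal.ofReal_ne_top h4
      _ = ε := ENNReal.toReal_ofReal hεpos.le
  -- local lower bound threshold
  obtain ⟨q0, hq0⟩ := local_lower_gen γ hη hm0
  obtain ⟨B, hB, hBsum⟩ := exists_block f h0 hns (max k q0)
  set Ψ : ℝ := ∑ q ∈ B, f q with hΨ
  have hΨpos : 0 < Ψ := by linarith
  set F : ℕ → Set ℝ := fun q => Gset γ (U (lev q)) (V (lev q)) (C (lev q)) (f q) q with hF
  have hFm : ∀ q ∈ B, MeasurableSet (F q) := fun q _ => (Gset_open _ _ _ _ _ _).measurableSet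
  have hdis : ∀ q ∈ B, Disjoint W (F q) := by
    intro q hq
    rw [Set.disjoint_left]
    intro x hx hxF
    have h2 := hx.2
    simp only [Set.mem_iInter, Set.mem_ofPred_eq] at h2
    exact h2 q (le_trans (le_max_left _ _) (hB q hq).1) hxF
  have key := second_moment_bound ν B F hFm UU W hUm hWm hdis (s * Ψ) (by positivity)
  -- lower bound of the first moment
  have hlow : c1 * w * Ψ ≤ ∑ q ∈ B, ν.real (UU ∩ F q) := by
    rw [hΨ, Finset.mul_sum]
    apply Finset.sum_le_sum
    intro q hq
    have hqf := (hB q hq).2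
    have hqpos := (hpos q hqf).1
    have hqq0 : q0 ≤ q := le_trans (le_max_right _ _) (hB q hq).1
    have hJle : ∀ i ∈ I, ENNReal.ofReal (c1 * (1 / m) * f q) ≤ volume (J i ∩ F q) := by
      intro i _
      exact hq0 q hqq0 hqpos (hphi q hqf) _ _ _ (hD.dat _) (f q) hqf (hpos q hqf).2 _
    have hsubIcc : ∀ i ∈ I, J i ⊆ Set.Icc (0 : ℝ) 1 := by
      intro i hi x hx
      simp only [hI, Finset.mem_filter, Finset.mem_range] at hi
      simp only [hJ, Set.mem_Ico] at hx
      constructor
      · exact le_trans (by positivity) hx.1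
      · have h5 : (i : ℝ) + 1 ≤ m := by exact_mod_cast hi.1
        have e1 : (i : ℝ) / m + 1 / m = (i + 1) / m := by ring
        have h6 : ((i : ℝ) + 1) / m ≤ 1 := by
          rw [div_le_one hmR]; exact h5
        linarith [hx.2]
    have hUF : UU ∩ F q = ⋃ i ∈ I, (J i ∩ F q) := by
      rw [hU, Set.iUnion₂_inter]
    have hvol : ν (UU ∩ F q) = ∑ i ∈ I, volume (J i ∩ F q) := by
      rw [hUF, measure_biUnion_finset]
      · apply Finset.sum_congr rfl
        intro i hi
        rw [hν, Measure.restrict_apply' measurableSet_Icc]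
        congr 1
        apply Set.inter_eq_left.2
        exact Set.inter_subset_left.trans (hsubIcc i hi)
      · intro i _ j _ hij
        exact (hJdisj i j hij).mono Set.inter_subset_left Set.inter_subset_left
      · intro i _
        exact measurableSet_Ico.inter (hFm q hq)
    have hge : ENNReal.ofReal (c1 * w * f q) ≤ ν (UU ∩ F q) := by
      calc ENNReal.ofReal (c1 * w * f q)
          ≤ ENNReal.ofReal ((I.card : ℝ) * (c1 * (1 / m) * f q)) := by
            apply ENNReal.ofReal_le_ofReal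
            calc c1 * w * f q ≤ c1 * ((I.card : ℝ) * (1 / m)) * f q := by gcongr
              _ = _ := by ring
        _ = ∑ i ∈ I, ENNReal.ofReal (c1 * (1 / m) * f q) := by
            rw [Finset.sum_const, nsmul_eq_mul, ENNReal.ofReal_mul (by positivity),
              ENNReal.ofReal_natCast]
        _ ≤ ∑ i ∈ I, volume (J i ∩ F q) := Finset.sum_le_sum hJle
        _ = ν (UU ∩ F q) := hvol.symm
    rw [Measure.real]
    exact (ENNReal.ofReal_le_iff_le_toReal (measure_ne_top _ _)).1 hge
  have hup : ∑ q ∈ B, ∑ r ∈ B, ν.real (F q ∩ F r) ≤ K1 * Ψ ^ 2 :=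
    hsm B (fun q hq => (hB q hq).2) hBsum
  -- contradiction
  have h8 : c1 * w * Ψ ≤ 1 / (2 * (s * Ψ)) * (K1 * Ψ ^ 2) + s * Ψ / 2 * ε := by
    calc c1 * w * Ψ ≤ ∑ q ∈ B, ν.real (UU ∩ F q) := hlow
      _ ≤ _ := key
      _ ≤ _ := by gcongr
  have h9 : 1 / (2 * (s * Ψ)) * (K1 * Ψ ^ 2) = (c1 * w / 4) * Ψ := by
    rw [hs]
    field_simp
    ring
  have h10 : s * Ψ / 2 * ε = (c1 * w / 4) * Ψ := by
    rw [hε]
    field_simp
    ring
  rw [h9, h10] at h8
  have h11 : 0 < c1 * w * Ψ := by positivity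
  linarith

end Pool.Agent.H2D
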