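import Mathlib
import Pool.Agent.Lib.H2D.Defs

set_option autoImplicit false

/-!
# H2D chunk B13: from the growth dichotomy to the imbalance condition

`imb_of_growth`: `lev` on the finite set `B` with `sz (lev q) ≤ g q < 2 sz (lev q)`; `f q = sz (lev q)`.
Let `q ≠ r`, `lev r ≤ lev q` (so `f r ≥ f q`), put `ρ0 = 2^(lev q - lev r) = f r / f q ≥ 1`, `κ = 1 - τ ∈ (0,1)`.
We must show `ρ0^κ r f q ≤ K' q f r` or `ρ0^κ q f r ≤ K' r f q`, with `K' = (2K)^(1/τ)` (`≥ 2K ≥ (2K)^τ ≥ 1`).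
  - `r < q`: `ρ0^κ r f q ≤ ρ0 r f q = r f r ≤ q f r`. First alternative.
  - `q < r`: growth hypothesis for the pair `q < r` (its side conditions: `r g q + q g r < 2 (r f q + q f r) = 2 ρ gcd < gcd` by
    `rho < 1/2`; and `Near` gives `n` with `|n + ((r-q)/gcd) γ| < rho ≤ (r g q + q g r)/gcd`, multiply by `gcd`).
    · `g r ≤ K (r/q)^τ g q`: `f r ≤ g r ≤ K (r/q)^τ g q ≤ 2K (r/q)^τ f q`, i.e. `ρ0 ≤ 2K (r/q)^τ`, so `ρ0^(1/τ) ≤ (2K)^(1/τ) (r/q)`. As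
      `κ + 1 = 2 - τ ≤ 1/τ` and `ρ0 ≥ 1`: `ρ0^κ q f r = ρ0^(κ+1) q f q ≤ ρ0^(1/τ) q f q ≤ K' r f q`. Second alternative.
    · `(r/q)^(1/τ) g q ≤ K g r`: `(r/q)^(1/τ) f q ≤ K g r ≤ 2K f r`, `(r/q) ≤ (2K ρ0)^τ`, so `ρ0^κ r f q ≤ ρ0^κ (2K)^τ ρ0^τ q f q = (2K)^τ ρ0 q f q =
      (2K)^τ q f r`. First alternative.

`imb_of_const`: all `lev q` equal: `(2^0)^κ = 1` and one of `x ≤ K y`, `y ≤ K x` is true for `x, y ≥ 0`, `K ≥ 1`.
-/

namespace Pool.Agent.H2D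

open Finset Filter

/-- the growth dichotomy for resonant pairs -/
def Growth (γ : ℝ) (g : ℕ → ℝ) (K τ : ℝ) : Prop :=
  ∀ q r : ℕ, 0 < q → q < r → 0 < g q → 0 < g r →
    (r : ℝ) * g q + (q : ℝ) * g r < (Nat.gcd q r : ℝ) →
    (∃ n : ℤ, |(Nat.gcd q r : ℝ) * (n : ℝ) + ((r : ℝ) - (q : ℝ)) * γ| <
      (r : ℝ) * g q + (q : ℝ) * g r) →
    g r ≤ K * ((r : ℝ) / q) ^ τ * g q ∨ ((r : ℝ) / q) ^ (1 / τ) * g q ≤ K * g r

theorem rda_rat (x y : ℕ) (h : y ≤ x) : sz y = (2 : ℝ) ^ (x - y) * sz x := by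
  obtain ⟨k, rfl⟩ := Nat.exists_eq_add_of_le h
  unfold sz
  rw [Nat.add_sub_cancel_left, pow_add]
  have h1 : (2 : ℝ) ^ k * (1 / 2) ^ k = 1 := by
    rw [← mul_pow]
    norm_num
  calc (1 / 2 : ℝ) ^ y = (1 / 2) ^ y * ((2 : ℝ) ^ k * (1 / 2) ^ k) := by rw [h1, mul_one]
    _ = (2 : ℝ) ^ k * ((1 / 2) ^ y * (1 / 2) ^ k) := by ring

theorem rda_pos (x : ℕ) : 0 < sz x := by
  unfold sz
  positivity

/-- first case of the dichotomy -/
theorem rda_case1 (K τ P t : ℝ) (hK : 1 ≤ K) (hτ : 0 < τ) (hP : 1 ≤ P) (ht : 0 < t)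
    (h : P ≤ 2 * K * t ^ τ) : P ^ (1 - τ) * P ≤ (2 * K) ^ (1 / τ) * t := by
  have hP0 : 0 < P := lt_of_lt_of_le one_pos hP
  have e1 : P ^ (1 - τ) * P = P ^ (2 - τ) := by
    rw [← Real.rpow_add_one hP0.ne']
    congr 1
    ring
  have h1 : (2 - τ) ≤ 1 / τ := by
    rw [le_div_iff₀ hτ]
    nlinarith [sq_nonneg (1 - τ)]
  have h2 : P ^ (2 - τ) ≤ P ^ (1 / τ) := Real.rpow_le_rpow_of_exponent_le hP h1
  have h3 : P ^ (1 / τ) ≤ (2 * K * t ^ τ) ^ (1 / τ) :=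
    Real.rpow_le_rpow hP0.le h (by positivity)
  have h4 : (2 * K * t ^ τ) ^ (1 / τ) = (2 * K) ^ (1 / τ) * t := by
    rw [Real.mul_rpow (by positivity) (by positivity), ← Real.rpow_mul ht.le, mul_one_div_cancel hτ.ne',
      Real.rpow_one]
  rw [e1, ← h4]
  exact h2.trans h3

/-- second case of the dichotomy -/
theorem rda_case2 (K τ P t : ℝ) (hK : 1 ≤ K) (hτ : 0 < τ) (hτ1 : τ < 1) (hP : 1 ≤ P) (ht : 0 < t)
    (h : t ^ (1 / τ) ≤ 2 * K * P) : P ^ (1 - τ) * t ≤ (2 * K) ^ (1 / τ) * P := by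
  have hP0 : 0 < P := lt_of_lt_of_le one_pos hP
  have h1 : t ≤ (2 * K) ^ τ * P ^ τ := by
    have h2 : (t ^ (1 / τ)) ^ τ ≤ (2 * K * P) ^ τ := Real.rpow_le_rpow (by positivity) h hτ.le
    rw [← Real.rpow_mul ht.le, one_div_mul_cancel hτ.ne', Real.rpow_one,
      Real.mul_rpow (by positivity) hP0.le] at h2
    exact h2
  have h3 : (2 * K) ^ τ ≤ (2 * K) ^ (1 / τ) := by
    apply Real.rpow_le_rpow_of_exponent_le (by linarith)
    rw [le_div_iff₀ hτ]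
    nlinarith
  have h4 : P ^ (1 - τ) * P ^ τ = P := by
    rw [← Real.rpow_add hP0]
    rw [show 1 - τ + τ = 1 by ring, Real.rpow_one]
  have hPκ : 0 < P ^ (1 - τ) := Real.rpow_pos_of_pos hP0 _
  calc P ^ (1 - τ) * t ≤ P ^ (1 - τ) * ((2 * K) ^ τ * P ^ τ) := mul_le_mul_of_nonneg_left h1 hPκ.le
    _ = (2 * K) ^ τ * (P ^ (1 - τ) * P ^ τ) := by ring
    _ = (2 * K) ^ τ * P := by rw [h4]
    _ ≤ (2 * K) ^ (1 / τ) * P := mul_le_mul_of_nonneg_right h3 hP0.le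

theorem imb_of_growth (γ : ℝ) (g : ℕ → ℝ) (K τ : ℝ) (hK : 1 ≤ K) (hτ : 0 < τ) (hτ1 : τ < 1)
    (hgr : Growth γ g K τ) (lev : ℕ → ℕ) (B : Finset ℕ)
    (hB : ∀ q ∈ B, 0 < q ∧ sz (lev q) ≤ g q ∧ g q < 2 * sz (lev q)) :
    Imb γ (1 - τ) ((2 * K) ^ (1 / τ)) lev B := by
  intro q hq r hr hne hlev hrho hnear
  obtain ⟨hq0, hq1, hq2⟩ := hB q hq
  obtain ⟨hr0, hr1, hr2⟩ := hB r hr
  have hrat := rda_rat (lev q) (lev r) hlev
  have hsq := rda_pos (lev q)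
  have hsr := rda_pos (lev r)
  obtain ⟨P, hPdef⟩ : ∃ P : ℝ, P = (2 : ℝ) ^ (lev q - lev r) := ⟨_, rfl⟩
  have hP1 : 1 ≤ P := by
    rw [hPdef]
    exact one_le_pow₀ (by norm_num)
  have hP0 : 0 < P := lt_of_lt_of_le one_pos hP1
  obtain ⟨a, ha⟩ : ∃ a : ℝ, a = sz (lev q) := ⟨_, rfl⟩
  obtain ⟨b, hb⟩ : ∃ b : ℝ, b = sz (lev r) := ⟨_, rfl⟩
  obtain ⟨K', hK'⟩ : ∃ K' : ℝ, K' = (2 * K) ^ (1 / τ) := ⟨_, rfl⟩
  have hK'1 : 1 ≤ K' := by
    rw [hK']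
    exact Real.one_le_rpow (by linarith) (by positivity)
  unfold rho at hrho hnear
  rw [← ha] at hrho hnear hq1 hq2 hsq hrat ⊢
  rw [← hb] at hrho hnear hr1 hr2 hsr hrat ⊢
  rw [← hPdef] at hrat ⊢
  have hqR : (0 : ℝ) < (q : ℝ) := by exact_mod_cast hq0
  have hrR : (0 : ℝ) < (r : ℝ) := by exact_mod_cast hr0
  have hPκ : 0 < P ^ (1 - τ) := Real.rpow_pos_of_pos hP0 _
  rcases lt_or_gt_of_ne hne with hlt | hlt
  · -- q < r
    have hgcd : (0 : ℝ) < (Nat.gcd q r : ℝ) := by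
      exact_mod_cast Nat.gcd_pos_of_pos_left r hq0
    have hgq : 0 < g q := hsq.trans_le hq1
    have hgr' : 0 < g r := hsr.trans_le hr1
    have hc1 : (r : ℝ) * g q + (q : ℝ) * g r < (Nat.gcd q r : ℝ) := by
      rw [div_lt_iff₀ hgcd] at hrho
      have h1 : (r : ℝ) * g q < (r : ℝ) * (2 * a) := mul_lt_mul_of_pos_left hq2 hrR
      have h2 : (q : ℝ) * g r < (q : ℝ) * (2 * b) := mul_lt_mul_of_pos_left hr2 hqR
      nlinarith
    have hc2 : ∃ n : ℤ, |(Nat.gcd q r : ℝ) * (n : ℝ) + ((r : ℝ) - (q : ℝ)) * γ| <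
        (r : ℝ) * g q + (q : ℝ) * g r := by
      obtain ⟨n, hn⟩ := hnear
      refine ⟨n, ?_⟩
      have e1 : (Nat.gcd q r : ℝ) * (n : ℝ) + ((r : ℝ) - (q : ℝ)) * γ =
          (Nat.gcd q r : ℝ) * ((n : ℝ) + (((r : ℝ) - (q : ℝ)) / (Nat.gcd q r : ℝ)) * γ) := by
        field_simp
      rw [e1, abs_mul, abs_of_pos hgcd]
      rw [lt_div_iff₀ hgcd] at hn
      have h1 : (r : ℝ) * a ≤ (r : ℝ) * g q := mul_le_mul_of_nonneg_left hq1 hrR.le
      have h2 : (q : ℝ) * b ≤ (q : ℝ) * g r := mul_le_mul_of_nonneg_left hr1 hqR.le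
      linarith [mul_comm (Nat.gcd q r : ℝ) |(n : ℝ) + (((r : ℝ) - (q : ℝ)) / (Nat.gcd q r : ℝ)) * γ|]
    obtain ⟨t, ht⟩ : ∃ t : ℝ, t = (r : ℝ) / q := ⟨_, rfl⟩
    have ht0 : 0 < t := by
      rw [ht]
      positivity
    have hrt : (r : ℝ) = t * q := by
      rw [ht, div_mul_cancel₀ _ hqR.ne']
    rcases hgr q r hq0 hlt hgq hgr' hc1 hc2 with h | h
    · right
      rw [← ht] at h
      have h1 : P ≤ 2 * K * t ^ τ := by
        have h2 : P * a ≤ 2 * K * t ^ τ * a := by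
          rw [← hrat]
          have h3 : K * t ^ τ * g q ≤ K * t ^ τ * (2 * a) :=
            mul_le_mul_of_nonneg_left hq2.le (by positivity)
          calc b ≤ g r := hr1
            _ ≤ K * t ^ τ * g q := h
            _ ≤ K * t ^ τ * (2 * a) := h3
            _ = 2 * K * t ^ τ * a := by ring
        exact le_of_mul_le_mul_right h2 hsq
      have h4 := rda_case1 K τ P t hK hτ hP1 ht0 h1
      rw [← hK'] at h4 ⊢
      rw [hrat, hrt]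
      calc P ^ (1 - τ) * ((q : ℝ) * (P * a)) = (P ^ (1 - τ) * P) * ((q : ℝ) * a) := by ring
        _ ≤ (K' * t) * ((q : ℝ) * a) := mul_le_mul_of_nonneg_right h4 (by positivity)
        _ = K' * (t * (q : ℝ) * a) := by ring
    · left
      rw [← ht] at h
      have h1 : t ^ (1 / τ) ≤ 2 * K * P := by
        have h2 : t ^ (1 / τ) * a ≤ 2 * K * P * a := by
          have h3 : t ^ (1 / τ) * a ≤ t ^ (1 / τ) * g q :=
            mul_le_mul_of_nonneg_left hq1 (by positivity)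
          have h4 : K * g r ≤ K * (2 * b) := mul_le_mul_of_nonneg_left hr2.le (by linarith)
          calc t ^ (1 / τ) * a ≤ t ^ (1 / τ) * g q := h3
            _ ≤ K * g r := h
            _ ≤ K * (2 * b) := h4
            _ = 2 * K * P * a := by rw [hrat]; ring
        exact le_of_mul_le_mul_right h2 hsq
      have h4 := rda_case2 K τ P t hK hτ hτ1 hP1 ht0 h1
      rw [← hK'] at h4 ⊢
      rw [hrat, hrt]
      calc P ^ (1 - τ) * (t * (q : ℝ) * a) = (P ^ (1 - τ) * t) * ((q : ℝ) * a) := by ring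
        _ ≤ (K' * P) * ((q : ℝ) * a) := mul_le_mul_of_nonneg_right h4 (by positivity)
        _ = K' * ((q : ℝ) * (P * a)) := by ring
  · -- r < q
    left
    have hlt' : (r : ℝ) ≤ (q : ℝ) := by exact_mod_cast hlt.le
    have h1 : P ^ (1 - τ) ≤ P := by
      have h2 : P ^ (1 - τ) ≤ P ^ (1 : ℝ) := Real.rpow_le_rpow_of_exponent_le hP1 (by linarith)
      rwa [Real.rpow_one] at h2
    rw [← hK', hrat]
    calc P ^ (1 - τ) * ((r : ℝ) * a) ≤ P * ((r : ℝ) * a) :=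
          mul_le_mul_of_nonneg_right h1 (by positivity)
      _ = (r : ℝ) * (P * a) := by ring
      _ ≤ (q : ℝ) * (P * a) := mul_le_mul_of_nonneg_right hlt' (by positivity)
      _ ≤ K' * ((q : ℝ) * (P * a)) := by
          have h3 : 0 ≤ (q : ℝ) * (P * a) := by positivity
          nlinarith

theorem imb_of_const (γ : ℝ) (κ K : ℝ) (hK : 1 ≤ K) (c : ℕ) (B : Finset ℕ) :
    Imb γ κ K (fun _ => c) B := by
  intro q _ r _ _ _ _ _
  have hs := rda_pos c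
  simp only [Nat.sub_self, pow_zero, Real.one_rpow, one_mul]
  have h1 : 0 ≤ (q : ℝ) * sz c := by positivity
  have h2 : 0 ≤ (r : ℝ) * sz c := by positivity
  rcases le_total ((r : ℝ) * sz c) ((q : ℝ) * sz c) with h | h
  · left
    nlinarith
  · right
    nlinarith

end Pool.Agent.H2D
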