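import Mathlib
import Pool.Agent.Lib.H2D.Defs
import Pool.Agent.Lib.H2D.RDa

set_option autoImplicit false

/-!
# H2D chunk B14: reduction to dyadic values and the imbalance condition

`g ≥ 0`, `S = {q > 0 : η ≤ φ(q)/q, g q > 0}`, `∑_{q ∈ S} g q = ∞`.
* If infinitely many `q ∈ S` have `g q ≥ 1/8`: `f q = 1/8 = sz 3` on those `q`, `lev = fun _ => 3`, `f = 0` elsewhere. `Imb`: `imb_of_const`.
  (`f` is not summable: infinitely many terms `1/8`, it does not tend to `0`.)
* Otherwise drop the finitely many `q ∈ S` with `g q ≥ 1/8`; for the others (`0 < g q < 1/8`) let `lev q` be the `i` with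
  `sz i ≤ g q < 2 sz i` (`i ≥ 4`; `exists_nat_pow_near_of_lt_one` or `Nat.find`), `f q = sz (lev q)`. `f ≥ g/2` on the support, so not summable.
  `Imb`: `imb_of_growth`.
-/

namespace Pool.Agent.H2D

open Finset Filter

theorem rd_lev (x : ℝ) (hx : 0 < x) (hx1 : x < 1 / 8) :
    ∃ i : ℕ, 3 ≤ i ∧ sz i ≤ x ∧ x < 2 * sz i := by
  classical
  have hex : ∃ i : ℕ, sz i ≤ x := by
    obtain ⟨n, hn⟩ := exists_pow_lt_of_lt_one hx (show (1 / 2 : ℝ) < 1 by norm_num)
    exact ⟨n, hn.le⟩
  refine ⟨Nat.find hex, ?_, Nat.find_spec hex, ?_⟩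
  · by_contra hcon
    rw [not_le] at hcon
    have h1 := Nat.find_spec hex
    have h2 : (1 / 2 : ℝ) ^ 3 ≤ (1 / 2 : ℝ) ^ (Nat.find hex) :=
      pow_le_pow_of_le_one (by norm_num) (by norm_num) hcon.le
    have h3 : sz (Nat.find hex) = (1 / 2 : ℝ) ^ (Nat.find hex) := rfl
    rw [h3] at h1
    norm_num at h2
    linarith
  · rcases Nat.eq_zero_or_pos (Nat.find hex) with h0 | h0
    · have h1 := Nat.find_spec hex
      rw [h0] at h1 ⊢
      have h3 : sz 0 = 1 := by
        unfold sz
        rw [pow_zero]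
      rw [h3]
      linarith
    · obtain ⟨k, hk⟩ : ∃ k, Nat.find hex = k + 1 := ⟨Nat.find hex - 1, by omega⟩
      have h1 : ¬ sz k ≤ x := Nat.find_min hex (by omega)
      rw [hk]
      rw [not_le] at h1
      have h3 : 2 * sz (k + 1) = sz k := by
        unfold sz
        rw [pow_succ]
        ring
      rw [h3]
      exact h1

theorem reduction (γ : ℝ) (g : ℕ → ℝ) (hg : ∀ q, 0 ≤ g q) (η : ℝ)
    (hns : ¬ Summable (fun q : ℕ => if 0 < q ∧ η ≤ (Nat.totient q : ℝ) / q then g q else 0))
    (K τ : ℝ) (hK : 1 ≤ K) (hτ : 0 < τ) (hτ1 : τ < 1) (hgr : Growth γ g K τ) :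
    ∃ (lev : ℕ → ℕ) (f : ℕ → ℝ), (∀ q, f q = 0 ∨ (f q = sz (lev q) ∧ 0 < q ∧ 3 ≤ lev q)) ∧
      (∀ q, f q ≤ g q) ∧ (∀ q, 0 < f q → η ≤ (Nat.totient q : ℝ) / q) ∧ ¬ Summable f ∧
      ∀ B : Finset ℕ, (∀ q ∈ B, 0 < f q) → Imb γ (1 - τ) ((2 * K) ^ (1 / τ)) lev B := by
  classical
  obtain ⟨T, hT⟩ : ∃ T : Set ℕ, T = {q : ℕ | 0 < q ∧ η ≤ (Nat.totient q : ℝ) / q ∧ 1 / 8 ≤ g q} :=
    ⟨_, rfl⟩
  have hTm : ∀ q, q ∈ T ↔ 0 < q ∧ η ≤ (Nat.totient q : ℝ) / q ∧ 1 / 8 ≤ g q := by
    intro q
    rw [hT]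
    exact Iff.rfl
  by_cases hfin : T.Finite
  · -- finitely many large values
    have hch : ∀ q : ℕ, ∃ i : ℕ, 0 < g q → g q < 1 / 8 → 3 ≤ i ∧ sz i ≤ g q ∧ g q < 2 * sz i := by
      intro q
      by_cases h : 0 < g q ∧ g q < 1 / 8
      · obtain ⟨i, hi⟩ := rd_lev (g q) h.1 h.2
        exact ⟨i, fun _ _ => hi⟩
      · exact ⟨0, fun h1 h2 => absurd ⟨h1, h2⟩ h⟩
    choose lev hlev using hch
    refine ⟨lev, fun q => if 0 < q ∧ η ≤ (Nat.totient q : ℝ) / q ∧ 0 < g q ∧ g q < 1 / 8 then
      sz (lev q) else 0, ?_, ?_, ?_, ?_, ?_⟩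
    · intro q
      by_cases h : 0 < q ∧ η ≤ (Nat.totient q : ℝ) / q ∧ 0 < g q ∧ g q < 1 / 8
      · right
        simp only [if_pos h]
        exact ⟨trivial, h.1, (hlev q h.2.2.1 h.2.2.2).1⟩
      · left
        simp only [if_neg h]
    · intro q
      by_cases h : 0 < q ∧ η ≤ (Nat.totient q : ℝ) / q ∧ 0 < g q ∧ g q < 1 / 8
      · simp only [if_pos h]
        exact (hlev q h.2.2.1 h.2.2.2).2.1
      · simp only [if_neg h]
        exact hg q
    · intro q hq
      by_contra hcon
      have h : ¬ (0 < q ∧ η ≤ (Nat.totient q : ℝ) / q ∧ 0 < g q ∧ g q < 1 / 8) := by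
        intro h
        exact hcon h.2.1
      simp only [if_neg h] at hq
      exact lt_irrefl _ hq
    · intro hsum
      apply hns
      have h1 : Summable (fun q : ℕ => if q ∈ T then g q else 0) := by
        apply summable_of_ne_finset_zero (s := hfin.toFinset)
        intro q hq
        rw [Set.Finite.mem_toFinset] at hq
        rw [if_neg hq]
      refine Summable.of_nonneg_of_le ?_ ?_ ((hsum.mul_left 2).add h1)
      · intro q
        split_ifs
        · exact hg q
        · exact le_rfl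
      · intro q
        by_cases h0 : 0 < q ∧ η ≤ (Nat.totient q : ℝ) / q
        · rw [if_pos h0]
          by_cases h2 : 1 / 8 ≤ g q
          · have h3 : q ∈ T := (hTm q).2 ⟨h0.1, h0.2, h2⟩
            rw [if_pos h3]
            have h4 : ¬ (0 < q ∧ η ≤ (Nat.totient q : ℝ) / q ∧ 0 < g q ∧ g q < 1 / 8) := by
              intro h
              linarith [h.2.2.2]
            rw [if_neg h4]
            linarith
          · have h3 : q ∉ T := fun h => h2 ((hTm q).1 h).2.2
            rw [if_neg h3, add_zero]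
            rw [not_le] at h2
            rcases (hg q).eq_or_lt with h5 | h5
            · have h4 : ¬ (0 < q ∧ η ≤ (Nat.totient q : ℝ) / q ∧ 0 < g q ∧ g q < 1 / 8) := by
                intro h
                linarith [h.2.2.1]
              rw [if_neg h4]
              linarith
            · rw [if_pos ⟨h0.1, h0.2, h5, h2⟩]
              exact (hlev q h5 h2).2.2.le
        · rw [if_neg h0]
          have h4 : ¬ (0 < q ∧ η ≤ (Nat.totient q : ℝ) / q ∧ 0 < g q ∧ g q < 1 / 8) := by
            intro h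
            exact h0 ⟨h.1, h.2.1⟩
          rw [if_neg h4, mul_zero, zero_add]
          split_ifs
          · exact hg q
          · exact le_rfl
    · intro B hB
      apply imb_of_growth γ g K τ hK hτ hτ1 hgr lev B
      intro q hq
      have h1 := hB q hq
      have h : 0 < q ∧ η ≤ (Nat.totient q : ℝ) / q ∧ 0 < g q ∧ g q < 1 / 8 := by
        by_contra hcon
        simp only [if_neg hcon] at h1
        exact lt_irrefl _ h1
      exact ⟨h.1, (hlev q h.2.2.1 h.2.2.2).2⟩
  · -- infinitely many large values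
    have hs3 : sz 3 = 1 / 8 := by
      unfold sz
      norm_num
    refine ⟨fun _ => 3, fun q => if q ∈ T then sz 3 else 0, ?_, ?_, ?_, ?_, ?_⟩
    · intro q
      by_cases h : q ∈ T
      · right
        simp only [if_pos h]
        exact ⟨trivial, ((hTm q).1 h).1, le_rfl⟩
      · left
        simp only [if_neg h]
    · intro q
      by_cases h : q ∈ T
      · simp only [if_pos h]
        rw [hs3]
        exact ((hTm q).1 h).2.2
      · simp only [if_neg h]
        exact hg q
    · intro q hq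
      by_cases h : q ∈ T
      · exact ((hTm q).1 h).2.1
      · simp only [if_neg h] at hq
        exact absurd hq (lt_irrefl _)
    · intro hsum
      apply hfin
      have h1 := hsum.tendsto_cofinite_zero
      have h2 : ∀ᶠ q in Filter.cofinite, (if q ∈ T then sz 3 else 0) < 1 / 8 :=
        h1.eventually (gt_mem_nhds (by norm_num))
      rw [Filter.eventually_cofinite] at h2
      refine h2.subset ?_
      intro q hq
      show ¬ (if q ∈ T then sz 3 else 0) < 1 / 8
      rw [if_pos hq, hs3]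
      exact lt_irrefl _
    · intro B _
      exact imb_of_const γ (1 - τ) _ (Real.one_le_rpow (by linarith) (by positivity)) 3 B

end Pool.Agent.H2D
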