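import Mathlib
import Pool.Agent.Lib.H2D.Defs
import Pool.Agent.Lib.H2D.CL

set_option autoImplicit false

/-!
# H2D chunk B3: the number of generic reduced pairs

For `(a, b) ∈ PP γ (U i) (V i) i j l` let `k = b - a`: `k ≠ 0`, `|k| ≤ 2^(i-l)` (`a ≤ 2^(j-l) ≤ 2^(i-l)`), so
`|k| 2^l ≤ 2^i`; apply `count_lemma` with `M = 2^i`, `L = 2^l` to the set of these `k`:
`≤ 100 · 2^i / 4^l` values. `(a, b) ↦ (a, b - a)` is injective and `a ≤ 2^(j-l)`.
-/

namespace Pool.Agent.H2D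

open Finset

theorem PP_card {γ : ℝ} (hγ : Irrational γ) {U V C : ℕ → ℤ} (hD : DirData γ U V C)
    (i j l : ℕ) (hl : 1 ≤ l) (hlj : l < j) (hji : j ≤ i) :
    ((PP γ (U i) (V i) i j l).card : ℝ) ≤ 100 * (2 : ℝ) ^ (i + j) / (2 : ℝ) ^ (3 * l) := by
  classical
  set S : Finset ℤ := (PP γ (U i) (V i) i j l).image (fun x => (x.2 : ℤ) - (x.1 : ℤ)) with hS
  have hmem : ∀ x ∈ PP γ (U i) (V i) i j l, (1 ≤ x.1 ∧ x.1 ≤ 2 ^ (j - l)) ∧
      (1 ≤ x.2 ∧ x.2 ≤ 2 ^ (i - l)) ∧ x.1 ≠ x.2 ∧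
      ∃ n : ℤ, |(n : ℝ) + ((x.2 : ℝ) - (x.1 : ℝ)) * γ| < sz l ∧
        n * V i + ((x.2 : ℤ) - (x.1 : ℤ)) * U i ≠ 0 := by
    intro x hx
    unfold PP at hx
    rw [Finset.mem_filter, Finset.mem_product, Finset.mem_Icc, Finset.mem_Icc] at hx
    exact ⟨hx.1.1, hx.1.2, hx.2.2.1, hx.2.2.2⟩
  have hcl := count_lemma γ hγ (U i) (V i) (hD.dat i).hv (hD.dat i).cop (2 ^ i) (2 ^ l)
    (by
      calc (2 : ℝ) = 2 ^ 1 := (pow_one _).symm
        _ ≤ 2 ^ l := pow_le_pow_right₀ (by norm_num) hl)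
    (hD.small i) (hD.close i) S (by
      intro k hk
      rw [hS, Finset.mem_image] at hk
      obtain ⟨x, hx, rfl⟩ := hk
      obtain ⟨⟨h1, h2⟩, ⟨h3, h4⟩, h5, n, h6, h7⟩ := hmem x hx
      refine ⟨?_, ?_, n, ?_, h7⟩
      · intro h
        apply h5
        omega
      · have h8 : (2 : ℕ) ^ (j - l) ≤ 2 ^ (i - l) := Nat.pow_le_pow_right (by norm_num) (by omega)
        have h9 : |(x.2 : ℤ) - (x.1 : ℤ)| ≤ ((2 ^ (i - l) : ℕ) : ℤ) := by
          rw [abs_le]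
          constructor <;> omega
        have h10 : |(((x.2 : ℤ) - (x.1 : ℤ) : ℤ) : ℝ)| ≤ (2 : ℝ) ^ (i - l) := by
          rw [← Int.cast_abs]
          exact_mod_cast h9
        calc |(((x.2 : ℤ) - (x.1 : ℤ) : ℤ) : ℝ)| * 2 ^ l ≤ (2 : ℝ) ^ (i - l) * 2 ^ l :=
              mul_le_mul_of_nonneg_right h10 (by positivity)
          _ = 2 ^ i := by
              rw [← pow_add]
              congr 1
              omega
      · unfold sz at h6
        rw [one_div_pow] at h6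
        push_cast
        exact h6)
  have hcard : (PP γ (U i) (V i) i j l).card ≤ ((Icc 1 (2 ^ (j - l))) ×ˢ S).card := by
    refine Finset.card_le_card_of_injOn (fun x => (x.1, (x.2 : ℤ) - (x.1 : ℤ))) ?_ ?_
    · intro x hx
      rw [Finset.mem_coe, Finset.mem_product, Finset.mem_Icc]
      refine ⟨(hmem x hx).1, ?_⟩
      rw [hS]
      exact Finset.mem_image_of_mem (fun x : ℕ × ℕ => (x.2 : ℤ) - (x.1 : ℤ)) hx
    · intro x _ y _ h
      simp only [Prod.mk.injEq] at h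
      obtain ⟨h1, h2⟩ := h
      ext
      · exact h1
      · rw [h1] at h2
        omega
  rw [Finset.card_product, Nat.card_Icc, Nat.add_sub_cancel] at hcard
  have h1 : ((PP γ (U i) (V i) i j l).card : ℝ) ≤ (2 : ℝ) ^ (j - l) * S.card := by
    exact_mod_cast hcard
  have h2 : (2 : ℝ) ^ (j - l) = 2 ^ j / 2 ^ l := by
    rw [eq_div_iff (by positivity), ← pow_add]
    congr 1
    omega
  calc ((PP γ (U i) (V i) i j l).card : ℝ) ≤ (2 : ℝ) ^ (j - l) * S.card := h1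
    _ ≤ (2 : ℝ) ^ (j - l) * (100 * (2 ^ i / (2 ^ l) ^ 2)) :=
        mul_le_mul_of_nonneg_left hcl (by positivity)
    _ = 100 * (2 : ℝ) ^ (i + j) / (2 : ℝ) ^ (3 * l) := by
        rw [h2, pow_add, show 3 * l = l + (l + l) by ring, pow_add, pow_add]
        field_simp

end Pool.Agent.H2D
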