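import Mathlib
import Pool.Agent.Lib.H2D.Defs

set_option autoImplicit false

/-!
# H2D chunk A1: four elementary inequalities

Throughout `u = 9/16`, `θ = 4/3`, `s = 3/4 = u θ`.

* `ll_p1`: `∑ (x_i y_i)^u ≤ (∑ x_i)^u (∑ y_i)^u`. Proof: Cauchy–Schwarz
  `∑ x_i^u y_i^u ≤ (∑ x_i^(9/8))^(1/2) (∑ y_i^(9/8))^(1/2)` and
  `∑ x_i^(9/8) ≤ (max x)^(1/8) ∑ x_i ≤ (∑ x_i)^(9/8)`.
  (Or: normalise the sums to 1; `(x y)^(9/16) ≤ (x y)^(1/2) ≤ (x + y)/2` when `x, y ≤ 1`.)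
* `ll_p1'`: if moreover all `x_i ≤ m` (`m ≤ 1`) and `∑ x_i ≤ 1`, `∑ y_i ≤ 1` then
  `∑ (x_i y_i)^u ≤ m^(1/16)`: for `x_i ≤ m`, `y_i ≤ 1`:
  `(x_i y_i)^(9/16) = (x_i y_i)^(1/2) (x_i y_i)^(1/16) ≤ m^(1/16) (x_i + y_i)/2`.
* `ll_p2`: `(P + Q)^θ ≤ P^θ + 4 Q` for `P, Q ∈ [0,1]` (mean value theorem / convexity:
  `(P+Q)^(4/3) = (P+Q)(P+Q)^(1/3)`; or `t ↦ t^(4/3)` has derivative `≤ (4/3) 2^(1/3) ≤ 4` on `[0,2]`).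
* `ll_p3`: `(P₁ + P₂ + Q)^θ ≤ 3 (P₁^θ + P₂^θ + Q)` for `Q ≤ 1` (power mean
  `(a+b+c)^θ ≤ 3^(θ-1) (a^θ+b^θ+c^θ)`, `3^(1/3) ≤ 3`, `Q^θ ≤ Q`).
* `ll_p4`: Hölder with exponents `4`, `4/3`.
-/

namespace Pool.Agent.H2D

open Finset

theorem lla_half {x y : ℝ} (hx : 0 ≤ x) (hy : 0 ≤ y) : (x * y) ^ (1 / 2 : ℝ) ≤ (x + y) / 2 := by
  rw [← Real.sqrt_eq_rpow]
  refine Real.sqrt_le_iff.2 ⟨by positivity, ?_⟩
  nlinarith [sq_nonneg (x - y)]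

theorem lla_gen (s : Finset ℕ) (x y : ℕ → ℝ) (hx : ∀ i ∈ s, 0 ≤ x i) (hy : ∀ i ∈ s, 0 ≤ y i)
    (hx1 : ∑ i ∈ s, x i ≤ 1) (hy1 : ∑ i ∈ s, y i ≤ 1) (m : ℝ) (hm0 : 0 ≤ m)
    (hm : ∀ i ∈ s, x i ≤ m) :
    ∑ i ∈ s, (x i * y i) ^ (9 / 16 : ℝ) ≤ m ^ (1 / 16 : ℝ) := by
  have h0 : 0 ≤ m ^ (1 / 16 : ℝ) := Real.rpow_nonneg hm0 _
  have h1 : ∀ i ∈ s, (x i * y i) ^ (9 / 16 : ℝ) ≤ m ^ (1 / 16 : ℝ) * ((x i + y i) / 2) := by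
    intro i hi
    have hxi := hx i hi
    have hyi := hy i hi
    have hxy : 0 ≤ x i * y i := mul_nonneg hxi hyi
    have hyi1 : y i ≤ 1 := (Finset.single_le_sum hy hi).trans hy1
    have e : (9 / 16 : ℝ) = 1 / 16 + 1 / 2 := by norm_num
    rw [e, Real.rpow_add_of_nonneg hxy (by norm_num) (by norm_num)]
    refine mul_le_mul ?_ (lla_half hxi hyi) (Real.rpow_nonneg hxy _) h0
    refine Real.rpow_le_rpow hxy ?_ (by norm_num)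
    calc x i * y i ≤ m * 1 := mul_le_mul (hm i hi) hyi1 hyi hm0
      _ = m := mul_one m
  calc ∑ i ∈ s, (x i * y i) ^ (9 / 16 : ℝ) ≤ ∑ i ∈ s, m ^ (1 / 16 : ℝ) * ((x i + y i) / 2) :=
        Finset.sum_le_sum h1
    _ = m ^ (1 / 16 : ℝ) * ((∑ i ∈ s, x i + ∑ i ∈ s, y i) / 2) := by
        rw [← Finset.mul_sum, ← Finset.sum_div, Finset.sum_add_distrib]
    _ ≤ m ^ (1 / 16 : ℝ) * 1 := by
        refine mul_le_mul_of_nonneg_left ?_ h0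
        linarith
    _ = _ := mul_one _

theorem ll_p1 (s : Finset ℕ) (x y : ℕ → ℝ) (hx : ∀ i ∈ s, 0 ≤ x i) (hy : ∀ i ∈ s, 0 ≤ y i) :
    ∑ i ∈ s, (x i * y i) ^ (9 / 16 : ℝ) ≤
      (∑ i ∈ s, x i) ^ (9 / 16 : ℝ) * (∑ i ∈ s, y i) ^ (9 / 16 : ℝ) := by
  have hX0 : 0 ≤ ∑ i ∈ s, x i := Finset.sum_nonneg hx
  have hY0 : 0 ≤ ∑ i ∈ s, y i := Finset.sum_nonneg hy
  obtain ⟨X, hX⟩ : ∃ X, X = ∑ i ∈ s, x i := ⟨_, rfl⟩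
  obtain ⟨Y, hY⟩ : ∃ Y, Y = ∑ i ∈ s, y i := ⟨_, rfl⟩
  rw [← hX] at hX0 ⊢
  rw [← hY] at hY0 ⊢
  rcases hX0.eq_or_lt with h | h
  · have h1 : ∀ i ∈ s, x i = 0 := (Finset.sum_eq_zero_iff_of_nonneg hx).1 (by rw [← hX, ← h])
    have h2 : ∑ i ∈ s, (x i * y i) ^ (9 / 16 : ℝ) = 0 := by
      refine Finset.sum_eq_zero fun i hi => ?_
      rw [h1 i hi, zero_mul, Real.zero_rpow (by norm_num)]
    rw [h2]
    positivity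
  rcases hY0.eq_or_lt with h' | h'
  · have h1 : ∀ i ∈ s, y i = 0 := (Finset.sum_eq_zero_iff_of_nonneg hy).1 (by rw [← hY, ← h'])
    have h2 : ∑ i ∈ s, (x i * y i) ^ (9 / 16 : ℝ) = 0 := by
      refine Finset.sum_eq_zero fun i hi => ?_
      rw [h1 i hi, mul_zero, Real.zero_rpow (by norm_num)]
    rw [h2]
    positivity
  have hx' : ∀ i ∈ s, 0 ≤ x i / X := fun i hi => div_nonneg (hx i hi) h.le
  have hy' : ∀ i ∈ s, 0 ≤ y i / Y := fun i hi => div_nonneg (hy i hi) h'.le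
  have h1 := lla_gen s (fun i => x i / X) (fun i => y i / Y) hx' hy'
    (by rw [← Finset.sum_div, ← hX, div_self h.ne']) (by rw [← Finset.sum_div, ← hY, div_self h'.ne'])
    1 zero_le_one (fun i hi => by
      rw [div_le_one h, hX]
      exact Finset.single_le_sum hx hi)
  rw [Real.one_rpow] at h1
  have h2 : ∀ i ∈ s, (x i * y i) ^ (9 / 16 : ℝ) =
      (X ^ (9 / 16 : ℝ) * Y ^ (9 / 16 : ℝ)) * (x i / X * (y i / Y)) ^ (9 / 16 : ℝ) := by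
    intro i hi
    rw [← Real.mul_rpow h.le h'.le, ← Real.mul_rpow (by positivity) (mul_nonneg (hx' i hi) (hy' i hi))]
    congr 1
    field_simp
  rw [Finset.sum_congr rfl h2, ← Finset.mul_sum]
  calc _ ≤ (X ^ (9 / 16 : ℝ) * Y ^ (9 / 16 : ℝ)) * 1 := mul_le_mul_of_nonneg_left h1 (by positivity)
    _ = _ := mul_one _

theorem ll_p1' (s : Finset ℕ) (x y : ℕ → ℝ) (hx : ∀ i ∈ s, 0 ≤ x i) (hy : ∀ i ∈ s, 0 ≤ y i)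
    (hx1 : ∑ i ∈ s, x i ≤ 1) (hy1 : ∑ i ∈ s, y i ≤ 1) (m : ℝ) (hm1 : m ≤ 1) (hm0 : 0 ≤ m)
    (hm : ∀ i ∈ s, x i ≤ m) :
    ∑ i ∈ s, (x i * y i) ^ (9 / 16 : ℝ) ≤ m ^ (1 / 16 : ℝ) := by
  exact lla_gen s x y hx hy hx1 hy1 m hm0 hm

theorem ll_p2 {P Q : ℝ} (hP : 0 ≤ P) (hQ : 0 ≤ Q) (hP1 : P ≤ 1) (hQ1 : Q ≤ 1) :
    (P + Q) ^ (4 / 3 : ℝ) ≤ P ^ (4 / 3 : ℝ) + 4 * Q := by
  have hs : 0 ≤ P + Q := add_nonneg hP hQ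
  rcases hs.eq_or_lt with h | h
  · have h1 : P = 0 := by linarith
    have h2 : Q = 0 := by linarith
    rw [h1, h2]
    norm_num
  · have h1 := one_add_mul_self_le_rpow_one_add (s := -(Q / (P + Q))) (by
      rw [neg_le_neg_iff, div_le_one h]
      linarith) (p := 4 / 3) (by norm_num)
    have e1 : 1 + -(Q / (P + Q)) = P / (P + Q) := by
      field_simp
      ring
    rw [e1, Real.div_rpow hP h.le] at h1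
    have h2 : 0 < (P + Q) ^ (4 / 3 : ℝ) := Real.rpow_pos_of_pos h _
    rw [le_div_iff₀ h2] at h1
    have h3 : (P + Q) ^ (4 / 3 : ℝ) = (P + Q) ^ (1 / 3 : ℝ) * (P + Q) := by
      rw [show (4 / 3 : ℝ) = 1 / 3 + 1 by norm_num, Real.rpow_add_one h.ne']
    have h4 : (P + Q) ^ (1 / 3 : ℝ) ≤ 2 := by
      calc (P + Q) ^ (1 / 3 : ℝ) ≤ 2 ^ (1 / 3 : ℝ) := Real.rpow_le_rpow hs (by linarith) (by norm_num)
        _ ≤ 2 ^ (1 : ℝ) := Real.rpow_le_rpow_of_exponent_le (by norm_num) (by norm_num)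
        _ = 2 := Real.rpow_one 2
    have h5 : Q / (P + Q) * (P + Q) ^ (4 / 3 : ℝ) = Q * (P + Q) ^ (1 / 3 : ℝ) := by
      rw [h3]
      field_simp
    have h6 : Q * (P + Q) ^ (1 / 3 : ℝ) ≤ Q * 2 := mul_le_mul_of_nonneg_left h4 hQ
    have h7 : (1 + 4 / 3 * -(Q / (P + Q))) * (P + Q) ^ (4 / 3 : ℝ) =
        (P + Q) ^ (4 / 3 : ℝ) - 4 / 3 * (Q / (P + Q) * (P + Q) ^ (4 / 3 : ℝ)) := by ring
    rw [h7, h5] at h1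
    linarith

theorem ll_p3 {P₁ P₂ Q : ℝ} (hP₁ : 0 ≤ P₁) (hP₂ : 0 ≤ P₂) (hQ : 0 ≤ Q) (hQ1 : Q ≤ 1) :
    (P₁ + P₂ + Q) ^ (4 / 3 : ℝ) ≤ 3 * (P₁ ^ (4 / 3 : ℝ) + P₂ ^ (4 / 3 : ℝ) + Q) := by
  have h1 := Real.rpow_sum_le_const_mul_sum_rpow_of_nonneg (Finset.univ : Finset (Fin 3))
    (f := ![P₁, P₂, Q]) (p := 4 / 3) (by norm_num) (by
      intro i _
      fin_cases i
      · exact hP₁
      · exact hP₂
      · exact hQ)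
  rw [Fin.sum_univ_three, Fin.sum_univ_three, Finset.card_univ, Fintype.card_fin] at h1
  simp only [Matrix.cons_val_zero, Matrix.cons_val_one, Matrix.cons_val_two] at h1
  have h2 : ((3 : ℕ) : ℝ) ^ ((4 / 3 : ℝ) - 1) ≤ 3 := by
    calc ((3 : ℕ) : ℝ) ^ ((4 / 3 : ℝ) - 1) ≤ ((3 : ℕ) : ℝ) ^ (1 : ℝ) :=
          Real.rpow_le_rpow_of_exponent_le (by norm_num) (by norm_num)
      _ = 3 := by
          rw [Real.rpow_one]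
          norm_num
  have h3 : Q ^ (4 / 3 : ℝ) ≤ Q := by
    calc Q ^ (4 / 3 : ℝ) ≤ Q ^ (1 : ℝ) := Real.rpow_le_rpow_of_exponent_ge' hQ hQ1 (by norm_num) (by norm_num)
      _ = Q := Real.rpow_one Q
  have h4 : 0 ≤ P₁ ^ (4 / 3 : ℝ) := Real.rpow_nonneg hP₁ _
  have h5 : 0 ≤ P₂ ^ (4 / 3 : ℝ) := Real.rpow_nonneg hP₂ _
  have h6 : 0 ≤ Q ^ (4 / 3 : ℝ) := Real.rpow_nonneg hQ _
  calc (P₁ + P₂ + Q) ^ (4 / 3 : ℝ) ≤ ((3 : ℕ) : ℝ) ^ ((4 / 3 : ℝ) - 1) *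
        (P₁ ^ (4 / 3 : ℝ) + P₂ ^ (4 / 3 : ℝ) + Q ^ (4 / 3 : ℝ)) := h1
    _ ≤ 3 * (P₁ ^ (4 / 3 : ℝ) + P₂ ^ (4 / 3 : ℝ) + Q ^ (4 / 3 : ℝ)) :=
        mul_le_mul_of_nonneg_right h2 (by positivity)
    _ ≤ _ := by linarith

theorem ll_p4 (s : Finset ℕ) (α z : ℕ → ℝ) (hα : ∀ i ∈ s, 0 ≤ α i) (hz : ∀ i ∈ s, 0 ≤ z i) :
    ∑ j ∈ s, (α j) ^ (1 / 4 : ℝ) * (z j) ^ (3 / 4 : ℝ) ≤
      (∑ j ∈ s, α j) ^ (1 / 4 : ℝ) * (∑ j ∈ s, z j) ^ (3 / 4 : ℝ) := by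
  have hc : Real.HolderConjugate 4 (4 / 3) := by
    rw [Real.holderConjugate_iff]
    norm_num
  have h1 := Real.inner_le_Lp_mul_Lq_of_nonneg s hc (f := fun j => (α j) ^ (1 / 4 : ℝ))
    (g := fun j => (z j) ^ (3 / 4 : ℝ)) (fun i hi => Real.rpow_nonneg (hα i hi) _)
    (fun i hi => Real.rpow_nonneg (hz i hi) _)
  have h2 : ∑ i ∈ s, ((α i) ^ (1 / 4 : ℝ)) ^ (4 : ℝ) = ∑ i ∈ s, α i := by
    refine Finset.sum_congr rfl fun i hi => ?_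
    rw [← Real.rpow_mul (hα i hi)]
    norm_num
  have h3 : ∑ i ∈ s, ((z i) ^ (3 / 4 : ℝ)) ^ (4 / 3 : ℝ) = ∑ i ∈ s, z i := by
    refine Finset.sum_congr rfl fun i hi => ?_
    rw [← Real.rpow_mul (hz i hi)]
    norm_num
  rw [h2, h3] at h1
  have h4 : (1 / (4 / 3) : ℝ) = 3 / 4 := by norm_num
  rw [h4] at h1
  exact h1

end Pool.Agent.H2D
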