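import Mathlib
import Pool.Agent.Lib.H2D.Defs
import Pool.Agent.Lib.H2D.LLa

set_option autoImplicit false

/-!
# H2D chunk A2: local lemma, concentration at `0`

Notation: `x = ∑_{i ≥ 1} X_i ≤ η₀`, `y = ∑_{i ≥ 1} Y_i ≤ η₀`, `X_0 ≤ 1 - x`, `Y_0 ≤ 1 - y`
(from `tot ≤ 1`, `τ ≥ 0`), `a = ∑ α_j`, `b = ∑ β_j`, `∑ α_j^(1/4) ≤ 1`, `∑ β_j^(1/4) ≤ 1`.

Proof. `P = ∑_i (X_i Y_i)^u ≤ ((1-x)(1-y))^u + (x y)^u` (`ll_p1` for `i ≥ 1`), so by `ll_p2`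
`P^θ ≤ ((1-x)(1-y))^(3/4) + 4 (x y)^u`.
`Q_j = ∑_i (X_{i+j} Y_i)^u ≤ (X_j Y_0)^u + (x y)^u`, so `Q_j^θ ≤ X_j^(3/4) (1-y)^(3/4) + 4 (x y)^u`
and by `ll_p4` `∑_j α_j^(1/4) Q_j^θ ≤ (1-y)^(3/4) a^(1/4) x^(3/4) + 4 (x y)^u`. Same for `β`.
Hence, with `F_a(x) = (1-x)^(3/4) + a^(1/4) x^(3/4)`,
`lhs ≤ F_a(x) F_b(y) + 12 (x y)^u`.

* (F1) `F_a(x) ≤ (1+a)^(1/4)` (Hölder, `ll_p4` with two terms).
* (F2) if `x ≥ 51 a` then `F_a(x) ≤ 1 - (3/8) x`: `(1-x)^(3/4) ≤ 1 - (3/4) x` and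
  `a^(1/4) x^(3/4) ≤ (x/51)^(1/4) x^(3/4) = 51^(-1/4) x ≤ (3/8) x` since `(8/3)^4 = 50.57 < 51`.
* `(x y)^u ≤ x^(9/8) + y^(9/8)`, and `12 x^(9/8) ≤ (3/16) x` when `x^(1/8) ≤ 1/64`, that is
  `η₀ = 2^(-48)`.

Cases:
1. `x ≤ 51 a`, `y ≤ 51 b`: `lhs ≤ (1+a)^(1/4) (1+b)^(1/4) + 12 (51^(9/8)) (a^(9/8) + b^(9/8))`.
2. `x ≥ 51 a`, `y ≤ 51 b`: `F_a(x) F_b(y) ≤ (1 - (3/8) x) (1+b)^(1/4) ≤ (1+b)^(1/4) - (3/8) x`,
   and `12 (x^(9/8) + y^(9/8)) ≤ (3/16) x + 12 (51 b)^(9/8)`; total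
   `≤ (1+b)^(1/4) + 12 (51 b)^(9/8) ≤` claim. Symmetric case the same.
3. both large: `(1 - (3/8) x)(1 - (3/8) y) + (3/16)(x+y) ≤ 1` as
   `(1-p)(1-q) ≤ 1 - (p+q)/2` for `p, q ∈ [0,1]`. `1 ≤` claim.
-/

namespace Pool.Agent.H2D

open Finset

theorem LLb_F1 {x a : ℝ} (hx0 : 0 ≤ x) (hx1 : x ≤ 1) (ha : 0 ≤ a) :
    (1 - x) ^ (3 / 4 : ℝ) + a ^ (1 / 4 : ℝ) * x ^ (3 / 4 : ℝ) ≤ (1 + a) ^ (1 / 4 : ℝ) := by
  have h := ll_p4 (Finset.range 2) (fun i => if i = 0 then 1 else a)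
    (fun i => if i = 0 then 1 - x else x) (by
      intro i _

      split_ifs
      · exact zero_le_one
      · exact ha) (by
      intro i _

      split_ifs
      · linarith
      · exact hx0)
  simp only [Finset.sum_range_succ, Finset.sum_range_zero, if_true, one_ne_zero, if_false,
    zero_add, Real.one_rpow, one_mul, sub_add_cancel, mul_one] at h
  exact h

theorem LLb_F2 {x a : ℝ} (hx0 : 0 ≤ x) (hx1 : x ≤ 1) (ha : 0 ≤ a) (hxa : 51 * a ≤ x) :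
    (1 - x) ^ (3 / 4 : ℝ) + a ^ (1 / 4 : ℝ) * x ^ (3 / 4 : ℝ) ≤ 1 - 3 / 8 * x := by
  have h1 : (1 + -x) ^ (3 / 4 : ℝ) ≤ 1 + 3 / 4 * -x :=
    rpow_one_add_le_one_add_mul_self (by linarith) (by norm_num) (by norm_num)
  have h2 : a ^ (1 / 4 : ℝ) ≤ 3 / 8 * x ^ (1 / 4 : ℝ) := by
    have h3 : (3 / 8 : ℝ) = (((3 / 8 : ℝ)) ^ 4) ^ (1 / 4 : ℝ) := by
      rw [← Real.rpow_natCast (3 / 8 : ℝ) 4, ← Real.rpow_mul (by norm_num)]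
      norm_num
    rw [h3, ← Real.mul_rpow (by norm_num) hx0]
    apply Real.rpow_le_rpow ha _ (by norm_num)
    have h4 : a ≤ x / 51 := by linarith
    have h5 : x / 51 ≤ (3 / 8) ^ 4 * x := by
      have : (1 : ℝ) / 51 ≤ (3 / 8) ^ 4 := by norm_num
      have h6 := mul_le_mul_of_nonneg_right this hx0
      calc x / 51 = 1 / 51 * x := by ring
        _ ≤ _ := h6
    exact h4.trans h5
  have h3 : a ^ (1 / 4 : ℝ) * x ^ (3 / 4 : ℝ) ≤ 3 / 8 * x := by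
    calc a ^ (1 / 4 : ℝ) * x ^ (3 / 4 : ℝ) ≤ 3 / 8 * x ^ (1 / 4 : ℝ) * x ^ (3 / 4 : ℝ) :=
          mul_le_mul_of_nonneg_right h2 (Real.rpow_nonneg hx0 _)
      _ = 3 / 8 * (x ^ (1 / 4 : ℝ) * x ^ (3 / 4 : ℝ)) := by ring
      _ = 3 / 8 * x := by
          congr 1
          rcases eq_or_lt_of_le hx0 with h | h
          · rw [← h, Real.zero_rpow (by norm_num), zero_mul]
          · rw [← Real.rpow_add h]
            norm_num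
  have h4 : 1 - x = 1 + -x := by ring
  rw [h4]
  linarith

/-- one variable: either regime -/
theorem LLb_one {x a : ℝ} (hx0 : 0 ≤ x) (hx : x ≤ (1 / 2 : ℝ) ^ 48) (ha : 0 ≤ a) :
    ∃ p : ℝ, 0 ≤ p ∧ p ≤ 1 ∧
      (1 - x) ^ (3 / 4 : ℝ) + a ^ (1 / 4 : ℝ) * x ^ (3 / 4 : ℝ) ≤ (1 + a) ^ (1 / 4 : ℝ) * (1 - p) ∧
      12 * x ^ (9 / 8 : ℝ) ≤ p / 2 + 12 * 51 ^ (9 / 8 : ℝ) * a ^ (9 / 8 : ℝ) := by
  have hx1 : x ≤ 1 := hx.trans (by norm_num)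
  have hA : 1 ≤ (1 + a) ^ (1 / 4 : ℝ) := Real.one_le_rpow (by linarith) (by norm_num)
  rcases le_total x (51 * a) with h | h
  · refine ⟨0, le_rfl, zero_le_one, ?_, ?_⟩
    · rw [sub_zero, mul_one]
      exact LLb_F1 hx0 hx1 ha
    · rw [zero_div, zero_add, mul_assoc, ← Real.mul_rpow (by norm_num) ha]
      have := Real.rpow_le_rpow hx0 h (show (0 : ℝ) ≤ 9 / 8 by norm_num)
      linarith
  · refine ⟨3 / 8 * x, by positivity, by linarith, ?_, ?_⟩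
    · refine (LLb_F2 hx0 hx1 ha h).trans ?_
      have : 0 ≤ 1 - 3 / 8 * x := by linarith
      nlinarith
    · have h1 : x ^ (9 / 8 : ℝ) ≤ 1 / 64 * x := by
        rcases eq_or_lt_of_le hx0 with h0 | h0
        · rw [← h0, Real.zero_rpow (by norm_num), mul_zero]
        · have e : (9 / 8 : ℝ) = 1 / 8 + 1 := by norm_num
          rw [e, Real.rpow_add h0, Real.rpow_one]
          apply mul_le_mul_of_nonneg_right _ hx0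
          have h2 : (1 / 64 : ℝ) = ((1 / 2 : ℝ) ^ 48) ^ (1 / 8 : ℝ) := by
            rw [← Real.rpow_natCast (1 / 2 : ℝ) 48, ← Real.rpow_mul (by norm_num)]
            norm_num
          rw [h2]
          exact Real.rpow_le_rpow hx0 hx (by norm_num)
      have h2 : 0 ≤ 12 * (51 : ℝ) ^ (9 / 8 : ℝ) * a ^ (9 / 8 : ℝ) :=
        mul_nonneg (by positivity) (Real.rpow_nonneg ha _)
      linarith

theorem LLb_xy {x y : ℝ} (hx0 : 0 ≤ x) (hy0 : 0 ≤ y) :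
    (x * y) ^ (9 / 16 : ℝ) ≤ x ^ (9 / 8 : ℝ) + y ^ (9 / 8 : ℝ) := by
  rw [Real.mul_rpow hx0 hy0]
  have h1 : x ^ (9 / 8 : ℝ) = (x ^ (9 / 16 : ℝ)) ^ 2 := by
    rw [← Real.rpow_natCast, ← Real.rpow_mul hx0]
    norm_num
  have h2 : y ^ (9 / 8 : ℝ) = (y ^ (9 / 16 : ℝ)) ^ 2 := by
    rw [← Real.rpow_natCast, ← Real.rpow_mul hy0]
    norm_num
  rw [h1, h2]
  nlinarith [sq_nonneg (x ^ (9 / 16 : ℝ) - y ^ (9 / 16 : ℝ)), sq_nonneg (x ^ (9 / 16 : ℝ)),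
    sq_nonneg (y ^ (9 / 16 : ℝ))]

theorem LLb_split (N : ℕ) (f : ℕ → ℝ) (hf : ∀ i, 0 ≤ f i) :
    ∑ i ∈ range N, f i ≤ f 0 + ∑ i ∈ Icc 1 N, f i := by
  have h1 : (0 : ℕ) ∉ Icc 1 N := by simp
  rw [← Finset.sum_insert h1]
  apply Finset.sum_le_sum_of_subset_of_nonneg
  · intro i hi
    rw [Finset.mem_insert, Finset.mem_Icc]
    rw [Finset.mem_range] at hi
    omega
  · intro i _ _
    exact hf i

theorem LLb_shift (N j : ℕ) (X : ℕ → ℝ) (hX : ∀ i, 0 ≤ X i) (hN : ∀ i, N ≤ i → X i = 0) :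
    ∑ i ∈ Icc 1 N, X (i + j) ≤ ∑ i ∈ Icc 1 N, X i := by
  have h1 : ∑ i ∈ Icc 1 N, X (i + j) = ∑ k ∈ (Icc 1 N).map (addRightEmbedding j), X k := by
    rw [Finset.sum_map]
    rfl
  rw [h1]
  have h2 : ∑ k ∈ (Icc 1 N).map (addRightEmbedding j), X k =
      ∑ k ∈ ((Icc 1 N).map (addRightEmbedding j)).filter (fun k => k ≤ N), X k := by
    symm
    apply Finset.sum_filter_of_ne
    intro k _ hk
    by_contra hcon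
    exact hk (hN k (by omega))
  rw [h2]
  apply Finset.sum_le_sum_of_subset_of_nonneg
  · intro k hk
    rw [Finset.mem_filter, Finset.mem_map] at hk
    obtain ⟨⟨i, hi, rfl⟩, hk⟩ := hk
    rw [Finset.mem_Icc] at hi ⊢
    rw [addRightEmbedding_apply] at hk ⊢
    omega
  · intro i _ _
    exact hX i

/-- one of the three sums -/
theorem LLb_term (N : ℕ) (X Y : ℕ → ℝ) (x y c d : ℝ) (hX : ∀ i, 0 ≤ X i) (hY : ∀ i, 0 ≤ Y i)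
    (hxs : ∑ i ∈ Icc 1 N, X i ≤ x) (hys : ∑ i ∈ Icc 1 N, Y i ≤ y) (hx1 : x ≤ 1) (hy1 : y ≤ 1)
    (hc : X 0 ≤ c) (hd : Y 0 ≤ d) (hc1 : c ≤ 1) (hd1 : d ≤ 1) :
    (∑ i ∈ range N, (X i * Y i) ^ (9 / 16 : ℝ)) ^ (4 / 3 : ℝ) ≤
      c ^ (3 / 4 : ℝ) * d ^ (3 / 4 : ℝ) + 4 * (x * y) ^ (9 / 16 : ℝ) := by
  have hxs0 : 0 ≤ ∑ i ∈ Icc 1 N, X i := Finset.sum_nonneg fun i _ => hX i
  have hys0 : 0 ≤ ∑ i ∈ Icc 1 N, Y i := Finset.sum_nonneg fun i _ => hY i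
  have hx0 : 0 ≤ x := hxs0.trans hxs
  have hy0 : 0 ≤ y := hys0.trans hys
  have hc0 : 0 ≤ c := (hX 0).trans hc
  have hd0 : 0 ≤ d := (hY 0).trans hd
  have h1 := LLb_split N (fun i => (X i * Y i) ^ (9 / 16 : ℝ)) (fun i =>
    Real.rpow_nonneg (mul_nonneg (hX i) (hY i)) _)
  have h2 := ll_p1 (Icc 1 N) X Y (fun i _ => hX i) (fun i _ => hY i)
  have h3 : (∑ i ∈ Icc 1 N, X i) ^ (9 / 16 : ℝ) * (∑ i ∈ Icc 1 N, Y i) ^ (9 / 16 : ℝ) ≤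
      (x * y) ^ (9 / 16 : ℝ) := by
    rw [← Real.mul_rpow hxs0 hys0]
    exact Real.rpow_le_rpow (mul_nonneg hxs0 hys0) (mul_le_mul hxs hys hys0 hx0) (by norm_num)
  have h4 : (X 0 * Y 0) ^ (9 / 16 : ℝ) ≤ (c * d) ^ (9 / 16 : ℝ) :=
    Real.rpow_le_rpow (mul_nonneg (hX 0) (hY 0)) (mul_le_mul hc hd (hY 0) hc0) (by norm_num)
  have h5 : ∑ i ∈ range N, (X i * Y i) ^ (9 / 16 : ℝ) ≤
      (c * d) ^ (9 / 16 : ℝ) + (x * y) ^ (9 / 16 : ℝ) := by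
    refine h1.trans ?_
    exact add_le_add h4 (h2.trans h3)
  have h6 : 0 ≤ ∑ i ∈ range N, (X i * Y i) ^ (9 / 16 : ℝ) :=
    Finset.sum_nonneg fun i _ => Real.rpow_nonneg (mul_nonneg (hX i) (hY i)) _
  refine (Real.rpow_le_rpow h6 h5 (by norm_num)).trans ?_
  have h7 := ll_p2 (P := (c * d) ^ (9 / 16 : ℝ)) (Q := (x * y) ^ (9 / 16 : ℝ))
    (Real.rpow_nonneg (mul_nonneg hc0 hd0) _) (Real.rpow_nonneg (mul_nonneg hx0 hy0) _)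
    (Real.rpow_le_one (mul_nonneg hc0 hd0) (mul_le_one₀ hc1 hd0 hd1) (by norm_num))
    (Real.rpow_le_one (mul_nonneg hx0 hy0) (mul_le_one₀ hx1 hy0 hy1) (by norm_num))
  refine h7.trans (le_of_eq ?_)
  rw [← Real.rpow_mul (mul_nonneg hc0 hd0), ← Real.mul_rpow hc0 hd0]
  norm_num

theorem LL_zero : ∃ η C : ℝ, 0 < η ∧ η < 1 ∧ 0 ≤ C ∧
    ∀ (N : ℕ) (X Y α β : ℕ → ℝ) (τ : ℝ), LH N X Y α β τ →
      tot N τ X ≤ 1 → tot N τ Y ≤ 1 →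
      ∑ j ∈ Icc 1 N, (α j) ^ (1 / 4 : ℝ) ≤ 1 → ∑ j ∈ Icc 1 N, (β j) ^ (1 / 4 : ℝ) ≤ 1 →
      ∑ i ∈ Icc 1 N, X i ≤ η → ∑ i ∈ Icc 1 N, Y i ≤ η →
      lhs N X Y α β ≤
        (1 + ∑ j ∈ Icc 1 N, α j) ^ (1 / 4 : ℝ) * (1 + ∑ j ∈ Icc 1 N, β j) ^ (1 / 4 : ℝ) +
        C * ((∑ j ∈ Icc 1 N, α j) ^ (9 / 8 : ℝ) + (∑ j ∈ Icc 1 N, β j) ^ (9 / 8 : ℝ)) := by
  refine ⟨(1 / 2 : ℝ) ^ 48, 12 * 51 ^ (9 / 8 : ℝ), by norm_num, by norm_num, by positivity, ?_⟩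
  intro N X Y α β τ h tX tY hα hβ hx hy
  obtain ⟨x, hxd⟩ : ∃ x, x = ∑ i ∈ Icc 1 N, X i := ⟨_, rfl⟩
  obtain ⟨y, hyd⟩ : ∃ y, y = ∑ i ∈ Icc 1 N, Y i := ⟨_, rfl⟩
  obtain ⟨a, had⟩ : ∃ a, a = ∑ j ∈ Icc 1 N, α j := ⟨_, rfl⟩
  obtain ⟨b, hbd⟩ : ∃ b, b = ∑ j ∈ Icc 1 N, β j := ⟨_, rfl⟩
  unfold tot at tX tY
  rw [← hxd] at hx tX
  rw [← hyd] at hy tY
  rw [← had, ← hbd]
  have hx0 : 0 ≤ x := by
    rw [hxd]
    exact Finset.sum_nonneg fun i _ => h.X0 i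
  have hy0 : 0 ≤ y := by
    rw [hyd]
    exact Finset.sum_nonneg fun i _ => h.Y0 i
  have ha0 : 0 ≤ a := by
    rw [had]
    exact Finset.sum_nonneg fun i _ => h.α0 i
  have hb0 : 0 ≤ b := by
    rw [hbd]
    exact Finset.sum_nonneg fun i _ => h.β0 i
  have hx1 : x ≤ 1 := hx.trans (by norm_num)
  have hy1 : y ≤ 1 := hy.trans (by norm_num)
  have hX0 : X 0 ≤ 1 - x := by
    have := mul_nonneg h.τ0 hx0
    linarith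
  have hY0 : Y 0 ≤ 1 - y := by
    have := mul_nonneg h.τ0 hy0
    linarith
  have hE0 : 0 ≤ (x * y) ^ (9 / 16 : ℝ) := Real.rpow_nonneg (mul_nonneg hx0 hy0) _
  -- the diagonal term
  have hP := LLb_term N X Y x y (1 - x) (1 - y) h.X0 h.Y0 hxd.ge hyd.ge hx1 hy1 hX0 hY0
    (by linarith) (by linarith)
  -- the off diagonal terms
  have hQ : ∑ j ∈ Icc 1 N, (α j) ^ (1 / 4 : ℝ) *
      (∑ i ∈ range N, (X (i + j) * Y i) ^ (9 / 16 : ℝ)) ^ (4 / 3 : ℝ) ≤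
      (1 - y) ^ (3 / 4 : ℝ) * (a ^ (1 / 4 : ℝ) * x ^ (3 / 4 : ℝ)) + 4 * (x * y) ^ (9 / 16 : ℝ) := by
    have h1 : ∀ j ∈ Icc 1 N, (α j) ^ (1 / 4 : ℝ) *
        (∑ i ∈ range N, (X (i + j) * Y i) ^ (9 / 16 : ℝ)) ^ (4 / 3 : ℝ) ≤
        (1 - y) ^ (3 / 4 : ℝ) * ((α j) ^ (1 / 4 : ℝ) * (X j) ^ (3 / 4 : ℝ)) +
          4 * (x * y) ^ (9 / 16 : ℝ) * (α j) ^ (1 / 4 : ℝ) := by
      intro j hj
      have hXj : X j ≤ x := by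
        rw [hxd]
        exact Finset.single_le_sum (f := X) (fun i _ => h.X0 i) hj
      have h2 := LLb_term N (fun i => X (i + j)) Y x y (X j) (1 - y) (fun i => h.X0 _) h.Y0
        ((LLb_shift N j X h.X0 h.XN).trans hxd.ge) hyd.ge hx1 hy1 (by rw [zero_add]) hY0
        (hXj.trans hx1) (by linarith)
      have h3 := mul_le_mul_of_nonneg_left h2 (Real.rpow_nonneg (h.α0 j) (1 / 4 : ℝ))
      refine h3.trans (le_of_eq ?_)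
      ring
    refine (Finset.sum_le_sum h1).trans ?_
    rw [Finset.sum_add_distrib, ← Finset.mul_sum, ← Finset.mul_sum]
    have h4 := ll_p4 (Icc 1 N) α X (fun i _ => h.α0 i) (fun i _ => h.X0 i)
    rw [← had, ← hxd] at h4
    refine add_le_add (mul_le_mul_of_nonneg_left h4 (Real.rpow_nonneg (by linarith) _)) ?_
    calc 4 * (x * y) ^ (9 / 16 : ℝ) * ∑ j ∈ Icc 1 N, (α j) ^ (1 / 4 : ℝ)
        ≤ 4 * (x * y) ^ (9 / 16 : ℝ) * 1 := mul_le_mul_of_nonneg_left hα (by positivity)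
      _ = _ := mul_one _
  have hR : ∑ j ∈ Icc 1 N, (β j) ^ (1 / 4 : ℝ) *
      (∑ i ∈ range N, (X i * Y (i + j)) ^ (9 / 16 : ℝ)) ^ (4 / 3 : ℝ) ≤
      (1 - x) ^ (3 / 4 : ℝ) * (b ^ (1 / 4 : ℝ) * y ^ (3 / 4 : ℝ)) + 4 * (x * y) ^ (9 / 16 : ℝ) := by
    have h1 : ∀ j ∈ Icc 1 N, (β j) ^ (1 / 4 : ℝ) *
        (∑ i ∈ range N, (X i * Y (i + j)) ^ (9 / 16 : ℝ)) ^ (4 / 3 : ℝ) ≤
        (1 - x) ^ (3 / 4 : ℝ) * ((β j) ^ (1 / 4 : ℝ) * (Y j) ^ (3 / 4 : ℝ)) +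
          4 * (x * y) ^ (9 / 16 : ℝ) * (β j) ^ (1 / 4 : ℝ) := by
      intro j hj
      have hYj : Y j ≤ y := by
        rw [hyd]
        exact Finset.single_le_sum (f := Y) (fun i _ => h.Y0 i) hj
      have h2 := LLb_term N X (fun i => Y (i + j)) x y (1 - x) (Y j) h.X0 (fun i => h.Y0 _)
        hxd.ge ((LLb_shift N j Y h.Y0 h.YN).trans hyd.ge) hx1 hy1 hX0 (by rw [zero_add])
        (by linarith) (hYj.trans hy1)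
      have h3 := mul_le_mul_of_nonneg_left h2 (Real.rpow_nonneg (h.β0 j) (1 / 4 : ℝ))
      refine h3.trans (le_of_eq ?_)
      ring
    refine (Finset.sum_le_sum h1).trans ?_
    rw [Finset.sum_add_distrib, ← Finset.mul_sum, ← Finset.mul_sum]
    have h4 := ll_p4 (Icc 1 N) β Y (fun i _ => h.β0 i) (fun i _ => h.Y0 i)
    rw [← hbd, ← hyd] at h4
    refine add_le_add (mul_le_mul_of_nonneg_left h4 (Real.rpow_nonneg (by linarith) _)) ?_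
    calc 4 * (x * y) ^ (9 / 16 : ℝ) * ∑ j ∈ Icc 1 N, (β j) ^ (1 / 4 : ℝ)
        ≤ 4 * (x * y) ^ (9 / 16 : ℝ) * 1 := mul_le_mul_of_nonneg_left hβ (by positivity)
      _ = _ := mul_one _
  obtain ⟨p, hp0, hp1, hp2, hp3⟩ := LLb_one hx0 hx ha0
  obtain ⟨q, hq0, hq1, hq2, hq3⟩ := LLb_one hy0 hy hb0
  have hxy := LLb_xy hx0 hy0
  have hA : 1 ≤ (1 + a) ^ (1 / 4 : ℝ) := Real.one_le_rpow (by linarith) (by norm_num)
  have hB : 1 ≤ (1 + b) ^ (1 / 4 : ℝ) := Real.one_le_rpow (by linarith) (by norm_num)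
  generalize (1 + a) ^ (1 / 4 : ℝ) = A at *
  generalize (1 + b) ^ (1 / 4 : ℝ) = B at *
  have n1 : 0 ≤ (1 - x) ^ (3 / 4 : ℝ) := Real.rpow_nonneg (by linarith) _
  have n2 : 0 ≤ (1 - y) ^ (3 / 4 : ℝ) := Real.rpow_nonneg (by linarith) _
  have n3 : 0 ≤ a ^ (1 / 4 : ℝ) * x ^ (3 / 4 : ℝ) :=
    mul_nonneg (Real.rpow_nonneg ha0 _) (Real.rpow_nonneg hx0 _)
  have n4 : 0 ≤ b ^ (1 / 4 : ℝ) * y ^ (3 / 4 : ℝ) :=
    mul_nonneg (Real.rpow_nonneg hb0 _) (Real.rpow_nonneg hy0 _)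
  unfold lhs
  generalize (1 - x) ^ (3 / 4 : ℝ) = u1 at *
  generalize (1 - y) ^ (3 / 4 : ℝ) = u2 at *
  generalize a ^ (1 / 4 : ℝ) * x ^ (3 / 4 : ℝ) = u3 at *
  generalize b ^ (1 / 4 : ℝ) * y ^ (3 / 4 : ℝ) = u4 at *
  have hprod : (u1 + u3) * (u2 + u4) ≤ A * (1 - p) * (B * (1 - q)) :=
    mul_le_mul hp2 hq2 (by linarith) (mul_nonneg (by linarith) (by linarith))
  have hAB : 1 ≤ A * B := one_le_mul_of_one_le_of_one_le hA hB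
  have hpq : (1 - p) * (1 - q) ≤ 1 - (p + q) / 2 := by nlinarith
  have h8 : A * (1 - p) * (B * (1 - q)) ≤ A * B - (p + q) / 2 := by
    have h9 : A * B * ((1 - p) * (1 - q)) ≤ A * B * (1 - (p + q) / 2) :=
      mul_le_mul_of_nonneg_left hpq (by linarith)
    have h10 : 1 * ((p + q) / 2) ≤ A * B * ((p + q) / 2) :=
      mul_le_mul_of_nonneg_right hAB (by linarith)
    have e1 : A * (1 - p) * (B * (1 - q)) = A * B * ((1 - p) * (1 - q)) := by ring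
    have e2 : A * B * (1 - (p + q) / 2) = A * B - A * B * ((p + q) / 2) := by ring
    rw [e1]
    rw [e2] at h9
    linarith
  have h9 : u1 * u2 + u2 * u3 + u1 * u4 ≤ (u1 + u3) * (u2 + u4) := by
    have e1 : (u1 + u3) * (u2 + u4) = u1 * u2 + u2 * u3 + u1 * u4 + u3 * u4 := by ring
    rw [e1]
    have := mul_nonneg n3 n4
    linarith
  have h11 : (u1 + u3) * (u2 + u4) ≤ A * B - (p + q) / 2 := hprod.trans h8
  clear hpq h8 hAB hA hB hprod n1 n2 n3 n4 hp2 hq2 hα hβ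
  have e3 : 12 * 51 ^ (9 / 8 : ℝ) * (a ^ (9 / 8 : ℝ) + b ^ (9 / 8 : ℝ)) =
      12 * 51 ^ (9 / 8 : ℝ) * a ^ (9 / 8 : ℝ) + 12 * 51 ^ (9 / 8 : ℝ) * b ^ (9 / 8 : ℝ) := by ring
  rw [e3]
  refine (add_le_add (add_le_add hP hQ) hR).trans ?_
  linarith

end Pool.Agent.H2D
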