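import Mathlib
import Pool.Agent.Lib.H2D.Defs
import Pool.Agent.Lib.H2D.LLa

set_option autoImplicit false

/-!
# H2D chunk A3: local lemma, concentration at the same index `k ≥ 1`

Notation: `k ≥ 1`, `x = ∑_{i ≠ k} X_i ≤ η₀`, `y = ∑_{i ≠ k} Y_i ≤ η₀`, `a = ∑ α_j`, `b = ∑ β_j`,
`∑ α_j^(1/4) ≤ 1`, `∑ β_j^(1/4) ≤ 1`, `0 ≤ τ ≤ 1`.

Proof. From `tot ≤ 1`: `(1+τ) X_k + x ≤ 1`, so `X_k ≤ (1-x)/(1+τ)`, same for `Y`.
`P = ∑_i (X_i Y_i)^u ≤ (X_k Y_k)^u + (x y)^u` (`ll_p1`), so by `ll_p2`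
`P^θ ≤ (X_k Y_k)^(3/4) + 4 (x y)^u ≤ (1+τ)^(-3/2) ((1-x)(1-y))^(3/4) + 4 (x y)^u
  ≤ (1 - τ/2)(1 - (3/4) x)(1 - (3/4) y) + 4 (x y)^u`
(`(1+τ)^(-3/2) ≤ (1+τ)^(-1) ≤ 1 - τ/2` for `τ ≤ 1`).
`Q_j = ∑_i (X_{i+j} Y_i)^u ≤ (X_{k+j} Y_k)^u + [j ≤ k] (X_k Y_{k-j})^u + (x y)^u` (for the terms
with `i ≠ k`, `i + j ≠ k` use `ll_p1`: `∑ X_{i+j} ≤ x`, `∑ Y_i ≤ y`), so by `ll_p3`
`Q_j^θ ≤ 3 (X_{k+j}^(3/4) + [j ≤ k] Y_{k-j}^(3/4) + (x y)^u)`, and by `ll_p4`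
`∑_j α_j^(1/4) Q_j^θ ≤ 3 (a^(1/4) x^(3/4) + a^(1/4) y^(3/4) + (x y)^u)`. Same for `β`:
`∑_j β_j^(1/4) R_j^θ ≤ 3 (b^(1/4) y^(3/4) + b^(1/4) x^(3/4) + (x y)^u)`.
Young: `3 a^(1/4) x^(3/4) ≤ (3/128) x + D₁ a` (e.g. `a^(1/4) x^(3/4) = (a t³)^(1/4) (x/t)^(3/4)
  ≤ a t³/4 + (3/4) x/t`, `t = 96`). `(x y)^u ≤ x^(9/8) + y^(9/8)`, and `10 x^(9/8) ≤ (3/64) x` for
`x ≤ η₀` small. Total:
`lhs ≤ (1 - τ/2)(1 - (3/4)x)(1 - (3/4)y) + (3/64)(x+y) + 2 D₁ (a+b) + (3/64)(x+y)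
    ≤ 1 - τ/2 + 2 D₁ (a + b)`
since `(1 - τ/2)(1-(3/4)x)(1-(3/4)y) ≤ 1 - τ/2 - (1/2)(3/8)(x+y)` (as `1 - τ/2 ≥ 1/2`,
`(1-p)(1-q) ≤ 1 - (p+q)/2`).
-/

namespace Pool.Agent.H2D

open Finset

/-- general facts on the residual sums -/
theorem llc_sum_shift (N : ℕ) (X : ℕ → ℝ) (X0 : ∀ i, 0 ≤ X i) (XN : ∀ i, N ≤ i → X i = 0) (k : ℕ)
    (T : Finset ℕ) (φ : ℕ → ℕ) (hφ : Set.InjOn φ T) (hk : ∀ i ∈ T, φ i ≠ k) :
    ∑ i ∈ T, X (φ i) ≤ ∑ i ∈ (range N).erase k, X i := by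
  classical
  rw [← Finset.sum_image (f := X) (s := T) (g := φ) hφ]
  calc ∑ m ∈ T.image φ, X m = ∑ m ∈ (T.image φ).filter (fun m => m < N), X m := by
        rw [Finset.sum_filter_of_ne]
        intro m _ hm
        by_contra hcon
        exact hm (XN m (not_lt.1 hcon))
    _ ≤ ∑ i ∈ (range N).erase k, X i := by
        apply Finset.sum_le_sum_of_subset_of_nonneg
        · intro m hm
          simp only [Finset.mem_filter, Finset.mem_image] at hm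
          obtain ⟨⟨i, hi, rfl⟩, h2⟩ := hm
          simp only [Finset.mem_erase, Finset.mem_range]
          exact ⟨hk i hi, h2⟩
        · intro m _ _
          exact X0 m

theorem llc_rpow_u (z : ℝ) (hz : 0 ≤ z) : (z ^ (9 / 16 : ℝ)) ^ (4 / 3 : ℝ) = z ^ (3 / 4 : ℝ) := by
  rw [← Real.rpow_mul hz]
  norm_num

/-- cross sums -/
theorem llc_cross (N : ℕ) (X Y α : ℕ → ℝ) (X0 : ∀ i, 0 ≤ X i) (Y0 : ∀ i, 0 ≤ Y i)
    (XN : ∀ i, N ≤ i → X i = 0) (YN : ∀ i, N ≤ i → Y i = 0) (α0 : ∀ i, 0 ≤ α i)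
    (k : ℕ) (hkN : k < N) (hXk : X k ≤ 1) (hYk : Y k ≤ 1)
    (x y a : ℝ) (hx : ∑ i ∈ (range N).erase k, X i = x) (hy : ∑ i ∈ (range N).erase k, Y i = y)
    (ha : ∑ j ∈ Icc 1 N, α j = a) (hx1 : x ≤ 1) (hy1 : y ≤ 1)
    (hα : ∑ j ∈ Icc 1 N, (α j) ^ (1 / 4 : ℝ) ≤ 1) :
    ∑ j ∈ Icc 1 N, (α j) ^ (1 / 4 : ℝ) *
      (∑ i ∈ range N, (X (i + j) * Y i) ^ (9 / 16 : ℝ)) ^ (4 / 3 : ℝ) ≤
      3 * (a ^ (1 / 4 : ℝ) * x ^ (3 / 4 : ℝ) + a ^ (1 / 4 : ℝ) * y ^ (3 / 4 : ℝ) +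
        x ^ (9 / 16 : ℝ) * y ^ (9 / 16 : ℝ)) := by
  classical
  have hx0 : 0 ≤ x := by rw [← hx]; exact Finset.sum_nonneg (fun i _ => X0 i)
  have hy0 : 0 ≤ y := by rw [← hy]; exact Finset.sum_nonneg (fun i _ => Y0 i)
  set Z : ℕ → ℝ := fun j => if j ≤ k then Y (k - j) else 0 with hZ
  have hZ0 : ∀ j, 0 ≤ Z j := by
    intro j
    simp only [hZ]
    split_ifs
    · exact Y0 _
    · exact le_refl _
  have hq0 : 0 ≤ x ^ (9 / 16 : ℝ) * y ^ (9 / 16 : ℝ) := by positivity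
  have hq1 : x ^ (9 / 16 : ℝ) * y ^ (9 / 16 : ℝ) ≤ 1 := by
    have h1 : x ^ (9 / 16 : ℝ) ≤ 1 := Real.rpow_le_one hx0 hx1 (by norm_num)
    have h2 : y ^ (9 / 16 : ℝ) ≤ 1 := Real.rpow_le_one hy0 hy1 (by norm_num)
    calc _ ≤ 1 * 1 := mul_le_mul h1 h2 (by positivity) (by norm_num)
      _ = 1 := one_mul _
  -- one term
  have hterm : ∀ j ∈ Icc 1 N, (∑ i ∈ range N, (X (i + j) * Y i) ^ (9 / 16 : ℝ)) ^ (4 / 3 : ℝ) ≤
      3 * ((X (k + j)) ^ (3 / 4 : ℝ) + (Z j) ^ (3 / 4 : ℝ) +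
        x ^ (9 / 16 : ℝ) * y ^ (9 / 16 : ℝ)) := by
    intro j hj
    have hj1 : 1 ≤ j := (Finset.mem_Icc.1 hj).1
    have hkr : k ∈ range N := Finset.mem_range.2 hkN
    set F : ℕ → ℝ := fun i => (X (i + j) * Y i) ^ (9 / 16 : ℝ) with hF
    have hF0 : ∀ i, 0 ≤ F i := fun i => Real.rpow_nonneg (mul_nonneg (X0 _) (Y0 _)) _
    have e1 : ∑ i ∈ range N, F i = F k + ∑ i ∈ (range N).erase k, F i :=
      (Finset.add_sum_erase _ _ hkr).symm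
    have e2 : ∑ i ∈ (range N).erase k, F i =
        ∑ i ∈ ((range N).erase k).filter (fun i => i + j = k), F i +
        ∑ i ∈ ((range N).erase k).filter (fun i => ¬ i + j = k), F i :=
      (Finset.sum_filter_add_sum_filter_not _ _ _).symm
    have h1 : F k ≤ (X (k + j)) ^ (9 / 16 : ℝ) := by
      apply Real.rpow_le_rpow (mul_nonneg (X0 _) (Y0 _)) _ (by norm_num)
      calc X (k + j) * Y k ≤ X (k + j) * 1 := mul_le_mul_of_nonneg_left hYk (X0 _)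
        _ = X (k + j) := mul_one _
    have h2 : ∑ i ∈ ((range N).erase k).filter (fun i => i + j = k), F i ≤
        (Z j) ^ (9 / 16 : ℝ) := by
      by_cases hjk : j ≤ k
      · have hsub : ((range N).erase k).filter (fun i => i + j = k) ⊆ {k - j} := by
          intro i hi
          simp only [Finset.mem_filter] at hi
          simp only [Finset.mem_singleton]
          omega
        calc _ ≤ ∑ i ∈ ({k - j} : Finset ℕ), F i :=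
              Finset.sum_le_sum_of_subset_of_nonneg hsub (fun i _ _ => hF0 i)
          _ = F (k - j) := Finset.sum_singleton _ _
          _ ≤ (Z j) ^ (9 / 16 : ℝ) := by
              simp only [hF, hZ, if_pos hjk]
              rw [Nat.sub_add_cancel hjk]
              apply Real.rpow_le_rpow (mul_nonneg (X0 _) (Y0 _)) _ (by norm_num)
              calc X k * Y (k - j) ≤ 1 * Y (k - j) := mul_le_mul_of_nonneg_right hXk (Y0 _)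
                _ = Y (k - j) := one_mul _
      · have hemp : ((range N).erase k).filter (fun i => i + j = k) = ∅ := by
          apply Finset.filter_eq_empty_iff.2
          intro i _ h
          omega
        rw [hemp, Finset.sum_empty]
        exact Real.rpow_nonneg (hZ0 j) _
    have h3 : ∑ i ∈ ((range N).erase k).filter (fun i => ¬ i + j = k), F i ≤
        x ^ (9 / 16 : ℝ) * y ^ (9 / 16 : ℝ) := by
      refine le_trans (ll_p1 _ (fun i => X (i + j)) Y (fun i _ => X0 _) (fun i _ => Y0 _)) ?_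
      apply mul_le_mul
      · apply Real.rpow_le_rpow (Finset.sum_nonneg (fun i _ => X0 _)) _ (by norm_num)
        rw [← hx]
        apply llc_sum_shift N X X0 XN k _ (fun i => i + j)
        · intro a _ b _ hab
          simpa using hab
        · intro i hi
          simp only [Finset.mem_filter] at hi
          exact hi.2
      · apply Real.rpow_le_rpow (Finset.sum_nonneg (fun i _ => Y0 _)) _ (by norm_num)
        rw [← hy]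
        exact Finset.sum_le_sum_of_subset_of_nonneg (Finset.filter_subset _ _)
          (fun i _ _ => Y0 i)
      · exact Real.rpow_nonneg (Finset.sum_nonneg (fun i _ => Y0 _)) _
      · positivity
    have hsum : ∑ i ∈ range N, F i ≤ (X (k + j)) ^ (9 / 16 : ℝ) + (Z j) ^ (9 / 16 : ℝ) +
        x ^ (9 / 16 : ℝ) * y ^ (9 / 16 : ℝ) := by
      rw [e1, e2]
      linarith
    calc (∑ i ∈ range N, F i) ^ (4 / 3 : ℝ) ≤
          ((X (k + j)) ^ (9 / 16 : ℝ) + (Z j) ^ (9 / 16 : ℝ) +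
        x ^ (9 / 16 : ℝ) * y ^ (9 / 16 : ℝ)) ^ (4 / 3 : ℝ) :=
          Real.rpow_le_rpow (Finset.sum_nonneg (fun i _ => hF0 i)) hsum (by norm_num)
      _ ≤ 3 * (((X (k + j)) ^ (9 / 16 : ℝ)) ^ (4 / 3 : ℝ) + ((Z j) ^ (9 / 16 : ℝ)) ^ (4 / 3 : ℝ) +
        x ^ (9 / 16 : ℝ) * y ^ (9 / 16 : ℝ)) :=
          ll_p3 (Real.rpow_nonneg (X0 _) _) (Real.rpow_nonneg (hZ0 _) _) hq0 hq1
      _ = _ := by rw [llc_rpow_u _ (X0 _), llc_rpow_u _ (hZ0 _)]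
  have hXs : ∑ j ∈ Icc 1 N, X (k + j) ≤ x := by
    rw [← hx]
    apply llc_sum_shift N X X0 XN k _ (fun j => k + j)
    · intro a _ b _ hab
      simpa using hab
    · intro j hj
      have := (Finset.mem_Icc.1 hj).1
      omega
  have hZs : ∑ j ∈ Icc 1 N, Z j ≤ y := by
    have : ∑ j ∈ Icc 1 N, Z j = ∑ j ∈ (Icc 1 N).filter (fun j => j ≤ k), Y (k - j) := by
      simp only [hZ]
      rw [Finset.sum_filter]
    rw [this, ← hy]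
    apply llc_sum_shift N Y Y0 YN k _ (fun j => k - j)
    · intro a ha b hb hab
      simp only [Finset.coe_filter, Finset.mem_Icc, Set.mem_ofPred_eq] at ha hb
      simp only at hab
      omega
    · intro j hj
      simp only [Finset.mem_filter, Finset.mem_Icc] at hj
      omega
  calc ∑ j ∈ Icc 1 N, (α j) ^ (1 / 4 : ℝ) *
      (∑ i ∈ range N, (X (i + j) * Y i) ^ (9 / 16 : ℝ)) ^ (4 / 3 : ℝ)
      ≤ ∑ j ∈ Icc 1 N, (α j) ^ (1 / 4 : ℝ) * (3 * ((X (k + j)) ^ (3 / 4 : ℝ) +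
        (Z j) ^ (3 / 4 : ℝ) + x ^ (9 / 16 : ℝ) * y ^ (9 / 16 : ℝ))) := by
        apply Finset.sum_le_sum
        intro j hj
        exact mul_le_mul_of_nonneg_left (hterm j hj) (Real.rpow_nonneg (α0 j) _)
    _ = 3 * (∑ j ∈ Icc 1 N, (α j) ^ (1 / 4 : ℝ) * (X (k + j)) ^ (3 / 4 : ℝ) +
        ∑ j ∈ Icc 1 N, (α j) ^ (1 / 4 : ℝ) * (Z j) ^ (3 / 4 : ℝ) +
        (∑ j ∈ Icc 1 N, (α j) ^ (1 / 4 : ℝ)) * (x ^ (9 / 16 : ℝ) * y ^ (9 / 16 : ℝ))) := by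
        rw [Finset.sum_mul, ← Finset.sum_add_distrib, ← Finset.sum_add_distrib, Finset.mul_sum]
        apply Finset.sum_congr rfl
        intro j _
        ring
    _ ≤ 3 * (a ^ (1 / 4 : ℝ) * x ^ (3 / 4 : ℝ) + a ^ (1 / 4 : ℝ) * y ^ (3 / 4 : ℝ) +
        x ^ (9 / 16 : ℝ) * y ^ (9 / 16 : ℝ)) := by
        have ha0 : 0 ≤ a := by rw [← ha]; exact Finset.sum_nonneg (fun i _ => α0 i)
        have g1 : ∑ j ∈ Icc 1 N, (α j) ^ (1 / 4 : ℝ) * (X (k + j)) ^ (3 / 4 : ℝ) ≤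
            a ^ (1 / 4 : ℝ) * x ^ (3 / 4 : ℝ) := by
          refine le_trans (ll_p4 _ α (fun j => X (k + j)) (fun i _ => α0 i) (fun i _ => X0 _)) ?_
          rw [ha]
          apply mul_le_mul_of_nonneg_left _ (Real.rpow_nonneg ha0 _)
          exact Real.rpow_le_rpow (Finset.sum_nonneg (fun i _ => X0 _)) hXs (by norm_num)
        have g2 : ∑ j ∈ Icc 1 N, (α j) ^ (1 / 4 : ℝ) * (Z j) ^ (3 / 4 : ℝ) ≤
            a ^ (1 / 4 : ℝ) * y ^ (3 / 4 : ℝ) := by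
          refine le_trans (ll_p4 _ α Z (fun i _ => α0 i) (fun i _ => hZ0 _)) ?_
          rw [ha]
          apply mul_le_mul_of_nonneg_left _ (Real.rpow_nonneg ha0 _)
          exact Real.rpow_le_rpow (Finset.sum_nonneg (fun i _ => hZ0 _)) hZs (by norm_num)
        have g3 : (∑ j ∈ Icc 1 N, (α j) ^ (1 / 4 : ℝ)) * (x ^ (9 / 16 : ℝ) * y ^ (9 / 16 : ℝ)) ≤
            1 * (x ^ (9 / 16 : ℝ) * y ^ (9 / 16 : ℝ)) := mul_le_mul_of_nonneg_right hα hq0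
        linarith

/-- the main sum -/
theorem llc_main (N : ℕ) (X Y : ℕ → ℝ) (X0 : ∀ i, 0 ≤ X i) (Y0 : ∀ i, 0 ≤ Y i)
    (k : ℕ) (hkN : k < N) (hXk : X k ≤ 1) (hYk : Y k ≤ 1)
    (x y : ℝ) (hx : ∑ i ∈ (range N).erase k, X i = x) (hy : ∑ i ∈ (range N).erase k, Y i = y)
    (hx1 : x ≤ 1) (hy1 : y ≤ 1) :
    (∑ i ∈ range N, (X i * Y i) ^ (9 / 16 : ℝ)) ^ (4 / 3 : ℝ) ≤
      (X k * Y k) ^ (3 / 4 : ℝ) + 4 * (x ^ (9 / 16 : ℝ) * y ^ (9 / 16 : ℝ)) := by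
  have hx0 : 0 ≤ x := by rw [← hx]; exact Finset.sum_nonneg (fun i _ => X0 i)
  have hy0 : 0 ≤ y := by rw [← hy]; exact Finset.sum_nonneg (fun i _ => Y0 i)
  have hq0 : 0 ≤ x ^ (9 / 16 : ℝ) * y ^ (9 / 16 : ℝ) := by positivity
  have hq1 : x ^ (9 / 16 : ℝ) * y ^ (9 / 16 : ℝ) ≤ 1 := by
    have h1 : x ^ (9 / 16 : ℝ) ≤ 1 := Real.rpow_le_one hx0 hx1 (by norm_num)
    have h2 : y ^ (9 / 16 : ℝ) ≤ 1 := Real.rpow_le_one hy0 hy1 (by norm_num)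
    calc _ ≤ 1 * 1 := mul_le_mul h1 h2 (by positivity) (by norm_num)
      _ = 1 := one_mul _
  have hXY0 : 0 ≤ X k * Y k := mul_nonneg (X0 _) (Y0 _)
  have hXY1 : X k * Y k ≤ 1 := by
    calc _ ≤ 1 * 1 := mul_le_mul hXk hYk (Y0 _) (by norm_num)
      _ = 1 := one_mul _
  have hkr : k ∈ range N := Finset.mem_range.2 hkN
  have e1 : ∑ i ∈ range N, (X i * Y i) ^ (9 / 16 : ℝ) =
      (X k * Y k) ^ (9 / 16 : ℝ) + ∑ i ∈ (range N).erase k, (X i * Y i) ^ (9 / 16 : ℝ) :=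
    (Finset.add_sum_erase _ _ hkr).symm
  have h1 : ∑ i ∈ (range N).erase k, (X i * Y i) ^ (9 / 16 : ℝ) ≤
      x ^ (9 / 16 : ℝ) * y ^ (9 / 16 : ℝ) := by
    have := ll_p1 ((range N).erase k) X Y (fun i _ => X0 i) (fun i _ => Y0 i)
    rw [hx, hy] at this
    exact this
  calc (∑ i ∈ range N, (X i * Y i) ^ (9 / 16 : ℝ)) ^ (4 / 3 : ℝ)
      ≤ ((X k * Y k) ^ (9 / 16 : ℝ) + x ^ (9 / 16 : ℝ) * y ^ (9 / 16 : ℝ)) ^ (4 / 3 : ℝ) := by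
        apply Real.rpow_le_rpow _ _ (by norm_num)
        · exact Finset.sum_nonneg (fun i _ => Real.rpow_nonneg (mul_nonneg (X0 _) (Y0 _)) _)
        · rw [e1]; linarith
    _ ≤ ((X k * Y k) ^ (9 / 16 : ℝ)) ^ (4 / 3 : ℝ) +
        4 * (x ^ (9 / 16 : ℝ) * y ^ (9 / 16 : ℝ)) := by
        apply ll_p2 (Real.rpow_nonneg hXY0 _) hq0 _ hq1
        exact Real.rpow_le_one hXY0 hXY1 (by norm_num)
    _ = _ := by rw [llc_rpow_u _ hXY0]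

theorem llc_uv (x y : ℝ) (hx : 0 ≤ x) (hy : 0 ≤ y) :
    x ^ (9 / 16 : ℝ) * y ^ (9 / 16 : ℝ) ≤ x ^ (9 / 8 : ℝ) + y ^ (9 / 8 : ℝ) := by
  have e : ∀ z : ℝ, 0 ≤ z → z ^ (9 / 8 : ℝ) = (z ^ (9 / 16 : ℝ)) ^ 2 := by
    intro z hz
    rw [← Real.rpow_natCast, ← Real.rpow_mul hz]
    norm_num
  rw [e x hx, e y hy]
  have h1 : 0 ≤ x ^ (9 / 16 : ℝ) := Real.rpow_nonneg hx _
  have h2 : 0 ≤ y ^ (9 / 16 : ℝ) := Real.rpow_nonneg hy _
  nlinarith [sq_nonneg (x ^ (9 / 16 : ℝ) - y ^ (9 / 16 : ℝ))]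

theorem llc_small (x : ℝ) (hx : 0 ≤ x) (h : x ≤ (1 / 256 : ℝ) ^ 8) :
    x ^ (9 / 8 : ℝ) ≤ x / 256 := by
  have e : x ^ (9 / 8 : ℝ) = x * x ^ (1 / 8 : ℝ) := by
    rcases hx.eq_or_lt with h0 | h0
    · rw [← h0, Real.zero_rpow (by norm_num), zero_mul]
    · have : (9 / 8 : ℝ) = 1 + 1 / 8 := by norm_num
      rw [this, Real.rpow_add h0, Real.rpow_one]
  have h2 : x ^ (1 / 8 : ℝ) ≤ 1 / 256 := by
    calc x ^ (1 / 8 : ℝ) ≤ ((1 / 256 : ℝ) ^ 8) ^ (1 / 8 : ℝ) :=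
          Real.rpow_le_rpow hx h (by norm_num)
      _ = 1 / 256 := by
          rw [← Real.rpow_natCast, ← Real.rpow_mul (by norm_num)]
          norm_num
  rw [e]
  calc x * x ^ (1 / 8 : ℝ) ≤ x * (1 / 256) := mul_le_mul_of_nonneg_left h2 hx
    _ = x / 256 := by ring

/-- Young -/
theorem llc_young (a x : ℝ) (ha : 0 ≤ a) (hx : 0 ≤ x) :
    3 * (a ^ (1 / 4 : ℝ) * x ^ (3 / 4 : ℝ)) ≤ 3 / 128 * x + 663552 * a := by
  have h := Real.geom_mean_le_arith_mean2_weighted (w₁ := 1 / 4) (w₂ := 3 / 4) (p₁ := a * 96 ^ 3)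
    (p₂ := x / 96) (by norm_num) (by norm_num) (by positivity) (by positivity) (by norm_num)
  have e1 : (a * 96 ^ 3) ^ (1 / 4 : ℝ) * (x / 96) ^ (3 / 4 : ℝ) =
      a ^ (1 / 4 : ℝ) * x ^ (3 / 4 : ℝ) := by
    rw [Real.mul_rpow ha (by norm_num), Real.div_rpow hx (by norm_num)]
    have e2 : ((96 : ℝ) ^ 3) ^ (1 / 4 : ℝ) = (96 : ℝ) ^ (3 / 4 : ℝ) := by
      rw [← Real.rpow_natCast, ← Real.rpow_mul (by norm_num)]
      norm_num
    rw [e2]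
    have h96 : (0 : ℝ) < (96 : ℝ) ^ (3 / 4 : ℝ) := by positivity
    field_simp
  rw [e1] at h
  linarith

theorem LL_pos : ∃ η D : ℝ, 0 < η ∧ η < 1 ∧ 0 < D ∧
    ∀ (N : ℕ) (X Y α β : ℕ → ℝ) (τ : ℝ), LH N X Y α β τ →
      tot N τ X ≤ 1 → tot N τ Y ≤ 1 →
      ∑ j ∈ Icc 1 N, (α j) ^ (1 / 4 : ℝ) ≤ 1 → ∑ j ∈ Icc 1 N, (β j) ^ (1 / 4 : ℝ) ≤ 1 →
      ∀ k : ℕ, 1 ≤ k → k < N →
      ∑ i ∈ (range N).erase k, X i ≤ η → ∑ i ∈ (range N).erase k, Y i ≤ η →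
      lhs N X Y α β ≤ 1 - τ / 2 + D * (∑ j ∈ Icc 1 N, α j + ∑ j ∈ Icc 1 N, β j) := by
  refine ⟨(1 / 256) ^ 8, 1327104, by norm_num, by norm_num, by norm_num, ?_⟩
  intro N X Y α β τ h hX hY hα hβ k hk1 hkN hxs hys
  obtain ⟨hN1, X0, Y0, XN, YN, α0, β0, τ0, τ1⟩ := h
  set x := ∑ i ∈ (range N).erase k, X i with hx
  set y := ∑ i ∈ (range N).erase k, Y i with hy
  set a := ∑ j ∈ Icc 1 N, α j with ha
  set b := ∑ j ∈ Icc 1 N, β j with hb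
  have hx0 : 0 ≤ x := Finset.sum_nonneg (fun i _ => X0 i)
  have hy0 : 0 ≤ y := Finset.sum_nonneg (fun i _ => Y0 i)
  have ha0 : 0 ≤ a := Finset.sum_nonneg (fun i _ => α0 i)
  have hb0 : 0 ≤ b := Finset.sum_nonneg (fun i _ => β0 i)
  have hx1 : x ≤ 1 := hxs.trans (by norm_num)
  have hy1 : y ≤ 1 := hys.trans (by norm_num)
  have htot : ∀ Z : ℕ → ℝ, (∀ i, 0 ≤ Z i) → tot N τ Z ≤ 1 →
      (1 + τ) * Z k + ∑ i ∈ (range N).erase k, Z i ≤ 1 := by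
    intro Z Z0 hZ
    have e1 : ∑ i ∈ range (N + 1), Z i = Z 0 + ∑ i ∈ Icc 1 N, Z i := by
      rw [Finset.sum_range_succ']
      rw [add_comm]
      congr 1
      rw [← Finset.sum_image (f := Z) (s := range N) (g := fun i => i + 1)]
      · congr 1
        ext i
        simp only [Finset.mem_image, Finset.mem_range, Finset.mem_Icc]
        constructor
        · rintro ⟨j, hj, rfl⟩; omega
        · rintro ⟨h1, h2⟩; exact ⟨i - 1, by omega, by omega⟩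
      · intro a _ b _ hab
        simpa using hab
    have e2 : Z k + ∑ i ∈ (range N).erase k, Z i = ∑ i ∈ range N, Z i :=
      Finset.add_sum_erase _ _ (Finset.mem_range.2 hkN)
    have e3 : ∑ i ∈ range N, Z i ≤ ∑ i ∈ range (N + 1), Z i := by
      rw [Finset.sum_range_succ]
      linarith [Z0 N]
    have e4 : Z k ≤ ∑ i ∈ Icc 1 N, Z i := by
      apply Finset.single_le_sum (fun i _ => Z0 i)
      simp only [Finset.mem_Icc]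
      omega
    have e5 : τ * Z k ≤ τ * ∑ i ∈ Icc 1 N, Z i := mul_le_mul_of_nonneg_left e4 τ0
    simp only [tot] at hZ
    nlinarith
  have hX2 := htot X X0 hX
  have hY2 := htot Y Y0 hY
  rw [← hx] at hX2
  rw [← hy] at hY2
  have hXk0 := X0 k
  have hYk0 := Y0 k
  have hXk1 : X k ≤ 1 := by nlinarith [mul_nonneg τ0 hXk0]
  have hYk1 : Y k ≤ 1 := by nlinarith [mul_nonneg τ0 hYk0]
  have hmain := llc_main N X Y X0 Y0 k hkN hXk1 hYk1 x y hx.symm hy.symm hx1 hy1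
  have hc1 := llc_cross N X Y α X0 Y0 XN YN α0 k hkN hXk1 hYk1 x y a hx.symm hy.symm ha.symm
    hx1 hy1 hα
  have hc2 := llc_cross N Y X β Y0 X0 YN XN β0 k hkN hYk1 hXk1 y x b hy.symm hx.symm hb.symm
    hy1 hx1 hβ
  -- main term
  have hτp : (0 : ℝ) < 1 + τ := by linarith
  have hmt : (X k * Y k) ^ (3 / 4 : ℝ) ≤ (1 - τ / 2) * ((1 - 3 / 4 * x) * (1 - 3 / 4 * y)) := by
    have hz : ∀ z w : ℝ, 0 ≤ z → (1 + τ) * z + w ≤ 1 → 0 ≤ w → w ≤ 1 →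
        z ^ (3 / 4 : ℝ) ≤ (1 + τ)⁻¹ ^ (3 / 4 : ℝ) * (1 - 3 / 4 * w) := by
      intro z w hz hzw hw hw1
      have h1 : z ≤ (1 + τ)⁻¹ * (1 - w) := by
        rw [inv_mul_eq_div, le_div_iff₀ hτp]
        linarith
      calc z ^ (3 / 4 : ℝ) ≤ ((1 + τ)⁻¹ * (1 - w)) ^ (3 / 4 : ℝ) :=
            Real.rpow_le_rpow hz h1 (by norm_num)
        _ = (1 + τ)⁻¹ ^ (3 / 4 : ℝ) * (1 - w) ^ (3 / 4 : ℝ) := by
            rw [Real.mul_rpow (by positivity) (by linarith)]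
        _ ≤ (1 + τ)⁻¹ ^ (3 / 4 : ℝ) * (1 - 3 / 4 * w) := by
            apply mul_le_mul_of_nonneg_left _ (by positivity)
            have := rpow_one_add_le_one_add_mul_self (s := -w) (by linarith)
              (p := (3 / 4 : ℝ)) (by norm_num) (by norm_num)
            have e : (1 : ℝ) - w = 1 + -w := by ring
            rw [e]
            linarith
    have hzx := hz (X k) x hXk0 hX2 hx0 hx1
    have hzy := hz (Y k) y hYk0 hY2 hy0 hy1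
    rw [Real.mul_rpow hXk0 hYk0]
    have hinv : (1 + τ)⁻¹ ^ (3 / 4 : ℝ) * (1 + τ)⁻¹ ^ (3 / 4 : ℝ) ≤ 1 - τ / 2 := by
      rw [← Real.rpow_add (by positivity)]
      have h1 : (1 + τ)⁻¹ ^ (3 / 4 + 3 / 4 : ℝ) ≤ (1 + τ)⁻¹ ^ (1 : ℝ) := by
        apply Real.rpow_le_rpow_of_exponent_ge (by positivity)
        · exact inv_le_one_of_one_le₀ (by linarith)
        · norm_num
      rw [Real.rpow_one] at h1
      refine h1.trans ?_
      rw [inv_le_iff_one_le_mul₀ hτp]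
      nlinarith
    calc (X k) ^ (3 / 4 : ℝ) * (Y k) ^ (3 / 4 : ℝ) ≤
          ((1 + τ)⁻¹ ^ (3 / 4 : ℝ) * (1 - 3 / 4 * x)) *
          ((1 + τ)⁻¹ ^ (3 / 4 : ℝ) * (1 - 3 / 4 * y)) := by
          apply mul_le_mul hzx hzy (Real.rpow_nonneg hYk0 _)
          apply mul_nonneg (by positivity) (by linarith)
      _ = ((1 + τ)⁻¹ ^ (3 / 4 : ℝ) * (1 + τ)⁻¹ ^ (3 / 4 : ℝ)) *
          ((1 - 3 / 4 * x) * (1 - 3 / 4 * y)) := by ring
      _ ≤ _ := by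
          apply mul_le_mul_of_nonneg_right hinv
          apply mul_nonneg <;> linarith
  have hy1' := llc_young a x ha0 hx0
  have hy2' := llc_young a y ha0 hy0
  have hy3' := llc_young b x hb0 hx0
  have hy4' := llc_young b y hb0 hy0
  have huv := llc_uv x y hx0 hy0
  have hsx := llc_small x hx0 hxs
  have hsy := llc_small y hy0 hys
  have hfin : (1 - τ / 2) * ((1 - 3 / 4 * x) * (1 - 3 / 4 * y)) ≤ 1 - τ / 2 - 3 / 16 * (x + y) := by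
    have h1 : (1 - 3 / 4 * x) * (1 - 3 / 4 * y) ≤ 1 - 3 / 8 * (x + y) := by
      nlinarith [mul_nonneg hx0 hy0, mul_nonneg hx0 (sub_nonneg.2 hy1),
        mul_nonneg hy0 (sub_nonneg.2 hx1)]
    calc _ ≤ (1 - τ / 2) * (1 - 3 / 8 * (x + y)) :=
          mul_le_mul_of_nonneg_left h1 (by linarith)
      _ ≤ _ := by nlinarith
  have e : lhs N X Y α β = (∑ i ∈ range N, (X i * Y i) ^ (9 / 16 : ℝ)) ^ (4 / 3 : ℝ)
    + ∑ j ∈ Icc 1 N, (α j) ^ (1 / 4 : ℝ) *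
      (∑ i ∈ range N, (X (i + j) * Y i) ^ (9 / 16 : ℝ)) ^ (4 / 3 : ℝ)
    + ∑ j ∈ Icc 1 N, (β j) ^ (1 / 4 : ℝ) *
      (∑ i ∈ range N, (Y (i + j) * X i) ^ (9 / 16 : ℝ)) ^ (4 / 3 : ℝ) := by
    simp only [lhs]
    congr 1
    apply Finset.sum_congr rfl
    intro j _
    congr 2
    apply Finset.sum_congr rfl
    intro i _
    rw [mul_comm (X i)]
  rw [e]
  have hcomm : y ^ (9 / 16 : ℝ) * x ^ (9 / 16 : ℝ) = x ^ (9 / 16 : ℝ) * y ^ (9 / 16 : ℝ) :=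
    mul_comm _ _
  rw [hcomm] at hc2
  linarith

end Pool.Agent.H2D
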