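import Mathlib
import Pool.Agent.Lib.H2D.Defs
import Pool.Agent.Lib.H2D.LLa

set_option autoImplicit false

/-!
# H2D chunk A4: local lemma, non concentrated sequences, and the crude bound

`∑ X_i ≤ tot X ≤ 1`, same for `Y`. By `ll_p1` all `Q_j = ∑_i (X_{i+j} Y_i)^u ≤ 1`, `R_j ≤ 1`, so the two cross
sums are at most `∑ α_j^(1/4) + ∑ β_j^(1/4)`.
* `LL_A`: all `X_i ≤ 1 - η` (or all `Y_i`): `P ≤ (1-η)^(1/16)` (`ll_p1'`), `P^(4/3) ≤ (1-η)^(1/12)`.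
* `LL_B`: `X_i ≥ 1 - η`, `Y_k ≥ 1 - η`, `i ≠ k`: `X_k ≤ η`, `Y_i ≤ η` (sums `≤ 1`);
  `P ≤ (X_i Y_i)^u + ∑_{l ≠ i} (X_l Y_l)^u ≤ η^u + (∑_{l≠i} X_l)^u (∑ Y_l)^u ≤ 2 η^u`.
* `LL_crude`: `P^θ ≤ ((∑ X)(∑ Y))^(3/4)` by `ll_p1`, the same for `Q_j`, `R_j`; `∑ X ≤ tot X`.
-/

namespace Pool.Agent.H2D

open Finset

theorem lld_sh (N j : ℕ) (X : ℕ → ℝ) (h0 : ∀ i, 0 ≤ X i) (hN : ∀ i, N ≤ i → X i = 0) :
    ∑ i ∈ range N, X (i + j) ≤ ∑ i ∈ range N, X i := by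
  have h1 : ∑ i ∈ range (j + N), X i = ∑ i ∈ range j, X i + ∑ i ∈ range N, X (j + i) :=
    Finset.sum_range_add X j N
  have h2 : ∑ i ∈ range (N + j), X i = ∑ i ∈ range N, X i + ∑ i ∈ range j, X (N + i) :=
    Finset.sum_range_add X N j
  have h3 : ∑ i ∈ range j, X (N + i) = 0 := Finset.sum_eq_zero fun i _ => hN _ (Nat.le_add_right N i)
  have h4 : 0 ≤ ∑ i ∈ range j, X i := Finset.sum_nonneg fun i _ => h0 i
  have h5 : ∑ i ∈ range N, X (i + j) = ∑ i ∈ range N, X (j + i) :=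
    Finset.sum_congr rfl fun i _ => by rw [add_comm]
  rw [add_comm N j, h3, add_zero] at h2
  linarith

theorem lld_tot (N : ℕ) (τ : ℝ) (X : ℕ → ℝ) (h0 : ∀ i, 0 ≤ X i) (hN : ∀ i, N ≤ i → X i = 0) (hτ : 0 ≤ τ) :
    ∑ i ∈ range N, X i ≤ tot N τ X := by
  have h1 : range (N + 1) = insert 0 (Icc 1 N) := by
    ext i
    simp only [Finset.mem_range, Finset.mem_insert, Finset.mem_Icc]
    omega
  have h2 : ∑ i ∈ range (N + 1), X i = X 0 + ∑ i ∈ Icc 1 N, X i := by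
    rw [h1, Finset.sum_insert (by simp)]
  rw [Finset.sum_range_succ, hN N le_rfl, add_zero] at h2
  have h3 : 0 ≤ ∑ i ∈ Icc 1 N, X i := Finset.sum_nonneg fun i _ => h0 i
  have h4 := mul_nonneg hτ h3
  unfold tot
  rw [h2]
  linarith

theorem lld_q (s : Finset ℕ) (x y : ℕ → ℝ) (hx : ∀ i ∈ s, 0 ≤ x i) (hy : ∀ i ∈ s, 0 ≤ y i) (a b : ℝ)
    (ha : ∑ i ∈ s, x i ≤ a) (hb : ∑ i ∈ s, y i ≤ b) :
    (∑ i ∈ s, (x i * y i) ^ (9 / 16 : ℝ)) ^ (4 / 3 : ℝ) ≤ (a * b) ^ (3 / 4 : ℝ) := by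
  have hX0 : 0 ≤ ∑ i ∈ s, x i := Finset.sum_nonneg hx
  have hY0 : 0 ≤ ∑ i ∈ s, y i := Finset.sum_nonneg hy
  have h1 := ll_p1 s x y hx hy
  have h2 : ∑ i ∈ s, (x i * y i) ^ (9 / 16 : ℝ) ≤ (a * b) ^ (9 / 16 : ℝ) := by
    refine h1.trans ?_
    rw [Real.mul_rpow (hX0.trans ha) (hY0.trans hb)]
    exact mul_le_mul (Real.rpow_le_rpow hX0 ha (by norm_num)) (Real.rpow_le_rpow hY0 hb (by norm_num))
      (Real.rpow_nonneg hY0 _) (Real.rpow_nonneg (hX0.trans ha) _)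
  have h0 : 0 ≤ ∑ i ∈ s, (x i * y i) ^ (9 / 16 : ℝ) :=
    Finset.sum_nonneg fun i hi => Real.rpow_nonneg (mul_nonneg (hx i hi) (hy i hi)) _
  have h3 := Real.rpow_le_rpow h0 h2 (z := 4 / 3) (by norm_num)
  refine h3.trans (le_of_eq ?_)
  rw [← Real.rpow_mul (mul_nonneg (hX0.trans ha) (hY0.trans hb))]
  norm_num

theorem lld_main (N : ℕ) (X Y α β : ℕ → ℝ) (τ : ℝ) (h : LH N X Y α β τ) (a b P : ℝ)
    (ha : tot N τ X ≤ a) (hb : tot N τ Y ≤ b)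
    (hP : (∑ i ∈ range N, (X i * Y i) ^ (9 / 16 : ℝ)) ^ (4 / 3 : ℝ) ≤ P) :
    lhs N X Y α β ≤ P + (∑ j ∈ Icc 1 N, (α j) ^ (1 / 4 : ℝ)) * (a * b) ^ (3 / 4 : ℝ) +
      (∑ j ∈ Icc 1 N, (β j) ^ (1 / 4 : ℝ)) * (a * b) ^ (3 / 4 : ℝ) := by
  have hXs := (lld_tot N τ X h.X0 h.XN h.τ0).trans ha
  have hYs := (lld_tot N τ Y h.Y0 h.YN h.τ0).trans hb
  unfold lhs
  refine add_le_add (add_le_add hP ?_) ?_
  · rw [Finset.sum_mul]
    refine Finset.sum_le_sum fun j _ => ?_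
    refine mul_le_mul_of_nonneg_left ?_ (Real.rpow_nonneg (h.α0 j) _)
    exact lld_q (range N) (fun i => X (i + j)) Y (fun i _ => h.X0 _) (fun i _ => h.Y0 _) a b
      ((lld_sh N j X h.X0 h.XN).trans hXs) hYs
  · rw [Finset.sum_mul]
    refine Finset.sum_le_sum fun j _ => ?_
    refine mul_le_mul_of_nonneg_left ?_ (Real.rpow_nonneg (h.β0 j) _)
    exact lld_q (range N) X (fun i => Y (i + j)) (fun i _ => h.X0 _) (fun i _ => h.Y0 _) a b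
      hXs ((lld_sh N j Y h.Y0 h.YN).trans hYs)

theorem lld_one (N : ℕ) (X Y α β : ℕ → ℝ) (τ : ℝ) (h : LH N X Y α β τ) (P : ℝ)
    (hX : tot N τ X ≤ 1) (hY : tot N τ Y ≤ 1)
    (hP : (∑ i ∈ range N, (X i * Y i) ^ (9 / 16 : ℝ)) ^ (4 / 3 : ℝ) ≤ P) :
    lhs N X Y α β ≤ P + ∑ j ∈ Icc 1 N, (α j) ^ (1 / 4 : ℝ) + ∑ j ∈ Icc 1 N, (β j) ^ (1 / 4 : ℝ) := by
  have h1 := lld_main N X Y α β τ h 1 1 P hX hY hP
  rw [mul_one, Real.one_rpow, mul_one, mul_one] at h1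
  exact h1

theorem LL_A (N : ℕ) (X Y α β : ℕ → ℝ) (τ : ℝ) (h : LH N X Y α β τ) (hX : tot N τ X ≤ 1)
    (hY : tot N τ Y ≤ 1) (η : ℝ) (hη : 0 < η) (hη1 : η < 1)
    (hm : (∀ i, X i ≤ 1 - η) ∨ (∀ i, Y i ≤ 1 - η)) :
    lhs N X Y α β ≤ (1 - η) ^ (1 / 12 : ℝ) + ∑ j ∈ Icc 1 N, (α j) ^ (1 / 4 : ℝ) +
      ∑ j ∈ Icc 1 N, (β j) ^ (1 / 4 : ℝ) := by
  refine lld_one N X Y α β τ h _ hX hY ?_
  have hXs := (lld_tot N τ X h.X0 h.XN h.τ0).trans hX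
  have hYs := (lld_tot N τ Y h.Y0 h.YN h.τ0).trans hY
  have h0 : 0 ≤ ∑ i ∈ range N, (X i * Y i) ^ (9 / 16 : ℝ) :=
    Finset.sum_nonneg fun i _ => Real.rpow_nonneg (mul_nonneg (h.X0 i) (h.Y0 i)) _
  have h1 : ∑ i ∈ range N, (X i * Y i) ^ (9 / 16 : ℝ) ≤ (1 - η) ^ (1 / 16 : ℝ) := by
    rcases hm with hm | hm
    · exact ll_p1' (range N) X Y (fun i _ => h.X0 i) (fun i _ => h.Y0 i) hXs hYs (1 - η) (by linarith)
        (by linarith) (fun i _ => hm i)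
    · have h2 := ll_p1' (range N) Y X (fun i _ => h.Y0 i) (fun i _ => h.X0 i) hYs hXs (1 - η) (by linarith)
        (by linarith) (fun i _ => hm i)
      refine le_trans (le_of_eq ?_) h2
      exact Finset.sum_congr rfl fun i _ => by rw [mul_comm]
  have h3 := Real.rpow_le_rpow h0 h1 (z := 4 / 3) (by norm_num)
  refine h3.trans (le_of_eq ?_)
  rw [← Real.rpow_mul (by linarith)]
  norm_num

theorem LL_B (N : ℕ) (X Y α β : ℕ → ℝ) (τ : ℝ) (h : LH N X Y α β τ) (hX : tot N τ X ≤ 1)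
    (hY : tot N τ Y ≤ 1) (η : ℝ) (hη : 0 < η) (hη1 : η < 1) (i k : ℕ) (hik : i ≠ k)
    (hi : 1 - η ≤ X i) (hk : 1 - η ≤ Y k) :
    lhs N X Y α β ≤ (2 * η ^ (9 / 16 : ℝ)) ^ (4 / 3 : ℝ) + ∑ j ∈ Icc 1 N, (α j) ^ (1 / 4 : ℝ) +
      ∑ j ∈ Icc 1 N, (β j) ^ (1 / 4 : ℝ) := by
  refine lld_one N X Y α β τ h _ hX hY ?_
  have hXs := (lld_tot N τ X h.X0 h.XN h.τ0).trans hX
  have hYs := (lld_tot N τ Y h.Y0 h.YN h.τ0).trans hY
  have h0 : 0 ≤ ∑ i ∈ range N, (X i * Y i) ^ (9 / 16 : ℝ) :=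
    Finset.sum_nonneg fun i _ => Real.rpow_nonneg (mul_nonneg (h.X0 i) (h.Y0 i)) _
  refine Real.rpow_le_rpow h0 ?_ (by norm_num)
  have hiN : i ∈ range N := by
    rw [Finset.mem_range]
    by_contra hc
    have := h.XN i (not_lt.1 hc)
    linarith
  have hkN : k ∈ range N := by
    rw [Finset.mem_range]
    by_contra hc
    have := h.YN k (not_lt.1 hc)
    linarith
  have hX1 : X i ≤ 1 := (Finset.single_le_sum (fun l _ => h.X0 l) hiN).trans hXs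
  have hYi : Y i ≤ η := by
    have h1 : Y i + Y k ≤ ∑ l ∈ range N, Y l := by
      rw [← Finset.sum_pair hik]
      refine Finset.sum_le_sum_of_subset_of_nonneg ?_ fun l _ _ => h.Y0 l
      intro l hl
      rw [Finset.mem_insert, Finset.mem_singleton] at hl
      rcases hl with rfl | rfl
      · exact hiN
      · exact hkN
    linarith
  have hη0 := hη.le
  have hXe : ∑ l ∈ (range N).erase i, X l ≤ η := by
    have h1 := Finset.add_sum_erase (range N) X hiN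
    linarith
  have hYe : ∑ l ∈ (range N).erase i, Y l ≤ 1 :=
    (Finset.sum_le_sum_of_subset_of_nonneg (Finset.erase_subset _ _) fun l _ _ => h.Y0 l).trans hYs
  have h2 := ll_p1 ((range N).erase i) X Y (fun l _ => h.X0 l) (fun l _ => h.Y0 l)
  have h3 : (∑ l ∈ (range N).erase i, X l) ^ (9 / 16 : ℝ) * (∑ l ∈ (range N).erase i, Y l) ^ (9 / 16 : ℝ) ≤
      η ^ (9 / 16 : ℝ) * 1 := by
    have hx0 : 0 ≤ ∑ l ∈ (range N).erase i, X l := Finset.sum_nonneg fun l _ => h.X0 l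
    have hy0 : 0 ≤ ∑ l ∈ (range N).erase i, Y l := Finset.sum_nonneg fun l _ => h.Y0 l
    exact mul_le_mul (Real.rpow_le_rpow hx0 hXe (by norm_num)) (Real.rpow_le_one hy0 hYe (by norm_num))
      (Real.rpow_nonneg hy0 _) (Real.rpow_nonneg hη0 _)
  have h4 : (X i * Y i) ^ (9 / 16 : ℝ) ≤ η ^ (9 / 16 : ℝ) := by
    refine Real.rpow_le_rpow (mul_nonneg (h.X0 i) (h.Y0 i)) ?_ (by norm_num)
    calc X i * Y i ≤ 1 * η := mul_le_mul hX1 hYi (h.Y0 i) zero_le_one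
      _ = η := one_mul η
  have h5 := Finset.add_sum_erase (range N) (fun l => (X l * Y l) ^ (9 / 16 : ℝ)) hiN
  linarith

theorem LL_crude (N : ℕ) (X Y α β : ℕ → ℝ) (τ : ℝ) (h : LH N X Y α β τ) :
    lhs N X Y α β ≤ (tot N τ X * tot N τ Y) ^ (3 / 4 : ℝ) *
      (1 + ∑ j ∈ Icc 1 N, (α j) ^ (1 / 4 : ℝ) + ∑ j ∈ Icc 1 N, (β j) ^ (1 / 4 : ℝ)) := by
  have h1 := lld_main N X Y α β τ h _ _ _ le_rfl le_rfl
    (lld_q (range N) X Y (fun i _ => h.X0 _) (fun i _ => h.Y0 _) _ _ (lld_tot N τ X h.X0 h.XN h.τ0)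
      (lld_tot N τ Y h.Y0 h.YN h.τ0))
  refine h1.trans (le_of_eq ?_)
  ring

end Pool.Agent.H2D
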