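import Mathlib
import Pool.Agent.Lib.H2D.Defs
import Pool.Agent.Lib.H2D.LLa
import Pool.Agent.Lib.H2D.LLb
import Pool.Agent.Lib.H2D.LLc
import Pool.Agent.Lib.H2D.LLd

set_option autoImplicit false

/-!
# H2D chunk A5: the local lemma

First the case `tot X ≤ 1`, `tot Y ≤ 1`. Let `η = min η_b η_c` (from `LL_zero`, `LL_pos`) and also
`η ≤ 1/100` (smaller `η` is fine in both). `t0 = η/48`. Cross sums `≤ 2 t0`.
* Case A: all `X_i ≤ 1 - η` or all `Y_i ≤ 1 - η`: `LL_A`: `lhs ≤ (1-η)^(1/12) + 2 t0 ≤ 1 - η/12 + η/24 ≤ 1 - τ/4`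
  (`(1-η)^(1/12) ≤ 1 - η/12`, `τ ≤ t0`).
* Case B: `X_i > 1 - η`, `Y_k > 1 - η`, `i ≠ k`: `LL_B`, `(2 η^(9/16))^(4/3) = 2^(4/3) η^(3/4) ≤ 1/2` for `η ≤ 1/100`.
* Case C: `X_k, Y_k > 1 - η` for the same `k` (`k < N` as `X_k ≠ 0`): then `∑_{i ≠ k} X_i ≤ η` etc. (total `≤ 1`). Use `LL_zero` if
  `k = 0` (`∑_{Icc 1 N} X_i ≤ η`), else `LL_pos`, and `1 - τ/2 ≤ 1 - τ/4`.

General case: scale. If `tot X = 0` or `tot Y = 0` then all `X_i = 0` (or `Y_i = 0`) and `lhs = 0`, RHS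
`≥ 0` (`0^(3/4) = 0`). Otherwise apply the above to `X / tot X`, `Y / tot Y`:
`lhs (X / S) (Y / T) = lhs X Y / (S T)^(3/4)` because `((c)^(9/16))^(4/3) = c^(3/4)`.
-/

namespace Pool.Agent.H2D

open Finset

theorem LLe_mul (c : ℝ) (hc : 0 ≤ c) (N : ℕ) (f : ℕ → ℝ) (hf : ∀ i, 0 ≤ f i) :
    (∑ i ∈ range N, (c * f i) ^ (9 / 16 : ℝ)) ^ (4 / 3 : ℝ) =
      c ^ (3 / 4 : ℝ) * (∑ i ∈ range N, (f i) ^ (9 / 16 : ℝ)) ^ (4 / 3 : ℝ) := by
  have h1 : ∑ i ∈ range N, (c * f i) ^ (9 / 16 : ℝ) =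
      c ^ (9 / 16 : ℝ) * ∑ i ∈ range N, (f i) ^ (9 / 16 : ℝ) := by
    rw [Finset.mul_sum]
    exact Finset.sum_congr rfl fun i _ => Real.mul_rpow hc (hf i)
  rw [h1, Real.mul_rpow (Real.rpow_nonneg hc _)
    (Finset.sum_nonneg fun i _ => Real.rpow_nonneg (hf i) _), ← Real.rpow_mul hc]
  norm_num

theorem LLe_scale (S T : ℝ) (hS : 0 ≤ S) (hT : 0 ≤ T) (N : ℕ) (X Y α β : ℕ → ℝ)
    (hX : ∀ i, 0 ≤ X i) (hY : ∀ i, 0 ≤ Y i) :
    lhs N (fun i => S * X i) (fun i => T * Y i) α β =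
      (S * T) ^ (3 / 4 : ℝ) * lhs N X Y α β := by
  have hST : 0 ≤ S * T := mul_nonneg hS hT
  have e1 : ∀ u v : ℕ → ℕ, (∑ i ∈ range N, (S * X (u i) * (T * Y (v i))) ^ (9 / 16 : ℝ)) ^ (4 / 3 : ℝ) =
      (S * T) ^ (3 / 4 : ℝ) *
        (∑ i ∈ range N, (X (u i) * Y (v i)) ^ (9 / 16 : ℝ)) ^ (4 / 3 : ℝ) := by
    intro u v
    rw [← LLe_mul (S * T) hST N (fun i => X (u i) * Y (v i)) (fun i => mul_nonneg (hX _) (hY _))]
    congr 1
    refine Finset.sum_congr rfl fun i _ => ?_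
    congr 1
    ring
  unfold lhs
  rw [mul_add, mul_add, Finset.mul_sum, Finset.mul_sum]
  congr 1
  · congr 1
    · exact e1 (fun i => i) (fun i => i)
    · refine Finset.sum_congr rfl fun j _ => ?_
      rw [e1 (fun i => i + j) (fun i => i)]
      ring
  · refine Finset.sum_congr rfl fun j _ => ?_
    rw [e1 (fun i => i) (fun i => i + j)]
    ring

theorem LLe_lhs_nonneg (N : ℕ) (X Y α β : ℕ → ℝ) (hX : ∀ i, 0 ≤ X i) (hY : ∀ i, 0 ≤ Y i)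
    (hα : ∀ i, 0 ≤ α i) (hβ : ∀ i, 0 ≤ β i) : 0 ≤ lhs N X Y α β := by
  have e1 : ∀ u v : ℕ → ℕ,
      0 ≤ (∑ i ∈ range N, (X (u i) * Y (v i)) ^ (9 / 16 : ℝ)) ^ (4 / 3 : ℝ) := by
    intro u v
    exact Real.rpow_nonneg
      (Finset.sum_nonneg fun i _ => Real.rpow_nonneg (mul_nonneg (hX _) (hY _)) _) _
  unfold lhs
  refine add_nonneg (add_nonneg (e1 (fun i => i) (fun i => i)) ?_) ?_
  · exact Finset.sum_nonneg fun j _ => mul_nonneg (Real.rpow_nonneg (hα j) _)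
      (e1 (fun i => i + j) (fun i => i))
  · exact Finset.sum_nonneg fun j _ => mul_nonneg (Real.rpow_nonneg (hβ j) _)
      (e1 (fun i => i) (fun i => i + j))

theorem LLe_sum (N : ℕ) (X : ℕ → ℝ) (hX : ∀ i, 0 ≤ X i)
    (hXN : ∀ i, N ≤ i → X i = 0) (τ : ℝ) (hτ : 0 ≤ τ) : ∑ i ∈ range N, X i ≤ tot N τ X := by
  have h1 : ∑ i ∈ range (N + 1), X i = ∑ i ∈ range N, X i := by
    rw [Finset.sum_range_succ, hXN N le_rfl, add_zero]
  have h2 : ∑ i ∈ range (N + 1), X i = X 0 + ∑ i ∈ Icc 1 N, X i := by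
    rw [Finset.sum_range_succ', add_comm]
    congr 1
    rw [Finset.range_eq_Ico, Finset.sum_Ico_add' X 0 N 1]
    rfl
  have h3 : 0 ≤ ∑ i ∈ Icc 1 N, X i := Finset.sum_nonneg fun i _ => hX i
  rw [← h1, h2]
  unfold tot
  nlinarith

/-- the normalised case -/
theorem LLe_norm (η C D : ℝ) (hη : 0 < η) (hη1 : η ≤ 1 / 100) (hD : 0 ≤ D)
    (N : ℕ) (X Y α β : ℕ → ℝ) (τ : ℝ) (h : LH N X Y α β τ)
    (hz : ∑ i ∈ Icc 1 N, X i ≤ η → ∑ i ∈ Icc 1 N, Y i ≤ η → lhs N X Y α β ≤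
        (1 + ∑ j ∈ Icc 1 N, α j) ^ (1 / 4 : ℝ) * (1 + ∑ j ∈ Icc 1 N, β j) ^ (1 / 4 : ℝ) +
        C * ((∑ j ∈ Icc 1 N, α j) ^ (9 / 8 : ℝ) + (∑ j ∈ Icc 1 N, β j) ^ (9 / 8 : ℝ)))
    (hp : ∀ k : ℕ, 1 ≤ k → k < N →
      ∑ i ∈ (range N).erase k, X i ≤ η → ∑ i ∈ (range N).erase k, Y i ≤ η →
      lhs N X Y α β ≤ 1 - τ / 2 + D * (∑ j ∈ Icc 1 N, α j + ∑ j ∈ Icc 1 N, β j))
    (hτ : τ ≤ η / 48) (ha : ∑ j ∈ Icc 1 N, (α j) ^ (1 / 4 : ℝ) ≤ η / 48)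
    (hb : ∑ j ∈ Icc 1 N, (β j) ^ (1 / 4 : ℝ) ≤ η / 48)
    (hX : tot N τ X ≤ 1) (hY : tot N τ Y ≤ 1) :
    lhs N X Y α β ≤
        max ((1 + ∑ j ∈ Icc 1 N, α j) ^ (1 / 4 : ℝ) * (1 + ∑ j ∈ Icc 1 N, β j) ^ (1 / 4 : ℝ) +
              C * ((∑ j ∈ Icc 1 N, α j) ^ (9 / 8 : ℝ) + (∑ j ∈ Icc 1 N, β j) ^ (9 / 8 : ℝ)))
            (1 + D * (∑ j ∈ Icc 1 N, α j + ∑ j ∈ Icc 1 N, β j) - τ / 4) := by
  have hα : 0 ≤ ∑ j ∈ Icc 1 N, α j := Finset.sum_nonneg fun j _ => h.α0 j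
  have hβ : 0 ≤ ∑ j ∈ Icc 1 N, β j := Finset.sum_nonneg fun j _ => h.β0 j
  have hDp : 0 ≤ D * (∑ j ∈ Icc 1 N, α j + ∑ j ∈ Icc 1 N, β j) :=
    mul_nonneg hD (add_nonneg hα hβ)
  have hτ0 := h.τ0
  by_cases hA : (∀ i, X i ≤ 1 - η) ∨ (∀ i, Y i ≤ 1 - η)
  · have h1 := LL_A N X Y α β τ h hX hY η hη (by linarith) hA
    have h2 : (1 - η) ^ (1 / 12 : ℝ) ≤ 1 - η / 12 := by
      have h3 := rpow_one_add_le_one_add_mul_self (s := -η) (by linarith)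
        (p := 1 / 12) (by norm_num) (by norm_num)
      have h4 : (1 : ℝ) + -η = 1 - η := by ring
      rw [h4] at h3
      linarith
    refine le_trans ?_ (le_max_right _ _)
    linarith
  · push Not at hA
    obtain ⟨⟨i, hi⟩, ⟨k, hk⟩⟩ := hA
    by_cases hik : i = k
    · subst hik
      have hsX := (LLe_sum N X h.X0 h.XN τ hτ0).trans hX
      have hsY := (LLe_sum N Y h.Y0 h.YN τ hτ0).trans hY
      have hiN : i < N := by
        by_contra hcon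
        push Not at hcon
        have := h.XN i hcon
        linarith
      rcases Nat.eq_zero_or_pos i with h0 | h0
      · subst h0
        refine le_trans (hz ?_ ?_) (le_max_left _ _)
        · have h3 : 0 ≤ ∑ i ∈ Icc 1 N, X i := Finset.sum_nonneg fun i _ => h.X0 i
          unfold tot at hX
          nlinarith
        · have h3 : 0 ≤ ∑ i ∈ Icc 1 N, Y i := Finset.sum_nonneg fun i _ => h.Y0 i
          unfold tot at hY
          nlinarith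
      · refine le_trans (hp i h0 hiN ?_ ?_) ?_
        · have := Finset.add_sum_erase (range N) X (Finset.mem_range.2 hiN)
          linarith
        · have := Finset.add_sum_erase (range N) Y (Finset.mem_range.2 hiN)
          linarith
        · refine le_trans ?_ (le_max_right _ _)
          linarith
    · have h1 := LL_B N X Y α β τ h hX hY η hη (by linarith) i k hik hi.le hk.le
      have h2 : η ^ (9 / 16 : ℝ) ≤ 1 / 10 := by
        calc η ^ (9 / 16 : ℝ) ≤ η ^ (1 / 2 : ℝ) :=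
              Real.rpow_le_rpow_of_exponent_ge hη (by linarith) (by norm_num)
          _ ≤ ((1 / 100 : ℝ)) ^ (1 / 2 : ℝ) := Real.rpow_le_rpow hη.le hη1 (by norm_num)
          _ = 1 / 10 := by
              rw [show (1 / 100 : ℝ) = (1 / 10) ^ (2 : ℝ) by norm_num,
                ← Real.rpow_mul (by norm_num)]
              norm_num
      have h3 : 0 ≤ η ^ (9 / 16 : ℝ) := Real.rpow_nonneg hη.le _
      have h4 : (2 * η ^ (9 / 16 : ℝ)) ^ (4 / 3 : ℝ) ≤ 2 * η ^ (9 / 16 : ℝ) := by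
        rcases eq_or_lt_of_le h3 with h5 | h5
        · rw [← h5]
          norm_num
        · calc (2 * η ^ (9 / 16 : ℝ)) ^ (4 / 3 : ℝ) ≤ (2 * η ^ (9 / 16 : ℝ)) ^ (1 : ℝ) :=
                Real.rpow_le_rpow_of_exponent_ge (by linarith) (by linarith) (by norm_num)
            _ = 2 * η ^ (9 / 16 : ℝ) := Real.rpow_one _
      refine le_trans ?_ (le_max_right _ _)
      linarith

theorem LLe_zero (N : ℕ) (X Y α β : ℕ → ℝ)
    (hz : (∀ i, X i = 0) ∨ ∀ i, Y i = 0) : lhs N X Y α β = 0 := by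
  have e1 : ∀ u v : ℕ → ℕ,
      (∑ i ∈ range N, (X (u i) * Y (v i)) ^ (9 / 16 : ℝ)) ^ (4 / 3 : ℝ) = 0 := by
    intro u v
    have h1 : ∑ i ∈ range N, (X (u i) * Y (v i)) ^ (9 / 16 : ℝ) = 0 := by
      refine Finset.sum_eq_zero fun i _ => ?_
      have h2 : X (u i) * Y (v i) = 0 := by
        rcases hz with h | h
        · rw [h, zero_mul]
        · rw [h, mul_zero]
      rw [h2]
      exact Real.zero_rpow (by norm_num)
    rw [h1]
    exact Real.zero_rpow (by norm_num)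
  unfold lhs
  rw [e1 (fun i => i) (fun i => i)]
  have h2 : ∀ j ∈ Icc 1 N, (α j) ^ (1 / 4 : ℝ) *
      (∑ i ∈ range N, (X (i + j) * Y i) ^ (9 / 16 : ℝ)) ^ (4 / 3 : ℝ) = 0 := by
    intro j _
    rw [e1 (fun i => i + j) (fun i => i), mul_zero]
  have h3 : ∀ j ∈ Icc 1 N, (β j) ^ (1 / 4 : ℝ) *
      (∑ i ∈ range N, (X i * Y (i + j)) ^ (9 / 16 : ℝ)) ^ (4 / 3 : ℝ) = 0 := by
    intro j _
    rw [e1 (fun i => i) (fun i => i + j), mul_zero]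
  rw [Finset.sum_eq_zero h2, Finset.sum_eq_zero h3]
  norm_num

theorem LLe_tot_nonneg (N : ℕ) (X : ℕ → ℝ) (hX : ∀ i, 0 ≤ X i) (τ : ℝ) (hτ : 0 ≤ τ) :
    0 ≤ tot N τ X := by
  have h3 : 0 ≤ ∑ i ∈ Icc 1 N, X i := Finset.sum_nonneg fun i _ => hX i
  have := hX 0
  unfold tot
  positivity

theorem LLe_tot_zero (N : ℕ) (X : ℕ → ℝ) (hX : ∀ i, 0 ≤ X i)
    (hXN : ∀ i, N ≤ i → X i = 0) (τ : ℝ) (hτ : 0 ≤ τ) (h : tot N τ X = 0) (i : ℕ) : X i = 0 := by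
  by_cases hi : N ≤ i
  · exact hXN i hi
  · push Not at hi
    have h1 := LLe_sum N X hX hXN τ hτ
    have h2 := Finset.single_le_sum (f := X) (s := range N) (fun j _ => hX j)
      (Finset.mem_range.2 hi)
    linarith [hX i]

theorem LL : ∃ t0 C D : ℝ, 0 < t0 ∧ t0 ≤ 1 ∧ 0 ≤ C ∧ 1 ≤ D ∧
    ∀ (N : ℕ) (X Y α β : ℕ → ℝ) (τ : ℝ), LH N X Y α β τ → τ ≤ t0 →
      ∑ j ∈ Icc 1 N, (α j) ^ (1 / 4 : ℝ) ≤ t0 → ∑ j ∈ Icc 1 N, (β j) ^ (1 / 4 : ℝ) ≤ t0 →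
      lhs N X Y α β ≤ (tot N τ X * tot N τ Y) ^ (3 / 4 : ℝ) *
        max ((1 + ∑ j ∈ Icc 1 N, α j) ^ (1 / 4 : ℝ) * (1 + ∑ j ∈ Icc 1 N, β j) ^ (1 / 4 : ℝ) +
              C * ((∑ j ∈ Icc 1 N, α j) ^ (9 / 8 : ℝ) + (∑ j ∈ Icc 1 N, β j) ^ (9 / 8 : ℝ)))
            (1 + D * (∑ j ∈ Icc 1 N, α j + ∑ j ∈ Icc 1 N, β j) - τ / 4) := by
  obtain ⟨η₁, C, hη₁, hη₁1, hC, hz⟩ := LL_zero
  obtain ⟨η₂, D, hη₂, hη₂1, hD, hp⟩ := LL_pos
  set η : ℝ := min (min η₁ η₂) (1 / 100) with hηd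
  have hη : 0 < η := lt_min (lt_min hη₁ hη₂) (by norm_num)
  have hηa : η ≤ η₁ := (min_le_left _ _).trans (min_le_left _ _)
  have hηb : η ≤ η₂ := (min_le_left _ _).trans (min_le_right _ _)
  have hηc : η ≤ 1 / 100 := min_le_right _ _
  refine ⟨η / 48, C, max D 1, by positivity, by linarith, hC, le_max_right _ _, ?_⟩
  intro N X Y α β τ h hτ ha hb
  have hτ0 := h.τ0
  have hS0 : 0 ≤ tot N τ X := LLe_tot_nonneg N X h.X0 τ hτ0
  have hT0 : 0 ≤ tot N τ Y := LLe_tot_nonneg N Y h.Y0 τ hτ0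
  rcases eq_or_lt_of_le hS0 with hS | hS
  · rw [LLe_zero N X Y α β (Or.inl (LLe_tot_zero N X h.X0 h.XN τ hτ0 hS.symm)), ← hS, zero_mul,
      Real.zero_rpow (by norm_num), zero_mul]
  rcases eq_or_lt_of_le hT0 with hT | hT
  · rw [LLe_zero N X Y α β
      (Or.inr (LLe_tot_zero N Y h.Y0 h.YN τ hτ0 hT.symm)), ← hT, mul_zero,
      Real.zero_rpow (by norm_num), zero_mul]
  set S : ℝ := tot N τ X with hSd
  set T : ℝ := tot N τ Y with hTd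
  have hX0 : ∀ i, 0 ≤ X i / S := fun i => div_nonneg (h.X0 i) hS0
  have hY0 : ∀ i, 0 ≤ Y i / T := fun i => div_nonneg (h.Y0 i) hT0
  have h' : LH N (fun i => X i / S) (fun i => Y i / T) α β τ :=
    { N1 := h.N1
      X0 := hX0
      Y0 := hY0
      XN := fun i hi => by
        show X i / S = 0
        rw [h.XN i hi, zero_div]
      YN := fun i hi => by
        show Y i / T = 0
        rw [h.YN i hi, zero_div]
      α0 := h.α0
      β0 := h.β0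
      τ0 := h.τ0
      τ1 := h.τ1 }
  have htX : tot N τ (fun i => X i / S) = 1 := by
    have h1 : tot N τ (fun i => X i / S) = tot N τ X / S := by
      unfold tot
      rw [← Finset.sum_div]
      ring
    rw [h1, ← hSd, div_self hS.ne']
  have htY : tot N τ (fun i => Y i / T) = 1 := by
    have h1 : tot N τ (fun i => Y i / T) = tot N τ Y / T := by
      unfold tot
      rw [← Finset.sum_div]
      ring
    rw [h1, ← hTd, div_self hT.ne']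
  have hα : 0 ≤ ∑ j ∈ Icc 1 N, α j := Finset.sum_nonneg fun j _ => h.α0 j
  have hβ : 0 ≤ ∑ j ∈ Icc 1 N, β j := Finset.sum_nonneg fun j _ => h.β0 j
  have hn := LLe_norm η C (max D 1) hη hηc (le_trans zero_le_one (le_max_right _ _)) N _ _ α β τ h'
    (fun h1 h2 => hz N _ _ α β τ h' htX.le htY.le (by linarith) (by linarith)
      (h1.trans hηa) (h2.trans hηa))
    (fun k hk hkN h1 h2 => by
      refine (hp N _ _ α β τ h' htX.le htY.le (by linarith) (by linarith) k hk hkN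
        (h1.trans hηb) (h2.trans hηb)).trans ?_
      have := mul_le_mul_of_nonneg_right (le_max_left D 1) (add_nonneg hα hβ)
      linarith)
    hτ ha hb htX.le htY.le
  have hsc := LLe_scale S T hS0 hT0 N (fun i => X i / S) (fun i => Y i / T) α β hX0 hY0
  have e1 : (fun i => S * (X i / S)) = X := by
    funext i
    field_simp
  have e2 : (fun i => T * (Y i / T)) = Y := by
    funext i
    field_simp
  rw [e1, e2] at hsc
  rw [hsc]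
  exact mul_le_mul_of_nonneg_left hn (Real.rpow_nonneg (mul_nonneg hS0 hT0) _)

end Pool.Agent.H2D
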