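import Mathlib
import Pool.Agent.Lib.H2D.Defs

set_option autoImplicit false

/-!
# H2D chunk A6: elementary facts on `hh y = ∏_{p < y} (1 - 1/p)`

`Nat.primesBelow (y+1)` is `insert y (Nat.primesBelow y)` if `y` is prime, else `Nat.primesBelow y`
(`Nat.primesBelow_succ`).
-/

namespace Pool.Agent.H2D

open Finset Filter Topology

theorem NTa_fac {y p : ℕ} (hp : p ∈ Nat.primesBelow y) :
    0 < 1 - 1 / (p : ℝ) ∧ 1 - 1 / (p : ℝ) ≤ 1 := by
  have h1 : p.Prime := (Nat.mem_primesBelow.1 hp).2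
  have h2 : (2 : ℝ) ≤ p := by exact_mod_cast h1.two_le
  have h3 : 1 / (p : ℝ) ≤ 1 / 2 := one_div_le_one_div_of_le (by norm_num) h2
  have h4 : 0 ≤ 1 / (p : ℝ) := by positivity
  constructor <;> linarith

theorem hh_pos (y : ℕ) : 0 < hh y := by
  unfold hh
  exact Finset.prod_pos fun p hp => (NTa_fac hp).1

theorem hh_le_one (y : ℕ) : hh y ≤ 1 := by
  unfold hh
  exact Finset.prod_le_one (fun p hp => (NTa_fac hp).1.le) fun p hp => (NTa_fac hp).2

theorem hh_succ_prime (y : ℕ) (hy : y.Prime) : hh (y + 1) = hh y * (1 - 1 / (y : ℝ)) := by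
  unfold hh
  rw [Nat.primesBelow_succ, if_pos hy, Finset.prod_insert (by
    intro h
    exact lt_irrefl y (Nat.mem_primesBelow.1 h).1), mul_comm]

theorem hh_succ_not_prime (y : ℕ) (hy : ¬ y.Prime) : hh (y + 1) = hh y := by
  unfold hh
  rw [Nat.primesBelow_succ, if_neg hy]

theorem hh_anti {x y : ℕ} (h : x ≤ y) : hh y ≤ hh x := by
  have h1 : Antitone hh := by
    apply antitone_nat_of_succ_le
    intro n
    by_cases hn : n.Prime
    · rw [hh_succ_prime n hn]
      have h2 : (2 : ℝ) ≤ n := by exact_mod_cast hn.two_le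
      have h3 : 0 ≤ 1 / (n : ℝ) := by positivity
      have h4 := hh_pos n
      nlinarith
    · rw [hh_succ_not_prime n hn]
  exact h1 h

theorem card_succ_prime (y : ℕ) (hy : y.Prime) :
    (Nat.primesBelow (y + 1)).card = (Nat.primesBelow y).card + 1 := by
  rw [Nat.primesBelow_succ, if_pos hy, Finset.card_insert_of_notMem (by
    intro h
    exact lt_irrefl y (Nat.mem_primesBelow.1 h).1)]

theorem card_succ_not_prime (y : ℕ) (hy : ¬ y.Prime) :
    (Nat.primesBelow (y + 1)).card = (Nat.primesBelow y).card := by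
  rw [Nat.primesBelow_succ, if_neg hy]

end Pool.Agent.H2D
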