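import Mathlib
import Pool.Agent.Lib.H2D.Defs
import Pool.Agent.Lib.H2D.NTa
import Pool.Agent.Lib.Emb.NT1

set_option autoImplicit false

/-!
# H2D chunk A7: Mertens and Chebyshev bounds

* `hh_inv_le`: from `mertens_upper` (Lib/Emb/NT1: `∏_{p ∈ pr l} (1 - 1/p)⁻¹ ≤ C 2^l`; look at the definition of `pr l`,
  the primes below `2^(2^l)` or similar; if it is only a dyadic-type range, use products of ranges or
  `Lib/H59C/MER0.lean`). With `l` minimal such that `y ≤ 2^(2^l)` one has `2^l ≤ 2 log₂ y` or `y ≤ 2`.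
* `key_N1`: `π(y) ≤ C (y-1) / log y` (Mathlib `Chebyshev.pi_le_log4_mul_div`:
  `π ⌊x⌋₊ ≤ log 4 * x / log √x + √x`) and `hh y ≥ c / log y` (`hh_inv_le`); `√y ≤ C y / log y`, `y ≤ 2(y-1)`.
-/

namespace Pool.Agent.H2D

open Finset Filter Topology

theorem ntb_fac {p : ℕ} (hp : p.Prime) : 1 ≤ (1 - 1 / (p : ℝ))⁻¹ := by
  have h1 : (2 : ℝ) ≤ p := by exact_mod_cast hp.two_le
  have h2 : 1 / (p : ℝ) ≤ 1 / 2 := one_div_le_one_div_of_le (by norm_num) h1
  have h3 : 0 < 1 / (p : ℝ) := by positivity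
  exact (one_le_inv₀ (by linarith)).2 (by linarith)

theorem ntb_log {y : ℕ} (hy : 2 ≤ y) : 1 / 2 ≤ Real.log y := by
  have h1 : (2 : ℝ) ≤ y := by exact_mod_cast hy
  have h2 := Real.log_le_log (by norm_num) h1
  have h3 := Real.log_two_gt_d9
  linarith

theorem ntb_cheb {y : ℕ} (hy : 2 ≤ y) : ((Nat.primesBelow y).card : ℝ) * Real.log y ≤ 10 * ((y : ℝ) - 1) := by
  have hy2 : (2 : ℝ) ≤ y := by exact_mod_cast hy
  have hl := ntb_log hy
  have h1 := Chebyshev.pi_le_log4_mul_div (x := (y : ℝ)) (by linarith)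
  rw [Nat.floor_natCast] at h1
  have h2 : ((Nat.primesBelow y).card : ℝ) ≤ (Nat.primeCounting y : ℝ) := by
    rw [Nat.primesBelow_card_eq_primeCounting', Nat.primeCounting_eq_primeCounting'_succ]
    exact_mod_cast Nat.monotone_primeCounting' (Nat.le_succ y)
  have h3 : Real.log (Real.sqrt y) = Real.log y / 2 := Real.log_sqrt (by linarith)
  rw [h3] at h1
  have hs0 : 0 < Real.sqrt y := Real.sqrt_pos.2 (by linarith)
  have hss : Real.sqrt y * Real.sqrt y = y := Real.mul_self_sqrt (by linarith)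
  have h4 : Real.log y ≤ 2 * Real.sqrt y := by
    have h5 := Real.log_le_sub_one_of_pos hs0
    linarith
  have h6 : (Nat.primeCounting y : ℝ) * Real.log y ≤ 2 * Real.log 4 * y + Real.sqrt y * Real.log y := by
    calc (Nat.primeCounting y : ℝ) * Real.log y ≤
        (Real.log 4 * y / (Real.log y / 2) + Real.sqrt y) * Real.log y :=
          mul_le_mul_of_nonneg_right h1 (by linarith)
      _ = _ := by
          have : Real.log y ≠ 0 := by linarith
          field_simp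
  have h7 : Real.log 4 ≤ 3 / 2 := by
    have h8 : Real.log 4 = 2 * Real.log 2 := by
      rw [show (4 : ℝ) = 2 ^ 2 by norm_num, Real.log_pow]
      norm_num
    have := Real.log_two_lt_d9
    linarith
  have h9 : Real.sqrt y * Real.log y ≤ 2 * y := by
    calc Real.sqrt y * Real.log y ≤ Real.sqrt y * (2 * Real.sqrt y) := mul_le_mul_of_nonneg_left h4 hs0.le
      _ = 2 * (Real.sqrt y * Real.sqrt y) := by ring
      _ = 2 * y := by rw [hss]
  have h10 : ((Nat.primesBelow y).card : ℝ) * Real.log y ≤ (Nat.primeCounting y : ℝ) * Real.log y :=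
    mul_le_mul_of_nonneg_right h2 (by linarith)
  have h11 : 2 * Real.log 4 * y ≤ 3 * y := mul_le_mul_of_nonneg_right (by linarith) (by linarith)
  linarith

theorem hh_inv_le : ∃ C : ℝ, 0 < C ∧ ∀ y : ℕ, 2 ≤ y → (hh y)⁻¹ ≤ C * Real.log y := by
  obtain ⟨C, hC, h⟩ := Emb.mertens_upper
  refine ⟨C * 4, by positivity, fun y hy => ?_⟩
  have hl := ntb_log hy
  have hy2 : (2 : ℝ) ≤ y := by exact_mod_cast hy
  obtain ⟨n, h1, h2⟩ := exists_nat_pow_near (x := 2 * Real.log y) (y := 2) (by linarith) (by norm_num)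
  have h3 : (hh y)⁻¹ = ∏ p ∈ Nat.primesBelow y, (1 - 1 / (p : ℝ))⁻¹ := by
    unfold hh
    rw [← Finset.prod_inv_distrib]
  have h4 : Nat.primesBelow y ⊆ Emb.pr (n + 1) := by
    intro p hp
    rw [Nat.mem_primesBelow] at hp
    rw [Emb.mem_pr]
    refine ⟨hp.2, ?_⟩
    have h5 : (0 : ℝ) < p := by exact_mod_cast hp.2.pos
    have h6 : Real.log p ≤ Real.log y := Real.log_le_log h5 (by exact_mod_cast hp.1.le)
    linarith
  rw [h3]
  calc ∏ p ∈ Nat.primesBelow y, (1 - 1 / (p : ℝ))⁻¹ ≤ ∏ p ∈ Emb.pr (n + 1), (1 - 1 / (p : ℝ))⁻¹ := by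
        refine Finset.prod_le_prod_of_subset_of_one_le h4 ?_ ?_
        · intro p hp
          exact zero_le_one.trans (ntb_fac (Nat.mem_primesBelow.1 hp).2)
        · intro p hp _
          exact ntb_fac (Emb.mem_pr.1 hp).1
    _ ≤ C * 2 ^ (n + 1) := h (n + 1)
    _ ≤ C * 4 * Real.log y := by
        rw [pow_succ, mul_assoc]
        refine mul_le_mul_of_nonneg_left ?_ hC.le
        linarith

theorem key_N1 (C5 : ℝ) (hC5 : 1 ≤ C5) : ∃ K : ℝ, 1 ≤ K ∧ ∀ y : ℕ, 2 ≤ y →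
    2 * (C5 * ((Nat.primesBelow y).card : ℝ) + 1) ≤ K * ((y : ℝ) - 1) * hh y := by
  obtain ⟨C, hC, h⟩ := hh_inv_le
  refine ⟨2 * C * (10 * C5 + 1) + 1, by
    have : 0 ≤ 2 * C * (10 * C5 + 1) := by positivity
    linarith, fun y hy => ?_⟩
  have hy2 : (2 : ℝ) ≤ y := by exact_mod_cast hy
  have hl := ntb_log hy
  have hl0 : 0 < Real.log y := by linarith
  have h1 := ntb_cheb hy
  have h2 : Real.log y ≤ y - 1 := Real.log_le_sub_one_of_pos (by linarith)
  have hp := hh_pos y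
  have h3 := h y hy
  have h4 : 1 ≤ C * Real.log y * hh y := by
    calc (1 : ℝ) = (hh y)⁻¹ * hh y := (inv_mul_cancel₀ hp.ne').symm
      _ ≤ C * Real.log y * hh y := mul_le_mul_of_nonneg_right h3 hp.le
  have h5 : 2 * (C5 * ((Nat.primesBelow y).card : ℝ) + 1) * Real.log y ≤ 2 * (10 * C5 + 1) * ((y : ℝ) - 1) := by
    have h6 := mul_le_mul_of_nonneg_left h1 (by linarith : (0 : ℝ) ≤ C5)
    nlinarith
  have h7 : 0 ≤ 2 * (C5 * ((Nat.primesBelow y).card : ℝ) + 1) := by positivity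
  calc 2 * (C5 * ((Nat.primesBelow y).card : ℝ) + 1) ≤
      2 * (C5 * ((Nat.primesBelow y).card : ℝ) + 1) * (C * Real.log y * hh y) := le_mul_of_one_le_right h7 h4
    _ = (2 * (C5 * ((Nat.primesBelow y).card : ℝ) + 1) * Real.log y) * (C * hh y) := by ring
    _ ≤ (2 * (10 * C5 + 1) * ((y : ℝ) - 1)) * (C * hh y) := mul_le_mul_of_nonneg_right h5 (by positivity)
    _ = 2 * C * (10 * C5 + 1) * ((y : ℝ) - 1) * hh y := by ring
    _ ≤ (2 * C * (10 * C5 + 1) + 1) * ((y : ℝ) - 1) * hh y := by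
        refine mul_le_mul_of_nonneg_right ?_ hp.le
        refine mul_le_mul_of_nonneg_right ?_ (by linarith)
        linarith

end Pool.Agent.H2D
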