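import Mathlib
import Pool.Agent.Lib.H2D.Defs
import Pool.Agent.Lib.H2D.NTa
import Pool.Agent.Lib.H2D.NTb

set_option autoImplicit false

/-!
# H2D chunk A8: two consequences of the Mertens bound

From `hh_inv_le`: `2 / hh (y+1) ≤ C log (y+1)`.
* `summable_ab`: `((4 + C log (y+1))/y)^(9/8) ≤ C' y^(-1 - 1/16)` as `log (y+1) ≤ C'' y^(1/18)`.
* `tail_small`: `(log y)^(1/4) y^(-1/4) → 0`.
-/

namespace Pool.Agent.H2D

open Finset Filter Topology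

theorem NTc_bd : ∃ C : ℝ, 0 < C ∧ ∀ y : ℕ, 1 ≤ y →
    2 / hh (y + 1) ≤ C * (y : ℝ) ^ (1 / 18 : ℝ) := by
  obtain ⟨C, hC, h⟩ := hh_inv_le
  refine ⟨72 * C, by linarith, ?_⟩
  intro y hy
  have hy1 : (1 : ℝ) ≤ (y : ℝ) := by exact_mod_cast hy
  have h1 := h (y + 1) (by omega)
  have h2 : Real.log ((y + 1 : ℕ) : ℝ) ≤ ((y + 1 : ℕ) : ℝ) ^ (1 / 18 : ℝ) / (1 / 18 : ℝ) :=
    Real.log_le_rpow_div (Nat.cast_nonneg _) (by norm_num)
  have h3 : ((y + 1 : ℕ) : ℝ) ^ (1 / 18 : ℝ) ≤ 2 * (y : ℝ) ^ (1 / 18 : ℝ) := by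
    have h4 : ((y + 1 : ℕ) : ℝ) ≤ 2 * (y : ℝ) := by
      push_cast
      linarith
    have h5 := Real.rpow_le_rpow (Nat.cast_nonneg _) h4 (show (0 : ℝ) ≤ 1 / 18 by norm_num)
    rw [Real.mul_rpow (by norm_num) (by linarith)] at h5
    have h6 : (2 : ℝ) ^ (1 / 18 : ℝ) ≤ 2 := by
      have := Real.rpow_le_rpow_of_exponent_le (show (1 : ℝ) ≤ 2 by norm_num)
        (show (1 / 18 : ℝ) ≤ 1 by norm_num)
      rwa [Real.rpow_one] at this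
    exact h5.trans (mul_le_mul_of_nonneg_right h6 (Real.rpow_nonneg (by linarith) _))
  have h7 : 2 / hh (y + 1) = 2 * (hh (y + 1))⁻¹ := div_eq_mul_inv _ _
  rw [h7]
  calc 2 * (hh (y + 1))⁻¹ ≤ 2 * (C * Real.log ((y + 1 : ℕ) : ℝ)) := by linarith
    _ ≤ 2 * (C * (2 * (y : ℝ) ^ (1 / 18 : ℝ) / (1 / 18 : ℝ))) := by
        have h8 : Real.log ((y + 1 : ℕ) : ℝ) ≤ 2 * (y : ℝ) ^ (1 / 18 : ℝ) / (1 / 18 : ℝ) :=
          h2.trans (div_le_div_of_nonneg_right h3 (by norm_num))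
        have := mul_le_mul_of_nonneg_left h8 hC.le
        linarith
    _ = 72 * C * (y : ℝ) ^ (1 / 18 : ℝ) := by ring

theorem NTc_pos (y : ℕ) : 0 ≤ 2 / hh (y + 1) := div_nonneg (by norm_num) (hh_pos _).le

theorem summable_ab : Summable (fun y : ℕ => ((4 + 2 / hh (y + 1)) / (y : ℝ)) ^ (9 / 8 : ℝ)) := by
  obtain ⟨C, hC, h⟩ := NTc_bd
  have hs : Summable (fun y : ℕ => (4 + C) ^ (9 / 8 : ℝ) * (y : ℝ) ^ (-(17 / 16) : ℝ)) :=
    (Real.summable_nat_rpow.2 (by norm_num)).mul_left _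
  refine Summable.of_nonneg_of_le ?_ ?_ hs
  · intro y
    exact Real.rpow_nonneg (div_nonneg (add_nonneg (by norm_num) (NTc_pos y)) (Nat.cast_nonneg _)) _
  · intro y
    rcases Nat.eq_zero_or_pos y with rfl | hy
    · rw [Nat.cast_zero, div_zero, Real.zero_rpow (by norm_num)]
      exact mul_nonneg (Real.rpow_nonneg (by linarith) _) (Real.rpow_nonneg le_rfl _)
    · have hy1 : (1 : ℝ) ≤ (y : ℝ) := by exact_mod_cast hy
      have hy0 : (0 : ℝ) < (y : ℝ) := by linarith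
      have h1 : 1 ≤ (y : ℝ) ^ (1 / 18 : ℝ) := Real.one_le_rpow hy1 (by norm_num)
      have h2 : 4 + 2 / hh (y + 1) ≤ (4 + C) * (y : ℝ) ^ (1 / 18 : ℝ) := by
        have := h y hy
        nlinarith
      have h3 : (4 + 2 / hh (y + 1)) / (y : ℝ) ≤ (4 + C) * (y : ℝ) ^ (-(17 / 18) : ℝ) := by
        have h4 : (y : ℝ) ^ (-(17 / 18) : ℝ) = (y : ℝ) ^ (1 / 18 : ℝ) / (y : ℝ) := by
          rw [← Real.rpow_sub_one hy0.ne']
          norm_num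
        rw [h4, ← mul_div_assoc]
        exact div_le_div_of_nonneg_right h2 hy0.le
      have h5 : 0 ≤ (4 + 2 / hh (y + 1)) / (y : ℝ) :=
        div_nonneg (add_nonneg (by norm_num) (NTc_pos y)) hy0.le
      refine (Real.rpow_le_rpow h5 h3 (by norm_num)).trans (le_of_eq ?_)
      rw [Real.mul_rpow (by linarith) (Real.rpow_nonneg hy0.le _), ← Real.rpow_mul hy0.le]
      norm_num

theorem tail_small : Tendsto (fun y : ℕ => 7 * (2 / hh (y + 1)) ^ (1 / 4 : ℝ) *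
    ((y : ℝ)⁻¹) ^ (1 / 4 : ℝ)) atTop (𝓝 0) := by
  obtain ⟨C, hC, h⟩ := NTc_bd
  have ht : Tendsto (fun y : ℕ => 7 * C ^ (1 / 4 : ℝ) * (y : ℝ) ^ (-(17 / 72) : ℝ)) atTop (𝓝 0) := by
    have h1 : Tendsto (fun y : ℕ => (y : ℝ) ^ (-(17 / 72) : ℝ)) atTop (𝓝 0) :=
      (tendsto_rpow_neg_atTop (show (0 : ℝ) < 17 / 72 by norm_num)).comp tendsto_natCast_atTop_atTop
    have h2 := h1.const_mul (7 * C ^ (1 / 4 : ℝ))
    rwa [mul_zero] at h2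
  refine squeeze_zero' ?_ ?_ ht
  · filter_upwards with y
    exact mul_nonneg (mul_nonneg (by norm_num) (Real.rpow_nonneg (NTc_pos y) _))
      (Real.rpow_nonneg (inv_nonneg.2 (Nat.cast_nonneg _)) _)
  · filter_upwards [eventually_ge_atTop 1] with y hy
    have hy1 : (1 : ℝ) ≤ (y : ℝ) := by exact_mod_cast hy
    have hy0 : (0 : ℝ) < (y : ℝ) := by linarith
    have h1 := Real.rpow_le_rpow (NTc_pos y) (h y hy) (show (0 : ℝ) ≤ 1 / 4 by norm_num)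
    rw [Real.mul_rpow hC.le (Real.rpow_nonneg hy0.le _), ← Real.rpow_mul hy0.le] at h1
    have h2 : ((y : ℝ)⁻¹) ^ (1 / 4 : ℝ) = (y : ℝ) ^ (-(1 / 4) : ℝ) := by
      rw [Real.inv_rpow hy0.le, Real.rpow_neg hy0.le]
    rw [h2]
    have h3 : (y : ℝ) ^ (-(17 / 72) : ℝ) = (y : ℝ) ^ (1 / 18 * (1 / 4) : ℝ) * (y : ℝ) ^ (-(1 / 4) : ℝ) := by
      rw [← Real.rpow_add hy0]
      norm_num
    rw [h3]
    calc 7 * (2 / hh (y + 1)) ^ (1 / 4 : ℝ) * (y : ℝ) ^ (-(1 / 4) : ℝ)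
        ≤ 7 * (C ^ (1 / 4 : ℝ) * (y : ℝ) ^ (1 / 18 * (1 / 4) : ℝ)) * (y : ℝ) ^ (-(1 / 4) : ℝ) := by
          apply mul_le_mul_of_nonneg_right _ (Real.rpow_nonneg hy0.le _)
          exact mul_le_mul_of_nonneg_left h1 (by norm_num)
      _ = _ := by ring

end Pool.Agent.H2D
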