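import Mathlib
import Pool.Agent.Lib.H2D.Defs
import Pool.Agent.Lib.H2D.NTa

set_option autoImplicit false

/-!
# H2D chunk A9a: facts on `Psi`: the terms `al_j` (here only `al_terms`)

Let `K` be given by `key_N1 C5` (N1: `2 (C5 π(y) + 1) ≤ K (y-1) h(y)` for `y ≥ 2`, `π(y)` = number
of primes below `y`, `h = hh`).

* `one_le`: `A + 1 < y`: value 1. Otherwise `A ≥ y - 1`, `A ≥ 1`, so (also for `y = 2`)
  `K A h(y) - C5 π(y) ≥ K (y-1) h(y) - C5 π(y) ≥ C5 π(y) + 2 ≥ 1`.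
* `mono`: `Psi (y+1) A ≤ Psi y A`: if `A + 1 < y + 1` the left side is 1 and use `one_le`; else `y ≤ A` and
  (not prime) same formula, (prime) `K A h(y)(1 - 1/y) - C5 (π(y)+1) ≤ K A h(y) - C5 π(y)`.
* For `y` prime, `y ≤ A`: put `P' = Psi (y+1) A = K A h(y+1) - C5 (π(y)+1)` (as `¬ A + 1 < y + 1`).
  N1 at `y+1`: `C5 (π(y)+1) + 1 ≤ K y h(y+1)/2 ≤ K A h(y+1)/2`, so
  (E) `P' ≥ K A h(y+1)/2 + 1` and also `P' ≥ C5 (π(y) + 1) + 2 ≥ C5`.
  For `j ≥ 1` with `y^j ≤ A`, `A_j = A / y^j` (floor): if `A_j ≥ y` then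
  `Psi (y+1) A_j = K A_j h(y+1) - C5 (π+1) ≤ K A h(y+1) y^(-j)`; if `A_j < y`: `Psi (y+1) A_j = 1`, and
  this happens for at most one `j` (`1 ≤ A_j < y` means `y^j ≤ A < y^(j+1)`).
  So `∑_j Psi (y+1) A_j ≤ K A h(y+1)/(y-1) + 1`.
  - `al_sum_gain`: `Psi y A = K A h(y) - C5 π(y)`, `h(y) = h(y+1) (1 + 1/(y-1))`, hence
    `Psi y A = P' + K A h(y+1)/(y-1) + C5 ≥ P' + ∑_j Psi (y+1) A_j + (C5 - 1)`.
  - `al_sum_le`: `∑ al ≤ (K A h(y+1)/(y-1) + 1)/P' ≤ 2/(y-1) + 1/P' ≤ 4/y + 1/P'`.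
  - `1/P' ≤ 2/(K A h(y+1)) ≤ (2/h(y+1))/y` (`K ≥ 1`, `A ≥ y`), so `∑ al ≤ (4 + 2/h(y+1))/y`.
  - each `al_j ≤ (2/h(y+1)) y^(-j)`: in the first case `≤ K A h y^(-j) / (K A h/2) = 2 y^(-j)`, in the
    second `1/P' ≤ 2/(K A h) ≤ (2/h) y^(-j)` as `A ≥ y^j`. So
    `∑ al_j^(1/4) ≤ (2/h)^(1/4) ∑_{j≥1} (y^(-1/4))^j ≤ (2/h)^(1/4) 7 y^(-1/4)`
    (`1/(1 - 2^(-1/4)) = 6.28...≤ 7`).
-/

namespace Pool.Agent.H2D

open Finset

theorem psa_geom (y N : ℕ) (hy : 2 ≤ y) :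
    ∑ j ∈ Icc 1 N, ((y : ℝ)⁻¹) ^ j = (1 - ((y : ℝ)⁻¹) ^ N) / ((y : ℝ) - 1) := by
  have h2 : (2 : ℝ) ≤ y := by exact_mod_cast hy
  have h3 : (y : ℝ) - 1 ≠ 0 := by linarith
  have h4 : (y : ℝ) ≠ 0 := by linarith
  induction N with
  | zero => simp
  | succ N ih =>
    rw [Finset.sum_Icc_succ_top (by omega), ih, pow_succ]
    field_simp
    ring

theorem psa_geom_le (y N : ℕ) (hy : 2 ≤ y) :
    ∑ j ∈ Icc 1 N, ((y : ℝ)⁻¹) ^ j ≤ 1 / ((y : ℝ) - 1) := by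
  have h2 : (2 : ℝ) ≤ y := by exact_mod_cast hy
  rw [psa_geom y N hy]
  refine div_le_div_of_nonneg_right ?_ (by linarith)
  have : 0 ≤ ((y : ℝ)⁻¹) ^ N := by positivity
  linarith

theorem psa_ind (y A : ℕ) (hy : 2 ≤ y) (s : Finset ℕ) :
    ((s.filter (fun j => y ^ j ≤ A)).filter (fun j => A / y ^ j < y)).card ≤ 1 := by
  rw [Finset.card_le_one]
  have key : ∀ j ∈ (s.filter (fun j => y ^ j ≤ A)).filter (fun j => A / y ^ j < y), j = Nat.log y A := by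
    intro j hj
    rw [Finset.mem_filter, Finset.mem_filter] at hj
    obtain ⟨⟨-, h1⟩, h2⟩ := hj
    have h3 : A < y ^ (j + 1) := by
      have h4 := (Nat.div_lt_iff_lt_mul (pow_pos (by omega : 0 < y) j)).1 h2
      rw [pow_succ, mul_comm]
      exact h4
    exact (Nat.log_eq_of_pow_le_of_lt_pow h1 h3).symm
  intro a ha b hb
  rw [key a ha, key b hb]

theorem al_terms (C5 K : ℝ) (hC5 : 1 ≤ C5) (hK : 1 ≤ K)
    (hN1 : ∀ y : ℕ, 2 ≤ y →
      2 * (C5 * ((Nat.primesBelow y).card : ℝ) + 1) ≤ K * ((y : ℝ) - 1) * hh y)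
    (y A : ℕ) (hy : y.Prime) (hA : y ≤ A) :
    Psi K C5 (y + 1) A = K * A * hh (y + 1) - C5 * ((Nat.primesBelow y).card + 1) ∧
    K * A * hh (y + 1) / 2 + 1 ≤ Psi K C5 (y + 1) A ∧ C5 ≤ Psi K C5 (y + 1) A ∧
    (∀ j : ℕ, 1 ≤ j → 0 ≤ al K C5 y A j ∧
      al K C5 y A j ≤ (2 / hh (y + 1)) * ((y : ℝ)⁻¹) ^ j) ∧
    (∀ N : ℕ, ∑ j ∈ (Icc 1 N).filter (fun j => y ^ j ≤ A), Psi K C5 (y + 1) (A / y ^ j) ≤
      K * A * hh (y + 1) / ((y : ℝ) - 1) + 1) := by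
  have hy2 : (2 : ℝ) ≤ y := by exact_mod_cast hy.two_le
  have hh0 := hh_pos (y + 1)
  have hh1 := hh_le_one (y + 1)
  have hN := hN1 (y + 1) (by have := hy.two_le; omega)
  rw [card_succ_prime y hy] at hN
  push_cast at hN
  have hpi : (0 : ℝ) ≤ ((Nat.primesBelow y).card : ℝ) := Nat.cast_nonneg _
  generalize hπ : ((Nat.primesBelow y).card : ℝ) = π at *
  have hval : ∀ B : ℕ, y ≤ B → Psi K C5 (y + 1) B = K * B * hh (y + 1) - C5 * (π + 1) := by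
    intro B hB
    unfold Psi
    rw [if_neg (by omega), card_succ_prime y hy]
    push_cast
    rw [hπ]
  have hbig : ∀ B : ℕ, y ≤ B → 2 * (C5 * (π + 1) + 1) ≤ K * B * hh (y + 1) := by
    intro B hB
    have hB' : (y : ℝ) ≤ B := by exact_mod_cast hB
    refine hN.trans ?_
    refine mul_le_mul_of_nonneg_right ?_ hh0.le
    refine mul_le_mul_of_nonneg_left ?_ (by linarith)
    linarith
  have hC0 : 0 ≤ C5 * (π + 1) := mul_nonneg (by linarith) (by linarith)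
  have hCC : C5 ≤ C5 * (π + 1) := by nlinarith
  have hE := hbig A hA
  have hP := hval A hA
  have h2 : K * A * hh (y + 1) / 2 + 1 ≤ Psi K C5 (y + 1) A := by
    rw [hP]
    linarith
  have h3 : C5 ≤ Psi K C5 (y + 1) A := by
    rw [hP]
    linarith
  have hA0 : (0 : ℝ) ≤ A := Nat.cast_nonneg _
  have hT0 : 0 ≤ K * A * hh (y + 1) := by positivity
  have hbd : ∀ j : ℕ, Psi K C5 (y + 1) (A / y ^ j) ≤
      K * A * hh (y + 1) * ((y : ℝ)⁻¹) ^ j + if A / y ^ j < y then 1 else 0 := by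
    intro j
    by_cases hj : A / y ^ j < y
    · rw [if_pos hj]
      unfold Psi
      rw [if_pos (by omega)]
      have : 0 ≤ K * A * hh (y + 1) * ((y : ℝ)⁻¹) ^ j := by positivity
      linarith
    · rw [if_neg hj, hval _ (not_lt.1 hj), add_zero]
      have h5 : ((A / y ^ j : ℕ) : ℝ) ≤ A * ((y : ℝ)⁻¹) ^ j := by
        refine Nat.cast_div_le.trans (le_of_eq ?_)
        push_cast
        rw [inv_pow, div_eq_mul_inv]
      have h6 : K * ((A / y ^ j : ℕ) : ℝ) * hh (y + 1) ≤ K * (A * ((y : ℝ)⁻¹) ^ j) * hh (y + 1) :=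
        mul_le_mul_of_nonneg_right (mul_le_mul_of_nonneg_left h5 (by linarith)) hh0.le
      have h7 : K * (A * ((y : ℝ)⁻¹) ^ j) * hh (y + 1) = K * A * hh (y + 1) * ((y : ℝ)⁻¹) ^ j := by ring
      linarith
  refine ⟨hP, h2, h3, ?_, ?_⟩
  · intro j hj
    unfold al
    by_cases hjA : y ^ j ≤ A
    · rw [if_pos hjA]
      have hP0 : 0 < Psi K C5 (y + 1) A := by linarith
      have hAj : ((y : ℝ)) ^ j ≤ A := by exact_mod_cast hjA
      have hx : ((y : ℝ)) ^ j * ((y : ℝ)⁻¹) ^ j = 1 := by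
        rw [← mul_pow, mul_inv_cancel₀ (by linarith), one_pow]
      have hx0 : 0 < ((y : ℝ)⁻¹) ^ j := by positivity
      have h8 : 0 ≤ Psi K C5 (y + 1) (A / y ^ j) := by
        by_cases hjy : A / y ^ j < y
        · unfold Psi
          rw [if_pos (by omega)]
          exact zero_le_one
        · rw [hval _ (not_lt.1 hjy)]
          have := hbig _ (not_lt.1 hjy)
          linarith
      refine ⟨div_nonneg h8 hP0.le, ?_⟩
      rw [div_le_iff₀ hP0]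
      have h9 : (2 / hh (y + 1)) * ((y : ℝ)⁻¹) ^ j * (K * A * hh (y + 1) / 2) ≤
          (2 / hh (y + 1)) * ((y : ℝ)⁻¹) ^ j * Psi K C5 (y + 1) A :=
        mul_le_mul_of_nonneg_left (by linarith) (by positivity)
      have h10 : (2 / hh (y + 1)) * ((y : ℝ)⁻¹) ^ j * (K * A * hh (y + 1) / 2) = K * (A * ((y : ℝ)⁻¹) ^ j) := by
        field_simp
      refine le_trans ?_ h9
      rw [h10]
      have h11 : 1 ≤ A * ((y : ℝ)⁻¹) ^ j := by
        rw [← hx]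
        exact mul_le_mul_of_nonneg_right hAj hx0.le
      by_cases hjy : A / y ^ j < y
      · have h12 : Psi K C5 (y + 1) (A / y ^ j) = 1 := by
          unfold Psi
          rw [if_pos (by omega)]
        rw [h12]
        nlinarith
      · have h12 := hbd j
        rw [if_neg hjy, add_zero] at h12
        refine h12.trans ?_
        have h13 : K * A * hh (y + 1) * ((y : ℝ)⁻¹) ^ j = K * (A * ((y : ℝ)⁻¹) ^ j) * hh (y + 1) := by ring
        rw [h13]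
        exact mul_le_of_le_one_right (by positivity) hh1
    · rw [if_neg hjA]
      exact ⟨le_rfl, by positivity⟩
  · intro N
    have h14 : ∑ j ∈ (Icc 1 N).filter (fun j => y ^ j ≤ A), Psi K C5 (y + 1) (A / y ^ j) ≤
        ∑ j ∈ (Icc 1 N).filter (fun j => y ^ j ≤ A),
          (K * A * hh (y + 1) * ((y : ℝ)⁻¹) ^ j + if A / y ^ j < y then 1 else 0) :=
      Finset.sum_le_sum fun j _ => hbd j
    refine h14.trans ?_
    rw [Finset.sum_add_distrib]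
    refine add_le_add ?_ ?_
    · have h15 : ∑ j ∈ (Icc 1 N).filter (fun j => y ^ j ≤ A), K * A * hh (y + 1) * ((y : ℝ)⁻¹) ^ j ≤
          ∑ j ∈ Icc 1 N, K * A * hh (y + 1) * ((y : ℝ)⁻¹) ^ j :=
        Finset.sum_le_sum_of_subset_of_nonneg (Finset.filter_subset _ _) (fun j _ _ => by positivity)
      refine h15.trans ?_
      rw [← Finset.mul_sum]
      calc K * A * hh (y + 1) * ∑ j ∈ Icc 1 N, ((y : ℝ)⁻¹) ^ j ≤ K * A * hh (y + 1) * (1 / ((y : ℝ) - 1)) :=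
            mul_le_mul_of_nonneg_left (psa_geom_le y N hy.two_le) hT0
        _ = K * A * hh (y + 1) / ((y : ℝ) - 1) := by ring
    · rw [Finset.sum_ite, Finset.sum_const_zero, add_zero, Finset.sum_const, nsmul_eq_mul, mul_one]
      exact_mod_cast psa_ind y A hy.two_le (Icc 1 N)

end Pool.Agent.H2D
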