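import Mathlib
import Pool.Agent.Lib.H2D.Defs
import Pool.Agent.Lib.H2D.NTa
import Pool.Agent.Lib.H2D.NTb
import Pool.Agent.Lib.H2D.PSa

set_option autoImplicit false

/-!
# H2D chunk A9: facts on `Psi`

Let `K` be given by `key_N1 C5` (N1: `2 (C5 π(y) + 1) ≤ K (y-1) h(y)` for `y ≥ 2`, `π(y)` = number
of primes below `y`, `h = hh`).

* `one_le`: `A + 1 < y`: value 1. Otherwise `A ≥ y - 1`, `A ≥ 1`, so (also for `y = 2`)
  `K A h(y) - C5 π(y) ≥ K (y-1) h(y) - C5 π(y) ≥ C5 π(y) + 2 ≥ 1`.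
* `mono`: `Psi (y+1) A ≤ Psi y A`: if `A + 1 < y + 1` the left side is 1 and use `one_le`; else `y ≤ A` and
  (not prime) same formula, (prime) `K A h(y)(1 - 1/y) - C5 (π(y)+1) ≤ K A h(y) - C5 π(y)`.
* For `y` prime, `y ≤ A`: put `P' = Psi (y+1) A = K A h(y+1) - C5 (π(y)+1)` (as `¬ A + 1 < y + 1`).
  N1 at `y+1`: `C5 (π(y)+1) + 1 ≤ K y h(y+1)/2 ≤ K A h(y+1)/2`, so
  (E) `P' ≥ K A h(y+1)/2 + 1` and also `P' ≥ C5 (π(y) + 1) + 2 ≥ C5`.
  For `j ≥ 1` with `y^j ≤ A`, `A_j = A / y^j` (floor): if `A_j ≥ y` then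
  `Psi (y+1) A_j = K A_j h(y+1) - C5 (π+1) ≤ K A h(y+1) y^(-j)`; if `A_j < y`: `Psi (y+1) A_j = 1`, and
  this happens for at most one `j` (`1 ≤ A_j < y` means `y^j ≤ A < y^(j+1)`).
  So `∑_j Psi (y+1) A_j ≤ K A h(y+1)/(y-1) + 1`.
  - `al_sum_gain`: `Psi y A = K A h(y) - C5 π(y)`, `h(y) = h(y+1) (1 + 1/(y-1))`, hence
    `Psi y A = P' + K A h(y+1)/(y-1) + C5 ≥ P' + ∑_j Psi (y+1) A_j + (C5 - 1)`.
  - `al_sum_le`: `∑ al ≤ (K A h(y+1)/(y-1) + 1)/P' ≤ 2/(y-1) + 1/P' ≤ 4/y + 1/P'`.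
  - `1/P' ≤ 2/(K A h(y+1)) ≤ (2/h(y+1))/y` (`K ≥ 1`, `A ≥ y`), so `∑ al ≤ (4 + 2/h(y+1))/y`.
  - each `al_j ≤ (2/h(y+1)) y^(-j)`: in the first case `≤ K A h y^(-j) / (K A h/2) = 2 y^(-j)`, in the
    second `1/P' ≤ 2/(K A h) ≤ (2/h) y^(-j)` as `A ≥ y^j`. So
    `∑ al_j^(1/4) ≤ (2/h)^(1/4) ∑_{j≥1} (y^(-1/4))^j ≤ (2/h)^(1/4) 7 y^(-1/4)`
    (`1/(1 - 2^(-1/4)) = 6.28...≤ 7`).
-/

namespace Pool.Agent.H2D

open Finset

/-- what is needed about `Psi` -/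
structure PsiOK (K C5 : ℝ) : Prop where
  K1 : 1 ≤ K
  one_le : ∀ y A : ℕ, 2 ≤ y → 1 ≤ A → 1 ≤ Psi K C5 y A
  mono : ∀ y A : ℕ, 2 ≤ y → 1 ≤ A → Psi K C5 (y + 1) A ≤ Psi K C5 y A
  inv_le : ∀ y A : ℕ, y.Prime → y ≤ A → C5 * (1 / Psi K C5 (y + 1) A) ≤ 1
  gain : ∀ y A N : ℕ, y.Prime → y ≤ A →
    Psi K C5 (y + 1) A * (1 + ∑ j ∈ Icc 1 N, al K C5 y A j + (C5 - 1) * (1 / Psi K C5 (y + 1) A))
      ≤ Psi K C5 y A
  sum_le : ∀ y A N : ℕ, y.Prime → y ≤ A →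
    ∑ j ∈ Icc 1 N, al K C5 y A j ≤ 4 / (y : ℝ) + 1 / Psi K C5 (y + 1) A
  sum_le' : ∀ y A N : ℕ, y.Prime → y ≤ A →
    ∑ j ∈ Icc 1 N, al K C5 y A j ≤ (4 + 2 / hh (y + 1)) / (y : ℝ)
  root : ∀ y A N : ℕ, y.Prime → y ≤ A →
    ∑ j ∈ Icc 1 N, (al K C5 y A j) ^ (1 / 4 : ℝ) ≤
      7 * (2 / hh (y + 1)) ^ (1 / 4 : ℝ) * ((y : ℝ)⁻¹) ^ (1 / 4 : ℝ)

theorem ps_neg {K C5 : ℝ} {y A : ℕ} (h : ¬ A + 1 < y) :
    Psi K C5 y A = K * (A : ℝ) * hh y - C5 * ((Nat.primesBelow y).card : ℝ) := by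
  unfold Psi
  rw [if_neg h]

theorem ps_pos {K C5 : ℝ} {y A : ℕ} (h : A + 1 < y) : Psi K C5 y A = 1 := by
  unfold Psi
  rw [if_pos h]

theorem ps_one_le (C5 K : ℝ) (hC5 : 1 ≤ C5) (hK : 1 ≤ K)
    (hN1 : ∀ y : ℕ, 2 ≤ y →
      2 * (C5 * ((Nat.primesBelow y).card : ℝ) + 1) ≤ K * ((y : ℝ) - 1) * hh y)
    (y A : ℕ) (hy : 2 ≤ y) : 1 ≤ Psi K C5 y A := by
  by_cases h : A + 1 < y
  · rw [ps_pos h]
  · rw [ps_neg h]
    have h1 := hN1 y hy
    have h2 : (y : ℝ) - 1 ≤ A := by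
      have : y ≤ A + 1 := by omega
      have h3 : (y : ℝ) ≤ ((A + 1 : ℕ) : ℝ) := by exact_mod_cast this
      push_cast at h3
      linarith
    have h3 : K * ((y : ℝ) - 1) * hh y ≤ K * (A : ℝ) * hh y := by
      apply mul_le_mul_of_nonneg_right _ (hh_pos y).le
      apply mul_le_mul_of_nonneg_left h2
      linarith
    have h4 : 0 ≤ C5 * ((Nat.primesBelow y).card : ℝ) :=
      mul_nonneg (by linarith) (Nat.cast_nonneg _)
    linarith

theorem ps_mul_al (C5 K : ℝ) (y A N : ℕ) (hP : Psi K C5 (y + 1) A ≠ 0) :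
    Psi K C5 (y + 1) A * ∑ j ∈ Icc 1 N, al K C5 y A j =
      ∑ j ∈ (Icc 1 N).filter (fun j => y ^ j ≤ A), Psi K C5 (y + 1) (A / y ^ j) := by
  rw [Finset.mul_sum, Finset.sum_filter]
  refine Finset.sum_congr rfl fun j _ => ?_
  unfold al
  by_cases h : y ^ j ≤ A
  · rw [if_pos h, if_pos h]
    field_simp
  · rw [if_neg h, if_neg h, mul_zero]

theorem ps_geom (r : ℝ) (h0 : 0 ≤ r) (h1 : r ≤ 6 / 7) (N : ℕ) :
    ∑ j ∈ Icc 1 N, r ^ j ≤ 7 * r := by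
  have h2 : ∀ N : ℕ, ∑ j ∈ Icc 1 N, r ^ j ≤ 7 * r - 7 * (r * r ^ N) := by
    intro N
    induction N with
    | zero =>
      simp only [Finset.Icc_eq_empty_of_lt (by norm_num : (0 : ℕ) < 1), Finset.sum_empty, pow_zero]
      linarith
    | succ k ih =>
      rw [Finset.sum_Icc_succ_top (by omega)]
      have h3 : r ^ (k + 1) = r * r ^ k := pow_succ' r k
      have h4 : 0 ≤ r * r ^ k := mul_nonneg h0 (pow_nonneg h0 k)
      rw [h3]
      have h6 : r * (r * r ^ k) ≤ 6 / 7 * (r * r ^ k) := mul_le_mul_of_nonneg_right h1 h4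
      linarith
  have h3 := h2 N
  have h4 : 0 ≤ r * r ^ N := by positivity
  linarith

theorem exists_PsiOK (C5 : ℝ) (hC5 : 1 ≤ C5) : ∃ K : ℝ, PsiOK K C5 := by
  obtain ⟨K, hK, hN1⟩ := key_N1 C5 hC5
  refine ⟨K, ?_⟩
  have hC0 : (0 : ℝ) ≤ C5 := by linarith
  have hK0 : (0 : ℝ) < K := by linarith
  -- common facts
  have key : ∀ y A : ℕ, y.Prime → y ≤ A →
      0 < Psi K C5 (y + 1) A ∧ K * A * hh (y + 1) ≤ 2 * Psi K C5 (y + 1) A ∧
        (∀ N : ℕ, ∑ j ∈ Icc 1 N, al K C5 y A j ≤ 4 / (y : ℝ) + 1 / Psi K C5 (y + 1) A) := by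
    intro y A hy hA
    obtain ⟨-, hb, -, -, he⟩ := al_terms C5 K hC5 hK hN1 y A hy hA
    have hh0 := hh_pos (y + 1)
    have hKA : 0 ≤ K * A * hh (y + 1) := by positivity
    have hP : 0 < Psi K C5 (y + 1) A := by linarith
    refine ⟨hP, by linarith, ?_⟩
    intro N
    have hy2 : (2 : ℝ) ≤ y := by exact_mod_cast hy.two_le
    have h1 := ps_mul_al C5 K y A N hP.ne'
    have h2 := he N
    rw [← h1] at h2
    have h3 : K * A * hh (y + 1) / ((y : ℝ) - 1) ≤ 4 / (y : ℝ) * Psi K C5 (y + 1) A := by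
      rw [div_le_iff₀ (by linarith)]
      have h4 : (2 : ℝ) ≤ 4 / (y : ℝ) * ((y : ℝ) - 1) := by
        rw [div_mul_eq_mul_div, le_div_iff₀ (by linarith)]
        linarith
      have h5 : K * A * hh (y + 1) ≤ 2 * Psi K C5 (y + 1) A := by linarith
      calc K * A * hh (y + 1) ≤ 2 * Psi K C5 (y + 1) A := h5
        _ ≤ (4 / (y : ℝ) * ((y : ℝ) - 1)) * Psi K C5 (y + 1) A :=
            mul_le_mul_of_nonneg_right h4 hP.le
        _ = 4 / (y : ℝ) * Psi K C5 (y + 1) A * ((y : ℝ) - 1) := by ring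
    have h6 : Psi K C5 (y + 1) A * ∑ j ∈ Icc 1 N, al K C5 y A j
        ≤ Psi K C5 (y + 1) A * (4 / (y : ℝ) + 1 / Psi K C5 (y + 1) A) := by
      have h7 : Psi K C5 (y + 1) A * (4 / (y : ℝ) + 1 / Psi K C5 (y + 1) A)
          = 4 / (y : ℝ) * Psi K C5 (y + 1) A + 1 := by
        rw [mul_add, mul_one_div_cancel hP.ne']
        ring
      rw [h7]
      linarith
    exact le_of_mul_le_mul_left h6 hP
  refine ⟨hK, ?_, ?_, ?_, ?_, ?_, ?_, ?_⟩
  · intro y A hy _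
    exact ps_one_le C5 K hC5 hK hN1 y A hy
  · intro y A hy _
    by_cases h : A + 1 < y + 1
    · rw [ps_pos h]
      exact ps_one_le C5 K hC5 hK hN1 y A hy
    · have h' : ¬ A + 1 < y := by omega
      rw [ps_neg h, ps_neg h']
      by_cases hp : y.Prime
      · rw [hh_succ_prime y hp, card_succ_prime y hp]
        have h1 : hh y * (1 - 1 / (y : ℝ)) ≤ hh y := by
          have h2 : (0 : ℝ) ≤ 1 / (y : ℝ) := by positivity
          have h3 := hh_pos y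
          nlinarith
        have h4 : K * (A : ℝ) * (hh y * (1 - 1 / (y : ℝ))) ≤ K * (A : ℝ) * hh y :=
          mul_le_mul_of_nonneg_left h1 (by positivity)
        push_cast
        nlinarith
      · rw [hh_succ_not_prime y hp, card_succ_not_prime y hp]
  · intro y A hy hA
    obtain ⟨-, -, hc, -, -⟩ := al_terms C5 K hC5 hK hN1 y A hy hA
    obtain ⟨hP, -, -⟩ := key y A hy hA
    rw [mul_one_div, div_le_one hP]
    exact hc
  · intro y A N hy hA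
    obtain ⟨ha, hb, hc, hd, he⟩ := al_terms C5 K hC5 hK hN1 y A hy hA
    obtain ⟨hP, -, -⟩ := key y A hy hA
    have hy2 : (2 : ℝ) ≤ y := by exact_mod_cast hy.two_le
    have h1 := ps_mul_al C5 K y A N hP.ne'
    have h2 := he N
    rw [← h1] at h2
    have h' : ¬ A + 1 < y := by omega
    have h3 : hh (y + 1) / ((y : ℝ) - 1) + hh (y + 1) = hh y := by
      rw [hh_succ_prime y hy]
      have h4 : (y : ℝ) - 1 ≠ 0 := by
        have : (0 : ℝ) < (y : ℝ) - 1 := by linarith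
        exact this.ne'
      have h5 : (y : ℝ) ≠ 0 := by
        have : (0 : ℝ) < (y : ℝ) := by linarith
        exact this.ne'
      field_simp
      ring
    have h6 : Psi K C5 y A = K * A * hh (y + 1) / ((y : ℝ) - 1) + K * A * hh (y + 1)
        - C5 * ((Nat.primesBelow y).card : ℝ) := by
      rw [ps_neg h', ← h3]
      ring
    rw [h6]
    have h7 : Psi K C5 (y + 1) A *
        (1 + ∑ j ∈ Icc 1 N, al K C5 y A j + (C5 - 1) * (1 / Psi K C5 (y + 1) A))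
        = Psi K C5 (y + 1) A + Psi K C5 (y + 1) A * ∑ j ∈ Icc 1 N, al K C5 y A j + (C5 - 1) := by
      rw [mul_add, mul_add, mul_one]
      congr 1
      rw [mul_one_div, mul_div_assoc', mul_div_cancel_left₀ _ hP.ne']
    rw [h7]
    have h8 := ha
    linarith
  · intro y A N hy hA
    exact (key y A hy hA).2.2 N
  · intro y A N hy hA
    obtain ⟨hP, h1, h2⟩ := key y A hy hA
    refine (h2 N).trans ?_
    have hy2 : (2 : ℝ) ≤ y := by exact_mod_cast hy.two_le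
    have hAy : (y : ℝ) ≤ A := by exact_mod_cast hA
    have hh0 := hh_pos (y + 1)
    rw [add_div]
    have h3 : 1 / Psi K C5 (y + 1) A ≤ 2 / hh (y + 1) / (y : ℝ) := by
      rw [div_div, div_le_div_iff₀ hP (by positivity)]
      have h4 : (y : ℝ) * hh (y + 1) ≤ K * A * hh (y + 1) := by
        apply mul_le_mul_of_nonneg_right _ hh0.le
        nlinarith
      nlinarith
    linarith
  · intro y A N hy hA
    obtain ⟨-, -, -, hd, -⟩ := al_terms C5 K hC5 hK hN1 y A hy hA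
    have hy2 : (2 : ℝ) ≤ y := by exact_mod_cast hy.two_le
    have hh0 := hh_pos (y + 1)
    have hyi : (0 : ℝ) ≤ (y : ℝ)⁻¹ := by positivity
    set r : ℝ := ((y : ℝ)⁻¹) ^ (1 / 4 : ℝ) with hr
    have hr0 : 0 ≤ r := Real.rpow_nonneg hyi _
    have hr1 : r ≤ 6 / 7 := by
      have h1 : r ^ 4 ≤ (6 / 7 : ℝ) ^ 4 := by
        rw [hr, ← Real.rpow_natCast, ← Real.rpow_mul hyi]
        norm_num
        have h2 : (y : ℝ)⁻¹ ≤ 1 / 2 := by
          rw [inv_le_comm₀ (by linarith) (by norm_num)]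
          norm_num
          exact hy.two_le
        refine h2.trans ?_
        norm_num
      exact le_of_pow_le_pow_left₀ (by norm_num) (by norm_num) h1
    have hterm : ∀ j ∈ Icc 1 N, (al K C5 y A j) ^ (1 / 4 : ℝ)
        ≤ (2 / hh (y + 1)) ^ (1 / 4 : ℝ) * r ^ j := by
      intro j hj
      obtain ⟨h1, h2⟩ := hd j (Finset.mem_Icc.1 hj).1
      refine (Real.rpow_le_rpow h1 h2 (by norm_num)).trans (le_of_eq ?_)
      rw [Real.mul_rpow (by positivity) (by positivity), hr]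
      congr 1
      rw [← Real.rpow_natCast, ← Real.rpow_natCast, ← Real.rpow_mul hyi, ← Real.rpow_mul hyi,
        mul_comm]
    refine (Finset.sum_le_sum hterm).trans ?_
    rw [← Finset.mul_sum]
    have h3 := ps_geom r hr0 hr1 N
    calc (2 / hh (y + 1)) ^ (1 / 4 : ℝ) * ∑ j ∈ Icc 1 N, r ^ j
        ≤ (2 / hh (y + 1)) ^ (1 / 4 : ℝ) * (7 * r) :=
          mul_le_mul_of_nonneg_left h3 (Real.rpow_nonneg (by positivity) _)
      _ = 7 * (2 / hh (y + 1)) ^ (1 / 4 : ℝ) * r := by ring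

end Pool.Agent.H2D
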