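import Mathlib
import Pool.Agent.Lib.H2D.Defs

set_option autoImplicit false

/-!
# H2D chunk MK: Minkowski's inequality in `ℓ^{4/3}` for a finite sum of functions

Induction on `N` with `Real.Lp_add_le` (or `Real.Lp_add_le_of_nonneg`): with
`‖g‖ = (∑_{x ∈ R} g(x)^(4/3))^(3/4)`, `‖∑_{i<N} g_i‖ ≤ ∑_{i<N} ‖g_i‖`, then raise to the power `4/3`.
-/

namespace Pool.Agent.H2D

open Finset

theorem MK_norm {ι : Type*} (R : Finset ι) (N : ℕ) (g : ℕ → ι → ℝ) (hg : ∀ i x, 0 ≤ g i x) :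
    (∑ x ∈ R, (∑ i ∈ range N, g i x) ^ (4 / 3 : ℝ)) ^ (3 / 4 : ℝ) ≤
      ∑ i ∈ range N, (∑ x ∈ R, (g i x) ^ (4 / 3 : ℝ)) ^ (3 / 4 : ℝ) := by
  induction N with
  | zero =>
    simp only [Finset.range_zero, Finset.sum_empty]
    rw [Real.zero_rpow (by norm_num), Finset.sum_const_zero, Real.zero_rpow (by norm_num)]
  | succ N ih =>
    rw [Finset.sum_range_succ]
    have h1 := Real.Lp_add_le_of_nonneg (s := R) (f := fun x => ∑ i ∈ range N, g i x)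
      (g := fun x => g N x) (p := 4 / 3) (by norm_num)
      (fun x _ => Finset.sum_nonneg fun i _ => hg i x) (fun x _ => hg N x)
    have h2 : (1 : ℝ) / (4 / 3) = 3 / 4 := by norm_num
    rw [h2] at h1
    have h3 : ∑ x ∈ R, (∑ i ∈ range (N + 1), g i x) ^ (4 / 3 : ℝ) =
        ∑ x ∈ R, (∑ i ∈ range N, g i x + g N x) ^ (4 / 3 : ℝ) := by
      refine Finset.sum_congr rfl fun x _ => ?_
      rw [Finset.sum_range_succ]
    rw [h3]
    exact h1.trans (add_le_add_left ih _)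

theorem minkowski {ι : Type*} (R : Finset ι) (N : ℕ) (g : ℕ → ι → ℝ) (hg : ∀ i x, 0 ≤ g i x) :
    ∑ x ∈ R, (∑ i ∈ range N, g i x) ^ (4 / 3 : ℝ) ≤
      (∑ i ∈ range N, (∑ x ∈ R, (g i x) ^ (4 / 3 : ℝ)) ^ (3 / 4 : ℝ)) ^ (4 / 3 : ℝ) := by
  have h1 := MK_norm R N g hg
  have h0 : 0 ≤ ∑ x ∈ R, (∑ i ∈ range N, g i x) ^ (4 / 3 : ℝ) :=
    Finset.sum_nonneg fun x _ => Real.rpow_nonneg (Finset.sum_nonneg fun i _ => hg i x) _
  have h2 := Real.rpow_le_rpow (z := 4 / 3) (Real.rpow_nonneg h0 _) h1 (by norm_num)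
  rw [← Real.rpow_mul h0] at h2
  have h3 : (3 / 4 : ℝ) * (4 / 3) = 1 := by norm_num
  rw [h3, Real.rpow_one] at h2
  exact h2

end Pool.Agent.H2D
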