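import Mathlib
import Pool.Agent.Lib.H2D.Defs
import Pool.Agent.Lib.H2D.MK
import Pool.Agent.Lib.H2D.DC1
import Pool.Agent.Lib.H2D.DC2
import Pool.Agent.Lib.H2D.DC3

set_option autoImplicit false

/-!
# H2D chunk A13: one step of the induction, reduction to `lhs`

Write `Ψ = Psi K C5 (y+1)`, `X_i = mass κ (slice y i V)`, `Y_i = mass κ (slice y i W)`, `N` large (all
`n ∈ V ∪ W` are `< y^N` and positive, `A, B < y^N`).
By `KK_split` and `cnt_slice` (j = 0 for the first sum) and `minkowski`: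
`∑_{x ∈ prs (y+1) A B} cnt^θ = ∑_x (∑_i cnt (slice i V) (slice i W) x)^θ ≤ (∑_i KK (y+1) (V_i) (W_i) A B ^(3/4))^(4/3)`
and by the hypothesis `Bd … (y+1) Cy`:
`KK (y+1) V_i W_i A B ≤ Cy (Ψ(A) Ψ(B))^(1/4) (X_i Y_i)^(3/4)`; so the first sum is at most
`Cy (Ψ(A) Ψ(B))^(1/4) (∑_i (X_i Y_i)^(9/16))^(4/3)`.
Similarly for the others, with `Ψ(A / y^j)^(1/4) = Ψ(A)^(1/4) al_j^(1/4)` (`y^j ≤ A`, so `A / y^j ≥ 1`). For `y^j > A`,
`al_j = 0` and `0^(1/4) = 0`.
-/

namespace Pool.Agent.H2D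

open Finset

theorem st1_sum (κ : ℕ) (K C5 : ℝ) (Y y : ℕ) (Cy : ℝ) (hCy : 0 ≤ Cy)
    (hP : ∀ A : ℕ, 1 ≤ A → 1 ≤ Psi K C5 (y + 1) A) (h : Bd κ K C5 Y (y + 1) Cy)
    (V W : ℕ → Finset ℕ) (hV : ∀ i, Good (y + 1) Y (V i)) (hW : ∀ i, Good (y + 1) Y (W i))
    (A B : ℕ) (hA : 1 ≤ A) (hB : 1 ≤ B) (N : ℕ) :
    ∑ x ∈ prs (y + 1) A B, (∑ i ∈ range N, (cnt (V i) (W i) x.1 x.2 : ℝ)) ^ (4 / 3 : ℝ) ≤
      Cy * (Psi K C5 (y + 1) A * Psi K C5 (y + 1) B) ^ (1 / 4 : ℝ) *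
      (∑ i ∈ range N, (mass κ (V i) * mass κ (W i)) ^ (9 / 16 : ℝ)) ^ (4 / 3 : ℝ) := by
  have hPA := hP A hA
  have hPB := hP B hB
  have hPP : 0 ≤ Psi K C5 (y + 1) A * Psi K C5 (y + 1) B := mul_nonneg (by linarith) (by linarith)
  set c : ℝ := Cy * (Psi K C5 (y + 1) A * Psi K C5 (y + 1) B) ^ (1 / 4 : ℝ) with hc
  have hc0 : 0 ≤ c := mul_nonneg hCy (Real.rpow_nonneg hPP _)
  have hm0 : ∀ i, 0 ≤ mass κ (V i) * mass κ (W i) := fun i =>
    mul_nonneg (mass_nonneg _ _) (mass_nonneg _ _)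
  refine (minkowski (prs (y + 1) A B) N (fun i x => (cnt (V i) (W i) x.1 x.2 : ℝ))
    (fun i x => Nat.cast_nonneg _)).trans ?_
  have h1 : ∑ i ∈ range N, (∑ x ∈ prs (y + 1) A B,
        ((cnt (V i) (W i) x.1 x.2 : ℝ)) ^ (4 / 3 : ℝ)) ^ (3 / 4 : ℝ) ≤
      c ^ (3 / 4 : ℝ) * ∑ i ∈ range N, (mass κ (V i) * mass κ (W i)) ^ (9 / 16 : ℝ) := by
    rw [Finset.mul_sum]
    refine Finset.sum_le_sum fun i _ => ?_
    have h2 := h (V i) (W i) (hV i) (hW i) A B hA hB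
    have h3 : (∑ x ∈ prs (y + 1) A B, ((cnt (V i) (W i) x.1 x.2 : ℝ)) ^ (4 / 3 : ℝ)) ≤
        c * (mass κ (V i) * mass κ (W i)) ^ (3 / 4 : ℝ) := h2
    refine (Real.rpow_le_rpow (Finset.sum_nonneg fun x _ => Real.rpow_nonneg (Nat.cast_nonneg _) _)
      h3 (by norm_num)).trans ?_
    rw [Real.mul_rpow hc0 (Real.rpow_nonneg (hm0 i) _), ← Real.rpow_mul (hm0 i)]
    norm_num
  refine (Real.rpow_le_rpow (Finset.sum_nonneg fun i _ => Real.rpow_nonneg
    (Finset.sum_nonneg fun x _ => Real.rpow_nonneg (Nat.cast_nonneg _) _) _) h1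
    (by norm_num)).trans ?_
  rw [Real.mul_rpow (Real.rpow_nonneg hc0 _)
    (Finset.sum_nonneg fun i _ => Real.rpow_nonneg (hm0 i) _), ← Real.rpow_mul hc0]
  norm_num

theorem step_raw (κ : ℕ) (K C5 : ℝ) (Y y : ℕ) (hy : y.Prime) (Cy : ℝ) (hCy : 0 ≤ Cy)
    (hP : ∀ A : ℕ, 1 ≤ A → 1 ≤ Psi K C5 (y + 1) A) (h : Bd κ K C5 Y (y + 1) Cy)
    (V W : Finset ℕ) (hV : Good y Y V) (hW : Good y Y W) (A B : ℕ) (hA : 1 ≤ A) (hB : 1 ≤ B)
    (N : ℕ) (hN : 1 ≤ N) (hVN : ∀ n ∈ V, ¬ y ^ N ∣ n) (hWN : ∀ n ∈ W, ¬ y ^ N ∣ n)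
    (hAN : A < y ^ N) (hBN : B < y ^ N) :
    KK y V W A B ≤ Cy * (Psi K C5 (y + 1) A * Psi K C5 (y + 1) B) ^ (1 / 4 : ℝ) *
      lhs N (fun i => mass κ (slice y i V)) (fun i => mass κ (slice y i W))
        (al K C5 y A) (al K C5 y B) := by
  have hV0 : ∀ n ∈ V, 0 < n := fun n hn => (hV n hn).1
  have hW0 : ∀ n ∈ W, 0 < n := fun n hn => (hW n hn).1
  have hPA := hP A hA
  have hPB := hP B hB
  have hr : ∀ {A' B' : ℕ} {x : ℕ × ℕ}, x ∈ prs (y + 1) A' B' → ¬ y ∣ x.1 ∧ ¬ y ∣ x.2 := by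
    intro A' B' x hx
    classical
    simp only [prs, Finset.mem_filter] at hx
    exact ⟨not_dvd_of_rough hy hx.2.2.1, not_dvd_of_rough hy hx.2.2.2⟩
  have hypos : ∀ j, 0 < y ^ j := fun j => pow_pos hy.pos j
  refine (KK_split y hy V W A B N hAN hBN).trans ?_
  unfold lhs
  rw [mul_add, mul_add]
  refine add_le_add (add_le_add ?_ ?_) ?_
  · have h1 := st1_sum κ K C5 Y y Cy hCy hP h (fun i => slice y i V) (fun i => slice y i W)
      (fun i => slice_good hy hV i) (fun i => slice_good hy hW i) A B hA hB N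
    refine le_trans (le_of_eq (Finset.sum_congr rfl fun x hx => ?_)) h1
    have h2 := cnt_slice y hy V W hV0 hW0 N hVN hWN 0 x.1 x.2 (hr hx).1 (hr hx).2
    rw [pow_zero, one_mul] at h2
    rw [h2]
    push_cast
    rfl
  · rw [Finset.mul_sum, Finset.sum_filter]
    refine Finset.sum_le_sum fun j _ => ?_
    split_ifs with hj
    · have hA' : 1 ≤ A / y ^ j := Nat.div_pos hj (hypos j)
      have h1 := st1_sum κ K C5 Y y Cy hCy hP h (fun i => slice y (i + j) V)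
        (fun i => slice y i W) (fun i => slice_good hy hV _) (fun i => slice_good hy hW i)
        (A / y ^ j) B hA' hB N
      have hPA' := hP _ hA'
      have h3 : (Psi K C5 (y + 1) (A / y ^ j) * Psi K C5 (y + 1) B) ^ (1 / 4 : ℝ) =
          (Psi K C5 (y + 1) A * Psi K C5 (y + 1) B) ^ (1 / 4 : ℝ) *
            (al K C5 y A j) ^ (1 / 4 : ℝ) := by
        rw [← Real.mul_rpow (mul_nonneg (by linarith) (by linarith))]
        · congr 1
          unfold al
          rw [if_pos hj]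
          field_simp
        · unfold al
          rw [if_pos hj]
          exact div_nonneg (by linarith) (by linarith)
      rw [h3] at h1
      refine le_trans (le_of_eq (Finset.sum_congr rfl fun x hx => ?_)) (h1.trans (le_of_eq ?_))
      · rw [cnt_slice y hy V W hV0 hW0 N hVN hWN j x.1 x.2 (hr hx).1 (hr hx).2]
        push_cast
        rfl
      · ring
    · unfold al
      rw [if_neg hj, Real.zero_rpow (by norm_num)]
      simp
  · rw [Finset.mul_sum, Finset.sum_filter]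
    refine Finset.sum_le_sum fun j _ => ?_
    split_ifs with hj
    · have hB' : 1 ≤ B / y ^ j := Nat.div_pos hj (hypos j)
      have h1 := st1_sum κ K C5 Y y Cy hCy hP h (fun i => slice y i V)
        (fun i => slice y (i + j) W) (fun i => slice_good hy hV _) (fun i => slice_good hy hW _)
        A (B / y ^ j) hA hB' N
      have hPB' := hP _ hB'
      have h3 : (Psi K C5 (y + 1) A * Psi K C5 (y + 1) (B / y ^ j)) ^ (1 / 4 : ℝ) =
          (Psi K C5 (y + 1) A * Psi K C5 (y + 1) B) ^ (1 / 4 : ℝ) *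
            (al K C5 y B j) ^ (1 / 4 : ℝ) := by
        rw [← Real.mul_rpow (mul_nonneg (by linarith) (by linarith))]
        · congr 1
          unfold al
          rw [if_pos hj]
          field_simp
        · unfold al
          rw [if_pos hj]
          exact div_nonneg (by linarith) (by linarith)
      rw [h3] at h1
      refine le_trans (le_of_eq (Finset.sum_congr rfl fun x hx => ?_)) (h1.trans (le_of_eq ?_))
      · rw [cnt_slice' y hy V W hV0 hW0 N hVN hWN j x.1 x.2 (hr hx).1 (hr hx).2]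
        push_cast
        rfl
      · ring
    · unfold al
      rw [if_neg hj, Real.zero_rpow (by norm_num)]
      simp

end Pool.Agent.H2D
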