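import Mathlib
import Pool.Agent.Lib.H2D.Defs
import Pool.Agent.Lib.H2D.LLd
import Pool.Agent.Lib.H2D.NTa
import Pool.Agent.Lib.H2D.NTb
import Pool.Agent.Lib.H2D.NTc
import Pool.Agent.Lib.H2D.PS
import Pool.Agent.Lib.H2D.DC3
import Pool.Agent.Lib.H2D.ST1

set_option autoImplicit false

/-!
# H2D chunk A14a: one step (here `step_not_prime`, `step_crude`) of the induction with constants

Constants: `t0, C, D` from `LL` (`D ≥ 1`), `κ ≥ 32 D` natural, `C5 = 8 D + 1`, `K` with `PsiOK K C5`.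

`step_not_prime`: `y` not prime: `Good y Y V → Good (y+1) Y V` (prime factors `≥ y`, `≠ y`),
`prs y A B = prs (y+1) A B` and `Psi (y+1) ≤ Psi y` (both `≥ 1`).

`step_crude` (every prime `y`): choose `N` large; `step_raw` and `LL_crude` with `τ = 0`: `tot N 0 X = ∑ X_i ≤ mass κ V`
(`mass_slice`), `∑ al^(1/4) ≤ 7 (2/hh(y+1))^(1/4)` (`root`, `y⁻¹ ≤ 1`; if `A < y` all `al_j = 0`), `Psi (y+1) ≤ Psi y`.

`step_fine`: `y` prime, `7 (2/hh(y+1))^(1/4) y^(-1/4) ≤ t0`, `κ/y ≤ t0`: `step_raw` and `LL` with `τ = κ/y` (`tot = mass` by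
`mass_slice`), `a = ∑ al_j(A)`, `b = ∑ al_j(B)`; if `A < y` then `a = 0` (`y^j > A`): all bounds hold trivially.
Put `e_A = 1/Psi (y+1) A` if `y ≤ A`, else `0`. `ra = Psi y A / Psi (y+1) A ≥ 1 + a + (C5-1) e_A` (if `A < y`, by `mono`).
 - first member of the max: `≤ (ra rb)^(1/4) (1 + 2 C (ab y)^(9/8))` as `a, b ≤ ab y := (4 + 2/hh(y+1))/y`, `ra, rb ≥ 1`.
 - second: `1 + D (a+b) - τ/4 ≤ 1 + D (8/y + e_A + e_B) - 8 D/y = 1 + D (e_A + e_B)` (`τ/4 = κ/(4y) ≥ 8D/y`), while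
   `ra^(1/4) ≥ (1 + (C5-1) e_A)^(1/4) ≥ 1 + (C5-1) e_A/8 = 1 + D e_A` since `0 ≤ (C5-1) e_A ≤ 1`
   (`(1+z/8)^4 ≤ 1+z` on `[0,1]`), and `(1 + D e_A)(1 + D e_B) ≥ 1 + D (e_A + e_B)`.
-/

namespace Pool.Agent.H2D

open Finset

theorem st2a_prs (y A B : ℕ) (hy : ¬ y.Prime) : prs y A B = prs (y + 1) A B := by
  have hR : ∀ n, Rough y n ↔ Rough (y + 1) n := by
    intro n
    constructor
    · intro h p hp hpn
      have h1 := h p hp hpn
      rcases Nat.lt_or_ge y p with h2 | h2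
      · exact h2
      · exact absurd hp (by rw [le_antisymm h2 h1]; exact hy)
    · intro h p hp hpn
      exact (Nat.le_succ y).trans (h p hp hpn)
  classical
  ext x
  simp only [prs, Finset.mem_filter, hR]

theorem step_not_prime (κ : ℕ) (K C5 : ℝ) (hP : PsiOK K C5) (Y y : ℕ) (hy2 : 2 ≤ y)
    (hy : ¬ y.Prime) (Cy : ℝ) (hCy : 0 ≤ Cy) (h : Bd κ K C5 Y (y + 1) Cy) : Bd κ K C5 Y y Cy := by
  intro V W hV hW A B hA hB
  have hG : ∀ U : Finset ℕ, Good y Y U → Good (y + 1) Y U := by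
    intro U hU n hn
    refine ⟨(hU n hn).1, fun p hp hpn => ?_⟩
    obtain ⟨h1, h2⟩ := (hU n hn).2 p hp hpn
    refine ⟨?_, h2⟩
    rcases Nat.lt_or_ge y p with h3 | h3
    · exact h3
    · exact absurd hp (by rw [le_antisymm h3 h1]; exact hy)
  have h1 := h V W (hG V hV) (hG W hW) A B hA hB
  have h2 : KK y V W A B = KK (y + 1) V W A B := by
    unfold KK
    rw [st2a_prs y A B hy]
  rw [h2]
  refine h1.trans ?_
  have a1 := hP.one_le (y + 1) A (by omega) hA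
  have a2 := hP.one_le (y + 1) B (by omega) hB
  have a3 := hP.mono y A hy2 hA
  have a4 := hP.mono y B hy2 hB
  refine mul_le_mul_of_nonneg_right ?_ (Real.rpow_nonneg (mul_nonneg (mass_nonneg _ _) (mass_nonneg _ _)) _)
  refine mul_le_mul_of_nonneg_left ?_ hCy
  exact Real.rpow_le_rpow (mul_nonneg (by linarith) (by linarith))
    (mul_le_mul a3 a4 (by linarith) (by linarith)) (by norm_num)

/-- a large exponent -/
theorem st2a_N (y : ℕ) (hy : y.Prime) (V W : Finset ℕ) (hV : ∀ n ∈ V, 0 < n) (hW : ∀ n ∈ W, 0 < n)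
    (A B : ℕ) : ∃ N : ℕ, 1 ≤ N ∧ (∀ n ∈ V, ¬ y ^ N ∣ n) ∧ (∀ n ∈ W, ¬ y ^ N ∣ n) ∧ A < y ^ N ∧ B < y ^ N := by
  have hlt : ∀ n N : ℕ, n ≤ N → n < y ^ N := by
    intro n N hn
    exact lt_of_le_of_lt hn (Nat.lt_pow_self hy.one_lt)
  refine ⟨∑ n ∈ V, n + ∑ n ∈ W, n + A + B + 1, by omega, ?_, ?_, hlt _ _ (by omega), hlt _ _ (by omega)⟩
  · intro n hn hd
    have h1 : n ≤ ∑ n ∈ V, n := Finset.single_le_sum (f := fun n : ℕ => n) (fun _ _ => Nat.zero_le _) hn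
    have h2 := Nat.le_of_dvd (hV n hn) hd
    have h3 := hlt n (∑ n ∈ V, n + ∑ n ∈ W, n + A + B + 1) (by omega)
    omega
  · intro n hn hd
    have h1 : n ≤ ∑ n ∈ W, n := Finset.single_le_sum (f := fun n : ℕ => n) (fun _ _ => Nat.zero_le _) hn
    have h2 := Nat.le_of_dvd (hW n hn) hd
    have h3 := hlt n (∑ n ∈ V, n + ∑ n ∈ W, n + A + B + 1) (by omega)
    omega

theorem st2a_al_nonneg (K C5 : ℝ) (hP : PsiOK K C5) (y : ℕ) (hy : y.Prime) (A : ℕ) (hA : 1 ≤ A) (j : ℕ) :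
    0 ≤ al K C5 y A j := by
  have h2 := hy.two_le
  unfold al
  split_ifs with h
  · have a1 := hP.one_le (y + 1) (A / y ^ j) (by omega) (Nat.div_pos h (pow_pos hy.pos j))
    have a2 := hP.one_le (y + 1) A (by omega) hA
    exact div_nonneg (by linarith) (by linarith)
  · exact le_rfl

theorem st2a_al_zero (K C5 : ℝ) (y : ℕ) (hy : y.Prime) (A : ℕ) (hA : A < y) (j : ℕ) (hj : 1 ≤ j) :
    al K C5 y A j = 0 := by
  unfold al
  rw [if_neg]
  intro h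
  have h1 : y ≤ y ^ j := Nat.le_self_pow (by omega) y
  omega

theorem st2a_LH (κ : ℕ) (K C5 : ℝ) (hP : PsiOK K C5) (y : ℕ) (hy : y.Prime) (V W : Finset ℕ) (N : ℕ)
    (hN : 1 ≤ N) (hVN : ∀ n ∈ V, ¬ y ^ N ∣ n) (hWN : ∀ n ∈ W, ¬ y ^ N ∣ n) (A B : ℕ) (hA : 1 ≤ A)
    (hB : 1 ≤ B) (τ : ℝ) (h0 : 0 ≤ τ) (h1 : τ ≤ 1) :
    LH N (fun i => mass κ (slice y i V)) (fun i => mass κ (slice y i W)) (al K C5 y A) (al K C5 y B) τ where
  N1 := hN
  X0 := fun i => mass_nonneg _ _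
  Y0 := fun i => mass_nonneg _ _
  XN := fun i hi => by
    show mass κ (slice y i V) = 0
    rw [slice_empty hVN hi]
    simp [mass]
  YN := fun i hi => by
    show mass κ (slice y i W) = 0
    rw [slice_empty hWN hi]
    simp [mass]
  α0 := fun j => st2a_al_nonneg K C5 hP y hy A hA j
  β0 := fun j => st2a_al_nonneg K C5 hP y hy B hB j
  τ0 := h0
  τ1 := h1

theorem st2a_root (K C5 : ℝ) (hP : PsiOK K C5) (y : ℕ) (hy : y.Prime) (A N : ℕ) :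
    ∑ j ∈ Icc 1 N, (al K C5 y A j) ^ (1 / 4 : ℝ) ≤
      7 * (2 / hh (y + 1)) ^ (1 / 4 : ℝ) * ((y : ℝ)⁻¹) ^ (1 / 4 : ℝ) := by
  by_cases h : y ≤ A
  · exact hP.root y A N hy h
  · have h1 : ∑ j ∈ Icc 1 N, (al K C5 y A j) ^ (1 / 4 : ℝ) = 0 := by
      refine Finset.sum_eq_zero fun j hj => ?_
      rw [st2a_al_zero K C5 y hy A (not_le.1 h) j (Finset.mem_Icc.1 hj).1, Real.zero_rpow (by norm_num)]
    rw [h1]
    have := hh_pos (y + 1)
    positivity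

theorem step_crude (κ : ℕ) (K C5 : ℝ) (hP : PsiOK K C5) (Y y : ℕ) (hy : y.Prime)
    (Cy : ℝ) (hCy : 0 ≤ Cy) (h : Bd κ K C5 Y (y + 1) Cy) :
    Bd κ K C5 Y y (Cy * (1 + 14 * (2 / hh (y + 1)) ^ (1 / 4 : ℝ))) := by
  intro V W hV hW A B hA hB
  have hy2 := hy.two_le
  have hV0 : ∀ n ∈ V, 0 < n := fun n hn => (hV n hn).1
  have hW0 : ∀ n ∈ W, 0 < n := fun n hn => (hW n hn).1
  obtain ⟨N, hN, hVN, hWN, hAN, hBN⟩ := st2a_N y hy V W hV0 hW0 A B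
  have h1 := step_raw κ K C5 Y y hy Cy hCy (fun A' hA' => hP.one_le (y + 1) A' (by omega) hA') h V W hV hW
    A B hA hB N hN hVN hWN hAN hBN
  have hLH := st2a_LH κ K C5 hP y hy V W N hN hVN hWN A B hA hB 0 le_rfl zero_le_one
  have h2 := LL_crude N _ _ _ _ 0 hLH
  have hκ : (0 : ℝ) ≤ (κ : ℝ) / y := by positivity
  have htot : ∀ U : Finset ℕ, (∀ n ∈ U, 0 < n) → (∀ n ∈ U, ¬ y ^ N ∣ n) →
      0 ≤ tot N 0 (fun i => mass κ (slice y i U)) ∧ tot N 0 (fun i => mass κ (slice y i U)) ≤ mass κ U := by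
    intro U hU0 hUN
    have h3 := mass_slice κ y hy U hU0 N hUN
    have h4 : 0 ≤ ∑ i ∈ Icc 1 N, mass κ (slice y i U) := Finset.sum_nonneg fun i _ => mass_nonneg _ _
    have h5 : 0 ≤ mass κ (slice y 0 U) := mass_nonneg _ _
    unfold tot
    constructor
    · nlinarith
    · rw [h3]
      nlinarith [mul_nonneg hκ h4]
  obtain ⟨v0, v1⟩ := htot V hV0 hVN
  obtain ⟨w0, w1⟩ := htot W hW0 hWN
  have hr0 : 0 ≤ (2 / hh (y + 1)) ^ (1 / 4 : ℝ) := by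
    have := hh_pos (y + 1)
    positivity
  have hyi : ((y : ℝ)⁻¹) ^ (1 / 4 : ℝ) ≤ 1 := by
    refine Real.rpow_le_one (by positivity) ?_ (by norm_num)
    refine inv_le_one_of_one_le₀ ?_
    exact_mod_cast hy.one_le
  have hroot : ∀ A' : ℕ, ∑ j ∈ Icc 1 N, (al K C5 y A' j) ^ (1 / 4 : ℝ) ≤ 7 * (2 / hh (y + 1)) ^ (1 / 4 : ℝ) := by
    intro A'
    refine (st2a_root K C5 hP y hy A' N).trans ?_
    exact mul_le_of_le_one_right (by positivity) hyi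
  have rA := hroot A
  have rB := hroot B
  have a1 := hP.one_le (y + 1) A (by omega) hA
  have a2 := hP.one_le (y + 1) B (by omega) hB
  have a3 := hP.mono y A hy2 hA
  have a4 := hP.mono y B hy2 hB
  have hPsi : (Psi K C5 (y + 1) A * Psi K C5 (y + 1) B) ^ (1 / 4 : ℝ) ≤
      (Psi K C5 y A * Psi K C5 y B) ^ (1 / 4 : ℝ) :=
    Real.rpow_le_rpow (mul_nonneg (by linarith) (by linarith))
      (mul_le_mul a3 a4 (by linarith) (by linarith)) (by norm_num)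
  have hPsi0 : 0 ≤ (Psi K C5 (y + 1) A * Psi K C5 (y + 1) B) ^ (1 / 4 : ℝ) :=
    Real.rpow_nonneg (mul_nonneg (by linarith) (by linarith)) _
  have hm : (tot N 0 (fun i => mass κ (slice y i V)) * tot N 0 (fun i => mass κ (slice y i W))) ^ (3 / 4 : ℝ) ≤
      (mass κ V * mass κ W) ^ (3 / 4 : ℝ) :=
    Real.rpow_le_rpow (mul_nonneg v0 w0) (mul_le_mul v1 w1 w0 (v0.trans v1)) (by norm_num)
  have hm0 : 0 ≤ (mass κ V * mass κ W) ^ (3 / 4 : ℝ) :=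
    Real.rpow_nonneg (mul_nonneg (mass_nonneg _ _) (mass_nonneg _ _)) _
  have sA : 0 ≤ ∑ j ∈ Icc 1 N, (al K C5 y A j) ^ (1 / 4 : ℝ) :=
    Finset.sum_nonneg fun j _ => Real.rpow_nonneg (st2a_al_nonneg K C5 hP y hy A hA j) _
  have sB : 0 ≤ ∑ j ∈ Icc 1 N, (al K C5 y B j) ^ (1 / 4 : ℝ) :=
    Finset.sum_nonneg fun j _ => Real.rpow_nonneg (st2a_al_nonneg K C5 hP y hy B hB j) _
  refine h1.trans ?_
  calc Cy * (Psi K C5 (y + 1) A * Psi K C5 (y + 1) B) ^ (1 / 4 : ℝ) *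
      lhs N (fun i => mass κ (slice y i V)) (fun i => mass κ (slice y i W)) (al K C5 y A) (al K C5 y B) ≤
      Cy * (Psi K C5 (y + 1) A * Psi K C5 (y + 1) B) ^ (1 / 4 : ℝ) *
        ((mass κ V * mass κ W) ^ (3 / 4 : ℝ) * (1 + 14 * (2 / hh (y + 1)) ^ (1 / 4 : ℝ))) := by
        refine mul_le_mul_of_nonneg_left ?_ (mul_nonneg hCy hPsi0)
        refine h2.trans ?_
        exact mul_le_mul hm (by linarith) (by linarith) hm0
    _ ≤ Cy * (Psi K C5 y A * Psi K C5 y B) ^ (1 / 4 : ℝ) *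
        ((mass κ V * mass κ W) ^ (3 / 4 : ℝ) * (1 + 14 * (2 / hh (y + 1)) ^ (1 / 4 : ℝ))) := by
        refine mul_le_mul_of_nonneg_right (mul_le_mul_of_nonneg_left hPsi hCy) ?_
        exact mul_nonneg hm0 (by linarith)
    _ = _ := by ring

end Pool.Agent.H2D
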