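import Mathlib
import Pool.Agent.Lib.H2D.Defs
import Pool.Agent.Lib.H2D.LLd
import Pool.Agent.Lib.H2D.NTa
import Pool.Agent.Lib.H2D.NTb
import Pool.Agent.Lib.H2D.NTc
import Pool.Agent.Lib.H2D.PS
import Pool.Agent.Lib.H2D.DC3
import Pool.Agent.Lib.H2D.ST1
import Pool.Agent.Lib.H2D.ST2a

set_option autoImplicit false

/-!
# H2D chunk A14b: one step (here `step_fine`) of the induction with constants

Constants: `t0, C, D` from `LL` (`D ≥ 1`), `κ ≥ 32 D` natural, `C5 = 8 D + 1`, `K` with `PsiOK K C5`.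

`step_not_prime`: `y` not prime: `Good y Y V → Good (y+1) Y V` (prime factors `≥ y`, `≠ y`),
`prs y A B = prs (y+1) A B` and `Psi (y+1) ≤ Psi y` (both `≥ 1`).

`step_crude` (every prime `y`): choose `N` large; `step_raw` and `LL_crude` with `τ = 0`: `tot N 0 X = ∑ X_i ≤ mass κ V`
(`mass_slice`), `∑ al^(1/4) ≤ 7 (2/hh(y+1))^(1/4)` (`root`, `y⁻¹ ≤ 1`; if `A < y` all `al_j = 0`), `Psi (y+1) ≤ Psi y`.

`step_fine`: `y` prime, `7 (2/hh(y+1))^(1/4) y^(-1/4) ≤ t0`, `κ/y ≤ t0`: `step_raw` and `LL` with `τ = κ/y` (`tot = mass` by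
`mass_slice`), `a = ∑ al_j(A)`, `b = ∑ al_j(B)`; if `A < y` then `a = 0` (`y^j > A`): all bounds hold trivially.
Put `e_A = 1/Psi (y+1) A` if `y ≤ A`, else `0`. `ra = Psi y A / Psi (y+1) A ≥ 1 + a + (C5-1) e_A` (if `A < y`, by `mono`).
 - first member of the max: `≤ (ra rb)^(1/4) (1 + 2 C (ab y)^(9/8))` as `a, b ≤ ab y := (4 + 2/hh(y+1))/y`, `ra, rb ≥ 1`.
 - second: `1 + D (a+b) - τ/4 ≤ 1 + D (8/y + e_A + e_B) - 8 D/y = 1 + D (e_A + e_B)` (`τ/4 = κ/(4y) ≥ 8D/y`), while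
   `ra^(1/4) ≥ (1 + (C5-1) e_A)^(1/4) ≥ 1 + (C5-1) e_A/8 = 1 + D e_A` since `0 ≤ (C5-1) e_A ≤ 1`
   (`(1+z/8)^4 ≤ 1+z` on `[0,1]`), and `(1 + D e_A)(1 + D e_B) ≥ 1 + D (e_A + e_B)`.
-/

namespace Pool.Agent.H2D

open Finset

/-- everything about one factor -/
theorem st2_one (D : ℝ) (hD : 1 ≤ D) (K : ℝ) (hP : PsiOK K (8 * D + 1)) (y : ℕ) (hy : y.Prime) (A : ℕ)
    (hA : 1 ≤ A) (N : ℕ) : ∃ e : ℝ, 0 ≤ e ∧ 8 * D * e ≤ 1 ∧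
      ∑ j ∈ Icc 1 N, al K (8 * D + 1) y A j ≤ 4 / (y : ℝ) + e ∧
      ∑ j ∈ Icc 1 N, al K (8 * D + 1) y A j ≤ (4 + 2 / hh (y + 1)) / (y : ℝ) ∧
      Psi K (8 * D + 1) (y + 1) A * (1 + ∑ j ∈ Icc 1 N, al K (8 * D + 1) y A j + 8 * D * e) ≤
        Psi K (8 * D + 1) y A := by
  have hy2 := hy.two_le
  have a1 := hP.one_le (y + 1) A (by omega) hA
  have hh0 := hh_pos (y + 1)
  by_cases h : y ≤ A
  · refine ⟨1 / Psi K (8 * D + 1) (y + 1) A, by positivity, ?_, hP.sum_le y A N hy h, hP.sum_le' y A N hy h, ?_⟩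
    · have h1 := hP.inv_le y A hy h
      have h2 : 0 ≤ 1 / Psi K (8 * D + 1) (y + 1) A := by positivity
      nlinarith
    · have h1 := hP.gain y A N hy h
      have h2 : 8 * D + 1 - 1 = 8 * D := by ring
      rw [h2] at h1
      exact h1
  · have h0 : ∑ j ∈ Icc 1 N, al K (8 * D + 1) y A j = 0 :=
      Finset.sum_eq_zero fun j hj => st2a_al_zero K (8 * D + 1) y hy A (not_le.1 h) j (Finset.mem_Icc.1 hj).1
    refine ⟨0, le_rfl, by norm_num, ?_, ?_, ?_⟩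
    · rw [h0]
      positivity
    · rw [h0]
      positivity
    · rw [h0, mul_zero, add_zero, add_zero, mul_one]
      exact hP.mono y A hy2 hA

theorem st2_root {p q z : ℝ} (hp : 0 ≤ p) (hz : 0 ≤ z) (hz1 : 8 * z ≤ 1) (h : p * (1 + 8 * z) ≤ q) :
    p ^ (1 / 4 : ℝ) * (1 + z) ≤ q ^ (1 / 4 : ℝ) := by
  have h1 : (1 + z) ^ 4 ≤ 1 + 8 * z := by
    have h2 : z * z ≤ z * (1 / 8) := mul_le_mul_of_nonneg_left (by linarith) hz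
    have h3 : z * z * z ≤ z * (1 / 64) := by
      calc z * z * z ≤ z * (1 / 8) * (1 / 8) := mul_le_mul h2 (by linarith) hz (by positivity)
        _ = z * (1 / 64) := by ring
    have h4 : z * z * z * z ≤ z * (1 / 512) := by
      calc z * z * z * z ≤ z * (1 / 64) * (1 / 8) := mul_le_mul h3 (by linarith) hz (by positivity)
        _ = z * (1 / 512) := by ring
    nlinarith
  have h2 : 1 + z = ((1 + z) ^ 4) ^ (1 / 4 : ℝ) := by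
    rw [← Real.rpow_natCast, ← Real.rpow_mul (by linarith)]
    norm_num
  rw [h2, ← Real.mul_rpow hp (by positivity)]
  refine Real.rpow_le_rpow (by positivity) ?_ (by norm_num)
  exact (mul_le_mul_of_nonneg_left h1 hp).trans h

theorem st2_num {C D pA pB qA qB a b eA eB ab t y : ℝ} (hC : 0 ≤ C) (hD : 1 ≤ D) (a1 : 1 ≤ pA) (a2 : 1 ≤ pB)
    (a0 : 0 ≤ a) (b0 : 0 ≤ b) (eA0 : 0 ≤ eA) (eB0 : 0 ≤ eB) (eA1 : 8 * D * eA ≤ 1) (eB1 : 8 * D * eB ≤ 1)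
    (sA : a ≤ 4 / y + eA) (sB : b ≤ 4 / y + eB) (sA' : a ≤ ab) (sB' : b ≤ ab) (hab0 : 0 ≤ ab)
    (gA : pA * (1 + a + 8 * D * eA) ≤ qA) (gB : pB * (1 + b + 8 * D * eB) ≤ qB)
    (k1 : 8 * D / y ≤ t) :
    (pA * pB) ^ (1 / 4 : ℝ) * max ((1 + a) ^ (1 / 4 : ℝ) * (1 + b) ^ (1 / 4 : ℝ) +
      C * (a ^ (9 / 8 : ℝ) + b ^ (9 / 8 : ℝ))) (1 + D * (a + b) - t) ≤
      (qA * qB) ^ (1 / 4 : ℝ) * (1 + 2 * C * ab ^ (9 / 8 : ℝ)) := by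
  have hDe : ∀ e : ℝ, 0 ≤ e → 0 ≤ 8 * D * e := fun e he => by positivity
  have hqA : pA ≤ qA :=
    (le_mul_of_one_le_right (by linarith) (by linarith [hDe eA eA0])).trans gA
  have hqB : pB ≤ qB :=
    (le_mul_of_one_le_right (by linarith) (by linarith [hDe eB eB0])).trans gB
  have hS : (qA * qB) ^ (1 / 4 : ℝ) = qA ^ (1 / 4 : ℝ) * qB ^ (1 / 4 : ℝ) :=
    Real.mul_rpow (by linarith) (by linarith)
  have hR : (pA * pB) ^ (1 / 4 : ℝ) = pA ^ (1 / 4 : ℝ) * pB ^ (1 / 4 : ℝ) :=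
    Real.mul_rpow (by linarith) (by linarith)
  have hrA : 0 ≤ pA ^ (1 / 4 : ℝ) := Real.rpow_nonneg (by linarith) _
  have hrB : 0 ≤ pB ^ (1 / 4 : ℝ) := Real.rpow_nonneg (by linarith) _
  have hsA : 0 ≤ qA ^ (1 / 4 : ℝ) := Real.rpow_nonneg (by linarith) _
  have hsB : 0 ≤ qB ^ (1 / 4 : ℝ) := Real.rpow_nonneg (by linarith) _
  have hrsA : pA ^ (1 / 4 : ℝ) ≤ qA ^ (1 / 4 : ℝ) := Real.rpow_le_rpow (by linarith) hqA (by norm_num)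
  have hrsB : pB ^ (1 / 4 : ℝ) ≤ qB ^ (1 / 4 : ℝ) := Real.rpow_le_rpow (by linarith) hqB (by norm_num)
  have f1 : pA ^ (1 / 4 : ℝ) * (1 + a) ^ (1 / 4 : ℝ) ≤ qA ^ (1 / 4 : ℝ) := by
    rw [← Real.mul_rpow (by linarith) (by linarith)]
    refine Real.rpow_le_rpow (mul_nonneg (by linarith) (by linarith)) ?_ (by norm_num)
    exact (mul_le_mul_of_nonneg_left (by linarith [hDe eA eA0]) (by linarith)).trans gA
  have f2 : pB ^ (1 / 4 : ℝ) * (1 + b) ^ (1 / 4 : ℝ) ≤ qB ^ (1 / 4 : ℝ) := by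
    rw [← Real.mul_rpow (by linarith) (by linarith)]
    refine Real.rpow_le_rpow (mul_nonneg (by linarith) (by linarith)) ?_ (by norm_num)
    exact (mul_le_mul_of_nonneg_left (by linarith [hDe eB eB0]) (by linarith)).trans gB
  have f3 : pA ^ (1 / 4 : ℝ) * (1 + D * eA) ≤ qA ^ (1 / 4 : ℝ) := by
    refine st2_root (by linarith) (by positivity) (by linarith) ?_
    exact (mul_le_mul_of_nonneg_left (by linarith) (by linarith)).trans gA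
  have f4 : pB ^ (1 / 4 : ℝ) * (1 + D * eB) ≤ qB ^ (1 / 4 : ℝ) := by
    refine st2_root (by linarith) (by positivity) (by linarith) ?_
    exact (mul_le_mul_of_nonneg_left (by linarith) (by linarith)).trans gB
  have hRS : (pA * pB) ^ (1 / 4 : ℝ) ≤ (qA * qB) ^ (1 / 4 : ℝ) := by
    rw [hR, hS]
    exact mul_le_mul hrsA hrsB hrB hsA
  have hR0 : 0 ≤ (pA * pB) ^ (1 / 4 : ℝ) := by
    rw [hR]
    exact mul_nonneg hrA hrB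
  have hS0 : 0 ≤ (qA * qB) ^ (1 / 4 : ℝ) := hR0.trans hRS
  have hG0 : 0 ≤ 2 * C * ab ^ (9 / 8 : ℝ) := by
    have := Real.rpow_nonneg hab0 (9 / 8 : ℝ)
    positivity
  have m1 : (pA * pB) ^ (1 / 4 : ℝ) * ((1 + a) ^ (1 / 4 : ℝ) * (1 + b) ^ (1 / 4 : ℝ) +
      C * (a ^ (9 / 8 : ℝ) + b ^ (9 / 8 : ℝ))) ≤ (qA * qB) ^ (1 / 4 : ℝ) * (1 + 2 * C * ab ^ (9 / 8 : ℝ)) := by
    have k1 : (pA * pB) ^ (1 / 4 : ℝ) * ((1 + a) ^ (1 / 4 : ℝ) * (1 + b) ^ (1 / 4 : ℝ)) ≤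
        (qA * qB) ^ (1 / 4 : ℝ) := by
      rw [hR, hS]
      calc pA ^ (1 / 4 : ℝ) * pB ^ (1 / 4 : ℝ) * ((1 + a) ^ (1 / 4 : ℝ) * (1 + b) ^ (1 / 4 : ℝ)) =
          (pA ^ (1 / 4 : ℝ) * (1 + a) ^ (1 / 4 : ℝ)) * (pB ^ (1 / 4 : ℝ) * (1 + b) ^ (1 / 4 : ℝ)) := by ring
        _ ≤ qA ^ (1 / 4 : ℝ) * qB ^ (1 / 4 : ℝ) :=
          mul_le_mul f1 f2 (mul_nonneg hrB (Real.rpow_nonneg (by linarith) _)) hsA
    have k2 : C * (a ^ (9 / 8 : ℝ) + b ^ (9 / 8 : ℝ)) ≤ 2 * C * ab ^ (9 / 8 : ℝ) := by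
      have k3 : a ^ (9 / 8 : ℝ) ≤ ab ^ (9 / 8 : ℝ) := Real.rpow_le_rpow a0 sA' (by norm_num)
      have k4 : b ^ (9 / 8 : ℝ) ≤ ab ^ (9 / 8 : ℝ) := Real.rpow_le_rpow b0 sB' (by norm_num)
      calc C * (a ^ (9 / 8 : ℝ) + b ^ (9 / 8 : ℝ)) ≤ C * (ab ^ (9 / 8 : ℝ) + ab ^ (9 / 8 : ℝ)) :=
            mul_le_mul_of_nonneg_left (add_le_add k3 k4) hC
        _ = 2 * C * ab ^ (9 / 8 : ℝ) := by ring
    have k5 : (pA * pB) ^ (1 / 4 : ℝ) * (C * (a ^ (9 / 8 : ℝ) + b ^ (9 / 8 : ℝ))) ≤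
        (qA * qB) ^ (1 / 4 : ℝ) * (2 * C * ab ^ (9 / 8 : ℝ)) := by
      refine mul_le_mul hRS k2 ?_ hS0
      exact mul_nonneg hC (add_nonneg (Real.rpow_nonneg a0 _) (Real.rpow_nonneg b0 _))
    calc (pA * pB) ^ (1 / 4 : ℝ) * ((1 + a) ^ (1 / 4 : ℝ) * (1 + b) ^ (1 / 4 : ℝ) +
        C * (a ^ (9 / 8 : ℝ) + b ^ (9 / 8 : ℝ))) =
        (pA * pB) ^ (1 / 4 : ℝ) * ((1 + a) ^ (1 / 4 : ℝ) * (1 + b) ^ (1 / 4 : ℝ)) +
        (pA * pB) ^ (1 / 4 : ℝ) * (C * (a ^ (9 / 8 : ℝ) + b ^ (9 / 8 : ℝ))) := mul_add _ _ _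
      _ ≤ (qA * qB) ^ (1 / 4 : ℝ) + (qA * qB) ^ (1 / 4 : ℝ) * (2 * C * ab ^ (9 / 8 : ℝ)) := add_le_add k1 k5
      _ = (qA * qB) ^ (1 / 4 : ℝ) * (1 + 2 * C * ab ^ (9 / 8 : ℝ)) := by ring
  have m2 : (pA * pB) ^ (1 / 4 : ℝ) * (1 + D * (a + b) - t) ≤
      (qA * qB) ^ (1 / 4 : ℝ) * (1 + 2 * C * ab ^ (9 / 8 : ℝ)) := by
    have k2 : D * (a + b) ≤ D * (8 / y + (eA + eB)) := by
      refine mul_le_mul_of_nonneg_left ?_ (by linarith)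
      have : (8 : ℝ) / y = 4 / y + 4 / y := by ring
      linarith
    have k3 : D * (8 / y + (eA + eB)) = 8 * D / y + D * (eA + eB) := by ring
    have k4 : 1 + D * (a + b) - t ≤ (1 + D * eA) * (1 + D * eB) := by
      have k5 : 0 ≤ D * eA * (D * eB) := by positivity
      linarith
    calc (pA * pB) ^ (1 / 4 : ℝ) * (1 + D * (a + b) - t) ≤
        (pA * pB) ^ (1 / 4 : ℝ) * ((1 + D * eA) * (1 + D * eB)) := mul_le_mul_of_nonneg_left k4 hR0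
      _ = (pA ^ (1 / 4 : ℝ) * (1 + D * eA)) * (pB ^ (1 / 4 : ℝ) * (1 + D * eB)) := by rw [hR]; ring
      _ ≤ qA ^ (1 / 4 : ℝ) * qB ^ (1 / 4 : ℝ) := mul_le_mul f3 f4 (mul_nonneg hrB (by positivity)) hsA
      _ = (qA * qB) ^ (1 / 4 : ℝ) := hS.symm
      _ ≤ (qA * qB) ^ (1 / 4 : ℝ) * (1 + 2 * C * ab ^ (9 / 8 : ℝ)) := le_mul_of_one_le_right hS0 (by linarith)
  · rcases max_choice ((1 + a) ^ (1 / 4 : ℝ) * (1 + b) ^ (1 / 4 : ℝ) +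
      C * (a ^ (9 / 8 : ℝ) + b ^ (9 / 8 : ℝ))) (1 + D * (a + b) - t) with hm | hm
    · rw [hm]
      exact m1
    · rw [hm]
      exact m2

theorem step_fine (t0 C D : ℝ) (ht0 : 0 < t0) (ht1 : t0 ≤ 1) (hC : 0 ≤ C) (hD : 1 ≤ D)
    (hLL : ∀ (N : ℕ) (X Y α β : ℕ → ℝ) (τ : ℝ), LH N X Y α β τ → τ ≤ t0 →
      ∑ j ∈ Icc 1 N, (α j) ^ (1 / 4 : ℝ) ≤ t0 → ∑ j ∈ Icc 1 N, (β j) ^ (1 / 4 : ℝ) ≤ t0 →
      lhs N X Y α β ≤ (tot N τ X * tot N τ Y) ^ (3 / 4 : ℝ) *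
        max ((1 + ∑ j ∈ Icc 1 N, α j) ^ (1 / 4 : ℝ) * (1 + ∑ j ∈ Icc 1 N, β j) ^ (1 / 4 : ℝ) +
              C * ((∑ j ∈ Icc 1 N, α j) ^ (9 / 8 : ℝ) + (∑ j ∈ Icc 1 N, β j) ^ (9 / 8 : ℝ)))
            (1 + D * (∑ j ∈ Icc 1 N, α j + ∑ j ∈ Icc 1 N, β j) - τ / 4))
    (κ : ℕ) (hκ : 32 * D ≤ κ) (K : ℝ) (hP : PsiOK K (8 * D + 1)) (Y y : ℕ) (hy : y.Prime)
    (hy1 : 7 * (2 / hh (y + 1)) ^ (1 / 4 : ℝ) * ((y : ℝ)⁻¹) ^ (1 / 4 : ℝ) ≤ t0)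
    (hy2 : (κ : ℝ) / y ≤ t0) (Cy : ℝ) (hCy : 0 ≤ Cy) (h : Bd κ K (8 * D + 1) Y (y + 1) Cy) :
    Bd κ K (8 * D + 1) Y y (Cy * (1 + 2 * C * ((4 + 2 / hh (y + 1)) / (y : ℝ)) ^ (9 / 8 : ℝ))) := by
  intro V W hV hW A B hA hB
  have hyt := hy.two_le
  have hV0 : ∀ n ∈ V, 0 < n := fun n hn => (hV n hn).1
  have hW0 : ∀ n ∈ W, 0 < n := fun n hn => (hW n hn).1
  obtain ⟨N, hN, hVN, hWN, hAN, hBN⟩ := st2a_N y hy V W hV0 hW0 A B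
  have h1 := step_raw κ K (8 * D + 1) Y y hy Cy hCy (fun A' hA' => hP.one_le (y + 1) A' (by omega) hA') h V W
    hV hW A B hA hB N hN hVN hWN hAN hBN
  have hτ0 : (0 : ℝ) ≤ (κ : ℝ) / y := by positivity
  have hLH := st2a_LH κ K (8 * D + 1) hP y hy V W N hN hVN hWN A B hA hB ((κ : ℝ) / y) hτ0 (hy2.trans ht1)
  have h2 := hLL N _ _ _ _ ((κ : ℝ) / y) hLH hy2 ((st2a_root K _ hP y hy A N).trans hy1)
    ((st2a_root K _ hP y hy B N).trans hy1)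
  have tV : tot N ((κ : ℝ) / y) (fun i => mass κ (slice y i V)) = mass κ V :=
    (mass_slice κ y hy V hV0 N hVN).symm
  have tW : tot N ((κ : ℝ) / y) (fun i => mass κ (slice y i W)) = mass κ W :=
    (mass_slice κ y hy W hW0 N hWN).symm
  rw [tV, tW] at h2
  obtain ⟨eA, eA0, eA1, sA, sA', gA⟩ := st2_one D hD K hP y hy A hA N
  obtain ⟨eB, eB0, eB1, sB, sB', gB⟩ := st2_one D hD K hP y hy B hB N
  have a1 := hP.one_le (y + 1) A (by omega) hA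
  have a2 := hP.one_le (y + 1) B (by omega) hB
  have hh0 := hh_pos (y + 1)
  have a0 : 0 ≤ ∑ j ∈ Icc 1 N, al K (8 * D + 1) y A j :=
    Finset.sum_nonneg fun j _ => st2a_al_nonneg K _ hP y hy A hA j
  have b0 : 0 ≤ ∑ j ∈ Icc 1 N, al K (8 * D + 1) y B j :=
    Finset.sum_nonneg fun j _ => st2a_al_nonneg K _ hP y hy B hB j
  have hy0 : (0 : ℝ) < y := by exact_mod_cast hy.pos
  have hab0 : 0 ≤ (4 + 2 / hh (y + 1)) / (y : ℝ) := by positivity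
  have hm0 : 0 ≤ (mass κ V * mass κ W) ^ (3 / 4 : ℝ) :=
    Real.rpow_nonneg (mul_nonneg (mass_nonneg _ _) (mass_nonneg _ _)) _
  generalize hlh : lhs N (fun i => mass κ (slice y i V)) (fun i => mass κ (slice y i W))
    (al K (8 * D + 1) y A) (al K (8 * D + 1) y B) = LHS at *
  generalize ∑ j ∈ Icc 1 N, al K (8 * D + 1) y A j = a at *
  generalize ∑ j ∈ Icc 1 N, al K (8 * D + 1) y B j = b at *
  generalize Psi K (8 * D + 1) (y + 1) A = pA at *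
  generalize Psi K (8 * D + 1) (y + 1) B = pB at *
  generalize Psi K (8 * D + 1) y A = qA at *
  generalize Psi K (8 * D + 1) y B = qB at *
  generalize hab : (4 + 2 / hh (y + 1)) / (y : ℝ) = ab at *
  generalize (mass κ V * mass κ W) ^ (3 / 4 : ℝ) = M at *
  have k1 : 8 * D / y ≤ (κ : ℝ) / y / 4 := by
    rw [div_div, div_le_div_iff₀ hy0 (by positivity)]
    nlinarith
  have m3 := st2_num (C := C) hC hD a1 a2 a0 b0 eA0 eB0 eA1 eB1 sA sB sA' sB' hab0 gA gB k1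
  have hR0 : 0 ≤ (pA * pB) ^ (1 / 4 : ℝ) := Real.rpow_nonneg (mul_nonneg (by linarith) (by linarith)) _
  refine h1.trans ?_
  calc Cy * (pA * pB) ^ (1 / 4 : ℝ) * LHS ≤ Cy * (pA * pB) ^ (1 / 4 : ℝ) *
      (M * max ((1 + a) ^ (1 / 4 : ℝ) * (1 + b) ^ (1 / 4 : ℝ) +
      C * (a ^ (9 / 8 : ℝ) + b ^ (9 / 8 : ℝ))) (1 + D * (a + b) - (κ : ℝ) / y / 4)) :=
        mul_le_mul_of_nonneg_left h2 (mul_nonneg hCy hR0)
    _ = Cy * M * ((pA * pB) ^ (1 / 4 : ℝ) * max ((1 + a) ^ (1 / 4 : ℝ) * (1 + b) ^ (1 / 4 : ℝ) +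
      C * (a ^ (9 / 8 : ℝ) + b ^ (9 / 8 : ℝ))) (1 + D * (a + b) - (κ : ℝ) / y / 4)) := by ring
    _ ≤ Cy * M * ((qA * qB) ^ (1 / 4 : ℝ) * (1 + 2 * C * ab ^ (9 / 8 : ℝ))) :=
        mul_le_mul_of_nonneg_left m3 (mul_nonneg hCy hm0)
    _ = _ := by ring

end Pool.Agent.H2D
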