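import Mathlib
import Pool.Agent.Lib.H2D.Defs
import Pool.Agent.Lib.H2D.LLe
import Pool.Agent.Lib.H2D.NTc
import Pool.Agent.Lib.H2D.ST2a
import Pool.Agent.Lib.H2D.ST2

set_option autoImplicit false

/-!
# H2D chunk A15: the Green–Walker type inequality (T)

Take `t0, C, D` from `LL`, `κ = ⌈32 D⌉₊`, `K` from `exists_PsiOK (8 D + 1)`, `y0` such that for `y ≥ y0` the hypotheses `hy1`, `hy2` of
`step_fine` hold (`tail_small`). For `V, W, A, B` given choose `Y ≥ 2` bigger than all elements of `V ∪ W`. Start with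
`Bd … Y Y 1` (`base_case`, `PsiOK.one_le`), go down to `y = 2` with `step_not_prime` (constant unchanged; the constants
only need to be `≥`, so one may multiply by the factor `≥ 1` anyway), `step_crude` for primes `y < y0`, `step_fine` for primes `y ≥ y0`. The constant at `y = 2` is at most
`∏_{y<y0} (1 + 14 (2/hh(y+1))^(1/4)) · ∏_{y<Y} (1 + 2 C (ab y)^(9/8)) ≤ C' exp (2 C ∑_y (ab y)^(9/8))`, finite by `summable_ab`, independent of `Y`.
(`Bd` is monotone in the constant because the other factors are nonnegative.)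
At `y = 2`: `Psi 2 A = K A` (no primes below 2; `¬ A + 1 < 2`), every finite set of positive integers is `Good 2 Y` for
`Y` large, and all coprime pairs are in `prs 2 A B`. `(K A · K B)^(1/4) = K^(1/2) (A B)^(1/4)`.
-/

namespace Pool.Agent.H2D

open Finset

theorem st3_mono {κ : ℕ} {K C5 : ℝ} (hP : PsiOK K C5) {Y y : ℕ} (hy : 2 ≤ y) {c c' : ℝ}
    (hc : c ≤ c') (h : Bd κ K C5 Y y c) : Bd κ K C5 Y y c' := by
  intro V W hV hW A B hA hB
  refine (h V W hV hW A B hA hB).trans ?_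
  have h1 := hP.one_le y A hy hA
  have h2 := hP.one_le y B hy hB
  have h3 : 0 ≤ (Psi K C5 y A * Psi K C5 y B) ^ (1 / 4 : ℝ) :=
    Real.rpow_nonneg (mul_nonneg (by linarith) (by linarith)) _
  have h4 : 0 ≤ (mass κ V * mass κ W) ^ (3 / 4 : ℝ) :=
    Real.rpow_nonneg (mul_nonneg (mass_nonneg _ _) (mass_nonneg _ _)) _
  exact mul_le_mul_of_nonneg_right (mul_le_mul_of_nonneg_right hc h3) h4

theorem green_walker : ∃ (κ : ℕ) (C : ℝ), 0 < C ∧ ∀ V W : Finset ℕ, (∀ n ∈ V, 0 < n) →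
    (∀ n ∈ W, 0 < n) → ∀ A B : ℕ, 1 ≤ A → 1 ≤ B →
    ∑ x ∈ ((Icc 1 A) ×ˢ (Icc 1 B)).filter (fun x : ℕ × ℕ => Nat.Coprime x.1 x.2),
        (cnt V W x.1 x.2 : ℝ) ^ (4 / 3 : ℝ) ≤
      C * ((A : ℝ) * B) ^ (1 / 4 : ℝ) * (mass κ V * mass κ W) ^ (3 / 4 : ℝ) := by
  obtain ⟨t0, C, D, ht0, ht1, hC, hD, hLL⟩ := LL
  obtain ⟨K, hP⟩ := exists_PsiOK (8 * D + 1) (by linarith)
  have hK1 := hP.K1
  set κ : ℕ := ⌈32 * D⌉₊ with hκdef
  have hκ : 32 * D ≤ (κ : ℝ) := Nat.le_ceil _
  have hev : ∀ᶠ y : ℕ in Filter.atTop, 7 * (2 / hh (y + 1)) ^ (1 / 4 : ℝ) *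
      ((y : ℝ)⁻¹) ^ (1 / 4 : ℝ) ≤ t0 ∧ (κ : ℝ) / y ≤ t0 := by
    refine (tail_small.eventually_le_const ht0).and ?_
    have h1 : Filter.Tendsto (fun y : ℕ => (κ : ℝ) / y) Filter.atTop (nhds 0) :=
      tendsto_const_div_atTop_nhds_zero_nat _
    exact h1.eventually_le_const ht0
  obtain ⟨y0, hy0⟩ := Filter.eventually_atTop.1 hev
  -- the constants
  set c1 : ℕ → ℝ := fun y => 1 + 14 * (2 / hh (y + 1)) ^ (1 / 4 : ℝ) with hc1
  set ab : ℕ → ℝ := fun y => ((4 + 2 / hh (y + 1)) / (y : ℝ)) ^ (9 / 8 : ℝ) with hab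
  set c : ℕ → ℝ := fun y => if y < y0 then c1 y else 1 + 2 * C * ab y with hcdef
  have hc1' : ∀ y, 1 ≤ c1 y := fun y => by
    have h2 : 0 ≤ (2 / hh (y + 1)) ^ (1 / 4 : ℝ) := Real.rpow_nonneg (div_nonneg (by norm_num) (hh_pos _).le) _
    simp only [hc1]; linarith
  have hab0 : ∀ y, 0 ≤ ab y := fun y => by
    have h1 : 0 ≤ 2 / hh (y + 1) := div_nonneg (by norm_num) (hh_pos _).le
    exact Real.rpow_nonneg (div_nonneg (by linarith) (Nat.cast_nonneg _)) _
  have hcone : ∀ y, 1 ≤ c y := fun y => by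
    simp only [hcdef]
    split_ifs
    · exact hc1' y
    · have := mul_nonneg (mul_nonneg (zero_le_two (α := ℝ)) hC) (hab0 y)
      linarith
  have hprod1 : ∀ s : Finset ℕ, 1 ≤ ∏ z ∈ s, c z := fun s => by
    calc (1 : ℝ) = ∏ z ∈ s, (1 : ℝ) := by simp
      _ ≤ ∏ z ∈ s, c z := Finset.prod_le_prod (fun _ _ => zero_le_one) fun z _ => hcone z
  have hind : ∀ Y d y : ℕ, y + d = Y → 2 ≤ y →
      Bd κ K (8 * D + 1) Y y (∏ z ∈ Finset.Ico y Y, c z) := by
    intro Y d
    induction d with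
    | zero =>
      intro y hy hy2
      have hyY : y = Y := by omega
      subst hyY
      rw [Finset.Ico_self, Finset.prod_empty]
      exact base_case κ K (8 * D + 1) y fun A hA => hP.one_le y A hy2 hA
    | succ d ih =>
      intro y hy hy2
      have h1 := ih (y + 1) (by omega) (by omega)
      have hp1 := hprod1 (Finset.Ico (y + 1) Y)
      have hp0 : 0 ≤ ∏ z ∈ Finset.Ico (y + 1) Y, c z := by linarith
      rw [Finset.prod_eq_prod_Ico_succ_bot (by omega : y < Y), mul_comm (c y)]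
      by_cases hpr : y.Prime
      · by_cases hlt : y < y0
        · have h2 := step_crude κ K (8 * D + 1) hP Y y hpr _ hp0 h1
          have hcy : c y = c1 y := if_pos hlt
          rw [hcy]
          exact h2
        · have h3 := hy0 y (by omega)
          have h2 := step_fine t0 C D ht0 ht1 hC hD hLL κ hκ K hP Y y hpr h3.1 h3.2 _ hp0 h1
          have hcy : c y = 1 + 2 * C * ab y := if_neg hlt
          rw [hcy]
          exact h2
      · refine st3_mono hP hy2 ?_ (step_not_prime κ K (8 * D + 1) hP Y y hy2 hpr _ hp0 h1)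
        exact le_mul_of_one_le_right hp0 (hcone y)
  -- the bound for the product
  set G : ℝ := ∑ z ∈ Finset.range y0, Real.log (c1 z) + 2 * C * ∑' z, ab z with hG
  have hbound : ∀ Y : ℕ, ∏ z ∈ Finset.Ico 2 Y, c z ≤ Real.exp G := by
    intro Y
    have h1 : ∏ z ∈ Finset.Ico 2 Y, c z ≤ ∏ z ∈ Finset.Ico 2 Y,
        Real.exp ((if z < y0 then Real.log (c1 z) else 0) + 2 * C * ab z) := by
      refine Finset.prod_le_prod (fun z _ => by linarith [hcone z]) fun z _ => ?_
      have h2 := mul_nonneg (mul_nonneg (zero_le_two (α := ℝ)) hC) (hab0 z)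
      simp only [hcdef]
      split_ifs with hz
      · rw [Real.exp_add, Real.exp_log (by linarith [hc1' z])]
        exact le_mul_of_one_le_right (by linarith [hc1' z]) (Real.one_le_exp h2)
      · rw [zero_add]
        linarith [Real.add_one_le_exp (2 * C * ab z)]
    refine h1.trans ?_
    rw [← Real.exp_sum]
    refine Real.exp_le_exp.2 ?_
    rw [Finset.sum_add_distrib]
    refine add_le_add ?_ ?_
    · rw [← Finset.sum_filter]
      refine Finset.sum_le_sum_of_subset_of_nonneg ?_ fun z _ _ => Real.log_nonneg (hc1' z)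
      intro z hz
      rw [Finset.mem_filter] at hz
      exact Finset.mem_range.2 hz.2
    · rw [← Finset.mul_sum]
      refine mul_le_mul_of_nonneg_left ?_ (mul_nonneg zero_le_two hC)
      exact summable_ab.sum_le_tsum _ fun z _ => hab0 z
  refine ⟨κ, Real.exp G * (K * K) ^ (1 / 4 : ℝ), mul_pos (Real.exp_pos _)
    (Real.rpow_pos_of_pos (by positivity) _), ?_⟩
  intro V W hV hW A B hA hB
  set Y : ℕ := (V ∪ W).sup id + 2 with hY
  have hle : ∀ n ∈ V ∪ W, n < Y := fun n hn => by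
    have := Finset.le_sup (f := id) hn
    simp only [id] at this
    omega
  have hgood : ∀ S : Finset ℕ, S ⊆ V ∪ W → (∀ n ∈ S, 0 < n) → Good 2 Y S := by
    intro S hS hS0 n hn
    refine ⟨hS0 n hn, fun p hp hpn => ⟨hp.two_le, ?_⟩⟩
    exact lt_of_le_of_lt (Nat.le_of_dvd (hS0 n hn) hpn) (hle n (hS hn))
  have h1 := st3_mono hP le_rfl (hbound Y) (hind Y (Y - 2) 2 (by omega) le_rfl) V W
    (hgood V Finset.subset_union_left hV) (hgood W Finset.subset_union_right hW) A B hA hB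
  have hpsi : ∀ A : ℕ, 1 ≤ A → Psi K (8 * D + 1) 2 A = K * A := by
    intro A hA
    have h3 : Nat.primesBelow 2 = ∅ := by decide
    unfold Psi hh
    rw [if_neg (by omega), h3]
    simp
  rw [hpsi A hA, hpsi B hB] at h1
  have h4 : (K * (A : ℝ) * (K * (B : ℝ))) ^ (1 / 4 : ℝ) =
      (K * K) ^ (1 / 4 : ℝ) * ((A : ℝ) * B) ^ (1 / 4 : ℝ) := by
    rw [← Real.mul_rpow (by positivity) (by positivity)]
    congr 1
    ring
  rw [h4] at h1
  have h5 : ((Icc 1 A) ×ˢ (Icc 1 B)).filter (fun x : ℕ × ℕ => Nat.Coprime x.1 x.2) =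
      prs 2 A B := by
    classical
    ext x
    simp only [prs, Finset.mem_filter]
    constructor
    · rintro ⟨h6, h7⟩
      exact ⟨h6, h7, fun p hp _ => hp.two_le, fun p hp _ => hp.two_le⟩
    · rintro ⟨h6, h7, -, -⟩
      exact ⟨h6, h7⟩
  rw [h5]
  refine h1.trans (le_of_eq ?_)
  ring

end Pool.Agent.H2D
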