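import Mathlib
import Pool.Agent.Lib.H2D.Defs
import Pool.Agent.Lib.H2D.ST3

set_option autoImplicit false

/-!
# H2D chunk A16: consequence for sets of integers with `φ(n)/n ≥ η`

* `wt_le`: `wt κ n = ∏_{p ∣ n} (1 + κ/p) ≤ ∏ (1 - 1/p)^(-κ) = (n/φ(n))^κ ≤ η^(-κ)`: Bernoulli
  `1 + κ/p ≤ (1 + 1/p)^κ` and `1 + 1/p ≤ (1 - 1/p)^(-1)`. (`Nat.totient_eq_mul_prod_factors`.)
* `gw_star`: for a set `P` of coprime pairs in `[1,A] × [1,B]`, Hölder (exponents 4 and 4/3):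
  `∑_P cnt ≤ |P|^(1/4) (∑_P cnt^(4/3))^(3/4) ≤ |P|^(1/4) (C (A B)^(1/4) (mass V mass W)^(3/4))^(3/4)`.
-/

namespace Pool.Agent.H2D

open Finset

theorem tt_tot (n : ℕ) (hn : 0 < n) :
    (Nat.totient n : ℝ) / n = ∏ p ∈ n.primeFactors, (1 - 1 / (p : ℝ)) := by
  have h1 := Nat.totient_eq_mul_prod_factors n
  have h2 : (Nat.totient n : ℝ) = n * ∏ p ∈ n.primeFactors, (1 - (p : ℝ)⁻¹) := by
    have h3 := congrArg (fun q : ℚ => (q : ℝ)) h1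
    push_cast at h3
    exact h3
  have hn0 : (n : ℝ) ≠ 0 := by exact_mod_cast hn.ne'
  rw [h2, mul_div_cancel_left₀ _ hn0]
  exact Finset.prod_congr rfl fun p _ => by rw [one_div]

theorem tt_fac (κ : ℕ) {p : ℕ} (hp : p.Prime) : (1 + (κ : ℝ) / p) * (1 - 1 / (p : ℝ)) ^ κ ≤ 1 := by
  have h1 : (2 : ℝ) ≤ p := by exact_mod_cast hp.two_le
  have h2 : 1 / (p : ℝ) ≤ 1 / 2 := one_div_le_one_div_of_le (by norm_num) h1
  have h3 : 0 < 1 / (p : ℝ) := by positivity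
  have h4 : 1 + (κ : ℝ) / p ≤ (1 + 1 / (p : ℝ)) ^ κ := by
    have h5 := one_add_mul_le_pow (a := 1 / (p : ℝ)) (by linarith) κ
    refine le_trans (le_of_eq ?_) h5
    ring
  calc (1 + (κ : ℝ) / p) * (1 - 1 / (p : ℝ)) ^ κ ≤ (1 + 1 / (p : ℝ)) ^ κ * (1 - 1 / (p : ℝ)) ^ κ :=
        mul_le_mul_of_nonneg_right h4 (pow_nonneg (by linarith) κ)
    _ = (1 - (1 / (p : ℝ)) ^ 2) ^ κ := by
        rw [← mul_pow]
        congr 1
        ring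
    _ ≤ 1 := pow_le_one₀ (by nlinarith) (by nlinarith)

theorem wt_le (κ n : ℕ) (hn : 0 < n) (η : ℝ) (hη : 0 < η) (h : η ≤ (Nat.totient n : ℝ) / n) :
    wt κ n ≤ (1 / η) ^ κ := by
  have h1 := tt_tot n hn
  rw [h1] at h
  have h2 : wt κ n * (∏ p ∈ n.primeFactors, (1 - 1 / (p : ℝ))) ^ κ ≤ 1 := by
    unfold wt
    rw [← Finset.prod_pow, ← Finset.prod_mul_distrib]
    refine Finset.prod_le_one ?_ ?_
    · intro p hp
      have hp' := Nat.prime_of_mem_primeFactors hp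
      have h3 : (2 : ℝ) ≤ p := by exact_mod_cast hp'.two_le
      have h4 : 1 / (p : ℝ) ≤ 1 / 2 := one_div_le_one_div_of_le (by norm_num) h3
      have h5 : 0 ≤ 1 - 1 / (p : ℝ) := by linarith
      positivity
    · intro p hp
      exact tt_fac κ (Nat.prime_of_mem_primeFactors hp)
  have h0 : 0 ≤ wt κ n := by
    unfold wt
    exact Finset.prod_nonneg fun p _ => by positivity
  have h3 : wt κ n * η ^ κ ≤ 1 :=
    (mul_le_mul_of_nonneg_left (pow_le_pow_left₀ hη.le h κ) h0).trans h2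
  rw [one_div, inv_pow, ← one_div, le_div_iff₀ (pow_pos hη κ)]
  exact h3

theorem gw_star (η : ℝ) (hη : 0 < η) : ∃ C : ℝ, 0 < C ∧ ∀ V W : Finset ℕ,
    (∀ n ∈ V, 0 < n ∧ η ≤ (Nat.totient n : ℝ) / n) →
    (∀ n ∈ W, 0 < n ∧ η ≤ (Nat.totient n : ℝ) / n) →
    ∀ A B : ℕ, 1 ≤ A → 1 ≤ B → ∀ P : Finset (ℕ × ℕ),
    (∀ x ∈ P, Nat.Coprime x.1 x.2 ∧ 1 ≤ x.1 ∧ x.1 ≤ A ∧ 1 ≤ x.2 ∧ x.2 ≤ B) →
    ∑ x ∈ P, (cnt V W x.1 x.2 : ℝ) ≤ C * (P.card : ℝ) ^ (1 / 4 : ℝ) *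
      ((A : ℝ) * B) ^ (3 / 16 : ℝ) * ((V.card : ℝ) * (W.card : ℝ)) ^ (9 / 16 : ℝ) := by
  obtain ⟨κ, C, hC, h⟩ := green_walker
  obtain ⟨E, hE⟩ : ∃ E : ℝ, E = (1 / η) ^ κ := ⟨_, rfl⟩
  have hE0 : 0 < E := by
    rw [hE]
    positivity
  refine ⟨C ^ (3 / 4 : ℝ) * (E * E) ^ (9 / 16 : ℝ), by positivity, ?_⟩
  intro V W hV hW A B hA hB P hP
  have hmass : ∀ V : Finset ℕ, (∀ n ∈ V, 0 < n ∧ η ≤ (Nat.totient n : ℝ) / n) →
      0 ≤ mass κ V ∧ mass κ V ≤ E * V.card := by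
    intro V hV
    unfold mass
    refine ⟨Finset.sum_nonneg fun n _ => ?_, ?_⟩
    · unfold wt
      exact Finset.prod_nonneg fun p _ => by positivity
    · calc ∑ n ∈ V, wt κ n ≤ ∑ n ∈ V, E := Finset.sum_le_sum fun n hn => by
            rw [hE]
            exact wt_le κ n (hV n hn).1 η hη (hV n hn).2
        _ = E * V.card := by
            rw [Finset.sum_const, nsmul_eq_mul]
            ring
  have hc : Real.HolderConjugate 4 (4 / 3) := by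
    rw [Real.holderConjugate_iff]
    norm_num
  have h1 := Real.inner_le_Lp_mul_Lq_of_nonneg P hc (f := fun _ => (1 : ℝ))
    (g := fun x => (cnt V W x.1 x.2 : ℝ)) (fun i _ => zero_le_one) (fun i _ => Nat.cast_nonneg _)
  have h2 : ∑ _x ∈ P, (1 : ℝ) ^ (4 : ℝ) = P.card := by
    rw [Real.one_rpow, Finset.sum_const, nsmul_eq_mul, mul_one]
  have h3 : (1 / (4 / 3) : ℝ) = 3 / 4 := by norm_num
  rw [h2, h3] at h1
  simp only [one_mul] at h1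
  have hsub : P ⊆ ((Icc 1 A) ×ˢ (Icc 1 B)).filter (fun x : ℕ × ℕ => Nat.Coprime x.1 x.2) := by
    intro x hx
    obtain ⟨h4, h5, h6, h7, h8⟩ := hP x hx
    rw [Finset.mem_filter, Finset.mem_product, Finset.mem_Icc, Finset.mem_Icc]
    exact ⟨⟨⟨h5, h6⟩, h7, h8⟩, h4⟩
  have h4 : ∑ x ∈ P, (cnt V W x.1 x.2 : ℝ) ^ (4 / 3 : ℝ) ≤
      C * ((A : ℝ) * B) ^ (1 / 4 : ℝ) * ((E * V.card) * (E * W.card)) ^ (3 / 4 : ℝ) := by
    calc ∑ x ∈ P, (cnt V W x.1 x.2 : ℝ) ^ (4 / 3 : ℝ) ≤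
        ∑ x ∈ ((Icc 1 A) ×ˢ (Icc 1 B)).filter (fun x : ℕ × ℕ => Nat.Coprime x.1 x.2),
          (cnt V W x.1 x.2 : ℝ) ^ (4 / 3 : ℝ) :=
          Finset.sum_le_sum_of_subset_of_nonneg hsub fun x _ _ => by positivity
      _ ≤ C * ((A : ℝ) * B) ^ (1 / 4 : ℝ) * (mass κ V * mass κ W) ^ (3 / 4 : ℝ) :=
          h V W (fun n hn => (hV n hn).1) (fun n hn => (hW n hn).1) A B hA hB
      _ ≤ _ := by
          refine mul_le_mul_of_nonneg_left ?_ (by positivity)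
          obtain ⟨h5, h6⟩ := hmass V hV
          obtain ⟨h7, h8⟩ := hmass W hW
          exact Real.rpow_le_rpow (mul_nonneg h5 h7) (mul_le_mul h6 h8 h7 (by positivity)) (by norm_num)
  have hs0 : 0 ≤ ∑ x ∈ P, (cnt V W x.1 x.2 : ℝ) ^ (4 / 3 : ℝ) := Finset.sum_nonneg fun x _ => by positivity
  have h5 := Real.rpow_le_rpow hs0 h4 (z := 3 / 4) (by norm_num)
  have h6 : (C * ((A : ℝ) * B) ^ (1 / 4 : ℝ) * ((E * V.card) * (E * W.card)) ^ (3 / 4 : ℝ)) ^ (3 / 4 : ℝ) =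
      C ^ (3 / 4 : ℝ) * ((A : ℝ) * B) ^ (3 / 16 : ℝ) * ((E * E) ^ (9 / 16 : ℝ) *
        ((V.card : ℝ) * W.card) ^ (9 / 16 : ℝ)) := by
    rw [Real.mul_rpow (by positivity) (by positivity), Real.mul_rpow hC.le (by positivity),
      ← Real.rpow_mul (by positivity), ← Real.rpow_mul (by positivity), ← Real.mul_rpow (by positivity) (by positivity)]
    have e1 : (1 / 4 * (3 / 4) : ℝ) = 3 / 16 := by norm_num
    have e2 : (3 / 4 * (3 / 4) : ℝ) = 9 / 16 := by norm_num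
    have e3 : (E * V.card) * (E * W.card) = (E * E) * ((V.card : ℝ) * W.card) := by ring
    rw [e1, e2, e3]
  rw [h6] at h5
  refine h1.trans ?_
  calc (P.card : ℝ) ^ (1 / 4 : ℝ) * (∑ x ∈ P, (cnt V W x.1 x.2 : ℝ) ^ (4 / 3 : ℝ)) ^ (3 / 4 : ℝ) ≤
      (P.card : ℝ) ^ (1 / 4 : ℝ) * (C ^ (3 / 4 : ℝ) * ((A : ℝ) * B) ^ (3 / 16 : ℝ) * ((E * E) ^ (9 / 16 : ℝ) *
        ((V.card : ℝ) * W.card) ^ (9 / 16 : ℝ))) := mul_le_mul_of_nonneg_left h5 (by positivity)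
    _ = _ := by ring

end Pool.Agent.H2D
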