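import Mathlib
import Pool.Agent.Lib.H2D.Defs
import Pool.Agent.Lib.H2D.TT
import Pool.Agent.Lib.H2D.PC

set_option autoImplicit false

/-!
# H2D chunk B8: the generic sum for two levels and one scale

`V` (level `i`), `W` (level `j ≤ i`), `A = 2^(j-l)`, `ρ0 = 2^(i-j)`. The pairs `(q, r) ∈ V × W` in the set `E` have
`(a, b) = (q, r)/gcd ∈ PP`, in particular coprime, `q b = r a`, and satisfy one of the two imbalance alternatives. The number of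
pairs with given `(a, b)` is at most `cnt V W a b`.
 * alternative 1: `ρ0^κ b sz i ≤ K a sz j ≤ K 2^(-l)` so `b ≤ B' = ⌊K ρ0^(-κ) 2^(i-l)⌋`. If `B' = 0` none. By `gw_star` with
   `P = {(a,b) ∈ PP : b ≤ B'}`: `≤ C |PP|^(1/4) (A B')^(3/16) (|V||W|)^(9/16)`.
 * alternative 2: `ρ0^κ a sz j ≤ K b sz i ≤ K 2^(-l)`, `a ≤ A' = ⌊K ρ0^(-κ) 2^(j-l)⌋`, `b ≤ 2^(i-l)`. Same bound.
 `|PP| ≤ 100 · 2^(i+j-3l)`, `A B' ≤ K ρ0^(-κ) 2^(i+j-2l)`. So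
 `|E| ≤ 2 C (100)^(1/4) K^(3/16) ρ0^(-3κ/16) 2^((i+j)(1/4+3/16)) 2^(-l(3/4+3/8)) (|V||W|)^(9/16)`, and
 `32 · 2^l sz i sz j |E| ≤ C' ρ0^(-3κ/16) 2^(-l/8) (sz i |V| · sz j |W|)^(9/16)`
 because `2^(-(i+j)) 2^((i+j)7/16) = 2^(-(i+j) 9/16)` and `1 - 9/8 = -1/8`.
-/

namespace Pool.Agent.H2D

open Finset

theorem ge_half (S T : Finset ℕ) (P E : Finset (ℕ × ℕ)) (hE : E ⊆ S ×ˢ T)
    (hP : ∀ x ∈ E, (x.1 / Nat.gcd x.1 x.2, x.2 / Nat.gcd x.1 x.2) ∈ P) :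
    E.card ≤ ∑ p ∈ P, cnt S T p.1 p.2 := by
  have h1 : E.card = ∑ p ∈ P, (E.filter fun x : ℕ × ℕ =>
      (x.1 / Nat.gcd x.1 x.2, x.2 / Nat.gcd x.1 x.2) = p).card :=
    Finset.card_eq_sum_card_fiberwise fun x hx => hP x hx
  rw [h1]
  refine Finset.sum_le_sum fun p _ => Finset.card_le_card ?_
  intro x hx
  rw [Finset.mem_filter] at hx
  rw [Finset.mem_filter]
  refine ⟨hE hx.1, ?_⟩
  rw [← hx.2]
  simp only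
  have h2 := Nat.div_mul_cancel (Nat.gcd_dvd_left x.1 x.2)
  have h3 := Nat.div_mul_cancel (Nat.gcd_dvd_right x.1 x.2)
  calc x.1 * (x.2 / Nat.gcd x.1 x.2) = (x.1 / Nat.gcd x.1 x.2 * Nat.gcd x.1 x.2) * (x.2 / Nat.gcd x.1 x.2) := by
        rw [h2]
    _ = (x.2 / Nat.gcd x.1 x.2 * Nat.gcd x.1 x.2) * (x.1 / Nat.gcd x.1 x.2) := by ring
    _ = x.2 * (x.1 / Nat.gcd x.1 x.2) := by rw [h3]

theorem ge_le (R K g a b : ℝ) (m n l : ℕ) (hlm : l ≤ m) (hln : l ≤ n) (hR : 0 < R) (hg : 0 < g)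
    (hK : 0 ≤ K) (ha : a ≤ 2 ^ (n - l)) (h : R * ((b * g) * sz m) ≤ K * ((a * g) * sz n)) :
    b ≤ K * R⁻¹ * 2 ^ (m - l) := by
  have hm : (sz m) * 2 ^ m = 1 := by
    unfold sz
    rw [← mul_pow]
    norm_num
  have hn : (2 : ℝ) ^ (n - l) * sz n = sz l := by
    unfold sz
    have h1 : (1 / 2 : ℝ) ^ n = (1 / 2) ^ (n - l) * (1 / 2) ^ l := by
      rw [← pow_add]
      congr 1
      omega
    rw [h1, ← mul_assoc, ← mul_pow]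
    norm_num
  have hl : sz l * 2 ^ m = 2 ^ (m - l) := by
    unfold sz
    have h1 : (2 : ℝ) ^ m = 2 ^ l * 2 ^ (m - l) := by
      rw [← pow_add]
      congr 1
      omega
    rw [h1, ← mul_assoc, ← mul_pow]
    norm_num
  have hsz : 0 < sz n := by unfold sz; positivity
  have h1 : R * (b * sz m) * g ≤ (K * sz l) * g := by
    calc R * (b * sz m) * g = R * ((b * g) * sz m) := by ring
      _ ≤ K * ((a * g) * sz n) := h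
      _ ≤ K * ((2 ^ (n - l) * g) * sz n) := by gcongr
      _ = (K * sz l) * g := by rw [← hn]; ring
  have h2 := le_of_mul_le_mul_right h1 hg
  have h3 : b * R ≤ K * 2 ^ (m - l) := by
    calc b * R = R * (b * sz m) * 2 ^ m := by linear_combination (-(b * R)) * hm
      _ ≤ (K * sz l) * 2 ^ m := by gcongr
      _ = K * 2 ^ (m - l) := by rw [mul_assoc, hl]
  calc b = b * R * R⁻¹ := by field_simp
    _ ≤ K * 2 ^ (m - l) * R⁻¹ := by gcongr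
    _ = K * R⁻¹ * 2 ^ (m - l) := by ring

theorem ge_id (C K κ s t : ℝ) (hK : 0 < K) (hs : 0 ≤ s) (ht : 0 ≤ t) (i j l : ℕ) (hji : j ≤ i) (hlj : l ≤ j) :
    32 * 2 ^ l * sz i * sz j * (C * (100 * (2 : ℝ) ^ (i + j) / (2 : ℝ) ^ (3 * l)) ^ (1 / 4 : ℝ) *
      (K * (((2 : ℝ) ^ (i - j)) ^ κ)⁻¹ * 2 ^ (i - l) * 2 ^ (j - l)) ^ (3 / 16 : ℝ) * (s * t) ^ (9 / 16 : ℝ)) =
    32 * C * (100 : ℝ) ^ (1 / 4 : ℝ) * K ^ (3 / 16 : ℝ) * ((2 : ℝ) ^ (-(3 * κ / 16))) ^ (i - j) *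
      ((2 : ℝ) ^ (-(1 / 8 : ℝ))) ^ l * ((sz i * s) * (sz j * t)) ^ (9 / 16 : ℝ) := by
  have h2 : (0 : ℝ) < 2 := two_pos
  have eN : ∀ n : ℕ, (2 : ℝ) ^ n = (2 : ℝ) ^ (n : ℝ) := fun n => (Real.rpow_natCast 2 n).symm
  have esz : ∀ n : ℕ, sz n = (2 : ℝ) ^ (-(n : ℝ)) := by
    intro n
    unfold sz
    rw [Real.rpow_neg h2.le, Real.rpow_natCast, one_div, inv_pow]
  have eij : ((i - j : ℕ) : ℝ) = (i : ℝ) - j := Nat.cast_sub hji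
  have eil : ((i - l : ℕ) : ℝ) = (i : ℝ) - l := Nat.cast_sub (hlj.trans hji)
  have ejl : ((j - l : ℕ) : ℝ) = (j : ℝ) - l := Nat.cast_sub hlj
  have e1 : (100 * (2 : ℝ) ^ (i + j) / (2 : ℝ) ^ (3 * l)) ^ (1 / 4 : ℝ) =
      (100 : ℝ) ^ (1 / 4 : ℝ) * (2 : ℝ) ^ (((i : ℝ) + j - 3 * l) / 4) := by
    rw [mul_div_assoc, eN (i + j), eN (3 * l), ← Real.rpow_sub h2, Real.mul_rpow (by norm_num) (by positivity),
      ← Real.rpow_mul h2.le]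
    congr 2
    push_cast
    ring
  have e2 : (K * (((2 : ℝ) ^ (i - j)) ^ κ)⁻¹ * 2 ^ (i - l) * 2 ^ (j - l)) ^ (3 / 16 : ℝ) =
      K ^ (3 / 16 : ℝ) * (2 : ℝ) ^ ((-(κ * ((i : ℝ) - j)) + ((i : ℝ) - l) + ((j : ℝ) - l)) * (3 / 16)) := by
    have e3 : K * (((2 : ℝ) ^ (i - j)) ^ κ)⁻¹ * 2 ^ (i - l) * 2 ^ (j - l) =
        K * (2 : ℝ) ^ (-(κ * ((i : ℝ) - j)) + ((i : ℝ) - l) + ((j : ℝ) - l)) := by
      rw [eN (i - j), eN (i - l), eN (j - l), eij, eil, ejl, ← Real.rpow_mul h2.le, ← Real.rpow_neg h2.le,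
        Real.rpow_add h2, Real.rpow_add h2, mul_comm κ]
      ring
    rw [e3, Real.mul_rpow hK.le (by positivity), ← Real.rpow_mul h2.le]
  have e4 : ((sz i * s) * (sz j * t)) ^ (9 / 16 : ℝ) =
      (2 : ℝ) ^ ((-(i : ℝ) + -(j : ℝ)) * (9 / 16)) * (s * t) ^ (9 / 16 : ℝ) := by
    have e5 : (sz i * s) * (sz j * t) = (2 : ℝ) ^ (-(i : ℝ) + -(j : ℝ)) * (s * t) := by
      rw [esz, esz, Real.rpow_add h2]
      ring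
    rw [e5, Real.mul_rpow (by positivity) (mul_nonneg hs ht), ← Real.rpow_mul h2.le]
  have e6 : ((2 : ℝ) ^ (-(3 * κ / 16))) ^ (i - j) = (2 : ℝ) ^ (-(3 * κ / 16) * ((i : ℝ) - j)) := by
    rw [← Real.rpow_natCast, ← Real.rpow_mul h2.le, eij]
  have e7 : ((2 : ℝ) ^ (-(1 / 8 : ℝ))) ^ l = (2 : ℝ) ^ (-(1 / 8 : ℝ) * (l : ℝ)) := by
    rw [← Real.rpow_natCast, ← Real.rpow_mul h2.le]
  rw [e1, e2, e4, e6, e7, esz, esz, eN l]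
  have e8 : (2 : ℝ) ^ (l : ℝ) * (2 : ℝ) ^ (-(i : ℝ)) * (2 : ℝ) ^ (-(j : ℝ)) *
      (2 : ℝ) ^ (((i : ℝ) + j - 3 * l) / 4) *
      (2 : ℝ) ^ ((-(κ * ((i : ℝ) - j)) + ((i : ℝ) - l) + ((j : ℝ) - l)) * (3 / 16)) =
      (2 : ℝ) ^ (-(3 * κ / 16) * ((i : ℝ) - j)) * (2 : ℝ) ^ (-(1 / 8 : ℝ) * (l : ℝ)) *
      (2 : ℝ) ^ ((-(i : ℝ) + -(j : ℝ)) * (9 / 16)) := by
    rw [← Real.rpow_add h2, ← Real.rpow_add h2, ← Real.rpow_add h2, ← Real.rpow_add h2, ← Real.rpow_add h2,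
      ← Real.rpow_add h2]
    congr 1
    ring
  linear_combination (32 * C * (100 : ℝ) ^ (1 / 4 : ℝ) * K ^ (3 / 16 : ℝ) * (s * t) ^ (9 / 16 : ℝ)) * e8

open Classical in
theorem ge_one {C η : ℝ} (hC : 0 < C)
    (hgw : ∀ V W : Finset ℕ,
      (∀ n ∈ V, 0 < n ∧ η ≤ (Nat.totient n : ℝ) / n) →
      (∀ n ∈ W, 0 < n ∧ η ≤ (Nat.totient n : ℝ) / n) →
      ∀ A B : ℕ, 1 ≤ A → 1 ≤ B → ∀ P : Finset (ℕ × ℕ),
      (∀ x ∈ P, Nat.Coprime x.1 x.2 ∧ 1 ≤ x.1 ∧ x.1 ≤ A ∧ 1 ≤ x.2 ∧ x.2 ≤ B) →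
      ∑ x ∈ P, (cnt V W x.1 x.2 : ℝ) ≤ C * (P.card : ℝ) ^ (1 / 4 : ℝ) *
        ((A : ℝ) * B) ^ (3 / 16 : ℝ) * ((V.card : ℝ) * (W.card : ℝ)) ^ (9 / 16 : ℝ))
    (S T : Finset ℕ) (hS : ∀ n ∈ S, 0 < n ∧ η ≤ (Nat.totient n : ℝ) / n)
    (hT : ∀ n ∈ T, 0 < n ∧ η ≤ (Nat.totient n : ℝ) / n) (P : Finset (ℕ × ℕ)) (D Z : ℝ) (hPD : (P.card : ℝ) ≤ D)
    (A B : ℕ) (hAB : (A : ℝ) * B ≤ Z)
    (hP : ∀ x ∈ P, Nat.Coprime x.1 x.2 ∧ 1 ≤ x.1 ∧ x.1 ≤ A ∧ 1 ≤ x.2 ∧ x.2 ≤ B) :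
    ∑ x ∈ P, (cnt S T x.1 x.2 : ℝ) ≤ C * D ^ (1 / 4 : ℝ) * Z ^ (3 / 16 : ℝ) *
      ((S.card : ℝ) * (T.card : ℝ)) ^ (9 / 16 : ℝ) := by
  have hD0 : 0 ≤ D := (Nat.cast_nonneg _).trans hPD
  have hZ0 : 0 ≤ Z := le_trans (by positivity) hAB
  rcases P.eq_empty_or_nonempty with h0 | ⟨x, hx⟩
  · rw [h0, Finset.sum_empty]
    positivity
  · obtain ⟨-, h1, h2, h3, h4⟩ := hP x hx
    refine (hgw S T hS hT A B (h1.trans h2) (h3.trans h4) P hP).trans ?_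
    have h5 : (P.card : ℝ) ^ (1 / 4 : ℝ) ≤ D ^ (1 / 4 : ℝ) := Real.rpow_le_rpow (by positivity) hPD (by norm_num)
    have h6 : ((A : ℝ) * B) ^ (3 / 16 : ℝ) ≤ Z ^ (3 / 16 : ℝ) := Real.rpow_le_rpow (by positivity) hAB (by norm_num)
    gcongr

open Classical in
theorem generic_sum {γ : ℝ} (hγ : Irrational γ) {U V C : ℕ → ℤ} (hD : DirData γ U V C)
    (η : ℝ) (hη : 0 < η) (κ K : ℝ) (hκ : 0 < κ) (hκ1 : κ ≤ 1) (hK : 1 ≤ K) :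
    ∃ C1 : ℝ, 0 < C1 ∧ ∀ i j l : ℕ, 1 ≤ l → l < j → j ≤ i → ∀ S T : Finset ℕ,
      (∀ n ∈ S, 0 < n ∧ η ≤ (Nat.totient n : ℝ) / n) →
      (∀ n ∈ T, 0 < n ∧ η ≤ (Nat.totient n : ℝ) / n) →
      32 * 2 ^ l * sz i * sz j *
        (((S ×ˢ T).filter (fun x : ℕ × ℕ =>
          (x.1 / Nat.gcd x.1 x.2, x.2 / Nat.gcd x.1 x.2) ∈ PP γ (U i) (V i) i j l ∧
          (((2 : ℝ) ^ (i - j)) ^ κ * ((x.2 : ℝ) * sz i) ≤ K * ((x.1 : ℝ) * sz j) ∨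
           ((2 : ℝ) ^ (i - j)) ^ κ * ((x.1 : ℝ) * sz j) ≤ K * ((x.2 : ℝ) * sz i)))).card : ℝ) ≤
      C1 * ((2 : ℝ) ^ (-(3 * κ / 16))) ^ (i - j) * ((2 : ℝ) ^ (-(1 / 8 : ℝ))) ^ l *
        ((sz i * S.card) * (sz j * T.card)) ^ (9 / 16 : ℝ) := by
  obtain ⟨C0, hC0, hgw⟩ := gw_star η hη
  refine ⟨64 * C0 * (100 : ℝ) ^ (1 / 4 : ℝ) * K ^ (3 / 16 : ℝ), by positivity, ?_⟩
  intro i j l hl hlj hji S T hS hT
  set Q : Finset (ℕ × ℕ) := PP γ (U i) (V i) i j l with hQ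
  have hQmem : ∀ x ∈ Q, Nat.Coprime x.1 x.2 ∧ 1 ≤ x.1 ∧ x.1 ≤ 2 ^ (j - l) ∧ 1 ≤ x.2 ∧ x.2 ≤ 2 ^ (i - l) := by
    intro x hx
    rw [hQ] at hx
    unfold PP at hx
    rw [Finset.mem_filter, Finset.mem_product, Finset.mem_Icc, Finset.mem_Icc] at hx
    exact ⟨hx.2.1, hx.1.1.1, hx.1.1.2, hx.1.2.1, hx.1.2.2⟩
  have hR : (0 : ℝ) < ((2 : ℝ) ^ (i - j)) ^ κ := by positivity
  have hK0 : 0 < K := by linarith
  set R : ℝ := ((2 : ℝ) ^ (i - j)) ^ κ with hRdef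
  set E1 : Finset (ℕ × ℕ) := (S ×ˢ T).filter (fun x : ℕ × ℕ =>
    (x.1 / Nat.gcd x.1 x.2, x.2 / Nat.gcd x.1 x.2) ∈ Q ∧ R * ((x.2 : ℝ) * sz i) ≤ K * ((x.1 : ℝ) * sz j)) with hE1
  set E2 : Finset (ℕ × ℕ) := (S ×ˢ T).filter (fun x : ℕ × ℕ =>
    (x.1 / Nat.gcd x.1 x.2, x.2 / Nat.gcd x.1 x.2) ∈ Q ∧ R * ((x.1 : ℝ) * sz j) ≤ K * ((x.2 : ℝ) * sz i)) with hE2
  set B' : ℕ := ⌊K * R⁻¹ * 2 ^ (i - l)⌋₊ with hB'
  set A' : ℕ := ⌊K * R⁻¹ * 2 ^ (j - l)⌋₊ with hA'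
  have hEsub : (S ×ˢ T).filter (fun x : ℕ × ℕ =>
      (x.1 / Nat.gcd x.1 x.2, x.2 / Nat.gcd x.1 x.2) ∈ Q ∧
      (R * ((x.2 : ℝ) * sz i) ≤ K * ((x.1 : ℝ) * sz j) ∨ R * ((x.1 : ℝ) * sz j) ≤ K * ((x.2 : ℝ) * sz i))) ⊆
      E1 ∪ E2 := by
    intro x hx
    rw [Finset.mem_filter] at hx
    rw [Finset.mem_union, hE1, hE2, Finset.mem_filter, Finset.mem_filter]
    rcases hx.2.2 with h | h
    · exact Or.inl ⟨hx.1, hx.2.1, h⟩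
    · exact Or.inr ⟨hx.1, hx.2.1, h⟩
  have hgcd : ∀ x ∈ S ×ˢ T, (0 : ℝ) < (Nat.gcd x.1 x.2 : ℝ) ∧
      (x.1 : ℝ) = ((x.1 / Nat.gcd x.1 x.2 : ℕ) : ℝ) * (Nat.gcd x.1 x.2 : ℝ) ∧
      (x.2 : ℝ) = ((x.2 / Nat.gcd x.1 x.2 : ℕ) : ℝ) * (Nat.gcd x.1 x.2 : ℝ) := by
    intro x hx
    rw [Finset.mem_product] at hx
    refine ⟨?_, ?_, ?_⟩
    · exact_mod_cast Nat.gcd_pos_of_pos_left _ (hS x.1 hx.1).1
    · exact_mod_cast (Nat.div_mul_cancel (Nat.gcd_dvd_left x.1 x.2)).symm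
    · exact_mod_cast (Nat.div_mul_cancel (Nat.gcd_dvd_right x.1 x.2)).symm
  have h1 : (E1.card : ℝ) ≤ ∑ p ∈ Q.filter (fun p => p.2 ≤ B'), (cnt S T p.1 p.2 : ℝ) := by
    have h2 : E1.card ≤ ∑ p ∈ Q.filter (fun p => p.2 ≤ B'), cnt S T p.1 p.2 := by
      refine ge_half S T _ E1 (Finset.filter_subset _ _) ?_
      intro x hx
      rw [hE1, Finset.mem_filter] at hx
      rw [Finset.mem_filter]
      refine ⟨hx.2.1, ?_⟩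
      obtain ⟨hg, hg1, hg2⟩ := hgcd x hx.1
      have h3 := hx.2.2
      rw [hg1, hg2] at h3
      refine Nat.le_floor ?_
      refine ge_le R K _ _ _ i j l (by omega) (by omega) hR hg hK0.le ?_ h3
      exact_mod_cast (hQmem _ hx.2.1).2.2.1
    exact_mod_cast h2
  have h2 : (E2.card : ℝ) ≤ ∑ p ∈ Q.filter (fun p => p.1 ≤ A'), (cnt S T p.1 p.2 : ℝ) := by
    have h2 : E2.card ≤ ∑ p ∈ Q.filter (fun p => p.1 ≤ A'), cnt S T p.1 p.2 := by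
      refine ge_half S T _ E2 (Finset.filter_subset _ _) ?_
      intro x hx
      rw [hE2, Finset.mem_filter] at hx
      rw [Finset.mem_filter]
      refine ⟨hx.2.1, ?_⟩
      obtain ⟨hg, hg1, hg2⟩ := hgcd x hx.1
      have h3 := hx.2.2
      rw [hg1, hg2] at h3
      refine Nat.le_floor ?_
      refine ge_le R K _ _ _ j i l (by omega) (by omega) hR hg hK0.le ?_ h3
      exact_mod_cast (hQmem _ hx.2.1).2.2.2.2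
    exact_mod_cast h2
  have hcard := PP_card hγ hD i j l hl hlj hji
  rw [← hQ] at hcard
  have hc : ∀ Q' : Finset (ℕ × ℕ), Q' ⊆ Q → (Q'.card : ℝ) ≤ 100 * (2 : ℝ) ^ (i + j) / (2 : ℝ) ^ (3 * l) := by
    intro Q' hQ'
    refine le_trans ?_ hcard
    exact_mod_cast Finset.card_le_card hQ'
  have h3 := ge_one hC0 hgw S T hS hT (Q.filter (fun p => p.2 ≤ B'))
    (100 * (2 : ℝ) ^ (i + j) / (2 : ℝ) ^ (3 * l)) (K * R⁻¹ * 2 ^ (i - l) * 2 ^ (j - l)) (hc _ (Finset.filter_subset _ _))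
    (2 ^ (j - l)) B' (by
      have h4 : (B' : ℝ) ≤ K * R⁻¹ * 2 ^ (i - l) := Nat.floor_le (by positivity)
      push_cast
      rw [mul_comm]
      gcongr) (by
      intro x hx
      rw [Finset.mem_filter] at hx
      have h4 := hQmem x hx.1
      exact ⟨h4.1, h4.2.1, h4.2.2.1, h4.2.2.2.1, hx.2⟩)
  have h4 := ge_one hC0 hgw S T hS hT (Q.filter (fun p => p.1 ≤ A'))
    (100 * (2 : ℝ) ^ (i + j) / (2 : ℝ) ^ (3 * l)) (K * R⁻¹ * 2 ^ (i - l) * 2 ^ (j - l)) (hc _ (Finset.filter_subset _ _))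
    A' (2 ^ (i - l)) (by
      have h4 : (A' : ℝ) ≤ K * R⁻¹ * 2 ^ (j - l) := Nat.floor_le (by positivity)
      push_cast
      calc (A' : ℝ) * 2 ^ (i - l) ≤ (K * R⁻¹ * 2 ^ (j - l)) * 2 ^ (i - l) := by gcongr
        _ = K * R⁻¹ * 2 ^ (i - l) * 2 ^ (j - l) := by ring) (by
      intro x hx
      rw [Finset.mem_filter] at hx
      have h4 := hQmem x hx.1
      exact ⟨h4.1, h4.2.1, hx.2, h4.2.2.2.1, h4.2.2.2.2⟩)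
  have hid := ge_id C0 K κ (S.card : ℝ) (T.card : ℝ) hK0 (Nat.cast_nonneg _) (Nat.cast_nonneg _) i j l hji hlj.le
  rw [← hRdef] at hid
  have h5 : (((S ×ˢ T).filter (fun x : ℕ × ℕ =>
      (x.1 / Nat.gcd x.1 x.2, x.2 / Nat.gcd x.1 x.2) ∈ Q ∧
      (R * ((x.2 : ℝ) * sz i) ≤ K * ((x.1 : ℝ) * sz j) ∨
        R * ((x.1 : ℝ) * sz j) ≤ K * ((x.2 : ℝ) * sz i)))).card : ℝ) ≤ E1.card + E2.card := by
    exact_mod_cast (Finset.card_le_card hEsub).trans (Finset.card_union_le _ _)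
  have hsz : 0 ≤ 32 * 2 ^ l * sz i * sz j := by
    unfold sz
    positivity
  have h6 := mul_le_mul_of_nonneg_left (h5.trans (add_le_add (h1.trans h3) (h2.trans h4))) hsz
  refine h6.trans (le_of_eq ?_)
  linear_combination 2 * hid

end Pool.Agent.H2D
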