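import Mathlib
import Pool.Agent.Lib.H2D.Defs
import Pool.Agent.Lib.H2D.OVa
import Pool.Agent.Lib.H2D.OVb

set_option autoImplicit false

/-!
# H2D chunk B6: the bound for one pair

`i = lev q ≥ j = lev r ≥ 3`, `δ = sz i`, `δ' = sz j`, `ρ = rho lev q r`, `g = gcd`, `a = q/g`, `b = r/g`.
* `ρ ≥ 1/2`: `ov_many`.
* `ρ < 1/2` and the intersection (with `[0,1]`) is empty: trivial.
* `ρ < 1/2`, the intersection is nonempty: `ov_witness` gives good `p`, `p'` and `n = b p - a p'`, `|n + (b-a)γ| < ρ`; so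
  `Near γ q r ρ` (`((r-q)/g) = b - a`).
  - if `n v + (b - a) u = 0` (`u = U i`, `v = V i`): `b (p v + u) = a (p' v + u)`, so `a ∣ p v + u` (`a, b` coprime), and `a ∣ q`. By
    `good_core` (DSRat.Overlap): either `p v + u` is coprime to `q`, then `a = 1`, or `p v + u = 2m` with `m` coprime to `q`, then `a` is
    coprime to `m` and `a ∣ 2 m` so `a ∣ 2`. So `a ≤ 2` and the second bound of `ov_one`.
  - otherwise: `ρ ≥ δ' ` (as `ρ = bδ + aδ' ≥ δ' = 2^(-j)`, strictly bigger), so there is `l`, `1 ≤ l ≤ j-1`, with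
    `2^(-l-1) ≤ ρ < 2^(-l)`; `a δ' ≤ ρ < 2^(-l)` gives `a < 2^(j-l)`, `b < 2^(i-l)`; `a ≠ b` as `q ≠ r`. So `(a,b) ∈ PP` and the first bound
    of `ov_one`: `16 δ δ'/ρ ≤ 32 · 2^l δ δ'`.
-/

namespace Pool.Agent.H2D

open Finset MeasureTheory
open Pool.Agent.DSRat

theorem PB_sz_pos (i : ℕ) : 0 < sz i := by
  unfold sz
  positivity

theorem PB_sz_half (i : ℕ) (hi : 1 ≤ i) : sz i ≤ 1 / 2 := by
  unfold sz
  calc (1 / 2 : ℝ) ^ i ≤ (1 / 2 : ℝ) ^ 1 :=
        pow_le_pow_of_le_one (by norm_num) (by norm_num) hi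
    _ = 1 / 2 := pow_one _

theorem PB_a_le {u v c0 : ℤ} (hd : Data u v c0) {q a b : ℕ} (hq : 0 < q) (haq : a ∣ q)
    (hab : Nat.Coprime a b) {p p' : ℤ} (hp : good u v c0 q p)
    (h : ((b : ℤ) * p - (a : ℤ) * p') * v + ((b : ℤ) - (a : ℤ)) * u = 0) : a ≤ 2 := by
  have h1 : (b : ℤ) * (p * v + u) = (a : ℤ) * (p' * v + u) := by linear_combination h
  have h2 : (a : ℤ) ∣ p * v + u := by
    have h3 : (a : ℤ) ∣ (b : ℤ) * (p * v + u) := ⟨_, h1⟩
    exact (Nat.isCoprime_iff_coprime.2 hab).dvd_of_dvd_mul_left h3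
  have haq' : (a : ℤ) ∣ (q : ℤ) := Int.natCast_dvd_natCast.2 haq
  by_cases hc : u % 2 = 1 ∧ v % 2 = 1 ∧ q % 2 = 0
  · obtain ⟨m, hm, hmq⟩ := (good_core hd hq hp).1 hc
    rw [hm] at h2
    have h4 : IsCoprime m (a : ℤ) := hmq.of_isCoprime_of_dvd_right haq'
    have h5 : (a : ℤ) ∣ 2 := h4.symm.dvd_of_dvd_mul_right h2
    have h6 : a ∣ 2 := by exact_mod_cast h5
    exact Nat.le_of_dvd (by norm_num) h6
  · have h4 := (good_core hd hq hp).2 hc
    have h5 : IsCoprime (a : ℤ) (a : ℤ) :=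
      (h4.of_isCoprime_of_dvd_left h2).of_isCoprime_of_dvd_right haq'
    have h6 : a ∣ 1 := by
      have h7 := Nat.isCoprime_iff_coprime.1 h5
      rw [Nat.coprime_self] at h7
      rw [h7]
    exact (Nat.le_of_dvd (by norm_num) h6).trans (by norm_num)

theorem PB_level {ρ : ℝ} {j : ℕ} (hj : 1 ≤ j) (h1 : ρ < 1 / 2) (h2 : sz j ≤ ρ) :
    ∃ l, 1 ≤ l ∧ l ≤ j - 1 ∧ sz (l + 1) ≤ ρ ∧ ρ < sz l := by
  classical
  have hex : ∃ l, sz (l + 1) ≤ ρ := ⟨j - 1, by rw [Nat.sub_add_cancel hj]; exact h2⟩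
  have hl1 : 1 ≤ Nat.find hex := by
    by_contra h
    have h3 : Nat.find hex = 0 := by omega
    have h4 := Nat.find_spec hex
    rw [h3] at h4
    unfold sz at h4
    norm_num at h4
    linarith
  refine ⟨Nat.find hex, hl1, Nat.find_min' hex (by rw [Nat.sub_add_cancel hj]; exact h2),
    Nat.find_spec hex, ?_⟩
  have h5 := Nat.find_min hex (m := Nat.find hex - 1) (by omega)
  rw [Nat.sub_add_cancel hl1] at h5
  exact lt_of_not_ge h5

theorem PB_lt {a j l : ℕ} (hl : l ≤ j) (h : (a : ℝ) * sz j < sz l) : a ≤ 2 ^ (j - l) := by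
  have h1 : (a : ℝ) < 2 ^ (j - l) := by
    have h2 : sz l = 2 ^ (j - l) * sz j := by
      unfold sz
      rw [one_div_pow, one_div_pow, one_div, one_div, eq_mul_inv_iff_mul_eq₀ (by positivity),
        inv_mul_eq_iff_eq_mul₀ (by positivity), ← pow_add]
      congr 1
      omega
    rw [h2] at h
    exact lt_of_mul_lt_mul_right h (PB_sz_pos j).le
  have h3 : a < 2 ^ (j - l) := by exact_mod_cast h1
  exact h3.le

open Classical in
theorem pair_bound (γ : ℝ) (U V C : ℕ → ℤ) (hD : DirData γ U V C) (lev : ℕ → ℕ) (q r : ℕ)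
    (hq : 0 < q) (hr : 0 < r) (hne : q ≠ r) (hr3 : 3 ≤ lev r) (hqr : lev r ≤ lev q) :
    volume (Set.Icc (0 : ℝ) 1 ∩
      (Gset γ (U (lev q)) (V (lev q)) (C (lev q)) (sz (lev q)) q ∩
       Gset γ (U (lev r)) (V (lev r)) (C (lev r)) (sz (lev r)) r)) ≤
    ENNReal.ofReal (64 * sz (lev q) * sz (lev r) +
      (if q / Nat.gcd q r ≤ 2 then 8 * sz (lev r) * (Nat.gcd q r : ℝ) / r else 0) +
      ∑ l ∈ Icc 1 (lev r - 1),
        (if (q / Nat.gcd q r, r / Nat.gcd q r) ∈ PP γ (U (lev q)) (V (lev q)) (lev q) (lev r) l ∧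
            rho lev q r < 1 / 2 ∧ Near γ q r (rho lev q r)
          then 32 * 2 ^ l * sz (lev q) * sz (lev r) else 0)) := by
  have hδ := PB_sz_pos (lev q)
  have hδ' := PB_sz_pos (lev r)
  have hδh := PB_sz_half (lev q) (by omega)
  have hδh' := PB_sz_half (lev r) (by omega)
  have hg : 0 < Nat.gcd q r := Nat.gcd_pos_of_pos_left r hq
  have hgR : (0 : ℝ) < (Nat.gcd q r : ℝ) := by exact_mod_cast hg
  have hqR : (0 : ℝ) < q := by exact_mod_cast hq
  have hrR : (0 : ℝ) < r := by exact_mod_cast hr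
  have n1 : 0 ≤ 64 * sz (lev q) * sz (lev r) := by positivity
  have n2 : 0 ≤ (if q / Nat.gcd q r ≤ 2 then 8 * sz (lev r) * (Nat.gcd q r : ℝ) / r else 0) := by
    split_ifs
    · positivity
    · exact le_rfl
  have n3 : ∀ l ∈ Icc 1 (lev r - 1), 0 ≤
        (if (q / Nat.gcd q r, r / Nat.gcd q r) ∈ PP γ (U (lev q)) (V (lev q)) (lev q) (lev r) l ∧
            rho lev q r < 1 / 2 ∧ Near γ q r (rho lev q r)
          then 32 * 2 ^ l * sz (lev q) * sz (lev r) else 0) := by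
    intro l _
    split_ifs
    · positivity
    · exact le_rfl
  have n4 := Finset.sum_nonneg n3
  by_cases hρ : 1 / 2 ≤ rho lev q r
  · refine (ov_many γ _ _ _ _ _ _ hδ hδh hδ' hδh' hq hr hρ).trans (ENNReal.ofReal_le_ofReal ?_)
    linarith
  push Not at hρ
  have hone := ov_one γ (U (lev q)) (V (lev q)) (C (lev q)) (U (lev r)) (V (lev r)) (C (lev r))
    hδ hδh hδ' hδh' hq hr hρ
  rcases Set.eq_empty_or_nonempty (Set.Icc (0 : ℝ) 1 ∩
      (Gset γ (U (lev q)) (V (lev q)) (C (lev q)) (sz (lev q)) q ∩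
       Gset γ (U (lev r)) (V (lev r)) (C (lev r)) (sz (lev r)) r)) with he | ⟨x, hx⟩
  · rw [he, measure_empty]
    exact zero_le
  obtain ⟨p, p', hp, hp', hn⟩ := ov_witness hq hr hx.2
  have hab : Nat.Coprime (q / Nat.gcd q r) (r / Nat.gcd q r) := Nat.coprime_div_gcd_div_gcd hg
  have ha : ((q / Nat.gcd q r : ℕ) : ℝ) = (q : ℝ) / (Nat.gcd q r : ℝ) :=
    Nat.cast_div (Nat.gcd_dvd_left q r) hgR.ne'
  have hb : ((r / Nat.gcd q r : ℕ) : ℝ) = (r : ℝ) / (Nat.gcd q r : ℝ) :=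
    Nat.cast_div (Nat.gcd_dvd_right q r) hgR.ne'
  have hnear : Near γ q r (rho lev q r) := by
    refine ⟨((r / Nat.gcd q r : ℕ) : ℤ) * p - ((q / Nat.gcd q r : ℕ) : ℤ) * p', ?_⟩
    have h1 : ((r : ℝ) - (q : ℝ)) / (Nat.gcd q r : ℝ) =
        ((r / Nat.gcd q r : ℕ) : ℝ) - ((q / Nat.gcd q r : ℕ) : ℝ) := by
      rw [ha, hb]
      ring
    rw [h1]
    exact hn
  have hrho : rho lev q r = ((r / Nat.gcd q r : ℕ) : ℝ) * sz (lev q) +
      ((q / Nat.gcd q r : ℕ) : ℝ) * sz (lev r) := by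
    unfold rho
    rw [ha, hb]
    ring
  obtain ⟨a, had⟩ : ∃ a : ℕ, a = q / Nat.gcd q r := ⟨_, rfl⟩
  obtain ⟨b, hbd⟩ : ∃ b : ℕ, b = r / Nat.gcd q r := ⟨_, rfl⟩
  have hq' : q = a * Nat.gcd q r := by
    rw [had, Nat.div_mul_cancel (Nat.gcd_dvd_left q r)]
  have hr' : r = b * Nat.gcd q r := by
    rw [hbd, Nat.div_mul_cancel (Nat.gcd_dvd_right q r)]
  have ha1 : 1 ≤ a := by
    rcases Nat.eq_zero_or_pos a with h0 | h0
    · rw [h0, zero_mul] at hq'
      omega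
    · exact h0
  have hb1 : 1 ≤ b := by
    rcases Nat.eq_zero_or_pos b with h0 | h0
    · rw [h0, zero_mul] at hr'
      omega
    · exact h0
  by_cases hz : (((r / Nat.gcd q r : ℕ) : ℤ) * p - ((q / Nat.gcd q r : ℕ) : ℤ) * p') * V (lev q) +
      (((r / Nat.gcd q r : ℕ) : ℤ) - ((q / Nat.gcd q r : ℕ) : ℤ)) * U (lev q) = 0
  · have ha2 := PB_a_le (hD.dat (lev q)) hq (Nat.div_dvd_of_dvd (Nat.gcd_dvd_left q r)) hab hp hz
    refine hone.2.trans (ENNReal.ofReal_le_ofReal ?_)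
    rw [if_pos ha2]
    linarith
  · have haR : (1 : ℝ) ≤ ((q / Nat.gcd q r : ℕ) : ℝ) := by
      rw [← had]
      exact_mod_cast ha1
    have hbR : (1 : ℝ) ≤ ((r / Nat.gcd q r : ℕ) : ℝ) := by
      rw [← hbd]
      exact_mod_cast hb1
    have h3 : sz (lev r) ≤ rho lev q r := by
      rw [hrho]
      nlinarith
    obtain ⟨l, hl1, hl2, hl3, hl4⟩ := PB_level (by omega) hρ h3
    have h4 : ((q / Nat.gcd q r : ℕ) : ℝ) * sz (lev r) < sz l := by
      have h5 : 0 ≤ ((r / Nat.gcd q r : ℕ) : ℝ) * sz (lev q) := by positivity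
      linarith
    have h5 : ((r / Nat.gcd q r : ℕ) : ℝ) * sz (lev q) < sz l := by
      have h6 : 0 ≤ ((q / Nat.gcd q r : ℕ) : ℝ) * sz (lev r) := by positivity
      linarith
    have hPP : (q / Nat.gcd q r, r / Nat.gcd q r) ∈
        PP γ (U (lev q)) (V (lev q)) (lev q) (lev r) l := by
      unfold PP
      rw [Finset.mem_filter, Finset.mem_product, Finset.mem_Icc, Finset.mem_Icc]
      refine ⟨⟨⟨by rw [← had]; exact ha1, PB_lt (by omega) h4⟩,
        ⟨by rw [← hbd]; exact hb1, PB_lt (by omega) h5⟩⟩, hab, ?_, ?_⟩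
      · intro h
        apply hne
        have h6 : a = b := by rw [had, hbd]; exact h
        calc q = a * Nat.gcd q r := hq'
          _ = b * Nat.gcd q r := by rw [h6]
          _ = r := hr'.symm
      · exact ⟨_, lt_trans hn hl4, hz⟩
    have hterm : 16 * sz (lev q) * sz (lev r) / rho lev q r ≤
        (if (q / Nat.gcd q r, r / Nat.gcd q r) ∈ PP γ (U (lev q)) (V (lev q)) (lev q) (lev r) l ∧
            rho lev q r < 1 / 2 ∧ Near γ q r (rho lev q r)
          then 32 * 2 ^ l * sz (lev q) * sz (lev r) else 0) := by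
      rw [if_pos ⟨hPP, hρ, hnear⟩, div_le_iff₀ (lt_of_lt_of_le hδ' h3)]
      have h6 : (1 : ℝ) = 2 ^ (l + 1) * sz (l + 1) := by
        unfold sz
        rw [← mul_pow]
        norm_num
      have h7 : (1 : ℝ) ≤ 2 ^ (l + 1) * rho lev q r := by
        rw [h6]
        exact mul_le_mul_of_nonneg_left hl3 (by positivity)
      have h8 : 0 ≤ 16 * sz (lev q) * sz (lev r) := by positivity
      calc 16 * sz (lev q) * sz (lev r) = 16 * sz (lev q) * sz (lev r) * 1 := by ring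
        _ ≤ 16 * sz (lev q) * sz (lev r) * (2 ^ (l + 1) * rho lev q r) :=
            mul_le_mul_of_nonneg_left h7 h8
        _ = 32 * 2 ^ l * sz (lev q) * sz (lev r) * rho lev q r := by
            rw [pow_succ]
            ring
    have hsum := Finset.single_le_sum n3 (Finset.mem_Icc.2 ⟨hl1, hl2⟩)
    refine hone.1.trans (ENNReal.ofReal_le_ofReal ?_)
    refine (hterm.trans hsum).trans ?_
    linarith

end Pool.Agent.H2D
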