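import Mathlib
import Pool.Agent.Lib.H2D.Defs

set_option autoImplicit false

/-!
# H2D chunk B9: a real inequality on level sums; the measure of one set

* `level_sum`: `∑_l z^l ≤ 1/(1-z)`, `(F_i F_j)^(9/16) ≤ F_i^(9/8) + F_j^(9/8)`, and
  `∑_{j ≤ i} x^(i-j) (F_i^(9/8) + F_j^(9/8)) ≤ 2/(1-x) ∑_i F_i^(9/8)`, `F_i^(9/8) ≤ F_i Ψ^(1/8) ≤ F_i Ψ` (`Ψ = ∑ F_i ≥ 1`).
* `diag_gset`: copy `diag_bound` of DSRat.Meas (real `γ`).
-/

namespace Pool.Agent.H2D

open Finset MeasureTheory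
open Pool.Agent.DSRat

theorem SUa_geo (x : ℝ) (hx0 : 0 ≤ x) (hx1 : x < 1) (m : ℕ) :
    ∑ i ∈ range m, x ^ i ≤ 1 / (1 - x) := by
  have h1 := (summable_geometric_of_lt_one hx0 hx1).sum_le_tsum (range m)
    (fun i _ => pow_nonneg hx0 i)
  rw [tsum_geometric_of_lt_one hx0 hx1] at h1
  rw [one_div]
  exact h1

theorem SUa_pow (a b P : ℝ) (ha : 0 ≤ a) (hb : 0 ≤ b) (haP : a ≤ P) (hbP : b ≤ P) (hP : 1 ≤ P) :
    (a * b) ^ (9 / 16 : ℝ) ≤ a * P + b * P := by
  have h1 : ∀ c : ℝ, 0 ≤ c → c ≤ P → c ^ (9 / 8 : ℝ) ≤ c * P := by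
    intro c hc hcP
    rcases eq_or_lt_of_le hc with h0 | h0
    · rw [← h0, Real.zero_rpow (by norm_num), zero_mul]
    · have h2 : (9 / 8 : ℝ) = 1 + 1 / 8 := by norm_num
      rw [h2, Real.rpow_add h0, Real.rpow_one]
      apply mul_le_mul_of_nonneg_left _ hc
      calc c ^ (1 / 8 : ℝ) ≤ P ^ (1 / 8 : ℝ) := Real.rpow_le_rpow hc hcP (by norm_num)
        _ ≤ P ^ (1 : ℝ) := Real.rpow_le_rpow_of_exponent_le hP (by norm_num)
        _ = P := Real.rpow_one P
  have h3 : ∀ c : ℝ, 0 ≤ c → (c * c) ^ (9 / 16 : ℝ) = c ^ (9 / 8 : ℝ) := by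
    intro c hc
    rw [← pow_two, ← Real.rpow_natCast, ← Real.rpow_mul hc]
    norm_num
  rcases le_total a b with h | h
  · calc (a * b) ^ (9 / 16 : ℝ) ≤ (b * b) ^ (9 / 16 : ℝ) :=
          Real.rpow_le_rpow (mul_nonneg ha hb) (mul_le_mul_of_nonneg_right h hb) (by norm_num)
      _ = b ^ (9 / 8 : ℝ) := h3 b hb
      _ ≤ b * P := h1 b hb hbP
      _ ≤ a * P + b * P := by
          have : 0 ≤ a * P := mul_nonneg ha (by linarith)
          linarith
  · calc (a * b) ^ (9 / 16 : ℝ) ≤ (a * a) ^ (9 / 16 : ℝ) :=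
          Real.rpow_le_rpow (mul_nonneg ha hb) (mul_le_mul_of_nonneg_left h ha) (by norm_num)
      _ = a ^ (9 / 8 : ℝ) := h3 a ha
      _ ≤ a * P := h1 a ha haP
      _ ≤ a * P + b * P := by
          have : 0 ≤ b * P := mul_nonneg hb (by linarith)
          linarith

theorem level_sum (x z : ℝ) (hx0 : 0 ≤ x) (hx1 : x < 1) (hz0 : 0 ≤ z) (hz1 : z < 1) (n : ℕ)
    (F : ℕ → ℝ) (hF : ∀ i, 0 ≤ F i) (h1 : 1 ≤ ∑ i ∈ range n, F i) :
    ∑ i ∈ range n, ∑ j ∈ range (i + 1), ∑ l ∈ Icc 1 (j - 1),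
      x ^ (i - j) * z ^ l * (F i * F j) ^ (9 / 16 : ℝ) ≤
      2 / ((1 - x) * (1 - z)) * (∑ i ∈ range n, F i) ^ 2 := by
  set P : ℝ := ∑ i ∈ range n, F i with hP
  have hx : 0 < 1 - x := by linarith
  have hz : 0 < 1 - z := by linarith
  have hFP : ∀ i ∈ range n, F i ≤ P := fun i hi =>
    Finset.single_le_sum (f := F) (fun j _ => hF j) hi
  have s1 : ∀ i ∈ range n, ∀ j ∈ range (i + 1),
      ∑ l ∈ Icc 1 (j - 1), x ^ (i - j) * z ^ l * (F i * F j) ^ (9 / 16 : ℝ) ≤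
        1 / (1 - z) * (P * (x ^ (i - j) * F i) + P * (x ^ (i - j) * F j)) := by
    intro i hi j hj
    have hj' : j ∈ range n := by
      have h2 := Finset.mem_range.1 hi
      have h3 := Finset.mem_range.1 hj
      exact Finset.mem_range.2 (by omega)
    have h4 : ∑ l ∈ Icc 1 (j - 1), z ^ l ≤ 1 / (1 - z) := by
      refine le_trans ?_ (SUa_geo z hz0 hz1 (j + 1))
      apply Finset.sum_le_sum_of_subset_of_nonneg
      · intro l hl
        have := Finset.mem_Icc.1 hl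
        exact Finset.mem_range.2 (by omega)
      · intro l _ _
        exact pow_nonneg hz0 l
    have h5 : ∑ l ∈ Icc 1 (j - 1), x ^ (i - j) * z ^ l * (F i * F j) ^ (9 / 16 : ℝ) =
        (∑ l ∈ Icc 1 (j - 1), z ^ l) * (x ^ (i - j) * (F i * F j) ^ (9 / 16 : ℝ)) := by
      rw [Finset.sum_mul]
      refine Finset.sum_congr rfl fun l _ => ?_
      ring
    rw [h5]
    have h6 := SUa_pow (F i) (F j) P (hF i) (hF j) (hFP i hi) (hFP j hj') h1
    have h7 : 0 ≤ x ^ (i - j) := pow_nonneg hx0 _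
    have h8 : 0 ≤ (F i * F j) ^ (9 / 16 : ℝ) := Real.rpow_nonneg (mul_nonneg (hF i) (hF j)) _
    refine mul_le_mul h4 ?_ (mul_nonneg h7 h8) (by positivity)
    calc x ^ (i - j) * (F i * F j) ^ (9 / 16 : ℝ) ≤ x ^ (i - j) * (F i * P + F j * P) :=
          mul_le_mul_of_nonneg_left h6 h7
      _ = P * (x ^ (i - j) * F i) + P * (x ^ (i - j) * F j) := by ring
  have s2 : ∑ i ∈ range n, ∑ j ∈ range (i + 1), x ^ (i - j) * F i ≤ 1 / (1 - x) * P := by
    rw [hP, Finset.mul_sum]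
    refine Finset.sum_le_sum fun i _ => ?_
    rw [← Finset.sum_mul]
    apply mul_le_mul_of_nonneg_right _ (hF i)
    have h2 : ∑ j ∈ range (i + 1), x ^ (i - j) = ∑ j ∈ range (i + 1), x ^ j := by
      rw [← Finset.sum_range_reflect]
      refine Finset.sum_congr rfl fun j hj => ?_
      congr 1
      have := Finset.mem_range.1 hj
      omega
    rw [h2]
    exact SUa_geo x hx0 hx1 _
  have s3 : ∑ i ∈ range n, ∑ j ∈ range (i + 1), x ^ (i - j) * F j ≤ 1 / (1 - x) * P := by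
    rw [Finset.sum_comm' (s' := fun j => Finset.Ico j n) (t' := range n) (by
      intro a b
      simp only [Finset.mem_range, Finset.mem_Ico]
      omega)]
    rw [hP, Finset.mul_sum]
    refine Finset.sum_le_sum fun j _ => ?_
    rw [← Finset.sum_mul]
    apply mul_le_mul_of_nonneg_right _ (hF j)
    rw [Finset.sum_Ico_eq_sum_range]
    refine le_trans (le_of_eq ?_) (SUa_geo x hx0 hx1 (n - j))
    refine Finset.sum_congr rfl fun m _ => ?_
    congr 1
    omega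
  have hP0 : 0 ≤ P := by linarith
  calc ∑ i ∈ range n, ∑ j ∈ range (i + 1), ∑ l ∈ Icc 1 (j - 1),
      x ^ (i - j) * z ^ l * (F i * F j) ^ (9 / 16 : ℝ)
      ≤ ∑ i ∈ range n, ∑ j ∈ range (i + 1),
        1 / (1 - z) * (P * (x ^ (i - j) * F i) + P * (x ^ (i - j) * F j)) :=
        Finset.sum_le_sum fun i hi => Finset.sum_le_sum fun j hj => s1 i hi j hj
    _ = 1 / (1 - z) * (P * ∑ i ∈ range n, ∑ j ∈ range (i + 1), x ^ (i - j) * F i +
          P * ∑ i ∈ range n, ∑ j ∈ range (i + 1), x ^ (i - j) * F j) := by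
        simp only [Finset.mul_sum, ← Finset.sum_add_distrib, mul_add]
    _ ≤ 1 / (1 - z) * (P * (1 / (1 - x) * P) + P * (1 / (1 - x) * P)) := by
        apply mul_le_mul_of_nonneg_left _ (by positivity)
        exact add_le_add (mul_le_mul_of_nonneg_left s2 hP0) (mul_le_mul_of_nonneg_left s3 hP0)
    _ = 2 / ((1 - x) * (1 - z)) * P ^ 2 := by
        field_simp
        ring

theorem diag_gset (γ : ℝ) (u v c0 : ℤ) {δ : ℝ} (h0 : 0 < δ) (hδ : δ ≤ 1 / 2) {q : ℕ}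
    (hq : 0 < q) : volume (Set.Icc (0 : ℝ) 1 ∩ Gset γ u v c0 δ q) ≤ ENNReal.ofReal (6 * δ) := by
  have hsub : Set.Icc (0 : ℝ) 1 ∩ Gset γ u v c0 δ q ⊆
      ⋃ p ∈ window γ q, Iset γ δ q p := by
    rintro x ⟨hx, p, _, hp⟩
    simp only [Set.mem_iUnion, exists_prop]
    exact ⟨p, mem_window_of_mem hδ hx hp, hp⟩
  calc volume (Set.Icc (0 : ℝ) 1 ∩ Gset γ u v c0 δ q)
      ≤ volume (⋃ p ∈ window γ q, Iset γ δ q p) := measure_mono hsub
    _ ≤ ∑ p ∈ window γ q, volume (Iset γ δ q p) :=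
        measure_biUnion_finset_le _ _
    _ = ∑ p ∈ window γ q, ENNReal.ofReal (2 * δ / q) := by
        apply Finset.sum_congr rfl
        intro p _
        exact Iset_volume _ _ _ hq _
    _ = ENNReal.ofReal ((q + 2) * (2 * δ / q)) := by
        rw [Finset.sum_const, window_card, nsmul_eq_mul, ENNReal.ofReal_mul (by positivity)]
        congr 1
        rw [ENNReal.ofReal_add (by positivity) (by norm_num)]
        simp
    _ ≤ ENNReal.ofReal (6 * δ) := by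
        apply ENNReal.ofReal_le_ofReal
        have hqR : (1 : ℝ) ≤ q := by exact_mod_cast hq
        rw [← mul_div_assoc, div_le_iff₀ (by linarith)]
        nlinarith

end Pool.Agent.H2D
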