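import Mathlib
import Pool.Agent.Lib.H2D.Defs
import Pool.Agent.Lib.H2D.PB
import Pool.Agent.Lib.H2D.EX
import Pool.Agent.Lib.H2D.GE
import Pool.Agent.Lib.H2D.SUa

set_option autoImplicit false

/-!
# H2D chunk B10: the second moment of a block

`G q = Gset γ (U (lev q)) (V (lev q)) (C (lev q)) (sz (lev q)) q`, `Ψ = ∑_{q ∈ B} sz (lev q) ≥ 1`,
`ν = volume.restrict (Icc 0 1)`. Sum over `(q, r) ∈ B × B`:
* diagonal: `diag_gset` (SUa): `ν(G q) ≤ 6 sz (lev q)`, total `≤ 6 Ψ`;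
* `q ≠ r`: by symmetry (`ν (G q ∩ G r)` symmetric) at most twice the sum over `lev r ≤ lev q`, `q ≠ r`; `pair_bound`:
  - first term: `64 Ψ²`;
  - second: `∑_r 8 sz (lev r) ∑_{q} [..] gcd/r ≤ (16/η) Ψ` (`exceptional_sum`);
  - third: split `B` into levels `B_i = {q ∈ B : lev q = i}`; the `Imb` hypothesis turns the conditions `rho < 1/2`, `Near` into the
    disjunction of `generic_sum`; so it is at most `∑_{i ≥ j} ∑_{1 ≤ l < j} C1 x^(i-j) z^l (F_i F_j)^(9/16)`, `F_i = sz i |B_i|`,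
    `x = 2^(-3κ/16) < 1`, `z = 2^(-1/8) < 1`: `level_sum` (SUa).
-/

namespace Pool.Agent.H2D

open Finset MeasureTheory
open Pool.Agent.DSRat

theorem su_sz_pos (i : ℕ) : 0 < sz i := by
  unfold sz; positivity

open Classical in
/-- the condition of the generic term -/
def SuCond (γ : ℝ) (U V : ℕ → ℤ) (lev : ℕ → ℕ) (q r l : ℕ) : Prop :=
  (q / Nat.gcd q r, r / Nat.gcd q r) ∈ PP γ (U (lev q)) (V (lev q)) (lev q) (lev r) l ∧
    rho lev q r < 1 / 2 ∧ Near γ q r (rho lev q r)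

open Classical in
/-- the generic term -/
noncomputable def suGen (γ : ℝ) (U V : ℕ → ℤ) (lev : ℕ → ℕ) (q r : ℕ) : ℝ :=
  ∑ l ∈ Icc 1 (lev r - 1),
    (if SuCond γ U V lev q r l then 32 * 2 ^ l * sz (lev q) * sz (lev r) else 0)

/-- the exceptional term -/
noncomputable def suEx (lev : ℕ → ℕ) (q r : ℕ) : ℝ :=
  if q / Nat.gcd q r ≤ 2 then 8 * sz (lev r) * (Nat.gcd q r : ℝ) / r else 0

theorem suGen_nonneg (γ : ℝ) (U V : ℕ → ℤ) (lev : ℕ → ℕ) (q r : ℕ) :
    0 ≤ suGen γ U V lev q r := by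
  classical
  unfold suGen
  refine Finset.sum_nonneg fun l _ => ?_
  have := su_sz_pos (lev q)
  have := su_sz_pos (lev r)
  split_ifs <;> positivity

theorem suEx_nonneg (lev : ℕ → ℕ) (q r : ℕ) : 0 ≤ suEx lev q r := by
  unfold suEx
  have := su_sz_pos (lev r)
  split_ifs <;> positivity

theorem su_restrict (s : Set ℝ) (b : ℝ) (hb : 0 ≤ b)
    (h : volume (Set.Icc (0 : ℝ) 1 ∩ s) ≤ ENNReal.ofReal b) :
    (volume.restrict (Set.Icc (0 : ℝ) 1)).real s ≤ b := by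
  unfold Measure.real
  rw [Measure.restrict_apply' measurableSet_Icc, Set.inter_comm]
  exact ENNReal.toReal_le_of_le_ofReal hb h

/-- the exceptional sum -/
theorem su_ex_sum (η : ℝ) (hη : 0 < η) (lev : ℕ → ℕ) (B : Finset ℕ)
    (hB : ∀ q ∈ B, 0 < q ∧ 3 ≤ lev q ∧ η ≤ (Nat.totient q : ℝ) / q) :
    ∑ q ∈ B, ∑ r ∈ B, suEx lev q r ≤ 16 / η * ∑ q ∈ B, sz (lev q) := by
  rw [Finset.sum_comm, Finset.mul_sum]
  refine Finset.sum_le_sum fun r hr => ?_
  have h1 := exceptional_sum η hη B (fun q hq => (hB q hq).1) r (hB r hr).1 (hB r hr).2.2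
  have hz := su_sz_pos (lev r)
  calc ∑ q ∈ B, suEx lev q r
      = ∑ q ∈ B.filter (fun q => q / Nat.gcd q r ≤ 2), 8 * sz (lev r) * ((Nat.gcd q r : ℝ) / r) := by
        rw [Finset.sum_filter]
        refine Finset.sum_congr rfl fun q _ => ?_
        unfold suEx
        split_ifs
        · ring
        · rfl
    _ = 8 * sz (lev r) * ∑ q ∈ B.filter (fun q => q / Nat.gcd q r ≤ 2), (Nat.gcd q r : ℝ) / r := by
        rw [Finset.mul_sum]
    _ ≤ 8 * sz (lev r) * (2 / η) := mul_le_mul_of_nonneg_left h1 (by positivity)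
    _ = 16 / η * sz (lev r) := by ring

/-- the generic sum -/
theorem su_gen_sum {γ : ℝ} {U V : ℕ → ℤ} (η : ℝ) (κ K C1 : ℝ) (hκ : 0 < κ) (hC1 : 0 < C1)
    (hgen : ∀ i j l : ℕ, 1 ≤ l → l < j → j ≤ i → ∀ S T : Finset ℕ,
      (∀ n ∈ S, 0 < n ∧ η ≤ (Nat.totient n : ℝ) / n) →
      (∀ n ∈ T, 0 < n ∧ η ≤ (Nat.totient n : ℝ) / n) →
      32 * 2 ^ l * sz i * sz j *
        (((S ×ˢ T).filter (fun x : ℕ × ℕ =>
          (x.1 / Nat.gcd x.1 x.2, x.2 / Nat.gcd x.1 x.2) ∈ PP γ (U i) (V i) i j l ∧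
          (((2 : ℝ) ^ (i - j)) ^ κ * ((x.2 : ℝ) * sz i) ≤ K * ((x.1 : ℝ) * sz j) ∨
           ((2 : ℝ) ^ (i - j)) ^ κ * ((x.1 : ℝ) * sz j) ≤ K * ((x.2 : ℝ) * sz i)))).card : ℝ) ≤
      C1 * ((2 : ℝ) ^ (-(3 * κ / 16))) ^ (i - j) * ((2 : ℝ) ^ (-(1 / 8 : ℝ))) ^ l *
        ((sz i * S.card) * (sz j * T.card)) ^ (9 / 16 : ℝ))
    (lev : ℕ → ℕ) (B : Finset ℕ)
    (hB : ∀ q ∈ B, 0 < q ∧ 3 ≤ lev q ∧ η ≤ (Nat.totient q : ℝ) / q)
    (himb : Imb γ κ K lev B) (h1 : 1 ≤ ∑ q ∈ B, sz (lev q)) :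
    ∑ q ∈ B, ∑ r ∈ B, (if q ≠ r ∧ lev r ≤ lev q then suGen γ U V lev q r else 0) ≤
      C1 * (2 / ((1 - (2 : ℝ) ^ (-(3 * κ / 16))) * (1 - (2 : ℝ) ^ (-(1 / 8 : ℝ))))) *
        (∑ q ∈ B, sz (lev q)) ^ 2 := by
  classical
  set n : ℕ := B.sup lev + 1 with hn
  set Bi : ℕ → Finset ℕ := fun i => B.filter (fun q => lev q = i) with hBi
  set F : ℕ → ℝ := fun i => sz i * ((Bi i).card : ℝ) with hF
  have hlt : ∀ q ∈ B, lev q < n := fun q hq => Nat.lt_succ_of_le (Finset.le_sup (f := lev) hq)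
  have hmem : ∀ i q, q ∈ Bi i ↔ q ∈ B ∧ lev q = i := fun i q => by simp [hBi]
  have hFsum : ∑ i ∈ range n, F i = ∑ q ∈ B, sz (lev q) := by
    rw [← Finset.sum_fiberwise_of_maps_to (s := B) (t := range n) (g := lev)
      (fun q hq => Finset.mem_range.2 (hlt q hq))]
    refine Finset.sum_congr rfl fun i _ => ?_
    rw [Finset.sum_congr rfl (g := fun _ => sz i) (fun q hq => by rw [((hmem i q).1 hq).2])]
    rw [Finset.sum_const, nsmul_eq_mul, mul_comm]
  have hx0 : (0 : ℝ) ≤ (2 : ℝ) ^ (-(3 * κ / 16)) := by positivity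
  have hx1 : (2 : ℝ) ^ (-(3 * κ / 16)) < 1 :=
    Real.rpow_lt_one_of_one_lt_of_neg (by norm_num) (by linarith)
  have hz0 : (0 : ℝ) ≤ (2 : ℝ) ^ (-(1 / 8 : ℝ)) := by positivity
  have hz1 : (2 : ℝ) ^ (-(1 / 8 : ℝ)) < 1 :=
    Real.rpow_lt_one_of_one_lt_of_neg (by norm_num) (by norm_num)
  have hlevel := level_sum ((2 : ℝ) ^ (-(3 * κ / 16))) ((2 : ℝ) ^ (-(1 / 8 : ℝ))) hx0 hx1 hz0 hz1
    n F (fun i => mul_nonneg (su_sz_pos i).le (Nat.cast_nonneg _)) (by rw [hFsum]; exact h1)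
  rw [hFsum] at hlevel
  -- the main estimate
  have hmain : ∑ q ∈ B, ∑ r ∈ B, (if q ≠ r ∧ lev r ≤ lev q then suGen γ U V lev q r else 0) ≤
      ∑ i ∈ range n, ∑ j ∈ range (i + 1), ∑ l ∈ Icc 1 (j - 1),
        C1 * (((2 : ℝ) ^ (-(3 * κ / 16))) ^ (i - j) * ((2 : ℝ) ^ (-(1 / 8 : ℝ))) ^ l *
          (F i * F j) ^ (9 / 16 : ℝ)) := by
    rw [← Finset.sum_fiberwise_of_maps_to (s := B) (t := range n) (g := lev)
      (fun q hq => Finset.mem_range.2 (hlt q hq))]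
    refine Finset.sum_le_sum fun i _ => ?_
    have e1 : ∀ q ∈ Bi i, ∑ r ∈ B, (if q ≠ r ∧ lev r ≤ lev q then suGen γ U V lev q r else 0) =
        ∑ j ∈ range (i + 1), ∑ r ∈ Bi j, (if q ≠ r then suGen γ U V lev q r else 0) := by
      intro q hq
      have hqi := ((hmem i q).1 hq).2
      have e2 : ∑ r ∈ B, (if q ≠ r ∧ lev r ≤ lev q then suGen γ U V lev q r else 0) =
          ∑ r ∈ B.filter (fun r => lev r ≤ i), (if q ≠ r then suGen γ U V lev q r else 0) := by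
        rw [Finset.sum_filter]
        refine Finset.sum_congr rfl fun r _ => ?_
        rw [hqi]
        by_cases h3 : q ≠ r <;> by_cases h4 : lev r ≤ i <;> simp [h3, h4]
      rw [e2, ← Finset.sum_fiberwise_of_maps_to (s := B.filter (fun r => lev r ≤ i))
        (t := range (i + 1)) (g := lev)
        (fun r hr => Finset.mem_range.2 (Nat.lt_succ_of_le (Finset.mem_filter.1 hr).2))]
      refine Finset.sum_congr rfl fun j hj => ?_
      have hj' := Finset.mem_range.1 hj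
      refine Finset.sum_congr ?_ fun _ _ => rfl
      ext r
      rw [hmem, Finset.mem_filter, Finset.mem_filter]
      constructor
      · rintro ⟨⟨h5, -⟩, h6⟩
        exact ⟨h5, h6⟩
      · rintro ⟨h5, h6⟩
        exact ⟨⟨h5, by omega⟩, h6⟩
    rw [Finset.sum_congr rfl e1, Finset.sum_comm]
    refine Finset.sum_le_sum fun j hj => ?_
    have hj' : j ≤ i := Nat.lt_succ_iff.1 (Finset.mem_range.1 hj)
    have e3 : ∀ q ∈ Bi i, ∀ r ∈ Bi j, (if q ≠ r then suGen γ U V lev q r else 0) ≤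
        ∑ l ∈ Icc 1 (j - 1), (if ((q / Nat.gcd q r, r / Nat.gcd q r) ∈ PP γ (U i) (V i) i j l ∧
          (((2 : ℝ) ^ (i - j)) ^ κ * ((r : ℝ) * sz i) ≤ K * ((q : ℝ) * sz j) ∨
           ((2 : ℝ) ^ (i - j)) ^ κ * ((q : ℝ) * sz j) ≤ K * ((r : ℝ) * sz i))) then
            32 * 2 ^ l * sz i * sz j else 0) := by
      intro q hq r hr
      obtain ⟨hqB, hqi⟩ := (hmem i q).1 hq
      obtain ⟨hrB, hrj⟩ := (hmem j r).1 hr
      have hpos : ∀ l : ℕ, (0 : ℝ) ≤ 32 * 2 ^ l * sz i * sz j := fun l => by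
        have := su_sz_pos i
        have := su_sz_pos j
        positivity
      by_cases hqr : q = r
      · rw [if_neg (by simpa using hqr)]
        refine Finset.sum_nonneg fun l _ => ?_
        split_ifs
        · exact hpos l
        · exact le_rfl
      · rw [if_pos hqr]
        unfold suGen
        rw [hrj]
        refine Finset.sum_le_sum fun l _ => ?_
        by_cases hc : SuCond γ U V lev q r l
        · obtain ⟨hc1, hc2, hc3⟩ := hc
          have h6 := himb q hqB r hrB hqr (by rw [hqi, hrj]; exact hj') hc2 hc3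
          rw [hqi, hrj] at h6
          rw [hqi, hrj] at hc1
          rw [if_pos ⟨by rw [hqi, hrj]; exact hc1, hc2, hc3⟩, if_pos ⟨hc1, h6⟩, hqi]
        · rw [if_neg hc]
          split_ifs
          · exact hpos l
          · exact le_rfl
    refine (Finset.sum_le_sum fun q hq => Finset.sum_le_sum fun r hr => e3 q hq r hr).trans ?_
    have e4 : ∀ f : ℕ → ℕ → ℕ → ℝ, ∑ q ∈ Bi i, ∑ r ∈ Bi j, ∑ l ∈ Icc 1 (j - 1), f q r l =
        ∑ l ∈ Icc 1 (j - 1), ∑ x ∈ Bi i ×ˢ Bi j, f x.1 x.2 l := by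
      intro f
      rw [Finset.sum_comm' (s := Icc 1 (j - 1)) (t := fun _ => Bi i ×ˢ Bi j)
        (t' := Bi i ×ˢ Bi j) (s' := fun _ => Icc 1 (j - 1)) (by intros; tauto),
        Finset.sum_product]
    rw [e4]
    refine Finset.sum_le_sum fun l hl => ?_
    have hl' := Finset.mem_Icc.1 hl
    have h7 := hgen i j l hl'.1 (by omega) hj' (Bi i) (Bi j)
      (fun q hq => ⟨(hB q ((hmem i q).1 hq).1).1, (hB q ((hmem i q).1 hq).1).2.2⟩)
      (fun q hq => ⟨(hB q ((hmem j q).1 hq).1).1, (hB q ((hmem j q).1 hq).1).2.2⟩)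
    refine le_trans (le_of_eq ?_) (h7.trans (le_of_eq ?_))
    · rw [← Finset.sum_filter, Finset.sum_const, nsmul_eq_mul, mul_comm]
    · ring
  refine hmain.trans ?_
  simp only [← Finset.mul_sum]
  rw [mul_assoc]
  exact mul_le_mul_of_nonneg_left hlevel hC1.le

theorem block_bound {γ : ℝ} (hγ : Irrational γ) {U V C : ℕ → ℤ} (hD : DirData γ U V C)
    (η : ℝ) (hη : 0 < η) (κ K : ℝ) (hκ : 0 < κ) (hκ1 : κ ≤ 1) (hK : 1 ≤ K) :
    ∃ K1 : ℝ, 0 < K1 ∧ ∀ (lev : ℕ → ℕ) (B : Finset ℕ),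
      (∀ q ∈ B, 0 < q ∧ 3 ≤ lev q ∧ η ≤ (Nat.totient q : ℝ) / q) →
      Imb γ κ K lev B → 1 ≤ ∑ q ∈ B, sz (lev q) →
      ∑ q ∈ B, ∑ r ∈ B, (volume.restrict (Set.Icc (0 : ℝ) 1)).real
        (Gset γ (U (lev q)) (V (lev q)) (C (lev q)) (sz (lev q)) q ∩
         Gset γ (U (lev r)) (V (lev r)) (C (lev r)) (sz (lev r)) r) ≤
        K1 * (∑ q ∈ B, sz (lev q)) ^ 2 := by
  classical
  obtain ⟨C1, hC1, hgen⟩ := generic_sum hγ hD η hη κ K hκ hκ1 hK
  have hx1 : (2 : ℝ) ^ (-(3 * κ / 16)) < 1 :=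
    Real.rpow_lt_one_of_one_lt_of_neg (by norm_num) (by linarith)
  have hz1 : (2 : ℝ) ^ (-(1 / 8 : ℝ)) < 1 :=
    Real.rpow_lt_one_of_one_lt_of_neg (by norm_num) (by norm_num)
  set C2 : ℝ := C1 * (2 / ((1 - (2 : ℝ) ^ (-(3 * κ / 16))) * (1 - (2 : ℝ) ^ (-(1 / 8 : ℝ))))) with hC2
  have hC2' : 0 < C2 := mul_pos hC1 (div_pos two_pos (mul_pos (by linarith) (by linarith)))
  refine ⟨6 + 2 * (64 + 16 / η + C2), by positivity, ?_⟩
  intro lev B hB himb h1
  set Ψ : ℝ := ∑ q ∈ B, sz (lev q) with hΨ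
  set T : ℕ → ℕ → ℝ := fun q r => (volume.restrict (Set.Icc (0 : ℝ) 1)).real
        (Gset γ (U (lev q)) (V (lev q)) (C (lev q)) (sz (lev q)) q ∩
         Gset γ (U (lev r)) (V (lev r)) (C (lev r)) (sz (lev r)) r) with hT
  have hsymm : ∀ q r, T q r = T r q := fun q r => by simp only [hT]; rw [Set.inter_comm]
  set Bn : ℕ → ℕ → ℝ := fun q r => 64 * sz (lev q) * sz (lev r) + suEx lev q r +
    suGen γ U V lev q r with hBn
  have hBn0 : ∀ q r, 0 ≤ Bn q r := fun q r => by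
    have := su_sz_pos (lev q)
    have := su_sz_pos (lev r)
    have := suEx_nonneg lev q r
    have := suGen_nonneg γ U V lev q r
    simp only [hBn]
    positivity
  have hTB : ∀ q ∈ B, ∀ r ∈ B, q ≠ r → lev r ≤ lev q → T q r ≤ Bn q r := by
    intro q hq r hr hqr hle
    refine su_restrict _ _ (hBn0 q r) ?_
    have h2 := pair_bound γ U V C hD lev q r (hB q hq).1 (hB r hr).1 hqr (hB r hr).2.1 hle
    refine h2.trans (le_of_eq (congrArg ENNReal.ofReal ?_))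
    show _ = 64 * sz (lev q) * sz (lev r) + suEx lev q r + suGen γ U V lev q r
    unfold suEx suGen
    congr 1
    refine Finset.sum_congr rfl fun l _ => ?_
    unfold SuCond
    congr
  have hTd : ∀ q ∈ B, T q q ≤ 6 * sz (lev q) := by
    intro q hq
    have hz := su_sz_pos (lev q)
    refine su_restrict _ _ (by positivity) ?_
    rw [Set.inter_self]
    refine diag_gset γ _ _ _ hz ?_ (hB q hq).1
    unfold sz
    calc (1 / 2 : ℝ) ^ lev q ≤ (1 / 2 : ℝ) ^ 1 :=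
          pow_le_pow_of_le_one (by norm_num) (by norm_num) (by have := (hB q hq).2.1; omega)
      _ = 1 / 2 := pow_one _
  have hpt : ∀ q ∈ B, ∀ r ∈ B, T q r ≤ (if q = r then 6 * sz (lev q) else 0) +
      ((if q ≠ r ∧ lev r ≤ lev q then Bn q r else 0) +
       (if r ≠ q ∧ lev q ≤ lev r then Bn r q else 0)) := by
    intro q hq r hr
    by_cases hqr : q = r
    · subst hqr
      have := hTd q hq
      simp only [if_true, ne_eq, not_true_eq_false, false_and, if_false]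
      linarith
    · rw [if_neg hqr, zero_add]
      rcases le_total (lev r) (lev q) with hle | hle
      · rw [if_pos ⟨hqr, hle⟩]
        have h3 := hTB q hq r hr hqr hle
        have h4 : 0 ≤ (if r ≠ q ∧ lev q ≤ lev r then Bn r q else 0) := by
          split_ifs
          · exact hBn0 r q
          · exact le_rfl
        linarith
      · rw [if_pos (c := r ≠ q ∧ lev q ≤ lev r) ⟨Ne.symm hqr, hle⟩]
        have h3 := hTB r hr q hq (Ne.symm hqr) hle
        rw [hsymm] at h3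
        have h4 : 0 ≤ (if q ≠ r ∧ lev r ≤ lev q then Bn q r else 0) := by
          split_ifs
          · exact hBn0 q r
          · exact le_rfl
        linarith
  have hS : ∑ q ∈ B, ∑ r ∈ B, (if q ≠ r ∧ lev r ≤ lev q then Bn q r else 0) ≤
      64 * Ψ ^ 2 + 16 / η * Ψ + C2 * Ψ ^ 2 := by
    have h5 : ∀ q r, (if q ≠ r ∧ lev r ≤ lev q then Bn q r else 0) ≤
        64 * sz (lev q) * sz (lev r) + suEx lev q r +
          (if q ≠ r ∧ lev r ≤ lev q then suGen γ U V lev q r else 0) := by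
      intro q r
      have := su_sz_pos (lev q)
      have := su_sz_pos (lev r)
      have := suEx_nonneg lev q r
      split_ifs
      · exact le_rfl
      · positivity
    refine (Finset.sum_le_sum fun q _ => Finset.sum_le_sum fun r _ => h5 q r).trans ?_
    simp only [Finset.sum_add_distrib]
    refine add_le_add (add_le_add (le_of_eq ?_) (su_ex_sum η hη lev B hB))
      (su_gen_sum η κ K C1 hκ hC1 hgen lev B hB himb h1)
    rw [sq, hΨ, Finset.sum_mul_sum, Finset.mul_sum]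
    refine Finset.sum_congr rfl fun q _ => ?_
    rw [Finset.mul_sum]
    refine Finset.sum_congr rfl fun r _ => ?_
    ring
  have hΨ1 : Ψ ≤ Ψ ^ 2 := by nlinarith
  calc ∑ q ∈ B, ∑ r ∈ B, T q r
      ≤ ∑ q ∈ B, ∑ r ∈ B, ((if q = r then 6 * sz (lev q) else 0) +
        ((if q ≠ r ∧ lev r ≤ lev q then Bn q r else 0) +
         (if r ≠ q ∧ lev q ≤ lev r then Bn r q else 0))) :=
        Finset.sum_le_sum fun q hq => Finset.sum_le_sum fun r hr => hpt q hq r hr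
    _ = 6 * Ψ + (∑ q ∈ B, ∑ r ∈ B, (if q ≠ r ∧ lev r ≤ lev q then Bn q r else 0) +
        ∑ q ∈ B, ∑ r ∈ B, (if q ≠ r ∧ lev r ≤ lev q then Bn q r else 0)) := by
        simp only [Finset.sum_add_distrib]
        congr 1
        · rw [hΨ, Finset.mul_sum]
          refine Finset.sum_congr rfl fun q hq => ?_
          rw [Finset.sum_ite_eq, if_pos hq]
        · congr 1
          rw [Finset.sum_comm]
    _ ≤ 6 * Ψ + ((64 * Ψ ^ 2 + 16 / η * Ψ + C2 * Ψ ^ 2) +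
        (64 * Ψ ^ 2 + 16 / η * Ψ + C2 * Ψ ^ 2)) := by linarith
    _ ≤ (6 + 2 * (64 + 16 / η + C2)) * Ψ ^ 2 := by
        have h6 : 16 / η * Ψ ≤ 16 / η * Ψ ^ 2 := mul_le_mul_of_nonneg_left hΨ1 (by positivity)
        nlinarith

end Pool.Agent.H2D
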