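import Mathlib
import Pool.Agent.Lib.H2D.Defs
import Pool.Agent.Lib.H2D.AP
import Pool.Agent.Lib.H2D.SU
import Pool.Agent.Lib.H2D.MS
import Pool.Agent.Lib.H2D.RD
import Pool.Agent.DSRat.Main

set_option autoImplicit false

/-!
# H2D chunk B15: the main theorem (assembly, proved from the chunks)
-/

namespace Pool.Agent.H2D

open Finset MeasureTheory Filter
open Pool.Agent.DSRat

theorem main (γ : ℝ) (hγ : Irrational γ) (ψ g : ℕ → ℝ) (hg : ∀ q, 0 ≤ g q)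
    (hgψ : ∀ q, g q ≤ ψ q) (η : ℝ) (hη : 0 < η)
    (hns : ¬ Summable (fun q : ℕ => if 0 < q ∧ η ≤ (Nat.totient q : ℝ) / q then g q else 0))
    (K τ : ℝ) (hK : 1 ≤ K) (hτ : 0 < τ) (hτ1 : τ < 1) (hgr : Growth γ g K τ) :
    volume {x : ℝ | x ∈ Set.Icc (0 : ℝ) 1 ∧
      ∃ᶠ q : ℕ in atTop, ∃ p : ℤ, Int.gcd p (q : ℤ) = 1 ∧
        |(q : ℝ) * x - (p : ℝ) - γ| < ψ q} = 1 := by
  classical
  obtain ⟨U, V, C, hD⟩ := exists_dirData γ
  obtain ⟨lev, f, hf, hfg, hphi, hnf, himb⟩ := reduction γ g hg η hns K τ hK hτ hτ1 hgr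
  have hK' : (1 : ℝ) ≤ (2 * K) ^ (1 / τ) := by
    apply Real.one_le_rpow (by linarith) (by positivity)
  obtain ⟨K1, hK1, hbb⟩ := block_bound hγ hD η hη (1 - τ) ((2 * K) ^ (1 / τ))
    (by linarith) (by linarith) hK'
  have hpos : ∀ q, 0 < f q → f q = sz (lev q) ∧ 0 < q ∧ 3 ≤ lev q := by
    intro q hq
    rcases hf q with h | h
    · rw [h] at hq; exact absurd hq (lt_irrefl _)
    · exact h
  have hsm : ∀ B : Finset ℕ, (∀ q ∈ B, 0 < f q) → 1 ≤ ∑ q ∈ B, f q →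
      ∑ q ∈ B, ∑ r ∈ B, (volume.restrict (Set.Icc (0 : ℝ) 1)).real
        (Gset γ (U (lev q)) (V (lev q)) (C (lev q)) (f q) q ∩
         Gset γ (U (lev r)) (V (lev r)) (C (lev r)) (f r) r) ≤ K1 * (∑ q ∈ B, f q) ^ 2 := by
    intro B hB h1
    have hsum : ∑ q ∈ B, f q = ∑ q ∈ B, sz (lev q) :=
      Finset.sum_congr rfl (fun q hq => (hpos q (hB q hq)).1)
    have h2 := hbb lev B (fun q hq => ⟨(hpos q (hB q hq)).2.1, (hpos q (hB q hq)).2.2,
      hphi q (hB q hq)⟩) (himb B hB) (by rw [← hsum]; exact h1)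
    rw [hsum]
    refine le_trans (le_of_eq ?_) h2
    apply Finset.sum_congr rfl
    intro q hq
    apply Finset.sum_congr rfl
    intro r hr
    rw [(hpos q (hB q hq)).1, (hpos r (hB r hr)).1]
  set A : Set ℝ := {x : ℝ | x ∈ Set.Icc (0 : ℝ) 1 ∧
      ∃ᶠ q : ℕ in atTop, ∃ p : ℤ, Int.gcd p (q : ℤ) = 1 ∧
        |(q : ℝ) * x - (p : ℝ) - γ| < ψ q} with hA
  set Mk : ℕ → Set ℝ := fun k => Set.Icc (0 : ℝ) 1 ∩ ⋂ q ∈ {q : ℕ | k ≤ q},
      (Gset γ (U (lev q)) (V (lev q)) (C (lev q)) (f q) q)ᶜ with hMk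
  have hnull : volume (⋃ k : ℕ, Mk k) = 0 := by
    apply measure_iUnion_null
    intro k
    exact missed_null_gen hD lev f hf hη hphi hnf K1 hK1 hsm k
  have hcover : Set.Icc (0 : ℝ) 1 ⊆ A ∪ ⋃ k : ℕ, Mk k := by
    intro x hx
    by_cases hxA : x ∈ A
    · left; exact hxA
    right
    have h1 : ¬ ∃ᶠ q : ℕ in atTop, ∃ p : ℤ, Int.gcd p (q : ℤ) = 1 ∧
        |(q : ℝ) * x - (p : ℝ) - γ| < ψ q := fun h => hxA ⟨hx, h⟩
    rw [not_frequently] at h1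
    obtain ⟨k, hk⟩ := eventually_atTop.1 h1
    simp only [Set.mem_iUnion]
    refine ⟨k + 1, hx, ?_⟩
    simp only [Set.mem_iInter, Set.mem_ofPred_eq, Set.mem_compl_iff]
    intro q hq hmem
    obtain ⟨p, hp1, hp2⟩ := hmem
    apply hk q (by omega)
    exact ⟨p, good_gcd (hD.dat _) (by omega) hp1, lt_of_lt_of_le hp2 ((hfg q).trans (hgψ q))⟩
  apply le_antisymm
  · calc volume A ≤ volume (Set.Icc (0 : ℝ) 1) := measure_mono (fun x hx => hx.1)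
      _ = 1 := by rw [Real.volume_Icc]; norm_num
  · calc (1 : ENNReal) = volume (Set.Icc (0 : ℝ) 1) := by rw [Real.volume_Icc]; norm_num
      _ ≤ volume (A ∪ ⋃ k : ℕ, Mk k) := measure_mono hcover
      _ ≤ volume A + volume (⋃ k : ℕ, Mk k) := measure_union_le _ _
      _ = volume A := by rw [hnull, add_zero]

end Pool.Agent.H2D
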