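import Mathlib
import Pool.Agent.DSRat.Rational
import Pool.Agent.Lib.H2D.FI

set_option autoImplicit false

/-!
# The final theorem (all shifts)
-/

namespace Pool.Agent.H2D

open MeasureTheory Filter

/-- the dichotomy is automatic for `r < Λ q` -/
theorem growth_of_far (γ : ℝ) (g : ℕ → ℝ) (K τ Λ : ℝ) (hτ : 0 < τ)
    (hG : ∀ q r : ℕ, 0 < q → q < r → Λ * (q : ℝ) ≤ (r : ℝ) → 0 < g q → 0 < g r →
      (r : ℝ) * g q + (q : ℝ) * g r < (Nat.gcd q r : ℝ) →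
      (∃ n : ℤ, |(Nat.gcd q r : ℝ) * (n : ℝ) + ((r : ℝ) - (q : ℝ)) * γ| <
        (r : ℝ) * g q + (q : ℝ) * g r) →
      g r ≤ K * ((r : ℝ) / q) ^ τ * g q ∨ ((r : ℝ) / q) ^ (1 / τ) * g q ≤ K * g r) :
    Growth γ g (max (max K 1) ((max Λ 1) ^ (1 / τ))) τ := by
  intro q r hq hqr hgq hgr h1 h2
  set K' : ℝ := max (max K 1) ((max Λ 1) ^ (1 / τ)) with hK'
  have hK1 : K ≤ K' := (le_max_left _ _).trans (le_max_left _ _)
  have hK2 : (1 : ℝ) ≤ K' := (le_max_right _ _).trans (le_max_left _ _)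
  have hK3 : (max Λ 1) ^ (1 / τ) ≤ K' := le_max_right _ _
  have hqR : (0 : ℝ) < q := by exact_mod_cast hq
  have hrR : (0 : ℝ) < r := by exact_mod_cast hq.trans hqr
  have hqrR : (q : ℝ) ≤ r := by exact_mod_cast hqr.le
  have hratio : 1 ≤ (r : ℝ) / q := by rw [le_div_iff₀ hqR]; linarith
  by_cases hfar : Λ * (q : ℝ) ≤ r
  · rcases hG q r hq hqr hfar hgq hgr h1 h2 with h | h
    · left
      refine h.trans ?_
      have h3 : (0 : ℝ) ≤ ((r : ℝ) / q) ^ τ := by positivity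
      exact mul_le_mul_of_nonneg_right (mul_le_mul_of_nonneg_right hK1 h3) hgq.le
    · right
      refine h.trans ?_
      exact mul_le_mul_of_nonneg_right hK1 hgr.le
  · push Not at hfar
    by_cases hc : g r ≤ K' * g q
    · left
      have h3 : (1 : ℝ) ≤ ((r : ℝ) / q) ^ τ := Real.one_le_rpow hratio hτ.le
      calc g r ≤ K' * g q := hc
        _ = K' * 1 * g q := by ring
        _ ≤ K' * ((r : ℝ) / q) ^ τ * g q := by
            apply mul_le_mul_of_nonneg_right _ hgq.le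
            apply mul_le_mul_of_nonneg_left h3 (by linarith)
    · right
      push Not at hc
      have h3 : (r : ℝ) / q ≤ max Λ 1 := by
        rw [div_le_iff₀ hqR]
        refine hfar.le.trans ?_
        exact mul_le_mul_of_nonneg_right (le_max_left _ _) hqR.le
      have h4 : ((r : ℝ) / q) ^ (1 / τ) ≤ K' := by
        refine le_trans ?_ hK3
        apply Real.rpow_le_rpow (by positivity) h3 (by positivity)
      calc ((r : ℝ) / q) ^ (1 / τ) * g q ≤ K' * g q := mul_le_mul_of_nonneg_right h4 hgq.le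
        _ ≤ g r := hc.le
        _ = 1 * g r := (one_mul _).symm
        _ ≤ K' * g r := mul_le_mul_of_nonneg_right hK2 hgr.le

theorem final :
    ∀ γ : ℝ, γ ≠ 0 → ∀ ψ g : ℕ → ℝ, (∀ q : ℕ, 0 ≤ g q) → (∀ q : ℕ, g q ≤ ψ q) →
      ¬ Summable (fun q : ℕ => (Nat.totient q : ℝ) * g q / (q : ℝ)) →
      (∃ c : ℝ, 0 < c ∧ ∃ᶠ Q : ℕ in atTop,
          c * (∑ q ∈ Finset.Icc 1 Q, g q) ≤
            ∑ q ∈ Finset.Icc 1 Q, (Nat.totient q : ℝ) * g q / (q : ℝ)) →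
      (Irrational γ → ∃ K τ Λ : ℝ, 0 < τ ∧ τ < 1 ∧
        ∀ q r : ℕ, 0 < q → q < r → Λ * (q : ℝ) ≤ (r : ℝ) → 0 < g q → 0 < g r →
          (r : ℝ) * g q + (q : ℝ) * g r < (Nat.gcd q r : ℝ) →
          (∃ n : ℤ, |(Nat.gcd q r : ℝ) * (n : ℝ) + ((r : ℝ) - (q : ℝ)) * γ| <
            (r : ℝ) * g q + (q : ℝ) * g r) →
          g r ≤ K * ((r : ℝ) / q) ^ τ * g q ∨ ((r : ℝ) / q) ^ (1 / τ) * g q ≤ K * g r) →
      volume {x : ℝ | x ∈ Set.Icc (0 : ℝ) 1 ∧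
          ∃ᶠ q : ℕ in atTop, ∃ p : ℤ, Int.gcd p (q : ℤ) = 1 ∧
            |(q : ℝ) * x - (p : ℝ) - γ| < ψ q} = 1 := by
  intro γ _ ψ g hg hgψ hns hcomp hgrow
  by_cases hγ : Irrational γ
  · obtain ⟨K, τ, Λ, hτ, hτ1, hG⟩ := hgrow hγ
    obtain ⟨c, hc, hfr⟩ := hcomp
    have hns1 := Pool.Agent.DSRat.not_summable_restrict g hg hns c hc hfr
    exact main γ hγ ψ g hg hgψ (c / 2) (half_pos hc) hns1 _ τ
      ((le_max_right _ _).trans (le_max_left _ _)) hτ hτ1 (growth_of_far γ g K τ Λ hτ hG)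
  · have : ∃ γ' : ℚ, (γ' : ℝ) = γ := by
      by_contra hcon
      apply hγ
      rintro ⟨y, hy⟩
      exact hcon ⟨y, hy⟩
    obtain ⟨γ', rfl⟩ := this
    have h1 := Pool.Agent.DSRat.rational_shift γ' g hg hns hcomp
    apply le_antisymm
    · calc _ ≤ volume (Set.Icc (0 : ℝ) 1) := measure_mono (fun x hx => hx.1)
        _ = 1 := by rw [Real.volume_Icc]; norm_num
    · rw [← h1]
      apply measure_mono
      rintro x ⟨hx, hfr⟩
      refine ⟨hx, hfr.mono ?_⟩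
      rintro q ⟨p, hp1, hp2⟩
      exact ⟨p, hp1, lt_of_lt_of_le hp2 (hgψ q)⟩

end Pool.Agent.H2D
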